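import Pool.Agent.P.MP_84b56d_ag.Defs

open MvPolynomial

namespace Pool.Agent.P.MP_84b56d_ag

namespace Ar1P

open scoped IntermediateField

theorem exists_max {k : Type*} [Field k] [CharZero k] (E : Set k) (hE : E.Finite) :
    ∃ (e : ℕ) (t : Fin e → k), AlgebraicIndependent ℤ t ∧
      ∀ x ∈ E, IsAlgebraic (Algebra.adjoin ℤ (Set.range t)) x := by
  obtain ⟨u, -, hu⟩ := exists_maximal_algebraicIndependent (R := ℤ) ∅ E (Set.empty_subset _)
    ((algebraicIndependent_empty_iff ℤ k).mpr (algebraMap ℤ k).injective_int)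
  have hf : Finite u := (hE.subset hu.1.2).to_subtype
  obtain ⟨e, ⟨φ⟩⟩ := Finite.exists_equiv_fin u
  have hr : Set.range (fun i => (φ.symm i : k)) = u := by
    ext x
    exact ⟨fun ⟨i, hi⟩ => hi ▸ (φ.symm i).2, fun hx => ⟨φ ⟨x, hx⟩, by simp⟩⟩
  refine ⟨e, fun i => φ.symm i, hu.1.1.comp _ φ.symm.injective, fun x hx => ?_⟩
  rw [hr]
  by_cases hxu : x ∈ u
  · exact isAlgebraic_algebraMap (⟨x, Algebra.subset_adjoin hxu⟩ : Algebra.adjoin ℤ u)
  · by_contra h
    have h1 : AlgebraicIndepOn ℤ id (insert x u) :=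
      (AlgebraicIndepOn.insert_iff hxu).2 ⟨hu.1.1, by
        rw [Set.image_id]; exact h⟩
    exact hxu (hu.2 ⟨h1, Set.insert_subset hx hu.1.2⟩ (Set.subset_insert _ _) (Set.mem_insert _ _))

theorem exists_prim {R k : Type*} [CommRing R] [IsDomain R] [Field k] [CharZero k] [Algebra R k]
    [FaithfulSMul R k] (E : Set k) (hE : E.Finite) (h : ∀ x ∈ E, IsAlgebraic R x) :
    ∃ (θ : k) (h₀ : R), h₀ ≠ 0 ∧ IsIntegral R θ ∧
      ∀ x ∈ E, ∃ Y : Polynomial R, algebraMap R k h₀ * x = Polynomial.aeval θ Y := by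
  classical
  let K := FractionRing R
  let : Algebra K k := FractionRing.liftAlgebra R k
  have := FractionRing.isScalarTower_liftAlgebra R k
  have : CharZero K := ((algebraMap K k).charZero_iff (algebraMap K k).injective).2 inferInstance
  have := hE.to_subtype
  have hfd : FiniteDimensional K (IntermediateField.adjoin K E) :=
    IntermediateField.finiteDimensional_adjoin fun x hx =>
      ((IsFractionRing.isAlgebraic_iff R K k).1 (h x hx)).isIntegral
  obtain ⟨α, hα⟩ := Field.exists_primitive_element K (IntermediateField.adjoin K E)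
  have hα' : K⟮(α : k)⟯ = IntermediateField.adjoin K E := by
    simpa only [IntermediateField.lift_adjoin_simple, IntermediateField.lift_top] using
      congr_arg IntermediateField.lift hα
  have ha : IsAlgebraic K (α : k) :=
    IntermediateField.isAlgebraic_iff.1 (IsAlgebraic.of_finite K α)
  obtain ⟨b, hb, hint⟩ := ((IsFractionRing.isAlgebraic_iff R K k).2 ha).exists_integral_multiple
  have hbK : algebraMap R K b ≠ 0 := by simpa using hb
  have key : ∀ x ∈ E, ∃ c : R, c ≠ 0 ∧ ∃ Y : Polynomial R,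
      algebraMap R k c * x = Polynomial.aeval (b • (α : k)) Y := by
    intro x hx
    have h1 : x ∈ Algebra.adjoin K {(α : k)} := by
      rw [← IntermediateField.adjoin_simple_toSubalgebra_of_isAlgebraic ha, hα']
      exact IntermediateField.subset_adjoin K E hx
    have h2 : Algebra.adjoin K {(α : k)} ≤ Algebra.adjoin K {b • (α : k)} := by
      refine Algebra.adjoin_le (Set.singleton_subset_iff.2 ?_)
      have h3 := Subalgebra.smul_mem _ (Algebra.self_mem_adjoin_singleton K (b • (α : k)))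
        (algebraMap R K b)⁻¹
      rwa [← algebraMap_smul K b (α : k), inv_smul_smul₀ hbK, algebraMap_smul] at h3
    obtain ⟨p, rfl⟩ := Algebra.adjoin_singleton_eq_range_aeval K (b • (α : k)) ▸ h2 h1
    obtain ⟨c, hc, e⟩ := IsLocalization.integerNormalization_spec (nonZeroDivisors R) p
    refine ⟨c, nonZeroDivisors.ne_zero hc,
      IsLocalization.integerNormalization (nonZeroDivisors R) p, ?_⟩
    rw [← Polynomial.aeval_map_algebraMap K, e, ← algebraMap_smul K c p, map_smul,
      algebraMap_smul, Algebra.smul_def c]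
    rfl
  choose! c hc Y hY using key
  refine ⟨b • (α : k), ∏ x ∈ hE.toFinset, c x,
    Finset.prod_ne_zero_iff.2 fun x hx => hc x (hE.mem_toFinset.1 hx), hint, fun x hx => ?_⟩
  refine ⟨Polynomial.C (∏ y ∈ hE.toFinset.erase x, c y) * Y x, ?_⟩
  rw [← Finset.prod_erase_mul _ _ (hE.mem_toFinset.2 hx), map_mul, map_mul, ← hY x hx,
    Polynomial.aeval_C, mul_assoc]

end Ar1P

theorem exists_theta {k : Type*} [Field k] [CharZero k] (E : Set k) (hE : E.Finite) :
    ∃ (e : ℕ) (t : Fin e → k) (θ : k) (h₀ : MvPolynomial (Fin e) ℤ)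
      (G : Polynomial (MvPolynomial (Fin e) ℤ)), AlgebraicIndependent ℤ t ∧ h₀ ≠ 0 ∧ G.Monic ∧
      G.eval₂ (aeval t : MvPolynomial (Fin e) ℤ →ₐ[ℤ] k).toRingHom θ = 0 ∧
      ∀ x ∈ E, ∃ Y : Polynomial (MvPolynomial (Fin e) ℤ),
        aeval t h₀ * x = Y.eval₂ (aeval t : MvPolynomial (Fin e) ℤ →ₐ[ℤ] k).toRingHom θ := by
  obtain ⟨e, t, ht, h⟩ := Ar1P.exists_max E hE
  let : Algebra (MvPolynomial (Fin e) ℤ) k :=
    (aeval t : MvPolynomial (Fin e) ℤ →ₐ[ℤ] k).toRingHom.toAlgebra
  have : FaithfulSMul (MvPolynomial (Fin e) ℤ) k :=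
    (faithfulSMul_iff_algebraMap_injective _ _).2 ht
  obtain ⟨θ, h₀, h1, ⟨G, hG, hG0⟩, h2⟩ := Ar1P.exists_prim (R := MvPolynomial (Fin e) ℤ) E hE
    fun x hx => by
      obtain ⟨p, hp, hx⟩ := h x hx
      refine ⟨p.map ht.aevalEquiv.symm.toRingEquiv.toRingHom,
        (Polynomial.map_ne_zero_iff ht.aevalEquiv.symm.injective).2 hp, ?_⟩
      rw [Polynomial.aeval_def, Polynomial.eval₂_map, ← hx, Polynomial.aeval_def]
      congr 1
      ext a
      have := ht.algebraMap_aevalEquiv (ht.aevalEquiv.symm a)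
      rw [AlgEquiv.apply_symm_apply] at this
      exact this.symm
  exact ⟨e, t, θ, h₀, G, ht, h1, hG, hG0, h2⟩

end Pool.Agent.P.MP_84b56d_ag
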