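import Pool.Agent.P.MP_84b56d_ag.Defs

open Polynomial

namespace Pool.Agent.P.MP_84b56d_ag

variable {R₀ R : Type*} [CommRing R₀] [IsDomain R₀] [UniqueFactorizationMonoid R₀] [CommRing R]
  [IsDomain R] [Algebra R₀ R] (pb : PowerBasis R₀ R)

namespace Ar2P

omit [IsDomain R₀] [UniqueFactorizationMonoid R₀] in
include pb in
theorem inj : Function.Injective (algebraMap R₀ R) := by
  have := Module.Free.of_basis pb.basis
  exact FaithfulSMul.algebraMap_injective R₀ R

omit [IsDomain R₀] [UniqueFactorizationMonoid R₀] in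
theorem clear (p : Ideal R₀) [p.IsPrime] (H : p.ResidueField[X]) :
    ∃ c : R₀, algebraMap R₀ p.ResidueField c ≠ 0 ∧ ∃ H' : R₀[X],
      H'.map (algebraMap R₀ p.ResidueField) = C (algebraMap R₀ p.ResidueField c) * H := by
  induction H using Polynomial.induction_on' with
  | add f g hf hg =>
    obtain ⟨c, hc, f', hf'⟩ := hf
    obtain ⟨d, hd, g', hg'⟩ := hg
    refine ⟨c * d, by rw [map_mul]; exact mul_ne_zero hc hd, C d * f' + C c * g', ?_⟩
    simp only [Polynomial.map_add, Polynomial.map_mul, map_C, hf', hg', map_mul]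
    ring
  | monomial n x =>
    obtain ⟨s, t, ht, rfl⟩ := IsFractionRing.div_surjective (A := R₀ ⧸ p) x
    obtain ⟨s, rfl⟩ := Ideal.Quotient.mk_surjective s
    obtain ⟨t, rfl⟩ := Ideal.Quotient.mk_surjective t
    have ht' : algebraMap R₀ p.ResidueField t ≠ 0 := by
      rw [← Ideal.algebraMap_quotient_residueField_mk]
      exact IsFractionRing.to_map_ne_zero_of_mem_nonZeroDivisors ht
    refine ⟨t, ht', monomial n s, ?_⟩
    rw [Polynomial.map_monomial, C_mul_monomial, Ideal.algebraMap_quotient_residueField_mk,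
      Ideal.algebraMap_quotient_residueField_mk, mul_div_cancel₀ _ ht']

omit [IsDomain R₀] [UniqueFactorizationMonoid R₀] [IsDomain R] in
theorem exists_factor (p : Ideal R₀) [p.IsPrime] (q : Ideal R) [q.IsPrime]
    (hq : q.comap (algebraMap R₀ R) = p) :
    ∃ G : p.ResidueField[X], Irreducible G ∧
      ∀ Y : R₀[X], aeval pb.gen Y ∈ q ↔ G ∣ Y.map (algebraMap R₀ p.ResidueField) := by
  let e : p.ResidueField →+* q.ResidueField :=
    Ideal.ResidueField.map p q (algebraMap R₀ R) hq.symm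
  let : Algebra p.ResidueField q.ResidueField := e.toAlgebra
  have key : ∀ Y : R₀[X], aeval (algebraMap R q.ResidueField pb.gen)
      (Y.map (algebraMap R₀ p.ResidueField)) = algebraMap R q.ResidueField (aeval pb.gen Y) := by
    intro Y
    rw [aeval_def, eval₂_map, aeval_def, hom_eval₂]
    congr 1
    ext x
    exact Ideal.ResidueField.map_algebraMap p q (algebraMap R₀ R) hq.symm x
  have hint : IsIntegral p.ResidueField (algebraMap R q.ResidueField pb.gen) :=
    ⟨(minpoly R₀ pb.gen).map (algebraMap R₀ p.ResidueField),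
      (minpoly.monic pb.isIntegral_gen).map _, by
        rw [← aeval_def, key, minpoly.aeval, map_zero]⟩
  refine ⟨minpoly p.ResidueField (algebraMap R q.ResidueField pb.gen), minpoly.irreducible hint,
    fun Y => ?_⟩
  rw [minpoly.dvd_iff, key, Ideal.algebraMap_residueField_eq_zero]

omit [IsDomain R₀] [UniqueFactorizationMonoid R₀] [IsDomain R] in
include pb in
theorem exists_mul_eq_norm (Δ : R) : ∃ Δ', Δ * Δ' = algebraMap R₀ R (Algebra.norm R₀ Δ) := by
  classical
  let b := pb.basis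
  let M := Algebra.leftMulMatrix b Δ
  refine ⟨Matrix.toLin b b M.adjugate 1, ?_⟩
  have h : Matrix.toLin b b M (Matrix.toLin b b M.adjugate 1) = M.det • (1 : R) := by
    rw [← Matrix.toLin_mul_apply b b b, Matrix.mul_adjugate, map_smul, Matrix.toLin_one]
    rfl
  rw [show M = _ from Algebra.leftMulMatrix_apply b Δ, Matrix.toLin_toMatrix] at h
  rw [Algebra.norm_eq_matrix_det b, Algebra.algebraMap_eq_smul_one]
  exact h

end Ar2P

include pb in
theorem pb_comap (q : Ideal R) [q.IsPrime] (hq : q.height = 1) :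
    ∃ π : R₀, Prime π ∧ q.comap (algebraMap R₀ R) = Ideal.span {π} := by
  have := Module.Free.of_basis pb.basis
  have := pb.finite
  have hq0 : q ≠ ⊥ := by
    rintro rfl
    rw [Ideal.height_bot] at hq
    exact zero_ne_one hq
  have hp0 : q.comap (algebraMap R₀ R) ≠ ⊥ := fun h => hq0 (Ideal.eq_bot_of_comap_eq_bot h)
  obtain ⟨π, hπq, hπ⟩ := (Ideal.comap_isPrime (algebraMap R₀ R) q).exists_mem_prime_of_ne_bot hp0
  refine ⟨π, hπ, ?_⟩
  have hpr : (Ideal.span {π}).IsPrime := (Ideal.span_singleton_prime hπ.ne_zero).mpr hπ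
  obtain ⟨q', hle, hq', hlo⟩ := Ideal.exists_ideal_le_liesOver_of_le (p := Ideal.span {π})
    (q := q.under R₀) q ((Ideal.span_singleton_le_iff_mem _).mpr hπq)
  have hq'0 : ⊥ < q' := by
    rw [bot_lt_iff_ne_bot]
    rintro rfl
    have h1 : π ∈ (⊥ : Ideal R).under R₀ := hlo.over ▸ Ideal.mem_span_singleton_self π
    exact hπ.ne_zero (Ar2P.inj pb (by simpa using h1))
  have heq : q' = q := by
    by_contra hne
    have h1 := Ideal.height_add_one_le_of_lt_of_isPrime hq'0
    have h2 := Ideal.height_add_one_le_of_lt_of_isPrime (lt_of_le_of_ne hle hne)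
    rw [Ideal.height_bot, zero_add] at h1
    rw [hq] at h2
    have h3 : (1 : ℕ∞) + 1 ≤ 1 := (add_le_add_left h1 1).trans h2
    exact absurd h3 (by decide)
  subst heq
  exact hlo.over.symm

theorem pb_unram (q : Ideal R) [q.IsPrime] (π : R₀) (hπ : Prime π)
    (hq : q.comap (algebraMap R₀ R) = Ideal.span {π})
    (hd : aeval pb.gen (derivative (minpoly R₀ pb.gen)) ∉ q) :
    ∀ a ∈ q, ∃ b, b ∉ q ∧ ∃ y, b * a = algebraMap R₀ R π * y := by
  have hpr : (Ideal.span {π}).IsPrime := (Ideal.span_singleton_prime hπ.ne_zero).mpr hπ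
  obtain ⟨G1, hG1, hG⟩ := Ar2P.exists_factor pb (Ideal.span {π}) q hq
  obtain ⟨G2, hG2⟩ := (hG (minpoly R₀ pb.gen)).mp (by rw [minpoly.aeval]; exact q.zero_mem)
  have hnd : ¬ G1 ∣ G2 := by
    intro h
    apply hd
    rw [hG, ← derivative_map, hG2, derivative_mul]
    exact dvd_add (h.mul_left _) (dvd_mul_right _ _)
  intro a ha
  obtain ⟨Y, rfl⟩ := pb.exists_eq_aeval' a
  obtain ⟨Y1, hY1⟩ := (hG Y).mp ha
  obtain ⟨c, hc, G2', hG2'⟩ := Ar2P.clear _ G2
  obtain ⟨d, hd', Y1', hY1'⟩ := Ar2P.clear _ Y1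
  have hz : (C d * G2' * Y - C c * Y1' * minpoly R₀ pb.gen).map
      (algebraMap R₀ (Ideal.span {π}).ResidueField) = 0 := by
    simp only [Polynomial.map_sub, Polynomial.map_mul, map_C, hG2', hY1', hG2, hY1]
    ring
  have hdv : C π ∣ C d * G2' * Y - C c * Y1' * minpoly R₀ pb.gen := by
    rw [C_dvd_iff_dvd_coeff]
    intro i
    rw [← Ideal.mem_span_singleton, ← Ideal.algebraMap_residueField_eq_zero, ← coeff_map, hz,
      coeff_zero]
  obtain ⟨Z, hZ⟩ := hdv
  refine ⟨aeval pb.gen (C d * G2'), fun h => hnd ?_, aeval pb.gen Z, ?_⟩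
  · rw [hG, Polynomial.map_mul, map_C, hG2', ← mul_assoc, ← C_mul] at h
    exact ((isUnit_C.mpr (mul_ne_zero hd' hc).isUnit).dvd_mul_left).mp h
  · have h := congrArg (aeval pb.gen) hZ
    rw [map_sub, map_mul _ (C c * Y1'), minpoly.aeval, mul_zero, sub_zero, map_mul,
      map_mul _ (C π), aeval_C] at h
    exact h

theorem pb_card (π : R₀) (hπ : Prime π) (S : Finset (Ideal R))
    (hS : ∀ q ∈ S, q.IsPrime ∧ q.comap (algebraMap R₀ R) = Ideal.span {π}) :
    S.card ≤ pb.dim := by
  classical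
  have hpr : (Ideal.span {π}).IsPrime := (Ideal.span_singleton_prime hπ.ne_zero).mpr hπ
  let κ := (Ideal.span {π}).ResidueField
  let Ω := AlgebraicClosure κ
  have key : ∀ q ∈ S, ∃ r : Ω,
      ∀ Y : R₀[X], aeval pb.gen Y ∈ q ↔ aeval r (Y.map (algebraMap R₀ κ)) = 0 := by
    intro q hqS
    obtain ⟨hq1, hq2⟩ := hS q hqS
    obtain ⟨G1, hG1, hG⟩ := Ar2P.exists_factor pb (Ideal.span {π}) q hq2
    obtain ⟨r, hr⟩ := IsAlgClosed.exists_aeval_eq_zero Ω G1 (degree_pos_of_irreducible hG1).ne'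
    refine ⟨r, fun Y => ?_⟩
    rw [hG, ← minpoly.dvd_iff, ← minpoly.eq_of_irreducible hG1 hr]
    exact ((isUnit_C.mpr (inv_ne_zero (leadingCoeff_ne_zero.mpr hG1.ne_zero)).isUnit).mul_right_dvd).symm
  choose! r hr using key
  have hm : ((minpoly R₀ pb.gen).map (algebraMap R₀ κ)).Monic :=
    (minpoly.monic pb.isIntegral_gen).map _
  calc S.card ≤ (((minpoly R₀ pb.gen).map (algebraMap R₀ κ)).aroots Ω).toFinset.card := by
        refine Finset.card_le_card_of_injOn r (fun q hqS => ?_) (fun q hq q' hq' h => ?_)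
        · rw [Finset.mem_coe, Multiset.mem_toFinset, mem_aroots]
          refine ⟨hm.ne_zero, (hr q hqS _).mp ?_⟩
          rw [minpoly.aeval]
          exact q.zero_mem
        · ext a
          obtain ⟨Y, rfl⟩ := pb.exists_eq_aeval' a
          rw [hr q hq, hr q' hq', h]
    _ ≤ ((minpoly R₀ pb.gen).map (algebraMap R₀ κ)).natDegree :=
        (Multiset.toFinset_card_le _).trans ((card_roots' _).trans (natDegree_map_le))
    _ ≤ pb.dim := natDegree_map_le.trans pb.natDegree_minpoly.le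

include pb in
theorem pb_dvd_norm (q : Ideal R) [q.IsPrime] (π : R₀) (hπ : Prime π)
    (hq : q.comap (algebraMap R₀ R) = Ideal.span {π}) (Δ b y : R) (a : ℕ) (hb : b ∉ q)
    (h : b * Δ = algebraMap R₀ R π ^ a * y) : π ^ a ∣ Algebra.norm R₀ Δ := by
  obtain ⟨Δ', hΔ'⟩ := Ar2P.exists_mul_eq_norm pb Δ
  have key : ∀ (a : ℕ) (c : R₀) (y : R), b * algebraMap R₀ R c = algebraMap R₀ R π ^ a * y →
      π ^ a ∣ c := by
    intro a
    induction a with
    | zero => intro c _ _; simp
    | succ a ih =>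
      intro c y hc
      have hπq : algebraMap R₀ R π ∈ q := by
        rw [← Ideal.mem_comap, hq]
        exact Ideal.mem_span_singleton_self π
      have h1 : b * algebraMap R₀ R c ∈ q := by
        rw [hc, pow_succ', mul_assoc]
        exact q.mul_mem_right _ hπq
      have h2 : c ∈ Ideal.span {π} := by
        rw [← hq, Ideal.mem_comap]
        exact (Ideal.IsPrime.mem_or_mem inferInstance h1).resolve_left hb
      obtain ⟨c', rfl⟩ := Ideal.mem_span_singleton.mp h2
      rw [pow_succ']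
      refine mul_dvd_mul_left π (ih c' y ?_)
      have h0 : algebraMap R₀ R π ≠ 0 := fun h0 => hπ.ne_zero (Ar2P.inj pb (by simpa using h0))
      apply mul_left_cancel₀ h0
      rw [map_mul, pow_succ'] at hc
      linear_combination hc
  refine key a _ (y * Δ') ?_
  rw [← hΔ', ← mul_assoc, h, mul_assoc]

end Pool.Agent.P.MP_84b56d_ag
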