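import Pool.Agent.P.MP_84b56d_ag.Defs

open MvPolynomial

namespace Pool.Agent.P.MP_84b56d_ag

variable {e : ℕ}

namespace Ar3P

theorem nrm_eq (F : MvPolynomial (Fin e) ℤ) (s : Finset (Fin e →₀ ℕ)) (hs : F.support ⊆ s) :
    nrm F = ∑ m ∈ s, (coeff m F).natAbs * 2 ^ m.degree := by
  unfold nrm
  refine Finset.sum_subset hs fun m _ hm => ?_
  rw [notMem_support_iff.1 hm]
  simp

theorem nrm_monomial (m : Fin e →₀ ℕ) (c : ℤ) :
    nrm (monomial m c) = c.natAbs * 2 ^ m.degree := by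
  rw [nrm_eq _ {m} support_monomial_subset]
  simp

end Ar3P

theorem nrm_zero : nrm (0 : MvPolynomial (Fin e) ℤ) = 0 := by
  simp [nrm]

theorem nrm_one : nrm (1 : MvPolynomial (Fin e) ℤ) = 1 := by
  have := Ar3P.nrm_monomial (0 : Fin e →₀ ℕ) 1
  simpa using this

theorem nrm_neg (F : MvPolynomial (Fin e) ℤ) : nrm (-F) = nrm F := by
  simp [nrm]

theorem nrm_add_le (F F' : MvPolynomial (Fin e) ℤ) : nrm (F + F') ≤ nrm F + nrm F' := by
  classical
  rw [Ar3P.nrm_eq (F + F') (F.support ∪ F'.support) support_add,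
    Ar3P.nrm_eq F (F.support ∪ F'.support) Finset.subset_union_left,
    Ar3P.nrm_eq F' (F.support ∪ F'.support) Finset.subset_union_right, ← Finset.sum_add_distrib]
  refine Finset.sum_le_sum fun m _ => ?_
  rw [← add_mul, coeff_add]
  exact Nat.mul_le_mul_right _ (Int.natAbs_add_le _ _)

namespace Ar3P

theorem nrm_sum_le {ι : Type*} (s : Finset ι) (f : ι → MvPolynomial (Fin e) ℤ) :
    nrm (∑ i ∈ s, f i) ≤ ∑ i ∈ s, nrm (f i) :=
  Finset.le_sum_of_subadditive nrm nrm_zero.le nrm_add_le s f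

end Ar3P

theorem nrm_mul_le (F F' : MvPolynomial (Fin e) ℤ) : nrm (F * F') ≤ nrm F * nrm F' := by
  have h : F * F' = ∑ m ∈ F.support, ∑ m' ∈ F'.support,
      monomial (m + m') (coeff m F * coeff m' F') := by
    conv_lhs => rw [F.as_sum, F'.as_sum]
    rw [Finset.sum_mul_sum]
    simp only [monomial_mul]
  rw [h]
  refine (Ar3P.nrm_sum_le _ _).trans ?_
  unfold nrm
  rw [Finset.sum_mul_sum]
  refine Finset.sum_le_sum fun m _ => ?_
  refine (Ar3P.nrm_sum_le _ _).trans (Finset.sum_le_sum fun m' _ => ?_)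
  rw [Ar3P.nrm_monomial, Int.natAbs_mul, map_add, pow_add]
  exact le_of_eq (by ring)

namespace Ar3P

theorem nrm_prod_le {ι : Type*} (s : Finset ι) (f : ι → MvPolynomial (Fin e) ℤ) :
    nrm (∏ i ∈ s, f i) ≤ ∏ i ∈ s, nrm (f i) := by
  classical
  induction s using Finset.induction_on with
  | empty => simp [nrm_one]
  | insert a s ha ih =>
    rw [Finset.prod_insert ha, Finset.prod_insert ha]
    exact (nrm_mul_le _ _).trans (Nat.mul_le_mul_left _ ih)

end Ar3P

theorem nrm_det_le {d : ℕ} (M : Matrix (Fin d) (Fin d) (MvPolynomial (Fin e) ℤ)) (B : ℕ)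
    (h : ∀ i j, nrm (M i j) ≤ B) : nrm M.det ≤ d.factorial * B ^ d := by
  rw [Matrix.det_apply]
  refine (Ar3P.nrm_sum_le _ _).trans ?_
  have hb : ∀ σ ∈ (Finset.univ : Finset (Equiv.Perm (Fin d))),
      nrm (Equiv.Perm.sign σ • ∏ i, M (σ i) i) ≤ B ^ d := by
    intro σ _
    have h1 : nrm (∏ i, M (σ i) i) ≤ B ^ d := by
      refine (Ar3P.nrm_prod_le _ _).trans ?_
      have := Finset.prod_le_pow_card (Finset.univ : Finset (Fin d)) (fun i => nrm (M (σ i) i)) B
        (fun i _ => h _ _)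
      simpa using this
    rcases Int.units_eq_one_or (Equiv.Perm.sign σ) with hs | hs
    · rw [hs, one_smul]; exact h1
    · rw [hs, Units.neg_smul, one_smul, nrm_neg]; exact h1
  have := Finset.sum_le_card_nsmul _ _ _ hb
  simpa [Fintype.card_perm] using this

namespace Ar3P

noncomputable def mu (F : MvPolynomial (Fin e) ℤ) : ℕ :=
  ((MonomialOrder.lex (σ := Fin e)).leadingCoeff F).natAbs *
    2 ^ ((MonomialOrder.lex (σ := Fin e)).degree F).degree

theorem mu_mul {F F' : MvPolynomial (Fin e) ℤ} (h : F ≠ 0) (h' : F' ≠ 0) :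
    mu (F * F') = mu F * mu F' := by
  unfold mu
  rw [MonomialOrder.leadingCoeff_mul, MonomialOrder.degree_mul h h', Int.natAbs_mul, map_add,
    pow_add]
  ring

theorem one_le_mu {F : MvPolynomial (Fin e) ℤ} (h : F ≠ 0) : 1 ≤ mu F := by
  unfold mu
  exact Nat.mul_pos (Int.natAbs_pos.2 (MonomialOrder.leadingCoeff_ne_zero_iff.2 h))
    (Nat.pow_pos (by norm_num))

theorem mu_le_nrm {F : MvPolynomial (Fin e) ℤ} (h : F ≠ 0) : mu F ≤ nrm F := by
  unfold mu nrm
  exact Finset.single_le_sum (f := fun m => (coeff m F).natAbs * 2 ^ m.degree)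
    (fun _ _ => Nat.zero_le _) (MonomialOrder.degree_mem_support h)

theorem two_le_mu {F : MvPolynomial (Fin e) ℤ} (h : Prime F) : 2 ≤ mu F := by
  have h1 : 1 ≤ ((MonomialOrder.lex (σ := Fin e)).leadingCoeff F).natAbs :=
    Int.natAbs_pos.2 (MonomialOrder.leadingCoeff_ne_zero_iff.2 h.ne_zero)
  by_cases hd : (MonomialOrder.lex (σ := Fin e)).degree F = 0
  · have hC := MonomialOrder.eq_C_of_degree_eq_zero hd
    have h2 : ((MonomialOrder.lex (σ := Fin e)).leadingCoeff F).natAbs ≠ 1 := by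
      intro h2
      apply h.not_isUnit
      rw [hC]
      exact (Int.isUnit_iff_natAbs_eq.2 h2).map C
    unfold mu
    rw [hd]
    simp only [map_zero, pow_zero, mul_one]
    omega
  · have h2 : ((MonomialOrder.lex (σ := Fin e)).degree F).degree ≠ 0 := by
      rwa [Ne, Finsupp.degree_eq_zero_iff]
    have h3 : 2 ^ 1 ≤ 2 ^ ((MonomialOrder.lex (σ := Fin e)).degree F).degree :=
      Nat.pow_le_pow_right (by norm_num) (by omega)
    unfold mu
    nlinarith

theorem mu_one : mu (1 : MvPolynomial (Fin e) ℤ) = 1 := by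
  unfold mu
  simp

theorem le_mu_pow {F : MvPolynomial (Fin e) ℤ} (h : Prime F) (a : ℕ) : 2 ^ a ≤ mu (F ^ a) := by
  induction a with
  | zero => simp [mu_one]
  | succ a ih =>
    rw [pow_succ, pow_succ, mu_mul (pow_ne_zero _ h.ne_zero) h.ne_zero]
    exact Nat.mul_le_mul ih (two_le_mu h)

theorem le_mu_prod (a : ℕ) (S : Finset (MvPolynomial (Fin e) ℤ)) (hS : ∀ π ∈ S, Prime π) :
    2 ^ (a * S.card) ≤ mu (∏ π ∈ S, π ^ a) := by
  classical
  induction S using Finset.induction_on with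
  | empty => simp [mu_one]
  | insert π S hπ ih =>
    have hp := hS π (Finset.mem_insert_self _ _)
    have hS' : ∀ π ∈ S, Prime π := fun x hx => hS x (Finset.mem_insert_of_mem hx)
    rw [Finset.prod_insert hπ, Finset.card_insert_of_notMem hπ,
      mu_mul (pow_ne_zero _ hp.ne_zero)
        (Finset.prod_ne_zero_iff.2 fun x hx => pow_ne_zero _ (hS' x hx).ne_zero),
      mul_add, mul_one, pow_add, mul_comm]
    exact Nat.mul_le_mul (le_mu_pow hp a) (ih hS')

end Ar3P

theorem two_pow_le_nrm (F : MvPolynomial (Fin e) ℤ) (hF : F ≠ 0) (a : ℕ)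
    (S : Finset (MvPolynomial (Fin e) ℤ)) (hS : ∀ π ∈ S, Prime π ∧ π ^ a ∣ F)
    (hne : ∀ π ∈ S, ∀ π' ∈ S, Associated π π' → π = π') : 2 ^ (a * S.card) ≤ nrm F := by
  have hdvd : ∏ π ∈ S, π ^ a ∣ F := by
    refine Finset.prod_dvd_of_isRelPrime ?_ fun π hπ => (hS π hπ).2
    intro π hπ π' hπ' hππ
    have hr : IsRelPrime π π' := by
      rw [(hS π hπ).1.irreducible.isRelPrime_iff_not_dvd]
      intro hd
      exact hππ (hne π hπ π' hπ' ((hS π hπ).1.associated_of_dvd (hS π' hπ').1 hd))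
    exact hr.pow
  obtain ⟨Q, hQ⟩ := hdvd
  have h1 : ∏ π ∈ S, π ^ a ≠ 0 := by
    intro h; rw [h, zero_mul] at hQ; exact hF hQ
  have h2 : Q ≠ 0 := by
    intro h; rw [h, mul_zero] at hQ; exact hF hQ
  refine le_trans ?_ (Ar3P.mu_le_nrm hF)
  rw [hQ, Ar3P.mu_mul h1 h2]
  calc 2 ^ (a * S.card) = 2 ^ (a * S.card) * 1 := (mul_one _).symm
    _ ≤ _ := Nat.mul_le_mul (Ar3P.le_mu_prod a S fun π hπ => (hS π hπ).1) (Ar3P.one_le_mu h2)

end Pool.Agent.P.MP_84b56d_ag
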