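import Pool.Agent.P.MP_84b56d_ag.Ar1
import Pool.Agent.P.MP_84b56d_ag.Ar2
import Pool.Agent.P.MP_84b56d_ag.Ar3

namespace Pool.Agent.P.MP_84b56d_ag

namespace Ar4

/-- maximal row sum of the sizes of the entries -/
noncomputable def msz {e d : ℕ} (M : Matrix (Fin d) (Fin d) (MvPolynomial (Fin e) ℤ)) : ℕ :=
  Finset.univ.sup fun i => ∑ j, nrm (M i j)

section msz

variable {e d : ℕ}

theorem row_le (M : Matrix (Fin d) (Fin d) (MvPolynomial (Fin e) ℤ)) (i : Fin d) :
    ∑ j, nrm (M i j) ≤ msz M :=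
  Finset.le_sup (f := fun i => ∑ j, nrm (M i j)) (Finset.mem_univ i)

theorem entry_le (M : Matrix (Fin d) (Fin d) (MvPolynomial (Fin e) ℤ)) (i j : Fin d) :
    nrm (M i j) ≤ msz M :=
  (Finset.single_le_sum (f := fun j => nrm (M i j)) (fun _ _ => Nat.zero_le _)
    (Finset.mem_univ j)).trans (row_le M i)

theorem msz_le (M : Matrix (Fin d) (Fin d) (MvPolynomial (Fin e) ℤ)) (B : ℕ)
    (h : ∀ i, ∑ j, nrm (M i j) ≤ B) : msz M ≤ B :=
  Finset.sup_le fun i _ => h i

theorem msz_zero : msz (0 : Matrix (Fin d) (Fin d) (MvPolynomial (Fin e) ℤ)) = 0 := by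
  apply Nat.eq_zero_of_le_zero
  apply msz_le
  intro i
  simp [nrm_zero]

theorem msz_one : msz (1 : Matrix (Fin d) (Fin d) (MvPolynomial (Fin e) ℤ)) ≤ 1 := by
  apply msz_le
  intro i
  rw [Finset.sum_eq_single i]
  · simp [nrm_one]
  · intro j _ hj
    rw [Matrix.one_apply_ne (Ne.symm hj), nrm_zero]
  · simp

theorem msz_neg (M : Matrix (Fin d) (Fin d) (MvPolynomial (Fin e) ℤ)) : msz (-M) = msz M := by
  unfold msz
  simp only [Matrix.neg_apply, nrm_neg]

theorem msz_add (M N : Matrix (Fin d) (Fin d) (MvPolynomial (Fin e) ℤ)) :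
    msz (M + N) ≤ msz M + msz N := by
  apply msz_le
  intro i
  calc ∑ j, nrm ((M + N) i j) ≤ ∑ j, (nrm (M i j) + nrm (N i j)) :=
        Finset.sum_le_sum fun j _ => nrm_add_le _ _
    _ = ∑ j, nrm (M i j) + ∑ j, nrm (N i j) := Finset.sum_add_distrib
    _ ≤ msz M + msz N := add_le_add (row_le M i) (row_le N i)

theorem nrm_sum_le {ι : Type*} (s : Finset ι) (f : ι → MvPolynomial (Fin e) ℤ) :
    nrm (∑ i ∈ s, f i) ≤ ∑ i ∈ s, nrm (f i) := by
  classical
  induction s using Finset.induction_on with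
  | empty => simp [nrm_zero]
  | insert a s ha ih =>
    rw [Finset.sum_insert ha, Finset.sum_insert ha]
    exact (nrm_add_le _ _).trans (add_le_add le_rfl ih)

theorem msz_mul (M N : Matrix (Fin d) (Fin d) (MvPolynomial (Fin e) ℤ)) :
    msz (M * N) ≤ msz M * msz N := by
  apply msz_le
  intro i
  calc ∑ j, nrm ((M * N) i j) ≤ ∑ j, ∑ l, nrm (M i l) * nrm (N l j) := by
        refine Finset.sum_le_sum fun j _ => ?_
        rw [Matrix.mul_apply]
        exact (nrm_sum_le _ _).trans (Finset.sum_le_sum fun l _ => nrm_mul_le _ _)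
    _ = ∑ l, nrm (M i l) * ∑ j, nrm (N l j) := by
        rw [Finset.sum_comm]
        simp only [Finset.mul_sum]
    _ ≤ ∑ l, nrm (M i l) * msz N :=
        Finset.sum_le_sum fun l _ => Nat.mul_le_mul_left _ (row_le N l)
    _ = (∑ l, nrm (M i l)) * msz N := by rw [Finset.sum_mul]
    _ ≤ msz M * msz N := Nat.mul_le_mul_right _ (row_le M i)

end msz

section count

variable {e : ℕ} {R : Type*} [CommRing R] [IsDomain R] [Algebra (MvPolynomial (Fin e) ℤ) R]
  (pb : PowerBasis (MvPolynomial (Fin e) ℤ) R)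

open Classical in
/-- a chosen prime generator of an ideal -/
noncomputable def gen (I : Ideal (MvPolynomial (Fin e) ℤ)) : MvPolynomial (Fin e) ℤ :=
  if h : ∃ p : MvPolynomial (Fin e) ℤ, Prime p ∧ I = Ideal.span {p} then h.choose else 0

include pb in
theorem gen_spec (q : Ideal R) (hq : q.IsPrime) (h1 : q.height = 1) :
    Prime (gen (q.comap (algebraMap (MvPolynomial (Fin e) ℤ) R))) ∧
      q.comap (algebraMap (MvPolynomial (Fin e) ℤ) R) =
        Ideal.span {gen (q.comap (algebraMap (MvPolynomial (Fin e) ℤ) R))} := by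
  have h := pb_comap pb q h1
  unfold gen
  rw [dif_pos h]
  exact h.choose_spec

theorem fact_le (d : ℕ) : d.factorial ≤ 2 ^ d.factorial := (Nat.lt_two_pow_self).le

theorem count (Δ : R) (hΔ : Δ ≠ 0) (a L : ℕ)
    (hL : msz (Algebra.leftMulMatrix pb.basis Δ) ≤ 2 ^ L) (S : Finset (Ideal R))
    (hS : ∀ q ∈ S, q.IsPrime ∧ q.height = 1 ∧ ∃ b, b ∉ q ∧ ∃ y, b * Δ =
      algebraMap (MvPolynomial (Fin e) ℤ) R
        (gen (q.comap (algebraMap (MvPolynomial (Fin e) ℤ) R))) ^ a * y) :
    a * S.card ≤ pb.dim * (pb.dim.factorial + pb.dim) * (L + 1) := by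
  classical
  set g : Ideal R → MvPolynomial (Fin e) ℤ :=
    fun q => gen (q.comap (algebraMap (MvPolynomial (Fin e) ℤ) R)) with hg
  have hN : Algebra.norm (MvPolynomial (Fin e) ℤ) Δ ≠ 0 :=
    (Algebra.norm_ne_zero_iff_of_basis pb.basis).2 hΔ
  have hsz : nrm (Algebra.norm (MvPolynomial (Fin e) ℤ) Δ) ≤
      pb.dim.factorial * (2 ^ L) ^ pb.dim := by
    rw [Algebra.norm_eq_matrix_det pb.basis]
    exact nrm_det_le _ _ fun i j => (entry_le _ i j).trans hL
  have h2 : 2 ^ (a * (S.image g).card) ≤ nrm (Algebra.norm (MvPolynomial (Fin e) ℤ) Δ) := by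
    refine two_pow_le_nrm _ hN a _ ?_ ?_
    · intro p hp
      obtain ⟨q, hq, rfl⟩ := Finset.mem_image.1 hp
      obtain ⟨hq1, hq2, b, hb, y, hy⟩ := hS q hq
      obtain ⟨h1, h2⟩ := gen_spec pb q hq1 hq2
      exact ⟨h1, pb_dvd_norm pb q _ h1 h2 Δ b y a hb hy⟩
    · intro p hp p' hp' hass
      obtain ⟨q, hq, rfl⟩ := Finset.mem_image.1 hp
      obtain ⟨q', hq', rfl⟩ := Finset.mem_image.1 hp'
      have h1 := (gen_spec pb q (hS q hq).1 (hS q hq).2.1).2
      have h2 := (gen_spec pb q' (hS q' hq').1 (hS q' hq').2.1).2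
      have h3 : q.comap (algebraMap (MvPolynomial (Fin e) ℤ) R) =
          q'.comap (algebraMap (MvPolynomial (Fin e) ℤ) R) := by
        rw [h1, h2]
        exact Ideal.span_singleton_eq_span_singleton.2 hass
      simp only [hg, h3]
  have h3 : a * (S.image g).card ≤ pb.dim.factorial + L * pb.dim := by
    have : 2 ^ (a * (S.image g).card) ≤ 2 ^ (pb.dim.factorial + L * pb.dim) := by
      refine h2.trans (hsz.trans ?_)
      rw [pow_add, pow_mul]
      exact Nat.mul_le_mul_right _ (fact_le _)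
    exact (Nat.pow_le_pow_iff_right (by norm_num)).1 this
  have h4 : S.card ≤ pb.dim * (S.image g).card := by
    refine Finset.card_le_mul_card_image S pb.dim ?_
    intro p hp
    obtain ⟨q, hq, rfl⟩ := Finset.mem_image.1 hp
    refine pb_card pb (g q) (gen_spec pb q (hS q hq).1 (hS q hq).2.1).1 _ ?_
    intro q' hq'
    obtain ⟨hq1, hq2⟩ := Finset.mem_filter.1 hq'
    refine ⟨(hS q' hq1).1, ?_⟩
    rw [← hq2]
    exact (gen_spec pb q' (hS q' hq1).1 (hS q' hq1).2.1).2
  calc a * S.card ≤ a * (pb.dim * (S.image g).card) := Nat.mul_le_mul_left _ h4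
    _ = pb.dim * (a * (S.image g).card) := by ring
    _ ≤ pb.dim * (pb.dim.factorial + L * pb.dim) := Nat.mul_le_mul_left _ h3
    _ ≤ pb.dim * ((pb.dim.factorial + pb.dim) * (L + 1)) := by
        refine Nat.mul_le_mul_left _ ?_
        nlinarith [Nat.zero_le (pb.dim.factorial * L), Nat.zero_le pb.dim]
    _ = pb.dim * (pb.dim.factorial + pb.dim) * (L + 1) := by ring

theorem deriv_ne :
    Polynomial.aeval pb.gen (Polynomial.derivative (minpoly (MvPolynomial (Fin e) ℤ) pb.gen))
      ≠ 0 := by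
  intro h
  have hd : (minpoly (MvPolynomial (Fin e) ℤ) pb.gen).natDegree ≠ 0 := by
    rw [pb.natDegree_minpoly]
    exact pb.dim_ne_zero
  have h1 := pb.dim_le_natDegree_of_root (Polynomial.derivative_ne_zero.2 hd) h
  have h2 := Polynomial.natDegree_derivative_lt hd
  rw [pb.natDegree_minpoly] at h2
  omega

include pb in
theorem alg_inj : Function.Injective (algebraMap (MvPolynomial (Fin e) ℤ) R) := by
  have : Module.Free (MvPolynomial (Fin e) ℤ) R := Module.Free.of_basis pb.basis
  exact FaithfulSMul.algebraMap_injective _ _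

end count

open Classical in
theorem build {k : Type*} [Field k] (E : Set k) {e : ℕ} (R : Subring k)
    [Algebra (MvPolynomial (Fin e) ℤ) R] (pb : PowerBasis (MvPolynomial (Fin e) ℤ) R)
    (fg : ∃ s : Finset k, R = Subring.closure (s : Set k)) (h₀ : MvPolynomial (Fin e) ℤ)
    (hh : h₀ ≠ 0)
    (hE : ∀ x ∈ E, ((algebraMap (MvPolynomial (Fin e) ℤ) R h₀ : R) : k) * x ∈ R) :
    Nonempty (Arith k E) := by
  let D : R := Polynomial.aeval pb.gen
    (Polynomial.derivative (minpoly (MvPolynomial (Fin e) ℤ) pb.gen))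
  let sz : k → ℕ := fun x =>
    if h : x ∈ R then msz (Algebra.leftMulMatrix pb.basis (⟨x, h⟩ : R)) else 0
  have hsz : ∀ x : R, sz (x : k) = msz (Algebra.leftMulMatrix pb.basis x) := by
    intro x
    simp only [sz, dif_pos x.2]
  refine ⟨{
    R := R
    fg := fg
    h := D * algebraMap (MvPolynomial (Fin e) ℤ) R h₀
    h_ne := mul_ne_zero (deriv_ne pb) (fun h => hh (alg_inj pb (by rw [h, map_zero])))
    clear := ?_
    sz := sz
    sz_zero := ?_
    sz_one := ?_
    sz_neg := ?_
    sz_add := ?_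
    sz_mul := ?_
    π := fun q => algebraMap (MvPolynomial (Fin e) ℤ) R
      (gen (q.comap (algebraMap (MvPolynomial (Fin e) ℤ) R)))
    π_spec := ?_
    C := pb.dim * (pb.dim.factorial + pb.dim)
    count := ?_ }⟩
  · intro x hx
    rw [Subring.coe_mul, mul_assoc]
    exact R.mul_mem D.2 (hE x hx)
  · have := hsz 0
    rw [map_zero, msz_zero] at this
    exact this
  · have := hsz 1
    rw [map_one] at this
    exact (le_of_eq this).trans msz_one
  · intro a ha
    have h1 := hsz (-⟨a, ha⟩)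
    rw [map_neg, msz_neg, ← hsz] at h1
    exact h1
  · intro a ha b hb
    have h1 := hsz (⟨a, ha⟩ + ⟨b, hb⟩)
    rw [map_add] at h1
    refine (le_of_eq h1).trans ((msz_add _ _).trans ?_)
    rw [← hsz, ← hsz]
  · intro a ha b hb
    have h1 := hsz (⟨a, ha⟩ * ⟨b, hb⟩)
    rw [map_mul] at h1
    refine (le_of_eq h1).trans ((msz_mul _ _).trans ?_)
    rw [← hsz, ← hsz]
  · intro q hq h1 hD
    obtain ⟨hp, hc⟩ := gen_spec pb q hq h1
    refine ⟨?_, pb_unram pb q _ hp hc (fun h => hD (q.mul_mem_right _ h))⟩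
    rw [← Ideal.mem_comap, hc]
    conv_rhs => rw [← hc]
    exact Ideal.mem_span_singleton_self _
  · intro Δ hΔ a L hL S hS
    rw [hsz] at hL
    exact count pb Δ hΔ a L hL S fun q hq => ⟨(hS q hq).1, (hS q hq).2.1, (hS q hq).2.2.2⟩

end Ar4

theorem exists_arith {k : Type*} [Field k] [CharZero k] (E : Set k) (hE : E.Finite) :
    Nonempty (Arith k E) := by
  classical
  obtain ⟨e, t, θ, h₀, G, ht, hh, hG, hθ, hx⟩ := exists_theta E hE
  let _ : Algebra (MvPolynomial (Fin e) ℤ) k :=
    (MvPolynomial.aeval t : MvPolynomial (Fin e) ℤ →ₐ[ℤ] k).toRingHom.toAlgebra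
  have halg : ∀ x, algebraMap (MvPolynomial (Fin e) ℤ) k x = MvPolynomial.aeval t x :=
    fun _ => rfl
  have hinj : Function.Injective (algebraMap (MvPolynomial (Fin e) ℤ) k) := ht
  have _ : FaithfulSMul (MvPolynomial (Fin e) ℤ) k :=
    (faithfulSMul_iff_algebraMap_injective _ _).2 hinj
  have hint : IsIntegral (MvPolynomial (Fin e) ℤ) θ := ⟨G, hG, hθ⟩
  let A : Subalgebra (MvPolynomial (Fin e) ℤ) k := Algebra.adjoin _ {θ}
  let pb : PowerBasis (MvPolynomial (Fin e) ℤ) A := Algebra.adjoin.powerBasis' hint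
  let _ : Algebra (MvPolynomial (Fin e) ℤ) A.toSubring := A.algebra
  refine Ar4.build E A.toSubring pb ?_ h₀ hh ?_
  · refine ⟨insert θ (Finset.univ.image t), le_antisymm ?_ ?_⟩
    · intro x hx
      have hx' : x ∈ Algebra.adjoin (MvPolynomial (Fin e) ℤ) ({θ} : Set k) := hx
      clear hx
      induction hx' using Algebra.adjoin_induction with
      | mem x hx =>
        apply Subring.subset_closure
        rw [Set.mem_singleton_iff.1 hx]
        simp
      | algebraMap r =>
        rw [halg]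
        induction r using MvPolynomial.induction_on with
        | C a =>
          rw [MvPolynomial.aeval_C]
          exact intCast_mem _ a
        | add p q hp hq =>
          rw [map_add]
          exact Subring.add_mem _ hp hq
        | mul_X p i hp =>
          rw [map_mul, MvPolynomial.aeval_X]
          refine Subring.mul_mem _ hp (Subring.subset_closure ?_)
          simp
      | add x y _ _ hx hy => exact Subring.add_mem _ hx hy
      | mul x y _ _ hx hy => exact Subring.mul_mem _ hx hy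
    · rw [Subring.closure_le]
      intro x hx
      rw [Finset.coe_insert, Set.mem_insert_iff] at hx
      rcases hx with rfl | hx
      · exact Algebra.subset_adjoin (Set.mem_singleton _)
      · obtain ⟨i, _, rfl⟩ := Finset.mem_image.1 (Finset.mem_coe.1 hx)
        have : t i = algebraMap (MvPolynomial (Fin e) ℤ) k (MvPolynomial.X i) := by
          rw [halg, MvPolynomial.aeval_X]
        rw [this]
        exact A.algebraMap_mem _
  · intro x hxE
    obtain ⟨Y, hY⟩ := hx x hxE
    have h1 : ((algebraMap (MvPolynomial (Fin e) ℤ) A.toSubring h₀ : A.toSubring) : k) =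
        MvPolynomial.aeval t h₀ := rfl
    rw [h1, hY]
    exact Polynomial.aeval_mem_adjoin_singleton (MvPolynomial (Fin e) ℤ) θ

end Pool.Agent.P.MP_84b56d_ag
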