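import Pool.Agent.P.MP_84b56d_ag.Defs

open TopologicalSpace Pointwise

set_option linter.unusedSectionVars false

namespace Pool.Agent.P.MP_84b56d_ag

namespace GrpP

theorem exists_max {α : Type*} (P : α → Prop) (f : α → ℕ) (b : ℕ) (hb : ∀ a, P a → f a ≤ b)
    (hne : ∃ a, P a) : ∃ a, P a ∧ ∀ a', P a' → f a' ≤ f a := by
  have hbd : BddAbove (f '' {a | P a}) := ⟨b, by rintro _ ⟨a, ha, rfl⟩; exact hb a ha⟩
  obtain ⟨a0, ha0⟩ := hne
  obtain ⟨a, ha, hfa⟩ := Nat.sSup_mem (s := f '' {a | P a}) ⟨f a0, a0, ha0, rfl⟩ hbd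
  exact ⟨a, ha, fun a' ha' => hfa ▸ le_csSup hbd ⟨a', ha', rfl⟩⟩

theorem sub_of_cover {G : Type*} [TopologicalSpace G] {S : Set (Set G)} (hS : S.Finite)
    (hc : ∀ t ∈ S, IsClosed t) {W : Set G} (hW : IsIrreducible W) (h : W ⊆ ⋃₀ S) :
    ∃ z ∈ S, W ⊆ z := by
  obtain ⟨z, hz, hWz⟩ := isIrreducible_iff_sUnion_isClosed.1 hW hS.toFinset
    (fun z hz => hc z (hS.mem_toFinset.1 hz)) (by rw [hS.coe_toFinset]; exact h)
  exact ⟨z, hS.mem_toFinset.1 hz, hWz⟩

end GrpP

variable {G : Type*} [TopologicalSpace G] [NoetherianSpace G]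

theorem exists_comp {X W : Set G} (hX : IsClosed X) (hW : IsIrreducible W) (h : W ⊆ X) :
    ∃ W', IsComp X W' ∧ W ⊆ W' := by
  obtain ⟨S, hS, hc, hi, hXS⟩ := NoetherianSpace.exists_finite_set_isClosed_irreducible hX
  obtain ⟨z, hz, hWz⟩ := GrpP.sub_of_cover hS hc hW (hXS ▸ h)
  obtain ⟨m, hzm, hm⟩ := hS.exists_le_maximal hz
  refine ⟨m, ⟨hi m hm.1, hc m hm.1, ?_, ?_⟩, hWz.trans hzm⟩
  · rw [hXS]; exact Set.subset_sUnion_of_mem hm.1
  · intro W' hW' hmW hWX
    obtain ⟨z', hz', hW'z⟩ := GrpP.sub_of_cover hS hc hW' (hXS ▸ hWX)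
    exact hW'z.trans (hm.2 hz' (hmW.trans hW'z))

theorem finite_comp {X : Set G} (hX : IsClosed X) : {W | IsComp X W}.Finite := by
  obtain ⟨S, hS, hc, hi, hXS⟩ := NoetherianSpace.exists_finite_set_isClosed_irreducible hX
  refine hS.subset ?_
  intro W hW
  obtain ⟨z, hz, hWz⟩ := GrpP.sub_of_cover hS hc hW.1 (hXS ▸ hW.2.2.1)
  have : z ⊆ W := hW.2.2.2 z (hi z hz) hWz (by rw [hXS]; exact Set.subset_sUnion_of_mem hz)
  rw [Set.Subset.antisymm hWz this]
  exact hz

variable [AddCommGroup G] [SeparatelyContinuousAdd G]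

namespace GrpP

omit [NoetherianSpace G] in
theorem closed_addr {W : Set G} (hW : IsClosed W) (a : G) : IsClosed {w | w + a ∈ W} :=
  hW.preimage (continuous_add_const a)

omit [NoetherianSpace G] in
theorem closed_addl {W : Set G} (hW : IsClosed W) (a : G) : IsClosed {w | a + w ∈ W} :=
  hW.preimage (continuous_const_add a)

omit [NoetherianSpace G] in
theorem closed_subr {W : Set G} (hW : IsClosed W) (a : G) : IsClosed {w | w - a ∈ W} := by
  simpa only [sub_eq_add_neg] using closed_addr hW (-a)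

end GrpP

theorem sub_mem_of_add_mem {W : Set G} (hW : IsClosed W) (γ : G) (h : ∀ w ∈ W, w + γ ∈ W) :
    ∀ w ∈ W, w - γ ∈ W := by
  let F : ℕ → Closeds G := fun n => ⟨{w | w - n • γ ∈ W}, GrpP.closed_subr hW _⟩
  have hle : ∀ n, F (n + 1) ≤ F n := by
    intro n w hw
    have h1 : w - (n + 1) • γ ∈ W := hw
    have h2 := h _ h1
    have h3 : w - (n + 1) • γ + γ = w - n • γ := by rw [succ_nsmul]; abel
    rw [h3] at h2
    exact h2
  obtain ⟨_, ⟨n, rfl⟩, hmin⟩ :=
    (wellFounded_lt (α := Closeds G)).has_min (Set.range F) ⟨F 0, 0, rfl⟩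
  have heq : F (n + 1) = F n := by
    by_contra hne
    exact hmin _ ⟨n + 1, rfl⟩ (lt_of_le_of_ne (hle n) hne)
  intro w hw
  have h1 : w + n • γ ∈ F n := by
    show w + n • γ - n • γ ∈ W
    simpa using hw
  rw [← heq] at h1
  have h2 : w + n • γ - (n + 1) • γ ∈ W := h1
  have h3 : w + n • γ - (n + 1) • γ = w - γ := by rw [succ_nsmul]; abel
  rwa [h3] at h2

theorem exists_closure_subgroup (H : AddSubgroup G) :
    ∃ H' : AddSubgroup G, (H' : Set G) = closure (H : Set G) := by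
  have hadd : ∀ a ∈ closure (H : Set G), ∀ b ∈ closure (H : Set G),
      a + b ∈ closure (H : Set G) := by
    intro a ha b hb
    have h1 : ∀ a ∈ (H : Set G), a + b ∈ closure (H : Set G) := by
      intro a ha
      have : closure (H : Set G) ⊆ {w | a + w ∈ closure (H : Set G)} :=
        closure_minimal (fun w hw => subset_closure (H.add_mem ha hw))
          (GrpP.closed_addl isClosed_closure a)
      exact this hb
    have : closure (H : Set G) ⊆ {w | w + b ∈ closure (H : Set G)} :=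
      closure_minimal h1 (GrpP.closed_addr isClosed_closure b)
    exact this ha
  refine ⟨{ carrier := closure (H : Set G)
            zero_mem' := subset_closure H.zero_mem
            add_mem' := fun ha hb => hadd _ ha _ hb
            neg_mem' := ?_ }, rfl⟩
  intro x hx
  have := sub_mem_of_add_mem isClosed_closure x (fun w hw => hadd w hw x hx) 0
    (subset_closure H.zero_mem)
  simpa using this

theorem isIrreducible_add {W₁ W₂ : Set G} (h₁ : IsIrreducible W₁) (h₂ : IsIrreducible W₂) :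
    IsIrreducible (W₁ + W₂) := by
  refine ⟨h₁.nonempty.add h₂.nonempty, isPreirreducible_iff_isClosed_union_isClosed.2 ?_⟩
  intro Y₁ Y₂ hY₁ hY₂ hsub
  have hc : ∀ Y : Set G, IsClosed Y → IsClosed {w : G | ∀ v ∈ W₂, w + v ∈ Y} := by
    intro Y hY
    have : {w : G | ∀ v ∈ W₂, w + v ∈ Y} = ⋂ v ∈ W₂, {w | w + v ∈ Y} := by
      ext w; simp
    rw [this]
    exact isClosed_biInter fun v _ => GrpP.closed_addr hY v
  have hcov : W₁ ⊆ {w : G | ∀ v ∈ W₂, w + v ∈ Y₁} ∪ {w : G | ∀ v ∈ W₂, w + v ∈ Y₂} := by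
    intro w hw
    have := isPreirreducible_iff_isClosed_union_isClosed.1 h₂.2 {v | w + v ∈ Y₁} {v | w + v ∈ Y₂}
      (GrpP.closed_addl hY₁ w) (GrpP.closed_addl hY₂ w)
      (fun v hv => hsub (Set.add_mem_add hw hv))
    exact this.imp (fun h v hv => h hv) (fun h v hv => h hv)
  rcases isPreirreducible_iff_isClosed_union_isClosed.1 h₁.2 _ _ (hc _ hY₁) (hc _ hY₂) hcov with
    h | h
  · left
    rintro _ ⟨w, hw, v, hv, rfl⟩
    exact h hw v hv
  · right
    rintro _ ⟨w, hw, v, hv, rfl⟩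
    exact h hw v hv

namespace GrpP

omit [NoetherianSpace G] in
theorem irred_translate {W : Set G} (hW : IsIrreducible W) (x : G) :
    IsIrreducible {w | w - x ∈ W} := by
  have : {w | w - x ∈ W} = (fun w => w + x) '' W := by
    ext w
    constructor
    · intro hw; exact ⟨w - x, hw, by simp⟩
    · rintro ⟨v, hv, rfl⟩; simpa using hv
  rw [this]
  exact hW.image _ (continuous_add_const x).continuousOn

omit [NoetherianSpace G] in
theorem comp_translate {H : AddSubgroup G} {W : Set G} (hW : IsComp (H : Set G) W) {x : G}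
    (hx : x ∈ H) : IsComp (H : Set G) {w | w - x ∈ W} := by
  refine ⟨irred_translate hW.1 x, closed_subr hW.2.1 x, ?_, ?_⟩
  · intro w hw
    have : w - x ∈ H := hW.2.2.1 hw
    simpa using H.add_mem this hx
  · intro W' hW' h1 h2 w hw
    have h3 := hW.2.2.2 {w | w - -x ∈ W'} (irred_translate hW' (-x))
      (fun v hv => h1 (by simpa using hv))
      (fun v hv => by
        have : v - -x ∈ H := h2 hv
        simpa using H.sub_mem this hx)
    exact h3 (by simpa using hw)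

end GrpP

theorem exists_idcomp (H : AddSubgroup G) (hH : IsClosed (H : Set G)) :
    ∃ H₀ : AddSubgroup G, CI H₀ ∧ H₀ ≤ H ∧
      (∀ W : Set G, IsIrreducible W → (0 : G) ∈ W → W ⊆ H → W ⊆ H₀) ∧
      (∃ F : Finset G, ∀ x ∈ H, ∃ f ∈ F, x - f ∈ H₀) ∧
      ∀ x ∈ H, ∃ n : ℕ, 1 ≤ n ∧ n • x ∈ H₀ := by
  obtain ⟨W, hW, h0⟩ := exists_comp hH (isIrreducible_singleton (x := (0 : G)))
    (Set.singleton_subset_iff.2 H.zero_mem)
  have h0W : (0 : G) ∈ W := h0 rfl
  have hsum : ∀ W' : Set G, IsIrreducible W' → (0 : G) ∈ W' → W' ⊆ H → W + W' ⊆ W := by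
    intro W' hW' h0' hsub
    refine hW.2.2.2 _ (isIrreducible_add hW.1 hW') ?_ ?_
    · intro w hw
      simpa using Set.add_mem_add hw h0'
    · rintro _ ⟨a, ha, b, hb, rfl⟩
      exact H.add_mem (hW.2.2.1 ha) (hsub hb)
  have hadd : ∀ a ∈ W, ∀ b ∈ W, a + b ∈ W := fun a ha b hb =>
    hsum W hW.1 h0W hW.2.2.1 (Set.add_mem_add ha hb)
  let H₀ : AddSubgroup G :=
    { carrier := W
      zero_mem' := h0W
      add_mem' := fun ha hb => hadd _ ha _ hb
      neg_mem' := fun {x} hx => by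
        have := sub_mem_of_add_mem hW.2.1 x (fun w hw => hadd w hw x hx) 0 h0W
        simpa using this }
  let f : G → Set G := fun x => {w | w - x ∈ W}
  have hf : ∀ x ∈ H, f x ∈ {W | IsComp (H : Set G) W} := fun x hx => GrpP.comp_translate hW hx
  have hfe : ∀ x y, f x = f y → x - y ∈ W := by
    intro x y hxy
    have : x ∈ f x := by show x - x ∈ W; simpa using h0W
    rw [hxy] at this
    exact this
  refine ⟨H₀, ⟨hW.2.1, hW.1⟩, hW.2.2.1, ?_, ?_, ?_⟩
  · intro W' hW' h0' hsub w hw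
    have := hsum W' hW' h0' hsub (Set.add_mem_add h0W hw)
    rw [zero_add] at this
    exact this
  · have hfin : (f '' (H : Set G)).Finite :=
      (finite_comp hH).subset (by rintro _ ⟨x, hx, rfl⟩; exact hf x hx)
    obtain ⟨t, -, ht, hte⟩ := hfin.exists_subset_finite_image_eq (f := f) (s := (H : Set G))
      subset_rfl
    refine ⟨ht.toFinset, fun x hx => ?_⟩
    have : f x ∈ f '' t := by rw [hte]; exact ⟨x, hx, rfl⟩
    obtain ⟨y, hy, hyx⟩ := this
    exact ⟨y, ht.mem_toFinset.2 hy, hfe x y hyx.symm⟩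
  · intro x hx
    obtain ⟨m, n, hmn, he⟩ := Set.Finite.exists_lt_map_eq_of_forall_mem
      (f := fun n : ℕ => f (n • x)) (fun n => hf _ (H.nsmul_mem hx n)) (finite_comp hH)
    refine ⟨n - m, by omega, ?_⟩
    have := hfe _ _ he.symm
    rw [sub_nsmul x hmn.le, ← sub_eq_add_neg]
    exact this

theorem eq_univ_of_nd {W : Set G} (hW : IsClosed W) (hne : W.Nonempty) {γ : G} (hγ : ND γ)
    (h : ∀ w ∈ W, w + γ ∈ W) : W = Set.univ := by
  obtain ⟨w₀, hw₀⟩ := hne
  have h' := sub_mem_of_add_mem hW γ h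
  have hz : ∀ n : ℤ, w₀ + n • γ ∈ W := by
    intro n
    induction n using Int.induction_on with
    | zero => simpa using hw₀
    | succ i ih =>
      have := h _ ih
      rwa [add_zsmul, one_zsmul, ← add_assoc]
    | pred i ih =>
      have := h' _ ih
      rwa [sub_zsmul, one_zsmul, ← add_assoc, ← sub_eq_add_neg]
  have hsub : closure (AddSubgroup.zmultiples γ : Set G) ⊆ {y | w₀ + y ∈ W} := by
    refine closure_minimal ?_ (GrpP.closed_addl hW w₀)
    rintro _ ⟨n, rfl⟩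
    exact hz n
  rw [Dense.closure_eq hγ] at hsub
  refine Set.eq_univ_of_forall fun y => ?_
  have : w₀ + (y - w₀) ∈ W := hsub (Set.mem_univ _)
  simpa using this

theorem exists_fg_dense (dm : Set G → ℕ) (b : ℕ)
    (hb : ∀ W, IsClosed W → IsIrreducible W → dm W ≤ b)
    (hdm : ∀ W W', IsClosed W → IsIrreducible W → IsClosed W' → IsIrreducible W' → W ⊂ W' →
      dm W < dm W') (hND : NDProp G) (B : AddSubgroup G) (hB : CI B) :
    ∃ X : Set G, X.Finite ∧ X ⊆ B ∧ (B : Set G) ⊆ closure (AddSubgroup.closure X : Set G) := by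
  have hlt : ∀ A A' : AddSubgroup G, CI A → CI A' → A < A' → dm A < dm A' := fun A A' hA hA' h =>
    hdm _ _ hA.1 hA.2 hA'.1 hA'.2 (SetLike.coe_ssubset_coe.2 h)
  have hid : ∀ X : Set G, ∃ H₀ : AddSubgroup G, CI H₀ ∧
      (H₀ : Set G) ⊆ closure (AddSubgroup.closure X : Set G) ∧
      (∀ A : AddSubgroup G, CI A → (A : Set G) ⊆ closure (AddSubgroup.closure X : Set G) →
        A ≤ H₀) ∧ ∀ x ∈ X, ∃ n : ℕ, 1 ≤ n ∧ n • x ∈ H₀ := by
    intro X
    obtain ⟨H, hH⟩ := exists_closure_subgroup (AddSubgroup.closure X)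
    obtain ⟨H₀, h1, h2, h3, -, h5⟩ := exists_idcomp H (hH ▸ isClosed_closure)
    refine ⟨H₀, h1, hH ▸ h2, fun A hA hAX => h3 _ hA.2 A.zero_mem (hH ▸ hAX), fun x hx => h5 x ?_⟩
    have : x ∈ (H : Set G) := by rw [hH]; exact subset_closure (AddSubgroup.subset_closure hx)
    exact this
  obtain ⟨⟨X, H₀⟩, ⟨hX, hXB, hH₀, hHX⟩, hmax⟩ := GrpP.exists_max
    (fun p : Set G × AddSubgroup G => p.1.Finite ∧ p.1 ⊆ B ∧ CI p.2 ∧
      (p.2 : Set G) ⊆ closure (AddSubgroup.closure p.1 : Set G))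
    (fun p => dm p.2) b (fun p hp => hb _ hp.2.2.1.1 hp.2.2.1.2) (by
      obtain ⟨H₀, h1, h2, -⟩ := hid ∅
      exact ⟨(∅, H₀), Set.finite_empty, Set.empty_subset _, h1, h2⟩)
  simp only at hX hXB hH₀ hHX hmax
  refine ⟨X, hX, hXB, ?_⟩
  have hle : H₀ ≤ B := by
    have : closure (AddSubgroup.closure X : Set G) ⊆ B :=
      closure_minimal ((AddSubgroup.closure_le B).2 hXB) hB.1
    exact hHX.trans this
  by_cases he : H₀ = B
  · rw [← he]; exact hHX
  exfalso
  obtain ⟨B₁, ⟨hB₁, h01, h1B⟩, hmax1⟩ := GrpP.exists_max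
    (fun A : AddSubgroup G => CI A ∧ H₀ ≤ A ∧ A < B) (fun A => dm A) b
    (fun A hA => hb _ hA.1.1 hA.1.2) ⟨H₀, hH₀, le_rfl, lt_of_le_of_ne hle he⟩
  obtain ⟨x, hxB, hx⟩ := hND B B₁ hB hB₁ h1B (by
    intro B' hB' h1 h2
    by_cases h3 : B' = B
    · exact Or.inr h3
    left
    by_contra h4
    have h5 := hmax1 B' ⟨hB', h01.trans h1, lt_of_le_of_ne h2 h3⟩
    have h6 := hlt _ _ hB₁ hB' (lt_of_le_of_ne h1 (Ne.symm h4))
    omega) ∅ Set.finite_empty
  obtain ⟨H₁, h1, h2, h3, h4⟩ := hid (insert x X)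
  obtain ⟨n, hn, hnx⟩ := h4 x (Set.mem_insert _ _)
  have hle1 : H₀ ≤ H₁ := h3 H₀ hH₀ (hHX.trans (closure_mono
    (AddSubgroup.closure_mono (Set.subset_insert _ _))))
  have hne : H₀ ≠ H₁ := by
    intro h
    have := hx n hn 0 (AddSubgroup.zero_mem _)
    rw [add_zero] at this
    exact this (h01 (h ▸ hnx))
  have h5 := hmax (insert x X, H₁) ⟨hX.insert x, Set.insert_subset hxB hXB, h1, h2⟩
  have h6 := hlt _ _ hH₀ h1 (lt_of_le_of_ne hle1 hne)
  simp only at h5
  omega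

namespace GrpP

omit [TopologicalSpace G] [NoetherianSpace G] [SeparatelyContinuousAdd G] in
theorem indep (B₀ : AddSubgroup G)
    (h : ∀ E : Set G, E.Finite → ∃ x : G, ∀ n : ℕ, 1 ≤ n → ∀ u ∈ AddSubgroup.closure E,
      n • x + u ∉ B₀) (r : ℕ) :
    ∀ Z : Set G, Z.Finite → ∃ x : Fin r → G, ∀ a : Fin r → ℤ, a ≠ 0 →
      ∀ u ∈ AddSubgroup.closure Z, ∀ n : ℕ, 1 ≤ n → n • (∑ i, a i • x i + u) ∉ B₀ := by
  induction r with
  | zero =>
    intro Z _
    exact ⟨Fin.elim0, fun a ha => (ha (Subsingleton.elim _ _)).elim⟩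
  | succ r ih =>
    intro Z hZ
    obtain ⟨x₀, hx₀⟩ := h Z hZ
    obtain ⟨x, hx⟩ := ih (insert x₀ Z) (hZ.insert x₀)
    refine ⟨Fin.cons x₀ x, fun a ha u hu n hn => ?_⟩
    rw [Fin.sum_univ_succ]
    simp only [Fin.cons_zero, Fin.cons_succ]
    by_cases ht : (fun i : Fin r => a i.succ) = 0
    · have h0 : a 0 ≠ 0 := by
        intro h0
        apply ha
        funext i
        refine Fin.cases h0 (fun j => congrFun ht j) i
      have hs : ∑ i : Fin r, a i.succ • x i = 0 :=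
        Finset.sum_eq_zero fun i _ => by rw [show a i.succ = 0 from congrFun ht i, zero_zsmul]
      rw [hs, add_zero]
      have hm : 1 ≤ n * (a 0).natAbs := Nat.mul_pos hn (Int.natAbs_pos.2 h0)
      rcases Int.natAbs_eq (a 0) with h1 | h1
      · have := hx₀ _ hm (n • u) (AddSubgroup.nsmul_mem _ hu n)
        rw [h1, natCast_zsmul, smul_add, smul_smul]
        exact this
      · have := hx₀ _ hm (-(n • u)) (AddSubgroup.neg_mem _ (AddSubgroup.nsmul_mem _ hu n))
        intro h2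
        apply this
        have h3 := B₀.neg_mem h2
        rw [h1, neg_zsmul, natCast_zsmul, smul_add, smul_neg, smul_smul, neg_add, neg_neg] at h3
        exact h3
    · have := hx (fun i => a i.succ) ht (a 0 • x₀ + u) (AddSubgroup.add_mem _
        (AddSubgroup.zsmul_mem _ (AddSubgroup.subset_closure (Set.mem_insert _ _)) _)
        (AddSubgroup.closure_mono (Set.subset_insert _ _) hu)) n hn
      have e : a 0 • x₀ + ∑ i : Fin r, a i.succ • x i + u =
          ∑ i : Fin r, a i.succ • x i + (a 0 • x₀ + u) := by abel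
      rw [e]
      exact this

end GrpP

theorem dichotomy [T1Space G] [IrreducibleSpace G] [Nontrivial G] (dm : Set G → ℕ) (b : ℕ)
    (hb : ∀ W, IsClosed W → IsIrreducible W → dm W ≤ b)
    (hdm : ∀ W W', IsClosed W → IsIrreducible W → IsClosed W' → IsIrreducible W' → W ⊂ W' →
      dm W < dm W') (hND : NDProp G) :
    (∃ B B' : AddSubgroup G, CI B ∧ CI B' ∧ B ≠ ⊤ ∧ B' ≠ ⊤ ∧ Dense ((B : Set G) + (B' : Set G))) ∨
    ∀ Z : Set G, Z.Finite → ∀ r : ℕ, ∃ x : Fin r → G, ∀ a : Fin r → ℤ, a ≠ 0 →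
      ∀ u ∈ AddSubgroup.closure Z, ND (∑ i, a i • x i + u) := by
  have hlt : ∀ A A' : AddSubgroup G, CI A → CI A' → A < A' → dm A < dm A' := fun A A' hA hA' h =>
    hdm _ _ hA.1 hA.2 hA'.1 hA'.2 (SetLike.coe_ssubset_coe.2 h)
  have hbot : CI (⊥ : AddSubgroup G) := by
    constructor
    · rw [AddSubgroup.coe_bot]; exact isClosed_singleton
    · rw [AddSubgroup.coe_bot]; exact isIrreducible_singleton
  have htop : CI (⊤ : AddSubgroup G) := by
    constructor
    · rw [AddSubgroup.coe_top]; exact isClosed_univ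
    · rw [AddSubgroup.coe_top]; exact IrreducibleSpace.isIrreducible_univ G
  obtain ⟨B₀, ⟨hB₀, hne⟩, hmax⟩ := GrpP.exists_max
    (fun A : AddSubgroup G => CI A ∧ A ≠ ⊤) (fun A => dm A) b
    (fun A hA => hb _ hA.1.1 hA.1.2) ⟨⊥, hbot, bot_ne_top⟩
  by_cases hc : ∃ B : AddSubgroup G, CI B ∧ B ≠ ⊤ ∧ ¬ B ≤ B₀
  · left
    obtain ⟨B, hB, hBt, hBle⟩ := hc
    refine ⟨B₀, B, hB₀, hB, hne, hBt, ?_⟩
    obtain ⟨H, hH⟩ := exists_closure_subgroup (B₀ ⊔ B)
    have hsup : ((B₀ ⊔ B : AddSubgroup G) : Set G) = (B₀ : Set G) + (B : Set G) :=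
      AddSubgroup.add_normal B₀ B
    have hHci : CI H := by
      constructor
      · rw [hH]; exact isClosed_closure
      · rw [hH, hsup]; exact (isIrreducible_add hB₀.2 hB.2).closure
    have hle : B₀ ⊔ B ≤ H := by
      intro x hx
      have : x ∈ (H : Set G) := by rw [hH]; exact subset_closure hx
      exact this
    have hHt : H = ⊤ := by
      by_contra hHt
      have h1 := hmax H ⟨hHci, hHt⟩
      have h2 := hlt _ _ hB₀ hHci (lt_of_le_of_ne (le_sup_left.trans hle) (by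
        intro h
        exact hBle (h ▸ le_sup_right.trans hle)))
      omega
    rw [dense_iff_closure_eq, ← hsup, ← hH, hHt, AddSubgroup.coe_top]
  · right
    have hall : ∀ B : AddSubgroup G, CI B → B ≠ ⊤ → B ≤ B₀ := by
      intro B hB hBt
      by_contra h
      exact hc ⟨B, hB, hBt, h⟩
    have hN := hND ⊤ B₀ htop hB₀ (lt_top_iff_ne_top.2 hne) (by
      intro B' hB' h1 _
      by_cases h3 : B' = ⊤
      · exact Or.inr h3
      · exact Or.inl (le_antisymm (hall B' hB' h3) h1))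
    intro Z hZ r
    obtain ⟨x, hx⟩ := GrpP.indep B₀ (fun E hE => by
      obtain ⟨x, -, hx⟩ := hN E hE
      exact ⟨x, hx⟩) r Z hZ
    refine ⟨x, fun a ha u hu => ?_⟩
    have hγ := hx a ha u hu
    generalize ∑ i, a i • x i + u = γ at hγ
    obtain ⟨H, hH⟩ := exists_closure_subgroup (AddSubgroup.zmultiples γ)
    obtain ⟨H₀, h1, h2, -, -, h5⟩ := exists_idcomp H (hH ▸ isClosed_closure)
    obtain ⟨n, hn, hnγ⟩ := h5 γ (by
      have : γ ∈ (H : Set G) := by
        rw [hH]; exact subset_closure (AddSubgroup.mem_zmultiples γ)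
      exact this)
    have h0t : H₀ = ⊤ := by
      by_contra h
      exact hγ n hn (hall H₀ h1 h hnγ)
    have hHt : H = ⊤ := top_le_iff.1 (h0t ▸ h2)
    unfold ND
    rw [dense_iff_closure_eq, ← hH, hHt, AddSubgroup.coe_top]

end Pool.Agent.P.MP_84b56d_ag
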