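import Pool.Agent.P.MP_84b56d_ag.Defs

open MvPolynomial

namespace Pool.Agent.P.MP_84b56d_ag

variable {k : Type*} [Field k] {σ τ : Type}

theorem eval_aeval' (v : τ → k) (g : σ → MvPolynomial τ k) (f : MvPolynomial σ k) :
    eval v (aeval g f) = eval (fun i => eval v (g i)) f := by
  induction f using MvPolynomial.induction_on with
  | C a => simp
  | add p q hp hq => rw [map_add, map_add, map_add, hp, hq]
  | mul_X p i hp => rw [map_mul, map_mul, map_mul, hp, aeval_X, eval_X]

theorem totalDegree_aeval_le (g : σ → MvPolynomial τ k) (D : ℕ) (hg : ∀ i, (g i).totalDegree ≤ D)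
    (f : MvPolynomial σ k) : (aeval g f).totalDegree ≤ D * f.totalDegree := by
  classical
  conv_lhs => rw [f.as_sum, map_sum]
  refine totalDegree_finsetSum_le fun m hm => ?_
  rw [aeval_monomial]
  refine (totalDegree_mul _ _).trans ?_
  have h1 : (algebraMap k (MvPolynomial τ k) (coeff m f)).totalDegree = 0 := by
    rw [algebraMap_eq]; exact totalDegree_C _
  rw [h1, zero_add, Finsupp.prod]
  refine (totalDegree_finsetProd _ _).trans ?_
  have h2 : ∑ i ∈ m.support, (g i ^ m i).totalDegree ≤ ∑ i ∈ m.support, D * m i := by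
    refine Finset.sum_le_sum fun i _ => (totalDegree_pow _ _).trans ?_
    rw [mul_comm]; exact Nat.mul_le_mul_right _ (hg i)
  refine h2.trans ?_
  rw [← Finset.mul_sum]
  exact Nat.mul_le_mul_left _ (le_totalDegree hm)

theorem eval_smul_of_hom {f : MvPolynomial σ k} {d : ℕ} (hf : f.IsHomogeneous d) (a : k)
    (v : σ → k) : eval (a • v) f = a ^ d * eval v f := by
  classical
  rw [eval_eq, eval_eq, Finset.mul_sum]
  refine Finset.sum_congr rfl fun m hm => ?_
  rw [hf.degree_eq_sum_deg_support hm]
  simp only [Pi.smul_apply, smul_eq_mul, mul_pow, Finset.prod_mul_distrib,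
    Finset.prod_pow_eq_pow_sum]
  ring

/-- rescaling of the variables -/
noncomputable def scale (a : k) (f : MvPolynomial σ k) : MvPolynomial σ k :=
  aeval (fun i => C a * X i) f

theorem eval_scale (a : k) (f : MvPolynomial σ k) (v : σ → k) :
    eval v (scale a f) = eval (a • v) f := by
  rw [scale, eval_aeval']
  congr 2
  funext i; simp

theorem totalDegree_scale_le (a : k) (f : MvPolynomial σ k) :
    (scale a f).totalDegree ≤ f.totalDegree := by
  have := totalDegree_aeval_le (fun i => (C a * X i : MvPolynomial σ k)) 1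
    (fun i => (isHomogeneous_C_mul_X a i).totalDegree_le) f
  simpa [scale] using this

/-- restriction to a ray -/
noncomputable def ray (v : σ → k) (f : MvPolynomial σ k) : Polynomial k :=
  aeval (fun i => Polynomial.C (v i) * Polynomial.X) f

theorem eval_ray (v : σ → k) (f : MvPolynomial σ k) (a : k) :
    (ray v f).eval a = eval (a • v) f := by
  unfold ray
  induction f using MvPolynomial.induction_on with
  | C b => simp
  | add p q hp hq => simp [hp, hq]
  | mul_X p i hp =>
    rw [map_mul, map_mul, Polynomial.eval_mul, hp, aeval_X, eval_X, Polynomial.eval_mul,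
      Polynomial.eval_C, Polynomial.eval_X, Pi.smul_apply, smul_eq_mul, mul_comm a]

theorem poly_eq_zero_of_ne [Infinite k] (p : Polynomial k) (h : ∀ a : k, a ≠ 0 → p.eval a = 0) :
    p = 0 := by
  refine Polynomial.eq_zero_of_infinite_isRoot p ?_
  refine (Set.infinite_univ.sdiff (Set.finite_singleton (0 : k))).mono ?_
  intro a ha
  exact h a (by simpa using ha)

theorem eval_homComp_eq_zero [Infinite k] (f : MvPolynomial σ k) (v : σ → k)
    (h : ∀ a : k, a ≠ 0 → eval (a • v) f = 0) (n : ℕ) :
    eval v (homogeneousComponent n f) = 0 := by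
  by_cases hn : f.totalDegree < n
  · rw [homogeneousComponent_eq_zero _ _ hn, map_zero]
  let p : Polynomial k := ∑ i ∈ Finset.range (f.totalDegree + 1),
    Polynomial.monomial i (eval v (homogeneousComponent i f))
  have hp : p = 0 := by
    refine poly_eq_zero_of_ne p fun a ha => ?_
    rw [← h a ha]
    conv_rhs => rw [← sum_homogeneousComponent f, map_sum]
    simp only [p, Polynomial.eval_finsetSum, Polynomial.eval_monomial]
    refine Finset.sum_congr rfl fun i _ => ?_
    rw [eval_smul_of_hom (homogeneousComponent_isHomogeneous i f), mul_comm]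
  have := congrArg (fun q => Polynomial.coeff q n) hp
  simp only [p, Polynomial.finsetSum_coeff, Polynomial.coeff_monomial, Polynomial.coeff_zero] at this
  rw [Finset.sum_ite_eq'] at this
  simpa [show n < f.totalDegree + 1 by omega] using this

theorem mem_of_vanish [IsAlgClosed k] [Finite σ] (P : Ideal (MvPolynomial σ k)) [P.IsPrime]
    {f : MvPolynomial σ k} (h : ∀ v : σ → k, (∀ g ∈ P, eval v g = 0) → eval v f = 0) : f ∈ P := by
  rw [← IsPrime.vanishingIdeal_zeroLocus (K := k) P, mem_vanishingIdeal_iff]
  intro x hx
  rw [mem_zeroLocus_iff] at hx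
  simpa using h x (by simpa using hx)

theorem finite_coeffs (f : MvPolynomial σ k) : (Set.range fun m => coeff m f).Finite := by
  classical
  refine ((f.support.image fun m => coeff m f).finite_toSet.insert 0).subset ?_
  rintro _ ⟨m, rfl⟩
  by_cases hm : m ∈ f.support
  · exact Or.inr (by simpa using ⟨m, by simpa using hm, rfl⟩)
  · exact Or.inl (by simpa using hm)

end Pool.Agent.P.MP_84b56d_ag
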