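import Pool.Agent.P.MP_84b56d_ag.Hilb

open MvPolynomial

namespace Pool.Agent.P.MP_84b56d_ag

variable {k : Type*} [Field k] {σ : Type} [Finite σ]

namespace Bez

theorem td_le {P Q : Ideal (MvPolynomial σ k)} [P.IsPrime] [Q.IsPrime] (h : P ≤ Q) :
    td Q ≤ td P := by
  rcases h.eq_or_lt with rfl | h
  · exact le_rfl
  · exact (td_lt h).le

theorem eq_of_td {P Q : Ideal (MvPolynomial σ k)} [P.IsPrime] [Q.IsPrime] (h : P ≤ Q)
    (h' : td P ≤ td Q) : P = Q := by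
  rcases h.eq_or_lt with h | h
  · exact h
  · exact absurd (td_lt h) (not_lt.mpr h')

theorem td_min {P Q : Ideal (MvPolynomial σ k)} [P.IsPrime] {g : MvPolynomial σ k} (hg : g ∉ P)
    (hQ : Q ∈ (P ⊔ Ideal.span {g}).minimalPrimes) : td Q + 1 = td P := by
  have := hQ.1.1
  have h1 : P < Q := lt_of_le_of_ne (le_sup_left.trans hQ.1.2) (by
    rintro rfl
    exact hg ((le_sup_right.trans hQ.1.2) (Ideal.subset_span rfl)))
  have h2 := td_lt h1
  have h3 := td_le_succ g hQ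
  omega

theorem tele (J : Ideal (MvPolynomial σ k)) (g : MvPolynomial σ k) (D : ℕ)
    (hg : ∀ f, g * f ∈ J → f ∈ J) (hD : g.totalDegree ≤ D) (L : ℕ) :
    L * hf (J ⊔ Ideal.span {g}) (L * D) ≤ hf J (2 * L * D) := by
  have h : ∀ j, j * hf (J ⊔ Ideal.span {g}) (L * D) ≤ hf J (L * D + j * D) := by
    intro j
    induction j with
    | zero => simp
    | succ j ih =>
      have h1 := hf_cut J g D (L * D + j * D) hg hD
      have h2 := hf_mono (J ⊔ Ideal.span {g}) (show L * D ≤ L * D + j * D + D by omega)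
      rw [show L * D + (j + 1) * D = L * D + j * D + D by ring, Nat.succ_mul]
      omega
  have := h L
  rwa [show L * D + L * D = 2 * L * D by ring] at this

omit [Finite σ] in
theorem exists_avoid [Infinite k] (T : Set (MvPolynomial σ k)) {D : ℕ}
    (hT : ∀ f ∈ T, f.totalDegree ≤ D) {F : Set (Ideal (MvPolynomial σ k))} (hF : F.Finite)
    (h : ∀ P ∈ F, ∃ f ∈ T, f ∉ P) :
    ∃ g ∈ Ideal.span T, g.totalDegree ≤ D ∧ ∀ P ∈ F, g ∉ P := by
  have := hF.to_subtype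
  by_contra hc
  push Not at hc
  have hle : Submodule.span k T ≤ restrictTotalDegree σ k D :=
    Submodule.span_le.mpr fun f hf => (mem_restrictTotalDegree _ _ _).mpr (hT f hf)
  have hle2 : Submodule.span k T ≤ (Ideal.span T).restrictScalars k :=
    Submodule.span_le.mpr fun f hf => Ideal.subset_span hf
  obtain ⟨P, hP⟩ := Subspace.exists_eq_top_of_iUnion_eq_univ (k := k) (E := Submodule.span k T)
    (p := fun P : F => (P.1.restrictScalars k).comap (Submodule.span k T).subtype) (by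
      refine Set.eq_univ_of_forall fun g => ?_
      obtain ⟨P, hP, hg⟩ := hc g (hle2 g.2) ((mem_restrictTotalDegree _ _ _).mp (hle g.2))
      exact Set.mem_iUnion.mpr ⟨⟨P, hP⟩, hg⟩)
  obtain ⟨f, hf, hfP⟩ := h P.1 P.2
  have : (⟨f, Submodule.subset_span hf⟩ : Submodule.span k T) ∈
      (P.1.restrictScalars k).comap (Submodule.span k T).subtype := by
    rw [hP]; trivial
  exact hfP this

theorem level [Infinite k] (P : Ideal (MvPolynomial σ k)) [P.IsPrime] (i : ℕ) :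
    ∃ C : ℕ, ∀ D : ℕ, 1 ≤ D → ∀ T : Set (MvPolynomial σ k), (∀ f ∈ T, f.totalDegree ≤ D) →
      ∃ (F : Set (Ideal (MvPolynomial σ k))) (J : Ideal (MvPolynomial σ k)), F.Finite ∧
        (∀ Q ∈ F, Q.IsPrime ∧ P ≤ Q ∧ J ≤ Q ∧ td Q + i = td P) ∧
        (∀ L, 1 ≤ L → L ^ i * hf J (L * D) ≤ C * L ^ td P * D ^ td P) ∧
        ∀ Q ∈ (P ⊔ Ideal.span T).minimalPrimes, td Q + i ≤ td P → ∃ P' ∈ F, P' ≤ Q := by
  induction i with
  | zero =>
    obtain ⟨C, hC⟩ := hf_upper P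
    refine ⟨C * 2 ^ td P, fun D hD T _ => ⟨{P}, P, Set.finite_singleton P, ?_, ?_, ?_⟩⟩
    · rintro Q rfl
      exact ⟨inferInstance, le_rfl, le_rfl, rfl⟩
    · intro L hL
      have h1 : L * D + 1 ≤ 2 * L * D := by nlinarith
      calc L ^ 0 * hf P (L * D) ≤ C * (L * D + 1) ^ td P := by simpa using hC _
        _ ≤ C * (2 * L * D) ^ td P := by gcongr
        _ = _ := by rw [mul_pow, mul_pow]; ring
    · exact fun Q hQ _ => ⟨P, rfl, le_sup_left.trans hQ.1.2⟩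
  | succ i ih =>
    obtain ⟨C, hC⟩ := ih
    refine ⟨C * 2 ^ td P, fun D hD T hT => ?_⟩
    obtain ⟨F, J, hF, h1, h2, h3⟩ := hC D hD T hT
    have hF' : {P' ∈ F | ∃ f ∈ T, f ∉ P'}.Finite := hF.subset fun _ h => h.1
    obtain ⟨g, hgT, hgD, hg⟩ := exists_avoid T hT hF' fun P' h => h.2
    refine ⟨⋃ P' ∈ {P' ∈ F | ∃ f ∈ T, f ∉ P'}, (P' ⊔ Ideal.span {g}).minimalPrimes,
      sInf {P' ∈ F | ∃ f ∈ T, f ∉ P'} ⊔ Ideal.span {g},
      hF'.biUnion fun P' _ => Ideal.finite_minimalPrimes_of_isNoetherianRing _ _, ?_, ?_, ?_⟩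
    · intro Q hQ
      obtain ⟨P', hP', hQ⟩ := Set.mem_iUnion₂.mp hQ
      obtain ⟨a1, a2, -, a4⟩ := h1 P' hP'.1
      have := td_min (hg P' hP') hQ
      exact ⟨hQ.1.1, a2.trans (le_sup_left.trans hQ.1.2),
        (sup_le_sup_right (sInf_le hP') _).trans hQ.1.2, by omega⟩
    · intro L hL
      have a1 := tele (sInf {P' ∈ F | ∃ f ∈ T, f ∉ P'}) g D (fun f hf => by
        rw [Ideal.mem_sInf] at hf ⊢
        intro P' hP'
        exact ((h1 P' hP'.1).1.mem_or_mem (hf hP')).resolve_left (hg P' hP')) hgD L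
      have a2 := hf_anti (show J ≤ sInf {P' ∈ F | ∃ f ∈ T, f ∉ P'} from
        le_sInf fun P' hP' => (h1 P' hP'.1).2.2.1) (2 * L * D)
      have a3 := h2 (2 * L) (by omega)
      calc L ^ (i + 1) * hf (sInf {P' ∈ F | ∃ f ∈ T, f ∉ P'} ⊔ Ideal.span {g}) (L * D)
          = L ^ i * (L * hf (sInf {P' ∈ F | ∃ f ∈ T, f ∉ P'} ⊔ Ideal.span {g}) (L * D)) := by ring
        _ ≤ (2 * L) ^ i * hf J (2 * L * D) :=
          Nat.mul_le_mul (Nat.pow_le_pow_left (by omega) i) (a1.trans a2)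
        _ ≤ C * (2 * L) ^ td P * D ^ td P := a3
        _ = _ := by rw [mul_pow]; ring
    · intro Q hQ hi
      obtain ⟨P', hP', hle⟩ := h3 Q hQ (by omega)
      obtain ⟨a1, a2, -, a4⟩ := h1 P' hP'
      have := hQ.1.1
      have hT' : ∃ f ∈ T, f ∉ P' := by
        by_contra hc
        push Not at hc
        have h5 : Q ≤ P' := hQ.2 ⟨a1, sup_le a2 (Ideal.span_le.mpr hc)⟩ hle
        have := td_le h5
        omega
      obtain ⟨Q', hQ', hle'⟩ := Ideal.exists_minimalPrimes_le (I := P' ⊔ Ideal.span {g}) (J := Q)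
        (sup_le hle ((Ideal.span_singleton_le_iff_mem _).mpr ((le_sup_right.trans hQ.1.2) hgT)))
      exact ⟨Q', Set.mem_iUnion₂.mpr ⟨P', ⟨hP', hT'⟩, hQ'⟩, hle'⟩

theorem level_count [Infinite k] (P : Ideal (MvPolynomial σ k)) [P.IsPrime] (i : ℕ) :
    ∃ C : ℕ, ∀ D : ℕ, 1 ≤ D → ∀ T : Set (MvPolynomial σ k), (∀ f ∈ T, f.totalDegree ≤ D) →
      ∀ S : Finset (Ideal (MvPolynomial σ k)),
        (∀ Q ∈ S, Q ∈ (P ⊔ Ideal.span T).minimalPrimes ∧ td Q + i = td P) →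
        S.card ≤ C * D ^ i := by
  obtain ⟨C, hC⟩ := level P i
  refine ⟨C * (td P + 1) ^ td P, fun D hD T hT S hS => ?_⟩
  rcases S.eq_empty_or_nonempty with rfl | ⟨Q0, hQ0⟩
  · simp
  obtain ⟨d, hd⟩ : ∃ d, d + i = td P := ⟨_, (hS Q0 hQ0).2⟩
  obtain ⟨F, J, -, h1, h2, h3⟩ := hC D hD T hT
  obtain ⟨U, hU⟩ := hf_lower d S fun Q hQ => ⟨(hS Q hQ).1.1.1, by have := (hS Q hQ).2; omega⟩
  have a1 := hU J (fun Q hQ => by
    obtain ⟨P', hP', hle⟩ := h3 Q (hS Q hQ).1 (hS Q hQ).2.le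
    exact (h1 P' hP').2.2.1.trans hle) ((U + 1) * D)
  have a2 := hf_mono J (show U + d * ((U + 1) * D) ≤ (d + 1) * (U + 1) * D by nlinarith)
  have a3 := h2 ((d + 1) * (U + 1)) (Nat.succ_le_of_lt (by positivity))
  have a4 : S.card * ((U + 1) * D) ^ d ≤ hf J ((d + 1) * (U + 1) * D) :=
    le_trans (by gcongr; omega) (a1.trans a2)
  have a5 : ((d + 1) * (U + 1)) ^ i * ((U + 1) * D) ^ d * S.card
      ≤ ((d + 1) * (U + 1)) ^ i * ((U + 1) * D) ^ d * (C * (d + 1) ^ d * D ^ i) := by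
    calc ((d + 1) * (U + 1)) ^ i * ((U + 1) * D) ^ d * S.card
        = ((d + 1) * (U + 1)) ^ i * (S.card * ((U + 1) * D) ^ d) := by ring
      _ ≤ ((d + 1) * (U + 1)) ^ i * hf J ((d + 1) * (U + 1) * D) := by gcongr
      _ ≤ C * ((d + 1) * (U + 1)) ^ td P * D ^ td P := a3
      _ = _ := by rw [← hd]; simp only [pow_add, mul_pow]; ring
  refine (Nat.le_of_mul_le_mul_left a5 (by positivity)).trans ?_
  have a6 : (d + 1) ^ d ≤ (td P + 1) ^ td P :=
    (Nat.pow_le_pow_left (by omega) d).trans (Nat.pow_le_pow_right (by omega) (by omega))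
  gcongr

end Bez

theorem bezout [Infinite k] (P : Ideal (MvPolynomial σ k)) [P.IsPrime] :
    ∃ C : ℕ, ∀ D d : ℕ, 1 ≤ D → ∀ T : Set (MvPolynomial σ k), (∀ f ∈ T, f.totalDegree ≤ D) →
      ∀ S : Finset (Ideal (MvPolynomial σ k)),
        (∀ Q ∈ S, Q ∈ (P ⊔ Ideal.span T).minimalPrimes ∧ d ≤ td Q) →
        S.card ≤ C * D ^ (td P - d) := by
  choose C hC using Bez.level_count P
  refine ⟨∑ i ∈ Finset.range (td P + 1), C i, fun D d hD T hT S hS => ?_⟩
  have hle : ∀ Q ∈ S, td Q ≤ td P := fun Q hQ =>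
    have := (hS Q hQ).1.1.1
    Bez.td_le (le_sup_left.trans (hS Q hQ).1.1.2)
  rw [Finset.card_eq_sum_card_fiberwise (f := fun Q => td P - td Q) (s := S)
    (t := Finset.range (td P + 1)) (fun Q _ => by simp), Finset.sum_mul]
  refine Finset.sum_le_sum fun i _ => ?_
  rcases (S.filter fun Q => td P - td Q = i).eq_empty_or_nonempty with h | ⟨Q0, hQ0⟩
  · rw [h]; simp
  rw [Finset.mem_filter] at hQ0
  have h1 : i ≤ td P - d := by have := (hS Q0 hQ0.1).2; omega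
  refine (hC i D hD T hT _ fun Q hQ => ?_).trans (by gcongr)
  rw [Finset.mem_filter] at hQ
  have := hle Q hQ.1
  exact ⟨(hS Q hQ.1).1, by omega⟩

end Pool.Agent.P.MP_84b56d_ag
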