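import Pool.Agent.P.MP_84b56d_ag.Main

open MvPolynomial TopologicalSpace Topology
open scoped LinearAlgebra.Projectivization

namespace Pool.Agent.P.MP_84b56d_ag

variable {k : Type*} [Field k] {σ : Type}

theorem eval_smul_bihom {f : MvPolynomial (σ ⊕ σ) k} {d : ℕ × ℕ}
    (hf : f.IsWeightedHomogeneous (Sum.elim (fun _ => ((1, 0) : ℕ × ℕ)) fun _ => (0, 1)) d)
    (a b : k) (v w : σ → k) :
    eval (Sum.elim (a • v) (b • w)) f = a ^ d.1 * b ^ d.2 * eval (Sum.elim v w) f := by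
  classical
  rw [eval_eq, eval_eq, Finset.mul_sum]
  refine Finset.sum_congr rfl fun m hm => ?_
  rw [← hf (mem_support_iff.1 hm), Finsupp.weight_apply, Finsupp.sum, Prod.fst_sum, Prod.snd_sum,
    ← Finset.prod_pow_eq_pow_sum, ← Finset.prod_pow_eq_pow_sum, mul_left_comm,
    ← Finset.prod_mul_distrib, ← Finset.prod_mul_distrib]
  congr 1
  refine Finset.prod_congr rfl ?_
  rintro (i | i) - <;> simp [mul_pow]

theorem rep_smul {P : ℙ k (σ → k)} {v : σ → k} {h : v ≠ 0} (e : Projectivization.mk k v h = P) :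
    ∃ a : k, a ≠ 0 ∧ v = a • P.rep := by
  rw [← P.mk_rep, Projectivization.mk_eq_mk_iff] at e
  obtain ⟨a, ha⟩ := e
  exact ⟨a, a.ne_zero, ha.symm⟩

theorem exists_hom_of_open {t : TopologicalSpace (ℙ k (σ → k))}
    (ht : t = generateFrom {U | ∃ (f : MvPolynomial σ k) (d : ℕ), f.IsHomogeneous d ∧
      U = {x | eval x.rep f ≠ 0}}) {U : Set (ℙ k (σ → k))} (hU : IsOpen U) {x : ℙ k (σ → k)}
    (hx : x ∈ U) : ∃ (f : MvPolynomial σ k) (d : ℕ), f.IsHomogeneous d ∧ eval x.rep f ≠ 0 ∧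
      ∀ y, y ∉ U → eval y.rep f = 0 := by
  have hb := isTopologicalBasis_of_subbasis_of_inter ht (by
    rintro _ ⟨f, d, hf, rfl⟩ _ ⟨g, e, hg, rfl⟩
    refine ⟨f * g, d + e, hf.mul hg, ?_⟩
    ext y
    simp)
  obtain ⟨V, hV, hxV, hVU⟩ := hb.exists_subset_of_mem_open hx hU
  rcases hV with rfl | ⟨f, d, hf, rfl⟩
  · exact ⟨1, 0, isHomogeneous_one _ _, by simp, fun y hy => absurd (hVU (Set.mem_univ y)) hy⟩
  · exact ⟨f, d, hf, hxV, fun y hy => by_contra fun h => hy (hVU h)⟩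

theorem exists_ctx [Infinite k] [Finite σ] {t : TopologicalSpace (ℙ k (σ → k))}
    (ht : t = generateFrom {U | ∃ (f : MvPolynomial σ k) (d : ℕ), f.IsHomogeneous d ∧
      U = {x | eval x.rep f ≠ 0}}) (A : Set (ℙ k (σ → k))) [AddCommGroup A] (hA : IsClosed A)
    (hadd : ∀ x y : A, ∃ (D : MvPolynomial (σ ⊕ σ) k) (F : σ → MvPolynomial (σ ⊕ σ) k)
      (d e : ℕ × ℕ),
      D.IsWeightedHomogeneous (Sum.elim (fun _ => ((1, 0) : ℕ × ℕ)) fun _ => (0, 1)) d ∧
      (∀ l, (F l).IsWeightedHomogeneous (Sum.elim (fun _ => ((1, 0) : ℕ × ℕ)) fun _ => (0, 1)) e) ∧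
      eval (Sum.elim x.1.rep y.1.rep) D ≠ 0 ∧
      ∀ x' y' : A, eval (Sum.elim x'.1.rep y'.1.rep) D ≠ 0 →
        ∃ h : (fun l => eval (Sum.elim x'.1.rep y'.1.rep) (F l)) ≠ 0,
          Projectivization.mk k _ h = (x' + y').1) :
    ∃ c : Ctx k σ A, ∀ x v, v ∈ c.rep x ↔ ∃ h : v ≠ 0, Projectivization.mk k v h = x.1 := by
  classical
  choose D F d e hD hF hne hlaw using hadd
  obtain ⟨S, hS, hspan⟩ := (Submodule.fg_span_iff_fg_span_finset_subset
    (Set.range fun p : A × A => D p.1 p.2)).1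
    ((isNoetherianRing_iff_ideal_fg _).1 inferInstance (Ideal.span _))
  have hS' : ∀ f : S, ∃ p : A × A, D p.1 p.2 = f := fun f => hS f.2
  choose p hp using hS'
  let rep : A → Set (σ → k) := fun x => {v | ∃ h : v ≠ 0, Projectivization.mk k v h = x.1}
  have hrep : ∀ x : A, x.1.rep ∈ rep x := fun x => ⟨x.1.rep_nonzero, x.1.mk_rep⟩
  have hsm : ∀ x, ∀ v ∈ rep x, ∀ a : k, a ≠ 0 → a • v ∈ rep x := by
    rintro x v ⟨h, e⟩ a ha
    refine ⟨smul_ne_zero ha h, ?_⟩
    rw [← e, Projectivization.mk_eq_mk_iff']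
    exact ⟨a, rfl⟩
  have hF' : ∀ x y x' y' : A, ∀ v ∈ rep x', ∀ w ∈ rep y', eval (Sum.elim v w) (D x y) ≠ 0 →
      (fun l => eval (Sum.elim v w) (F x y l)) ∈ rep (x' + y') := by
    rintro x y x' y' v ⟨_, hv⟩ w ⟨_, hw⟩ h
    obtain ⟨a, ha, rfl⟩ := rep_smul hv
    obtain ⟨b, hb, rfl⟩ := rep_smul hw
    rw [eval_smul_bihom (hD x y)] at h
    have := hsm _ _ (hlaw x y x' y' (right_ne_zero_of_mul h)) _
      (mul_ne_zero (pow_ne_zero (e x y).1 ha) (pow_ne_zero (e x y).2 hb))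
    rwa [show (fun l => eval (Sum.elim (a • x'.1.rep) (b • y'.1.rep)) (F x y l)) =
      (a ^ (e x y).1 * b ^ (e x y).2) • fun l => eval (Sum.elim x'.1.rep y'.1.rep) (F x y l) from
      funext fun l => by rw [eval_smul_bihom (hF x y l)]; rfl]
  have hvan : ∀ (x : A) (f : MvPolynomial σ k) (n : ℕ), f.IsHomogeneous n → eval x.1.rep f = 0 →
      ∀ w ∈ rep x, eval w f = 0 := by
    rintro x f n hf h w ⟨_, hw⟩
    obtain ⟨a, -, rfl⟩ := rep_smul hw
    rw [eval_smul_of_hom hf, h, mul_zero]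
  refine ⟨{
    rep := rep
    ne_zero := fun x v hv => hv.1
    nonempty := fun x => ⟨_, hrep x⟩
    smul_mem := hsm
    exists_smul := ?_
    eq_of_mem := ?_
    cone_closed := ?_
    isClosed_iff := ?_
    N := S.card
    law := fun α l => D (p (S.equivFin.symm α)).1 (p (S.equivFin.symm α)).2 *
      F (p (S.equivFin.symm α)).1 (p (S.equivFin.symm α)).2 l
    law_mem := ?_
    law_cover := ?_ }, fun x v => Iff.rfl⟩
  · rintro x v ⟨hv, e⟩ w ⟨hw, e'⟩
    obtain ⟨a, ha⟩ := (Projectivization.mk_eq_mk_iff' k w v hw hv).1 (e'.trans e.symm)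
    exact ⟨a, ha.symm⟩
  · rintro x y v ⟨hv, e⟩ ⟨_, e'⟩
    exact Subtype.ext (e.symm.trans e')
  · intro v hv h
    by_contra hcon
    have hx : Projectivization.mk k v hv ∈ Aᶜ := fun hx => hcon ⟨⟨_, hx⟩, hv, rfl⟩
    obtain ⟨f, n, hf, h1, h2⟩ := exists_hom_of_open ht hA.isOpen_compl hx
    have h3 := h f fun x w hw => hvan x f n hf (h2 _ (not_not.2 x.2)) w hw
    obtain ⟨a, ha, e⟩ := rep_smul (rfl : Projectivization.mk k v hv = _)
    rw [e, eval_smul_of_hom hf] at h3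
    exact mul_ne_zero (pow_ne_zero _ ha) h1 h3
  · intro Y
    constructor
    · intro hY x hx
      obtain ⟨Y', hY', rfl⟩ := isClosed_induced_iff.1 hY
      by_contra hxY
      obtain ⟨f, n, hf, h1, h2⟩ := exists_hom_of_open ht hY'.isOpen_compl hxY
      exact h1 (hx f (fun y hy w hw => hvan y f n hf (h2 _ (not_not.2 hy)) w hw) _ (hrep x))
    · intro h
      refine isOpen_compl_iff.1 (isOpen_iff_forall_mem_open.2 fun x hx => ?_)
      have h1 := mt (h x) hx
      push Not at h1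
      obtain ⟨f, hf, v, hv, hne⟩ := h1
      obtain ⟨n, hn⟩ : ∃ n, eval v (homogeneousComponent n f) ≠ 0 := by
        by_contra hcon
        push Not at hcon
        refine hne ?_
        rw [← sum_homogeneousComponent f, map_sum]
        exact Finset.sum_eq_zero fun n _ => hcon n
      refine ⟨Subtype.val ⁻¹' {y | eval y.rep (homogeneousComponent n f) ≠ 0}, fun y hy hyY => ?_,
        IsOpen.preimage continuous_subtype_val ?_, fun h0 => ?_⟩
      · exact hy (eval_homComp_eq_zero f _ (fun a ha => hf y hyY _ (hsm y _ (hrep y) a ha)) n)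
      · subst ht
        exact isOpen_generateFrom_of_mem ⟨_, n, homogeneousComponent_isHomogeneous n f, rfl⟩
      · exact hn (hvan x _ n (homogeneousComponent_isHomogeneous n f) h0 v hv)
  · intro α x y v hv w hw l hl
    rw [map_mul] at hl
    have := hsm _ _ (hF' _ _ x y v hv w hw (left_ne_zero_of_mul hl)) _ (left_ne_zero_of_mul hl)
    simp only [map_mul]
    exact this
  · intro x y v hv w hw
    have h1 : eval (Sum.elim v w) (D x y) ≠ 0 := by
      obtain ⟨a, ha, rfl⟩ := rep_smul hv.2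
      obtain ⟨b, hb, rfl⟩ := rep_smul hw.2
      rw [eval_smul_bihom (hD x y)]
      exact mul_ne_zero (mul_ne_zero (pow_ne_zero _ ha) (pow_ne_zero _ hb)) (hne x y)
    obtain ⟨f, hf, h2⟩ : ∃ f ∈ S, eval (Sum.elim v w) f ≠ 0 := by
      by_contra hcon
      push Not at hcon
      refine h1 (eval_eq_zero_of_span (T := (S : Set _)) hcon _ ?_)
      change _ ∈ Submodule.span _ _
      rw [← hspan]
      exact Submodule.subset_span ⟨(x, y), rfl⟩
    have h3 : eval (Sum.elim v w) (D (p ⟨f, hf⟩).1 (p ⟨f, hf⟩).2) ≠ 0 := by rwa [hp]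
    obtain ⟨l, hl⟩ := Function.ne_iff.1 (hF' _ _ x y v hv w hw h3).1
    refine ⟨S.equivFin ⟨f, hf⟩, l, ?_⟩
    rw [Equiv.symm_apply_apply, map_mul]
    exact mul_ne_zero h3 hl

theorem exists_ch {G : Type*} [TopologicalSpace G] (h : 2 ≤ topologicalKrullDim G) :
    ∃ W : Set G, Ch 2 W := by
  obtain ⟨l, hl⟩ := (Order.le_krullDim_iff (n := 2)).1 h
  have h01 : l ⟨0, by omega⟩ < l ⟨1, by omega⟩ := l.strictMono (by simp [Fin.lt_def])
  have h12 : l ⟨1, by omega⟩ < l ⟨2, by omega⟩ := l.strictMono (by simp [Fin.lt_def])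
  exact ⟨_, Ch.succ 1 _ _ (Ch.succ 0 _ _ (Ch.zero _ (l _).isClosed (l _).isIrreducible) h01
    (l _).isClosed (l _).isIrreducible) h12 (l _).isClosed (l _).isIrreducible⟩

theorem final [IsAlgClosed k] [CharZero k] [Finite σ] {t : TopologicalSpace (ℙ k (σ → k))}
    (A : Set (ℙ k (σ → k))) [AddCommGroup A] (hA : IsIrreducible A) (c : Ctx k σ A)
    (hc : ∀ x v, v ∈ c.rep x ↔ ∃ h : v ≠ 0, Projectivization.mk k v h = x.1)
    (hdim : 2 ≤ topologicalKrullDim A) (Z : Set (ℙ k (σ → k))) (hZ : Z.Finite) :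
    ∃ R : Subring k, (∃ s : Finset k, R = Subring.closure (s : Set k)) ∧
      ∃ a b : Finset (MvPolynomial σ R), (∀ f ∈ a, ∃ d, f.IsHomogeneous d) ∧
        (∀ g ∈ b, ∃ d, g.IsHomogeneous d) ∧
        Ideal.span (map R.subtype '' (a : Set (MvPolynomial σ R))) =
          vanishingIdeal k {v | ∃ h : v ≠ 0, Projectivization.mk k v h ∈ A} ∧
        (∀ x ∈ A, x ∈ Z ↔ ∀ g ∈ b, eval x.rep (map R.subtype g) = 0) ∧
        A \ Z ⊆ closure {P | P ∈ A \ Z ∧
          (∃ (v : σ → R) (h : (fun i => (v i : k)) ≠ 0), Projectivization.mk k _ h = P) ∧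
          ∀ s : Ideal R, s.IsPrime → s.height = 1 →
            ∃ (v : σ → R) (h : (fun i => (v i : k)) ≠ 0), Projectivization.mk k _ h = P ∧
              (∃ i, v i ∉ s) ∧ ∃ g ∈ b, eval v g ∉ s} := by
  classical
  haveI := Subtype.irreducibleSpace hA
  haveI := Fintype.ofFinite σ
  let Z' : Set A := Subtype.val ⁻¹' Z
  have hZ' : Z'.Finite := hZ.preimage Subtype.val_injective.injOn
  choose zr hzr j hj using c.exists_rep_one
  obtain ⟨T, hT, hTs⟩ := c.exists_gens Set.univ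
  obtain ⟨R, hR, hE, hdense⟩ := c.main (exists_ch hdim) Z' hZ'
    ((⋃ f ∈ T, Set.range fun m => coeff m f) ∪ ⋃ z ∈ Z', Set.range (zr z))
    ((T.finite_toSet.biUnion fun f _ => finite_coeffs f).union
      (hZ'.biUnion fun z _ => Set.finite_range _)) zr fun z hz =>
    ⟨hzr z, ⟨j z, hj z⟩, fun i => Or.inr (Set.mem_biUnion hz ⟨i, rfl⟩)⟩
  have hlift : ∀ f : T, ∃ g : MvPolynomial σ R, map R.subtype g = f := fun f => by
    refine mem_range_map_iff_coeffs_subset.2 fun a ha => ?_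
    obtain ⟨m, -, rfl⟩ := mem_coeffs_iff.1 ha
    exact ⟨⟨_, hE (Or.inl (Set.mem_biUnion f.2 ⟨m, rfl⟩))⟩, rfl⟩
  choose lf hlf using hlift
  let zR : hZ'.toFinset → σ → R := fun z i =>
    ⟨zr z i, hE (Or.inr (Set.mem_biUnion (hZ'.mem_toFinset.1 z.2) ⟨i, rfl⟩))⟩
  let mn : (hZ'.toFinset → σ × σ) → MvPolynomial σ R := fun ch =>
    ∏ z, (C (zR z (ch z).2) * X (ch z).1 - C (zR z (ch z).1) * X (ch z).2)
  have hmn : ∀ ch (v : σ → k), eval v (map R.subtype (mn ch)) =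
      ∏ z, (v (ch z).1 * zr z (ch z).2 - v (ch z).2 * zr z (ch z).1) := by
    intro ch v
    simp only [mn, map_prod, map_sub, map_mul, map_C, map_X, eval_C, eval_X, zR, Subring.coe_subtype]
    exact Finset.prod_congr rfl fun z _ => by ring
  refine ⟨R, hR, Finset.univ.image lf, Finset.univ.image mn, ?_, ?_, ?_, ?_, ?_⟩
  · intro f hf
    obtain ⟨g, -, rfl⟩ := Finset.mem_image.1 hf
    obtain ⟨d, hd⟩ := hT g g.2
    exact ⟨d, IsHomogeneous.of_map R.subtype_injective (by rwa [hlf])⟩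
  · intro f hf
    obtain ⟨ch, -, rfl⟩ := Finset.mem_image.1 hf
    exact ⟨_, IsHomogeneous.prod _ _ (fun _ => 1) fun z _ =>
      (isHomogeneous_C_mul_X _ _).sub (isHomogeneous_C_mul_X _ _)⟩
  · have : map R.subtype '' ((Finset.univ.image lf : Finset _) : Set (MvPolynomial σ R)) = T := by
      ext f
      simp only [Finset.coe_image, Finset.coe_univ, Set.image_univ, Set.mem_image, Set.mem_range,
        exists_exists_eq_and, hlf, Finset.mem_coe]
      exact ⟨fun ⟨g, hg⟩ => hg ▸ g.2, fun h => ⟨⟨f, h⟩, rfl⟩⟩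
    rw [this, hTs]
    ext f
    rw [mem_vanishingIdeal_iff, c.mem_I]
    constructor
    · rintro h v ⟨hv, hvA⟩
      exact h ⟨_, hvA⟩ trivial v ((hc _ _).2 ⟨hv, rfl⟩)
    · intro h y _ w hw
      obtain ⟨hw0, e⟩ := (hc _ _).1 hw
      exact h w ⟨hw0, e ▸ y.2⟩
  · intro x hx
    have hxr : x.rep ∈ c.rep ⟨x, hx⟩ := (hc _ _).2 ⟨x.rep_nonzero, x.mk_rep⟩
    constructor
    · intro hxZ g hg
      obtain ⟨ch, -, rfl⟩ := Finset.mem_image.1 hg
      rw [hmn]
      refine Finset.prod_eq_zero (Finset.mem_univ ⟨⟨x, hx⟩, hZ'.mem_toFinset.2 hxZ⟩) ?_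
      obtain ⟨a, ha⟩ := c.exists_smul _ _ hxr _ (hzr ⟨x, hx⟩)
      simp only [ha, Pi.smul_apply, smul_eq_mul]
      ring
    · intro h
      by_contra hxZ
      have : ∀ z : hZ'.toFinset, ∃ p : σ × σ, x.rep p.1 * zr z p.2 - x.rep p.2 * zr z p.1 ≠ 0 := by
        intro z
        by_contra hcon
        push Not at hcon
        have e := c.eq_of_minor hxr (hzr z) fun i j => hcon (i, j)
        have := hZ'.mem_toFinset.1 z.2
        rw [← e] at this
        exact hxZ this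
      choose ch hch using this
      have := h _ (Finset.mem_image_of_mem mn (Finset.mem_univ ch))
      rw [hmn] at this
      exact Finset.prod_ne_zero_iff.2 (fun z _ => hch z) this
  · refine Set.sdiff_subset.trans ((Subtype.dense_iff.1 hdense).trans (closure_mono ?_))
    rintro _ ⟨x, ⟨hxZ, ⟨v, hv, hvR⟩, h⟩, rfl⟩
    refine ⟨⟨x.2, hxZ⟩, ⟨fun i => ⟨v i, hvR i⟩, (hc _ _).1 hv⟩, fun s hs h1 => ?_⟩
    obtain ⟨u, hu, hu1, hu2⟩ := h s hs h1
    obtain ⟨hu0, e⟩ := (hc _ _).1 hu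
    refine ⟨u, hu0, e, hu1, ?_⟩
    choose i i' hi using fun z : hZ'.toFinset => hu2 z (hZ'.mem_toFinset.1 z.2)
    refine ⟨mn fun z => (i z, i' z), Finset.mem_image_of_mem mn (Finset.mem_univ _), fun hm => ?_⟩
    simp only [mn, map_prod] at hm
    obtain ⟨z, -, hz⟩ := Ideal.IsPrime.prod_mem_iff.1 hm
    refine hi z _ ?_ hz
    simp only [map_sub, map_mul, eval_C, eval_X, zR]
    push_cast
    ring

end Pool.Agent.P.MP_84b56d_ag
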