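import Pool.Agent.P.MP_84b56d_ag.Defs

open MvPolynomial

namespace Pool.Agent.P.MP_84b56d_ag

namespace DimP

variable {k : Type*} [Field k]

theorem card_le {B : Type*} [CommRing B] [Algebra k B] [Algebra.FiniteType k B]
    {ι : Type} [Fintype ι] (u : ι → B) (hu : AlgebraicIndependent k u) :
    Fintype.card ι ≤ Cardinal.toNat (Algebra.trdeg k B) := by
  have h1 := hu.lift_cardinalMk_le_trdeg
  have h2 : Algebra.trdeg k B < Cardinal.aleph0 := trdeg_lt_aleph0_of_finiteType
  obtain ⟨n, hn⟩ := Cardinal.lt_aleph0.mp h2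
  rw [hn] at h1 ⊢
  simpa using h1

theorem card_eq {B : Type*} [CommRing B] [IsDomain B] [Algebra k B]
    {ι : Type} [Fintype ι] (u : ι → B) (hu : IsTranscendenceBasis k u) :
    Cardinal.toNat (Algebra.trdeg k B) = Fintype.card ι := by
  have h1 := hu.lift_cardinalMk_eq_trdeg
  have h2 := congrArg Cardinal.toNat h1
  simpa using h2.symm

theorem exists_indep {B : Type*} [CommRing B] [IsDomain B] [Algebra k B] [Algebra.FiniteType k B]
    (s : Set B) [Algebra.IsAlgebraic (Algebra.adjoin k s) B] :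
    ∃ u : Fin (Cardinal.toNat (Algebra.trdeg k B)) → B,
      (∀ j, u j ∈ s) ∧ AlgebraicIndependent k u := by
  obtain ⟨t, hts, ht⟩ := exists_isTranscendenceBasis_subset (R := k) s
  have h1 := ht.cardinalMk_eq_trdeg
  have h2 : Algebra.trdeg k B < Cardinal.aleph0 := trdeg_lt_aleph0_of_finiteType
  have hfin : Finite t := Cardinal.mk_lt_aleph0_iff.mp (h1 ▸ h2)
  have h3 : Nat.card t = Cardinal.toNat (Algebra.trdeg k B) := by
    rw [← h1]; rfl
  have e : t ≃ Fin (Cardinal.toNat (Algebra.trdeg k B)) := Finite.equivFinOfCardEq h3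
  exact ⟨fun j => (e.symm j : B), fun j => hts (e.symm j).2, ht.1.comp e.symm e.symm.injective⟩

theorem lt_of_surj {B C : Type*} [CommRing B] [IsDomain B] [Algebra k B] [Algebra.FiniteType k B]
    [CommRing C] [IsDomain C] [Algebra k C] [Algebra.FiniteType k C]
    (f : B →ₐ[k] C) (hf : Function.Surjective f) (g : B) (hg : g ≠ 0) (hfg : f g = 0) :
    Cardinal.toNat (Algebra.trdeg k C) < Cardinal.toNat (Algebra.trdeg k B) := by
  have : Algebra.IsAlgebraic (Algebra.adjoin k (Set.univ : Set C)) C :=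
    ⟨fun x => isAlgebraic_algebraMap
      (⟨x, Algebra.subset_adjoin (Set.mem_univ x)⟩ : Algebra.adjoin k (Set.univ : Set C))⟩
  obtain ⟨u, -, hu⟩ := exists_indep (k := k) (Set.univ : Set C)
  choose v hv using fun j => hf (u j)
  have hfv : f ∘ v = u := funext hv
  have hvi : AlgebraicIndependent k v := AlgebraicIndependent.of_comp f (hfv ▸ hu)
  have htr : Transcendental (Algebra.adjoin k (Set.range v)) g := by
    intro halg
    obtain ⟨a, ha, hdvd⟩ := halg.exists_nonzero_dvd (mem_nonZeroDivisors_of_ne_zero hg)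
    obtain ⟨a, hmem⟩ := a
    have hmem' := hmem
    rw [Algebra.adjoin_range_eq_range_aeval] at hmem'
    obtain ⟨F, hF⟩ := hmem'
    have hF' : aeval v F = a := hF
    have h0 : f a = 0 := by
      obtain ⟨c, hc⟩ := hdvd
      have hc' : a = g * c := hc
      rw [hc', map_mul, hfg, zero_mul]
    have h1 : aeval u F = 0 := by
      rw [← hfv, ← h0, ← hF', ← AlgHom.comp_apply, comp_aeval]
      rfl
    have h2 : F = 0 := hu.eq_zero_of_aeval_eq_zero F h1
    apply ha
    apply Subtype.ext
    change a = 0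
    rw [← hF', h2, map_zero]
  have h3 := card_le _ ((hvi.option_iff_transcendental g).mpr htr)
  simpa [Nat.succ_le_iff] using h3

theorem le_succ_of_height {B C : Type*} [CommRing B] [IsDomain B] [Algebra k B]
    [CommRing C] [IsDomain C] [Algebra k C] [Algebra.FiniteType k C] {d : ℕ}
    (φ : MvPolynomial (Fin d) k →ₐ[k] B) (hinj : Function.Injective φ) (hfin : φ.Finite)
    (ψ : B →ₐ[k] C) (hq : (RingHom.ker ψ).height ≤ 1) :
    d ≤ Cardinal.toNat (Algebra.trdeg k C) + 1 := by
  classical
  let : Algebra (MvPolynomial (Fin d) k) B := φ.toRingHom.toAlgebra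
  have : Module.Finite (MvPolynomial (Fin d) k) B := hfin
  have : FaithfulSMul (MvPolynomial (Fin d) k) B :=
    (faithfulSMul_iff_algebraMap_injective _ _).mpr hinj
  obtain ⟨q, hqdef⟩ : ∃ q : Ideal B, q = RingHom.ker ψ := ⟨_, rfl⟩
  rw [← hqdef] at hq
  have hqp : q.IsPrime := hqdef ▸ RingHom.ker_isPrime ψ
  have hmem : ∀ F : MvPolynomial (Fin d) k,
      F ∈ q.under (MvPolynomial (Fin d) k) ↔ ψ (φ F) = 0 := by
    intro F
    rw [Ideal.under_def, Ideal.mem_comap, hqdef, RingHom.mem_ker]
    rfl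
  have hev : ∀ {ι : Type} (e : ι → Fin d) (F : MvPolynomial ι k),
      aeval (fun i => ψ (φ (X (e i)))) F = ψ (φ (rename e F)) := by
    intro ι e F
    have : aeval (fun i => ψ (φ (X (e i)))) = (ψ.comp φ).comp (rename e) := by
      ext i; simp
    rw [this]; rfl
  by_cases hp : q.under (MvPolynomial (Fin d) k) = ⊥
  · have hind : AlgebraicIndependent k fun i : Fin d => ψ (φ (X (id i))) := by
      rw [algebraicIndependent_iff]
      intro F hF
      rw [hev, ← hmem, hp, Ideal.mem_bot] at hF
      simpa using hF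
    have := card_le _ hind
    simp only [Fintype.card_fin] at this
    omega
  · obtain ⟨π, hπ, hπp⟩ :=
      (inferInstance : (q.under (MvPolynomial (Fin d) k)).IsPrime).exists_mem_prime_of_ne_bot hp
    have : (Ideal.span {π}).IsPrime := (Ideal.span_singleton_prime hπp.ne_zero).mpr hπp
    obtain ⟨q', hq'q, hq'p, hq'l⟩ := Ideal.exists_ideal_le_liesOver_of_le
      (p := Ideal.span {π}) (q := q.under (MvPolynomial (Fin d) k)) q
      ((Ideal.span_singleton_le_iff_mem _).mpr hπ)
    have hπq' : φ π ∈ q' := by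
      have : π ∈ q'.under (MvPolynomial (Fin d) k) := by
        rw [← hq'l.over]; exact Ideal.mem_span_singleton_self π
      exact this
    have hq'ne : (⊥ : Ideal B) < q' := by
      refine bot_lt_iff_ne_bot.mpr fun h => ?_
      rw [h, Ideal.mem_bot] at hπq'
      exact hπp.ne_zero (hinj (by rw [hπq', map_zero]))
    have hqq : q' = q := by
      by_contra hne
      have h1 := Ideal.height_add_one_le_of_lt_of_isPrime hq'ne
      have h2 := Ideal.height_add_one_le_of_lt_of_isPrime (lt_of_le_of_ne hq'q hne)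
      have h3 : (1 : ℕ∞) ≤ q'.height := le_trans le_add_self h1
      have h4 : (1 : ℕ∞) + 1 ≤ 1 := le_trans (by gcongr) (h2.trans hq)
      norm_num at h4
    have hspan : q.under (MvPolynomial (Fin d) k) = Ideal.span {π} := by
      rw [← hqq]; exact hq'l.over.symm
    have hvars : π.vars ≠ ∅ := by
      intro h
      rw [vars_eq_empty_iff_eq_C] at h
      have hc : π.coeff 0 ≠ 0 := by
        intro h0
        exact hπp.ne_zero (by rw [h, h0, map_zero])
      refine hπp.not_isUnit ?_
      rw [h]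
      exact (IsUnit.mk0 _ hc).map (MvPolynomial.C : k →+* MvPolynomial (Fin d) k)
    obtain ⟨j, hj⟩ := Finset.nonempty_iff_ne_empty.mpr hvars
    have hind : AlgebraicIndependent k
        fun i : {i : Fin d // i ≠ j} => ψ (φ (X (Subtype.val i))) := by
      rw [algebraicIndependent_iff]
      intro F hF
      rw [hev, ← hmem, hspan, Ideal.mem_span_singleton] at hF
      obtain ⟨G, hG⟩ := hF
      by_contra hF0
      have hr : rename (Subtype.val : {i : Fin d // i ≠ j} → Fin d) F ≠ 0 := fun h =>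
        hF0 (rename_injective _ Subtype.val_injective (by rw [h, map_zero]))
      have hG0 : G ≠ 0 := by
        rintro rfl
        exact hr (by rw [hG, mul_zero])
      have h1 : j ∈ (rename (Subtype.val : {i : Fin d // i ≠ j} → Fin d) F).vars := by
        rw [mem_vars_iff_degreeOf_ne_zero] at hj ⊢
        rw [hG, degreeOf_mul_eq hπp.ne_zero hG0]
        omega
      obtain ⟨i, -, hi⟩ := mem_vars_rename _ _ h1
      exact i.2 hi
    have := card_le _ hind
    simp only [ne_eq, Fintype.card_subtype_compl, Fintype.card_fin, Fintype.card_unique] at this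
    omega

end DimP

variable {k : Type*} [Field k] {σ : Type} [Finite σ]

theorem le_td (P : Ideal (MvPolynomial σ k)) [P.IsPrime] {d : ℕ}
    (u : Fin d → MvPolynomial σ k ⧸ P) (hu : AlgebraicIndependent k u) : d ≤ td P := by
  simpa [td] using DimP.card_le u hu

theorem td_basis (P : Ideal (MvPolynomial σ k)) [P.IsPrime] :
    ∃ e : Fin (td P) → σ, AlgebraicIndependent k fun j => Ideal.Quotient.mk P (X (e j)) := by
  have htop : Algebra.adjoin k (Set.range fun i : σ => Ideal.Quotient.mk P (X i)) = ⊤ := by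
    rw [Algebra.adjoin_range_eq_range_aeval, eq_top_iff]
    intro x _
    obtain ⟨F, rfl⟩ := Ideal.Quotient.mk_surjective x
    refine ⟨F, ?_⟩
    have : aeval (fun i : σ => Ideal.Quotient.mk P (X i)) = Ideal.Quotient.mkₐ k P := by
      ext i; simp
    rw [this]; rfl
  have : Algebra.IsAlgebraic
      (Algebra.adjoin k (Set.range fun i : σ => Ideal.Quotient.mk P (X i)))
      (MvPolynomial σ k ⧸ P) :=
    ⟨fun x => isAlgebraic_algebraMap
      (⟨x, htop ▸ Algebra.mem_top⟩ :
        Algebra.adjoin k (Set.range fun i : σ => Ideal.Quotient.mk P (X i)))⟩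
  obtain ⟨u, hu, hind⟩ :=
    DimP.exists_indep (k := k) (Set.range fun i : σ => Ideal.Quotient.mk P (X i))
  choose e he using hu
  refine ⟨e, ?_⟩
  have : (fun j => Ideal.Quotient.mk P (X (e j))) = u := funext he
  exact this ▸ hind

theorem exists_noether (P : Ideal (MvPolynomial σ k)) [P.IsPrime] :
    ∃ φ : MvPolynomial (Fin (td P)) k →ₐ[k] MvPolynomial σ k ⧸ P,
      Function.Injective φ ∧ φ.Finite := by
  obtain ⟨s, φ, hinj, hfin⟩ := exists_finite_inj_algHom_of_fg k (MvPolynomial σ k ⧸ P)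
  have hs : td P = s := by
    let : Algebra (MvPolynomial (Fin s) k) (MvPolynomial σ k ⧸ P) := φ.toRingHom.toAlgebra
    have : Module.Finite (MvPolynomial (Fin s) k) (MvPolynomial σ k ⧸ P) := hfin
    have : FaithfulSMul (MvPolynomial (Fin s) k) (MvPolynomial σ k ⧸ P) :=
      (faithfulSMul_iff_algebraMap_injective _ _).mpr hinj
    have : IsScalarTower k (MvPolynomial (Fin s) k) (MvPolynomial σ k ⧸ P) :=
      IsScalarTower.of_algebraMap_eq fun x => (φ.commutes x).symm
    have hb := (IsTranscendenceBasis.mvPolynomial (Fin s) k).algebraMap_comp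
      (A := MvPolynomial σ k ⧸ P)
    simpa [td] using DimP.card_eq _ hb
  subst hs
  exact ⟨φ, hinj, hfin⟩

theorem td_lt {P Q : Ideal (MvPolynomial σ k)} [P.IsPrime] [Q.IsPrime] (h : P < Q) :
    td Q < td P := by
  obtain ⟨g, hgQ, hgP⟩ := SetLike.exists_of_lt h
  refine DimP.lt_of_surj (Ideal.Quotient.factorₐ k h.le) ?_ (Ideal.Quotient.mk P g) ?_ ?_
  · intro x
    obtain ⟨F, rfl⟩ := Ideal.Quotient.mk_surjective x
    exact ⟨Ideal.Quotient.mk P F, rfl⟩
  · exact fun h0 => hgP (Ideal.Quotient.eq_zero_iff_mem.mp h0)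
  · exact Ideal.Quotient.eq_zero_iff_mem.mpr hgQ

theorem td_le_succ {P Q : Ideal (MvPolynomial σ k)} [P.IsPrime] (g : MvPolynomial σ k)
    (hQ : Q ∈ (P ⊔ Ideal.span {g}).minimalPrimes) : td P ≤ td Q + 1 := by
  have : Q.IsPrime := hQ.isPrime
  have hPQ : P ≤ Q := le_sup_left.trans hQ.le
  obtain ⟨φ, hinj, hfin⟩ := exists_noether P
  refine DimP.le_succ_of_height φ hinj hfin (Ideal.Quotient.factorₐ k hPQ) ?_
  have hker : RingHom.ker (Ideal.Quotient.factorₐ k hPQ) = Q.map (Ideal.Quotient.mk P) := by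
    ext x
    obtain ⟨F, rfl⟩ := Ideal.Quotient.mk_surjective x
    rw [RingHom.mem_ker, Ideal.mem_quotient_iff_mem hPQ]
    exact Ideal.Quotient.eq_zero_iff_mem
  rw [hker]
  exact Ideal.map_height_le_one_of_mem_minimalPrimes hQ

theorem td_ker_eval (v : σ → k) : td (RingHom.ker (eval v : MvPolynomial σ k →+* k)) = 0 := by
  have : Algebra.IsAlgebraic k
      (MvPolynomial σ k ⧸ RingHom.ker (eval v : MvPolynomial σ k →+* k)) := by
    refine ⟨fun x => ?_⟩
    obtain ⟨F, rfl⟩ := Ideal.Quotient.mk_surjective x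
    have : Ideal.Quotient.mk (RingHom.ker (eval v : MvPolynomial σ k →+* k)) F
        = algebraMap k _ (eval v F) := by
      rw [← Ideal.Quotient.mk_algebraMap, Ideal.Quotient.eq, RingHom.mem_ker]
      simp
    rw [this]
    exact isAlgebraic_algebraMap _
  simp [td, trdeg_eq_zero]

end Pool.Agent.P.MP_84b56d_ag
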