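import Pool.Agent.P.MP_84b56d_ag.Defs

namespace Pool.Agent.P.MP_84b56d_ag

namespace CountP

theorem mem_box {r N : ℕ} {a : Fin r → ℤ} : a ∈ box r N ↔ ∀ i, |a i| ≤ N := by
  simp [box, Fintype.mem_piFinset, abs_le]

theorem card_box (r N : ℕ) : (box r N).card = (2 * N + 1) ^ r := by
  have : (Finset.Icc (-(N : ℤ)) N).card = 2 * N + 1 := by
    rw [Int.card_Icc]
    omega
  simp [box, Fintype.card_piFinset, this]

theorem box_mono {r N N' : ℕ} (h : N ≤ N') : box r N ⊆ box r N' := by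
  intro a ha
  rw [mem_box] at ha ⊢
  exact fun i => (ha i).trans (by exact_mod_cast h)

/-- the cube of radius `N` is covered by at most `m / 2` classes -/
def Small {r : ℕ} (K : AddSubgroup ((Fin r → ℤ) × ℤ)) (N m : ℕ) : Prop :=
  ∃ T : Finset (Fin r → ℤ), 2 * T.card ≤ m ∧ ∀ a ∈ box r N, ∃ b ∈ T, (a - b, (0 : ℤ)) ∈ K

theorem Small.anti {r : ℕ} {K : AddSubgroup ((Fin r → ℤ) × ℤ)} {N N' m : ℕ} (h : Small K N' m)
    (hN : N ≤ N') : Small K N m := by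
  obtain ⟨T, h1, h2⟩ := h
  exact ⟨T, h1, fun a ha => h2 a (box_mono hN ha)⟩

open Classical in
/-- the bad points of one subgroup -/
noncomputable def Bad {r : ℕ} (K : AddSubgroup ((Fin r → ℤ) × ℤ)) (N : ℕ) : Finset (Fin r → ℤ) :=
  (box r N).filter fun a => (a, (-1 : ℤ)) ∈ K

theorem mem_Bad {r : ℕ} {K : AddSubgroup ((Fin r → ℤ) × ℤ)} {N : ℕ} {a : Fin r → ℤ} :
    a ∈ Bad K N ↔ a ∈ box r N ∧ (a, (-1 : ℤ)) ∈ K := by
  simp [Bad]

theorem card_Bad {r : ℕ} {K : AddSubgroup ((Fin r → ℤ) × ℤ)} {N m : ℕ} (h : ¬ Small K N m) :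
    m * (Bad K N).card ≤ 2 ^ (r + 1) * (box r N).card := by
  classical
  let L : AddSubgroup (Fin r → ℤ) := K.comap (AddMonoidHom.inl (Fin r → ℤ) ℤ)
  let f : (Fin r → ℤ) → (Fin r → ℤ) ⧸ L := QuotientAddGroup.mk
  have hf : ∀ a b, f a = f b ↔ (a - b, (0 : ℤ)) ∈ K := by
    intro a b
    rw [QuotientAddGroup.eq_iff_sub_mem]
    rfl
  obtain ⟨T, hT1, hT2, hT3⟩ := Finset.exists_subset_injOn_image_eq_of_surjOn (f := f)
    (box r N : Set (Fin r → ℤ)) ((box r N).image f) (by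
      intro y hy
      simpa using hy)
  have hm : m ≤ 2 * T.card := by
    by_contra hlt
    refine h ⟨T, by omega, fun a ha => ?_⟩
    have : f a ∈ T.image f := by rw [hT3]; exact Finset.mem_image_of_mem f ha
    obtain ⟨b, hb, e⟩ := Finset.mem_image.1 this
    exact ⟨b, hb, (hf a b).1 e.symm⟩
  have hinj : (T ×ˢ Bad K N).card ≤ (box r (2 * N)).card := by
    refine Finset.card_le_card_of_injOn (fun z => z.1 + z.2) ?_ ?_
    · rintro ⟨t, β⟩ hz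
      rw [Finset.mem_coe, Finset.mem_product] at hz
      have h1 := mem_box.1 (hT1 hz.1)
      have h2 := mem_box.1 (mem_Bad.1 hz.2).1
      rw [Finset.mem_coe, mem_box]
      intro i
      have := abs_add_le (t i) (β i)
      have h3 := h1 i
      have h4 := h2 i
      simp only [Pi.add_apply] at *
      push_cast
      linarith
    · rintro ⟨t, β⟩ hz ⟨t', β'⟩ hz' e
      rw [Finset.mem_coe, Finset.mem_product] at hz hz'
      simp only at e hz hz'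
      have h1 : t = t' := by
        refine hT2 hz.1 hz'.1 ((hf t t').2 ?_)
        have h2 := K.sub_mem (mem_Bad.1 hz'.2).2 (mem_Bad.1 hz.2).2
        have h3 : t - t' = β' - β := by linear_combination e
        rw [h3]
        simpa using h2
      subst h1
      rw [add_left_cancel e]
  rw [Finset.card_product, card_box] at hinj
  rw [card_box]
  calc m * (Bad K N).card ≤ 2 * (T.card * (Bad K N).card) := by
        rw [← mul_assoc]; exact Nat.mul_le_mul_right _ hm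
    _ ≤ 2 * (2 * (2 * N) + 1) ^ r := Nat.mul_le_mul_left _ hinj
    _ ≤ 2 * (2 * (2 * N + 1)) ^ r := by gcongr; omega
    _ = 2 ^ (r + 1) * (2 * N + 1) ^ r := by rw [mul_pow]; ring

/-- the determinant hypothesis -/
def DET {P : Type*} (g κ r : ℕ) (K : P → AddSubgroup ((Fin r → ℤ) × ℤ)) (C₀ C : ℕ) : Prop :=
  ∀ μ ρ τ : ℕ, 1 ≤ μ → 1 ≤ ρ → τ ≤ ρ → C₀ * μ ^ g < (2 * ρ + 1) ^ r * (τ + 1) →
      ∀ S : Finset P, (∀ q ∈ S, ∃ T : Finset ((Fin r → ℤ) × ℤ), 2 * T.card ≤ μ ^ g ∧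
        ∀ a ∈ box r (g * ρ), ∀ t : ℤ, 0 ≤ t → t ≤ (g * τ : ℕ) → ∃ b ∈ T, (a, t) - b ∈ K q) →
      S.card ≤ C * μ * ρ ^ κ

theorem range_one {P : Type*} {g κ r : ℕ} (hr : 1 ≤ r) {K : P → AddSubgroup ((Fin r → ℤ) × ℤ)}
    {C₀ C : ℕ} (hDET : DET g κ r K C₀ C) (M : ℕ) (hM : 1 ≤ M) (S : Finset P)
    (hS : ∀ q ∈ S, Small (K q) (g * ((C₀ + 1) * M ^ g)) (M ^ (r * g))) :
    S.card ≤ C * (C₀ + 1) ^ κ * M ^ (r + g * κ) := by
  classical
  have h := hDET (M ^ r) ((C₀ + 1) * M ^ g) 0 (Nat.one_le_pow _ _ hM)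
    (Nat.mul_pos (by omega) (Nat.one_le_pow _ _ hM)) (Nat.zero_le _) ?_ S ?_
  · refine h.trans (le_of_eq ?_)
    rw [mul_pow, ← pow_mul, pow_add]
    ring
  · have h1 : C₀ ≤ (2 * (C₀ + 1)) ^ r :=
      le_trans (by omega) (Nat.le_self_pow (by omega) _)
    calc C₀ * (M ^ r) ^ g ≤ (2 * (C₀ + 1)) ^ r * (M ^ g) ^ r := by
          rw [← pow_mul, ← pow_mul, mul_comm g r]
          exact Nat.mul_le_mul_right _ h1
      _ = (2 * ((C₀ + 1) * M ^ g)) ^ r := by rw [← mul_pow, mul_assoc]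
      _ < (2 * ((C₀ + 1) * M ^ g) + 1) ^ r := Nat.pow_lt_pow_left (by omega) (by omega)
      _ = _ := by rw [zero_add, mul_one]
  · intro q hq
    obtain ⟨T, h1, h2⟩ := hS q hq
    refine ⟨T.image fun b => (b, 0), ?_, fun a ha t ht0 ht1 => ?_⟩
    · rw [← pow_mul]
      exact (Nat.mul_le_mul_left _ Finset.card_image_le).trans h1
    · obtain ⟨b, hb, e⟩ := h2 a ha
      have : t = 0 := by
        simp only [mul_zero, Nat.cast_zero] at ht1
        omega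
      subst this
      exact ⟨(b, 0), Finset.mem_image_of_mem _ hb, by simpa using e⟩

theorem range_two {P : Type*} {g κ r : ℕ} (hg : 1 ≤ g) {K : P → AddSubgroup ((Fin r → ℤ) × ℤ)}
    {C₀ C : ℕ} (hDET : DET g κ r K C₀ C) : ∃ C' : ℕ, ∀ M, 1 ≤ M → ∀ S : Finset P,
      (∀ q ∈ S, (Bad (K q) (M ^ g)).Nonempty) → S.card ≤ C' * M ^ (r + g * κ) := by
  classical
  set c := 2 * (5 * g) ^ r with hc
  set t := C₀ * c ^ g + 1 with ht
  have hc1 : 1 ≤ c := by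
    have : 1 ≤ (5 * g) ^ r := Nat.one_le_pow _ _ (by omega)
    omega
  have ht1 : 1 ≤ t := by omega
  refine ⟨C * c * t ^ r * (t ^ g) ^ κ, fun M hM S hS => ?_⟩
  have hMg : 1 ≤ M ^ g := Nat.one_le_pow _ _ hM
  have htg : 1 ≤ t ^ g := Nat.one_le_pow _ _ ht1
  have hρ : 1 ≤ t ^ g * M ^ g := Nat.mul_pos htg hMg
  have e1 : (c * t ^ r * M ^ r) ^ g = c ^ g * (t ^ g * M ^ g) ^ r := by
    simp only [mul_pow, ← pow_mul, mul_comm g r]
    ring
  have h := hDET (c * t ^ r * M ^ r) (t ^ g * M ^ g) (t ^ g)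
    (Nat.mul_pos (Nat.mul_pos hc1 (Nat.one_le_pow _ _ ht1)) (Nat.one_le_pow _ _ hM)) hρ
    (Nat.le_mul_of_pos_right _ hMg) ?_ S ?_
  · refine h.trans (le_of_eq ?_)
    rw [mul_pow, ← pow_mul M, pow_add]
    ring
  · have h1 : C₀ * c ^ g < t ^ g + 1 :=
      lt_of_lt_of_le (by omega) ((Nat.le_self_pow (by omega) t).trans (Nat.le_succ _))
    rw [e1, ← mul_assoc, mul_comm]
    calc (t ^ g * M ^ g) ^ r * (C₀ * c ^ g) < (t ^ g * M ^ g) ^ r * (t ^ g + 1) :=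
          Nat.mul_lt_mul_of_pos_left h1 (Nat.one_le_pow _ _ hρ)
      _ ≤ (2 * (t ^ g * M ^ g) + 1) ^ r * (t ^ g + 1) := by gcongr; omega
  · intro q hq
    obtain ⟨x, hx⟩ := hS q hq
    obtain ⟨hx1, hx2⟩ := mem_Bad.1 hx
    refine ⟨(box r (2 * (g * (t ^ g * M ^ g)))).image fun b => (b, 0), ?_,
      fun a ha s hs0 hs1 => ⟨(a + s • x, 0), Finset.mem_image_of_mem _ ?_, ?_⟩⟩
    · refine (Nat.mul_le_mul_left _ Finset.card_image_le).trans ?_
      rw [card_box, e1]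
      have h2 : 1 ≤ g * (t ^ g * M ^ g) := Nat.mul_pos hg hρ
      calc 2 * (2 * (2 * (g * (t ^ g * M ^ g))) + 1) ^ r
          ≤ 2 * (5 * g * (t ^ g * M ^ g)) ^ r := by
            gcongr
            rw [mul_assoc 5]
            omega
        _ = c * (t ^ g * M ^ g) ^ r := by rw [hc, mul_pow (5 * g)]; ring
        _ ≤ c ^ g * (t ^ g * M ^ g) ^ r :=
            Nat.mul_le_mul_right _ (Nat.le_self_pow (by omega) _)
    · rw [mem_box] at ha hx1 ⊢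
      intro i
      have h3 := ha i
      have h4 : |s * x i| ≤ ((g * t ^ g : ℕ) : ℤ) * ((M ^ g : ℕ) : ℤ) := by
        rw [abs_mul, abs_of_nonneg hs0]
        exact mul_le_mul hs1 (hx1 i) (abs_nonneg _) (by positivity)
      have h5 := abs_add_le (a i) (s * x i)
      simp only [Pi.add_apply, Pi.smul_apply, smul_eq_mul]
      push_cast at h3 h4 ⊢
      linarith
    · have h6 := K q |>.neg_mem ((K q).zsmul_mem hx2 s)
      convert h6 using 1
      ext i <;> simp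

theorem geom_sum {X : ℕ → ℕ} {Y j₀ n : ℕ} (h : ∀ j < n, 2 ^ (j₀ + j) * X j ≤ Y) :
    2 ^ j₀ * ∑ j ∈ Finset.range n, X j ≤ 2 * Y := by
  have h1 : ((2 : ℝ) ^ j₀) * ∑ j ∈ Finset.range n, (X j : ℝ) ≤ 2 * Y := by
    rw [Finset.mul_sum]
    calc ∑ j ∈ Finset.range n, (2 : ℝ) ^ j₀ * X j
        ≤ ∑ j ∈ Finset.range n, (1 / 2 : ℝ) ^ j * Y := by
          refine Finset.sum_le_sum fun j hj => ?_
          have h2 : ((2 : ℝ) ^ (j₀ + j)) * X j ≤ Y := by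
            exact_mod_cast h j (Finset.mem_range.1 hj)
          rw [one_div, inv_pow, le_inv_mul_iff₀ (by positivity), ← mul_assoc, ← pow_add,
            add_comm]
          exact h2
      _ = (∑ j ∈ Finset.range n, (1 / 2 : ℝ) ^ j) * Y := by rw [Finset.sum_mul]
      _ ≤ 2 * Y := mul_le_mul_of_nonneg_right (sum_geometric_two_le n) (by positivity)
  exact_mod_cast h1

/-- the last index in an interval at which a property fails -/
theorem exists_last (p : ℕ → Prop) (h0 : ¬ p 0) (n : ℕ) :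
    ∃ j ≤ n, ¬ p j ∧ (j = n ∨ p (j + 1)) := by
  induction n with
  | zero => exact ⟨0, le_rfl, h0, Or.inl rfl⟩
  | succ n ih =>
    obtain ⟨j, hj, h1, h2⟩ := ih
    rcases h2 with rfl | h2
    · by_cases h : p (j + 1)
      · exact ⟨j, by omega, h1, Or.inr h⟩
      · exact ⟨j + 1, le_rfl, h, Or.inl rfl⟩
    · exact ⟨j, by omega, h1, Or.inr h2⟩

end CountP

open CountP

open Classical in
theorem count_main {P : Type*} (g κ r : ℕ) (hg : 2 ≤ g) (hr : g * κ + 1 ≤ r)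
    (K : P → AddSubgroup ((Fin r → ℤ) × ℤ)) (C₀ C : ℕ)
    (hDET : ∀ μ ρ τ : ℕ, 1 ≤ μ → 1 ≤ ρ → τ ≤ ρ → C₀ * μ ^ g < (2 * ρ + 1) ^ r * (τ + 1) →
      ∀ S : Finset P, (∀ q ∈ S, ∃ T : Finset ((Fin r → ℤ) × ℤ), 2 * T.card ≤ μ ^ g ∧
        ∀ a ∈ box r (g * ρ), ∀ t : ℤ, 0 ≤ t → t ≤ (g * τ : ℕ) → ∃ b ∈ T, (a, t) - b ∈ K q) →
      S.card ≤ C * μ * ρ ^ κ) (w : ℕ) :
    ∃ S₀ : Set P, S₀.Finite ∧ ∃ i₀ : ℕ, ∀ i, i₀ ≤ i →
      w * ((box r (2 ^ (i * g))).filter fun a => ∃ q, q ∉ S₀ ∧ (a, (-1 : ℤ)) ∈ K q).card ≤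
        (box r (2 ^ (i * g))).card := by
  have hD : DET g κ r K C₀ C := hDET
  have hr1 : 1 ≤ r := by omega
  obtain ⟨C', hC'⟩ := range_two (by omega) hD
  set c := g * (C₀ + 1) with hc
  set e := r + g * κ with he
  set D := (C * (C₀ + 1) ^ κ * 2 ^ e + C' * 2 ^ (c * e)) * 2 ^ (r + 1) with hDdef
  set j₀ := 2 * D * w with hj₀
  have hrad : ∀ j i, j + c ≤ i → g * ((C₀ + 1) * (2 ^ j) ^ g) ≤ 2 ^ (i * g) := by
    intro j i hji
    have h1 : c ≤ 2 ^ (c * g) :=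
      Nat.lt_two_pow_self.le.trans (Nat.pow_le_pow_right (by norm_num) (by nlinarith))
    calc g * ((C₀ + 1) * (2 ^ j) ^ g) = c * 2 ^ (j * g) := by rw [hc, pow_mul]; ring
      _ ≤ 2 ^ (c * g) * 2 ^ (j * g) := Nat.mul_le_mul_right _ h1
      _ = 2 ^ ((j + c) * g) := by rw [← pow_add]; congr 1; ring
      _ ≤ 2 ^ (i * g) := Nat.pow_le_pow_right (by norm_num) (Nat.mul_le_mul_right _ hji)
  refine ⟨{q | Small (K q) (g * ((C₀ + 1) * (2 ^ j₀) ^ g)) ((2 ^ j₀) ^ (r * g))}, ?_, j₀ + c,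
    fun i hi => ?_⟩
  · by_contra hinf
    obtain ⟨S, hS1, hS2⟩ := Set.Infinite.exists_subset_card_eq hinf
      (C * (C₀ + 1) ^ κ * (2 ^ j₀) ^ (r + g * κ) + 1)
    have := range_one hr1 hD (2 ^ j₀) Nat.one_le_two_pow S fun q hq => hS1 hq
    omega
  obtain ⟨n, hn⟩ : ∃ n, i = j₀ + n + c := ⟨i - j₀ - c, by omega⟩
  set N := 2 ^ (i * g) with hN
  set B := (box r N).filter fun a => ∃ q, q ∉ {q | Small (K q) (g * ((C₀ + 1) * (2 ^ j₀) ^ g))
    ((2 ^ j₀) ^ (r * g))} ∧ (a, (-1 : ℤ)) ∈ K q with hB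
  -- finitely many subgroups cover the bad set
  obtain ⟨Q, hQ1, hQ2⟩ : ∃ Q : Finset P,
      (∀ q ∈ Q, ¬ Small (K q) N ((2 ^ j₀) ^ (r * g)) ∧ (Bad (K q) N).Nonempty) ∧
        ∀ a ∈ B, ∃ q ∈ Q, a ∈ Bad (K q) N := by
    have : ∀ a : B, ∃ q, ¬ Small (K q) N ((2 ^ j₀) ^ (r * g)) ∧ (a : Fin r → ℤ) ∈ Bad (K q) N := by
      rintro ⟨a, ha⟩
      obtain ⟨ha1, q, hq, ha2⟩ := Finset.mem_filter.1 ha
      exact ⟨q, fun h => hq (h.anti (hrad j₀ i hi)), mem_Bad.2 ⟨ha1, ha2⟩⟩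
    choose f hf using this
    refine ⟨Finset.univ.image f, fun q hq => ?_, fun a ha =>
      ⟨f ⟨a, ha⟩, Finset.mem_image_of_mem _ (Finset.mem_univ _), (hf ⟨a, ha⟩).2⟩⟩
    obtain ⟨a, -, rfl⟩ := Finset.mem_image.1 hq
    exact ⟨(hf a).1, _, (hf a).2⟩
  let T : ℕ → Finset P := fun j => Q.filter fun q =>
    ¬ Small (K q) N ((2 ^ (j₀ + j)) ^ (r * g)) ∧
      (j = n ∨ Small (K q) N ((2 ^ (j₀ + (j + 1))) ^ (r * g)))
  have hT : ∀ j < n + 1, (T j).card ≤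
      (C * (C₀ + 1) ^ κ * 2 ^ e + C' * 2 ^ (c * e)) * 2 ^ ((j₀ + j) * e) := by
    intro j hj
    by_cases hjn : j = n
    · have h1 := hC' (2 ^ i) Nat.one_le_two_pow (T j) fun q hq => by
        rw [← pow_mul]
        exact (hQ1 q (Finset.mem_filter.1 hq).1).2
      refine h1.trans ?_
      rw [← pow_mul, hn, ← hjn, add_mul (j₀ + j), pow_add, add_mul (C * (C₀ + 1) ^ κ * 2 ^ e)]
      refine le_trans (le_of_eq ?_) (Nat.le_add_left _ _)
      ring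
    · have h1 := range_one hr1 hD (2 ^ (j₀ + (j + 1))) Nat.one_le_two_pow (T j) fun q hq =>
        ((Finset.mem_filter.1 hq).2.2.resolve_left hjn).anti (hrad _ i (by omega))
      refine h1.trans ?_
      rw [← he, ← pow_mul, ← add_assoc, add_mul (j₀ + j), pow_add,
        add_mul (C * (C₀ + 1) ^ κ * 2 ^ e)]
      refine le_trans (le_of_eq ?_) (Nat.le_add_right _ _)
      ring
  have hX : ∀ j < n + 1, 2 ^ (j₀ + j) * ∑ q ∈ T j, (Bad (K q) N).card ≤ D * (box r N).card := by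
    intro j hj
    have h1 : (2 ^ (j₀ + j)) ^ (r * g) * ∑ q ∈ T j, (Bad (K q) N).card ≤
        (T j).card * (2 ^ (r + 1) * (box r N).card) := by
      rw [Finset.mul_sum, ← smul_eq_mul (T j).card, ← Finset.sum_const]
      exact Finset.sum_le_sum fun q hq => card_Bad (Finset.mem_filter.1 hq).2.1
    have h2 : 2 ^ ((j₀ + j) * e) * 2 ^ (j₀ + j) ≤ (2 ^ (j₀ + j)) ^ (r * g) := by
      rw [← pow_add, ← pow_mul, ← mul_add_one]
      refine Nat.pow_le_pow_right (by norm_num) (Nat.mul_le_mul_left _ ?_)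
      have : r * 2 ≤ r * g := Nat.mul_le_mul_left _ hg
      omega
    refine Nat.le_of_mul_le_mul_left ?_ (Nat.one_le_two_pow (n := (j₀ + j) * e))
    calc 2 ^ ((j₀ + j) * e) * (2 ^ (j₀ + j) * ∑ q ∈ T j, (Bad (K q) N).card)
        ≤ (2 ^ (j₀ + j)) ^ (r * g) * ∑ q ∈ T j, (Bad (K q) N).card := by
          rw [← mul_assoc]; exact Nat.mul_le_mul_right _ h2
      _ ≤ (T j).card * (2 ^ (r + 1) * (box r N).card) := h1
      _ ≤ (C * (C₀ + 1) ^ κ * 2 ^ e + C' * 2 ^ (c * e)) * 2 ^ ((j₀ + j) * e) *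
            (2 ^ (r + 1) * (box r N).card) := Nat.mul_le_mul_right _ (hT j hj)
      _ = 2 ^ ((j₀ + j) * e) * (D * (box r N).card) := by rw [hDdef]; ring
  have hsum := geom_sum hX
  have hcov : B.card ≤ ∑ j ∈ Finset.range (n + 1), ∑ q ∈ T j, (Bad (K q) N).card := by
    refine le_trans (Finset.card_le_card (t := (Finset.range (n + 1)).biUnion fun j =>
      (T j).biUnion fun q => Bad (K q) N) fun a ha => ?_)
      (Finset.card_biUnion_le.trans (Finset.sum_le_sum fun j _ => Finset.card_biUnion_le))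
    obtain ⟨q, hq, haq⟩ := hQ2 a ha
    obtain ⟨j, hj, h1, h2⟩ := exists_last
      (fun j => Small (K q) N ((2 ^ (j₀ + j)) ^ (r * g))) (hQ1 q hq).1 n
    exact Finset.mem_biUnion.2 ⟨j, Finset.mem_range.2 (by omega), Finset.mem_biUnion.2
      ⟨q, Finset.mem_filter.2 ⟨hq, h1, h2⟩, haq⟩⟩
  refine Nat.le_of_mul_le_mul_left ?_ (Nat.one_le_two_pow (n := j₀))
  calc 2 ^ j₀ * (w * B.card) = w * (2 ^ j₀ * B.card) := by ring
    _ ≤ w * (2 * (D * (box r N).card)) :=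
        Nat.mul_le_mul_left _ ((Nat.mul_le_mul_left _ hcov).trans hsum)
    _ = j₀ * (box r N).card := by rw [hj₀]; ring
    _ ≤ 2 ^ j₀ * (box r N).card := Nat.mul_le_mul_right _ Nat.lt_two_pow_self.le

end Pool.Agent.P.MP_84b56d_ag
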