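import Pool.Agent.P.MP_84b56d_ag.Grp

open TopologicalSpace

namespace Pool.Agent.P.MP_84b56d_ag

variable {G : Type*} [TopologicalSpace G] [NoetherianSpace G] [AddCommGroup G]
  [SeparatelyContinuousAdd G]

namespace DensP

theorem card_box (r N : ℕ) : (box r N).card = (2 * N + 1) ^ r := by
  unfold box
  rw [Fintype.card_piFinset]
  simp only [Int.card_Icc, Finset.prod_const, Finset.card_univ, Fintype.card_fin]
  congr 1
  omega

theorem mem_box {r N : ℕ} {a : Fin r → ℤ} : a ∈ box r N ↔ ∀ i, -(N : ℤ) ≤ a i ∧ a i ≤ N := by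
  unfold box
  simp [Fintype.mem_piFinset]

theorem card_box_add_le (r N M : ℕ) (h : M ≤ N) :
    (box r (N + M)).card ≤ 2 ^ r * (box r N).card := by
  rw [card_box, card_box, ← mul_pow]
  exact Nat.pow_le_pow_left (by omega) r

omit [TopologicalSpace G] [NoetherianSpace G] [SeparatelyContinuousAdd G] in
open Classical in
theorem segments {r : ℕ} (i₀ : Fin r) (φ : (Fin r → ℤ) →+ G) (x₀ : G) (Y : Set G) (N M : ℕ) :
    M * ((box r N).filter fun a => φ a + x₀ ∈ Y ∧
      ∀ j ∈ Finset.Ico 1 M, φ a + x₀ + φ (Pi.single i₀ (j : ℤ)) ∉ Y).card ≤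
      (box r (N + M)).card := by
  set B := (box r N).filter fun a => φ a + x₀ ∈ Y ∧
      ∀ j ∈ Finset.Ico 1 M, φ a + x₀ + φ (Pi.single i₀ (j : ℤ)) ∉ Y with hB
  have hcard : (Finset.range M ×ˢ B).card = M * B.card := by simp
  rw [← hcard]
  have key : ∀ (j j' : ℕ) (a a' : Fin r → ℤ), j' < M → a ∈ B → a' ∈ B → j < j' →
      a + Pi.single i₀ (j : ℤ) = a' + Pi.single i₀ (j' : ℤ) → False := by
    intro j j' a a' hj' ha ha' hlt heq
    rw [hB, Finset.mem_filter] at ha ha'
    have h1 : a = a' + Pi.single i₀ ((j' - j : ℕ) : ℤ) := by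
      have : (Pi.single i₀ (j' : ℤ) : Fin r → ℤ) =
          Pi.single i₀ ((j' - j : ℕ) : ℤ) + Pi.single i₀ (j : ℤ) := by
        rw [← Pi.single_add]
        congr 1
        omega
      rw [this, ← add_assoc] at heq
      exact add_right_cancel heq
    refine ha'.2.2 (j' - j) (Finset.mem_Ico.2 ⟨by omega, by omega⟩) ?_
    have h2 := ha.2.1
    rw [h1, map_add] at h2
    have h3 : φ a' + x₀ + φ (Pi.single i₀ ((j' - j : ℕ) : ℤ)) =
        φ a' + φ (Pi.single i₀ ((j' - j : ℕ) : ℤ)) + x₀ := by abel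
    rw [h3]
    exact h2
  refine Finset.card_le_card_of_injOn (fun p => p.2 + Pi.single i₀ (p.1 : ℤ)) ?_ ?_
  · rintro ⟨j, a⟩ hp
    simp only [Finset.coe_product, Set.mem_prod, Finset.mem_coe, Finset.mem_range] at hp
    obtain ⟨hj, ha⟩ := hp
    rw [hB, Finset.mem_filter] at ha
    have ha1 := mem_box.1 ha.1
    refine Finset.mem_coe.2 (mem_box.2 fun i => ?_)
    have := ha1 i
    by_cases hi : i = i₀
    · subst hi
      simp only [Pi.add_apply, Pi.single_eq_same]
      push_cast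
      omega
    · simp only [Pi.add_apply, Pi.single_eq_of_ne hi]
      push_cast
      omega
  · rintro ⟨j, a⟩ hp ⟨j', a'⟩ hp' heq
    simp only [Finset.coe_product, Set.mem_prod, Finset.mem_coe, Finset.mem_range] at hp hp'
    simp only at heq
    rcases lt_trichotomy j j' with h | h | h
    · exact (key j j' a a' hp'.1 hp.2 hp'.2 h heq).elim
    · subst h
      have := add_right_cancel heq
      rw [this]
    · exact (key j' j a' a hp.1 hp'.2 hp.2 h heq.symm).elim

open Classical in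
theorem sparse {r : ℕ} (i₀ : Fin r) (φ : (Fin r → ℤ) →+ G)
    (hφ : ∀ a, a ≠ 0 → ND (φ a)) (x₀ : G) (Y : Closeds G) :
    (Y : Set G) ≠ Set.univ → ∀ L : ℕ, ∃ N₀ : ℕ, ∀ N, N₀ ≤ N →
      L * ((box r N).filter fun a => φ a + x₀ ∈ (Y : Set G)).card ≤ (box r N).card := by
  induction Y using (wellFounded_lt (α := Closeds G)).induction with
  | _ Y ih =>
  intro hY L
  rcases Set.eq_empty_or_nonempty (Y : Set G) with hne | hne
  · refine ⟨0, fun N _ => ?_⟩
    simp [hne]
  set M := 2 * L * 2 ^ r with hM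
  have hcl : ∀ j : ℕ,
      IsClosed ((Y : Set G) ∩ {y | y + φ (Pi.single i₀ (j : ℤ)) ∈ (Y : Set G)}) := fun j =>
    Y.isClosed.inter (Y.isClosed.preimage (continuous_add_const _))
  have hj : ∀ j : ℕ, ∃ N₀ : ℕ, 1 ≤ j → ∀ N, N₀ ≤ N →
      2 * L * M * ((box r N).filter fun a => φ a + x₀ ∈ (Y : Set G) ∧
        φ a + x₀ + φ (Pi.single i₀ (j : ℤ)) ∈ (Y : Set G)).card ≤ (box r N).card := by
    intro j
    by_cases h1 : 1 ≤ j
    · have hlt : (⟨_, hcl j⟩ : Closeds G) < Y := by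
        refine lt_of_le_of_ne (fun y hy => hy.1) fun heq => hY ?_
        refine eq_univ_of_nd Y.isClosed hne (hφ (Pi.single i₀ (j : ℤ)) ?_) fun w hw => ?_
        · intro h0
          have := congrFun h0 i₀
          simp at this
          omega
        · have hw' : w ∈ (⟨_, hcl j⟩ : Closeds G) := by rw [heq]; exact hw
          exact hw'.2
      obtain ⟨N₀, hN₀⟩ := ih _ hlt
        (fun h => hY (Set.eq_univ_of_univ_subset (h ▸ Set.inter_subset_left))) (2 * L * M)
      refine ⟨N₀, fun _ N hN => ?_⟩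
      convert hN₀ N hN using 4
      rfl
    · exact ⟨0, fun h => (h1 h).elim⟩
  choose N₀ hN₀ using hj
  refine ⟨M + ∑ j ∈ Finset.Ico 1 M, N₀ j, fun N hN => ?_⟩
  have hMN : M ≤ N := by omega
  set B := (box r N).filter fun a => φ a + x₀ ∈ (Y : Set G) ∧
      ∀ j ∈ Finset.Ico 1 M, φ a + x₀ + φ (Pi.single i₀ (j : ℤ)) ∉ (Y : Set G) with hB
  set A : ℕ → Finset (Fin r → ℤ) := fun j => (box r N).filter fun a => φ a + x₀ ∈ (Y : Set G) ∧
        φ a + x₀ + φ (Pi.single i₀ (j : ℤ)) ∈ (Y : Set G) with hA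
  have hsub : ((box r N).filter fun a => φ a + x₀ ∈ (Y : Set G)) ⊆
      B ∪ (Finset.Ico 1 M).biUnion A := by
    intro a ha
    rw [Finset.mem_filter] at ha
    by_cases h : ∀ j ∈ Finset.Ico 1 M, φ a + x₀ + φ (Pi.single i₀ (j : ℤ)) ∉ (Y : Set G)
    · exact Finset.mem_union_left _ (Finset.mem_filter.2 ⟨ha.1, ha.2, h⟩)
    · push Not at h
      obtain ⟨j, hj, hj'⟩ := h
      exact Finset.mem_union_right _
        (Finset.mem_biUnion.2 ⟨j, hj, Finset.mem_filter.2 ⟨ha.1, ha.2, hj'⟩⟩)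
  have h1 : ((box r N).filter fun a => φ a + x₀ ∈ (Y : Set G)).card ≤
      B.card + ∑ j ∈ Finset.Ico 1 M, (A j).card :=
    (Finset.card_le_card hsub).trans ((Finset.card_union_le _ _).trans
      (Nat.add_le_add_left Finset.card_biUnion_le _))
  have h2 : 2 * L * B.card ≤ (box r N).card := by
    have h3 : M * B.card ≤ 2 ^ r * (box r N).card :=
      (segments i₀ φ x₀ (Y : Set G) N M).trans (card_box_add_le r N M hMN)
    have h4 : 2 ^ r * (2 * L * B.card) ≤ 2 ^ r * (box r N).card := by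
      calc 2 ^ r * (2 * L * B.card) = M * B.card := by rw [hM]; ring
        _ ≤ _ := h3
    exact Nat.le_of_mul_le_mul_left h4 (by positivity)
  have h5 : 2 * L * ∑ j ∈ Finset.Ico 1 M, (A j).card ≤ (box r N).card := by
    rcases Nat.eq_zero_or_pos M with h0 | h0
    · simp [h0]
    have h6 : M * (2 * L * ∑ j ∈ Finset.Ico 1 M, (A j).card) ≤ M * (box r N).card := by
      calc M * (2 * L * ∑ j ∈ Finset.Ico 1 M, (A j).card)
          = ∑ j ∈ Finset.Ico 1 M, 2 * L * M * (A j).card := by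
            rw [← Finset.mul_sum]; ring
        _ ≤ ∑ _j ∈ Finset.Ico 1 M, (box r N).card := by
            refine Finset.sum_le_sum fun j hj => hN₀ j (Finset.mem_Ico.1 hj).1 N ?_
            have := Finset.single_le_sum (f := N₀) (fun _ _ => Nat.zero_le _) hj
            omega
        _ = (M - 1) * (box r N).card := by simp
        _ ≤ M * (box r N).card := Nat.mul_le_mul_right _ (Nat.sub_le _ _)
    exact Nat.le_of_mul_le_mul_left h6 h0
  have h7 := Nat.mul_le_mul_left (2 * L) h1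
  rw [mul_add] at h7
  have h8 : 2 * (L * ((box r N).filter fun a => φ a + x₀ ∈ (Y : Set G)).card) ≤
      2 * (box r N).card := by
    rw [← mul_assoc]; omega
  omega

end DensP

open Classical in
theorem dense_of_density {r : ℕ} (hr : 1 ≤ r) (φ : (Fin r → ℤ) →+ G)
    (hφ : ∀ a, a ≠ 0 → ND (φ a)) (x₀ : G) (Gd : Set (Fin r → ℤ))
    (hG : ∀ N₀ : ℕ, ∃ N, N₀ ≤ N ∧ (box r N).card ≤ 2 * ((box r N).filter fun a => a ∈ Gd).card) :
    Dense ((fun a => φ a + x₀) '' Gd) := by
  rw [dense_iff_closure_eq]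
  by_contra hne
  obtain ⟨N₀, hN₀⟩ := DensP.sparse ⟨0, hr⟩ φ hφ x₀
    ⟨closure ((fun a => φ a + x₀) '' Gd), isClosed_closure⟩ hne 3
  obtain ⟨N, hN, hle⟩ := hG N₀
  have h1 := hN₀ N hN
  have h2 : ((box r N).filter fun a => a ∈ Gd).card ≤ ((box r N).filter fun a =>
      φ a + x₀ ∈ ((⟨closure ((fun a => φ a + x₀) '' Gd), isClosed_closure⟩ : Closeds G) :
        Set G)).card := by
    refine Finset.card_le_card fun a ha => ?_
    rw [Finset.mem_filter] at ha ⊢
    exact ⟨ha.1, subset_closure ⟨a, ha.2, rfl⟩⟩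
  have h3 : 0 < (box r N).card := by rw [DensP.card_box]; positivity
  omega

end Pool.Agent.P.MP_84b56d_ag
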