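import Pool.Agent.P.MP_84b56d_ag.Defs

open MvPolynomial

namespace Pool.Agent.P.MP_84b56d_ag

variable {k : Type*} [Field k] {E : Set k} {A : Arith k E}

theorem Arith.Sm.mono {L L' : ℕ} (h : L ≤ L') {x : k} (hx : A.Sm L x) : A.Sm L' x := by
  exact ⟨hx.1, hx.2.trans (Nat.pow_le_pow_right (by norm_num) h)⟩

theorem Arith.exists_sm {x : k} (hx : x ∈ A.R) : ∃ L, A.Sm L x := by
  exact ⟨A.sz x, hx, Nat.lt_two_pow_self.le⟩

namespace HeightAux

theorem sm_zero (L : ℕ) : A.Sm L 0 := ⟨A.R.zero_mem, by rw [A.sz_zero]; exact Nat.zero_le _⟩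

theorem sm_one (L : ℕ) : A.Sm L 1 := ⟨A.R.one_mem, A.sz_one.trans Nat.one_le_two_pow⟩

theorem sm_neg {L : ℕ} {x : k} (hx : A.Sm L x) : A.Sm L (-x) :=
  ⟨A.R.neg_mem hx.1, by rw [A.sz_neg x hx.1]; exact hx.2⟩

theorem sm_mul {L L' : ℕ} {x y : k} (hx : A.Sm L x) (hy : A.Sm L' y) : A.Sm (L + L') (x * y) :=
  ⟨A.R.mul_mem hx.1 hy.1, (A.sz_mul x hx.1 y hy.1).trans (by
    rw [pow_add]; exact Nat.mul_le_mul hx.2 hy.2)⟩

theorem sm_pow {L : ℕ} {x : k} (hx : A.Sm L x) (n : ℕ) : A.Sm (n * L) (x ^ n) := by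
  induction n with
  | zero => simpa using sm_one 0
  | succ n ih =>
    rw [pow_succ, Nat.succ_mul]
    exact sm_mul ih hx

theorem sum_le {ι : Type*} (s : Finset ι) (f : ι → k) (L : ℕ) (h : ∀ i ∈ s, A.Sm L (f i)) :
    ∑ i ∈ s, f i ∈ A.R ∧ A.sz (∑ i ∈ s, f i) ≤ s.card * 2 ^ L := by
  classical
  induction s using Finset.induction_on with
  | empty => simp [A.sz_zero]
  | insert a s ha ih =>
    obtain ⟨h1, h2⟩ := ih fun i hi => h i (Finset.mem_insert_of_mem hi)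
    have h3 := h a (Finset.mem_insert_self a s)
    rw [Finset.sum_insert ha, Finset.card_insert_of_notMem ha]
    refine ⟨A.R.add_mem h3.1 h1, (A.sz_add _ h3.1 _ h1).trans ?_⟩
    have := h3.2
    rw [Nat.succ_mul]
    omega

theorem sm_sum {ι : Type*} (s : Finset ι) (f : ι → k) (L b : ℕ) (hb : s.card ≤ 2 ^ b)
    (h : ∀ i ∈ s, A.Sm L (f i)) : A.Sm (b + L) (∑ i ∈ s, f i) := by
  obtain ⟨h1, h2⟩ := sum_le s f L h
  refine ⟨h1, h2.trans ?_⟩
  rw [pow_add]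
  exact Nat.mul_le_mul_right _ hb

theorem eval_mem {τ : Type} (R : Subring k) (f : MvPolynomial τ k) (hf : ∀ m, coeff m f ∈ R)
    (v : τ → k) (hv : ∀ i, v i ∈ R) : eval v f ∈ R := by
  rw [eval_eq]
  exact R.sum_mem fun m _ => R.mul_mem (hf m) (R.prod_mem fun i _ => R.pow_mem (hv i) _)

end HeightAux

open HeightAux

theorem Arith.sm_prod_pow {ι : Type*} (s : Finset ι) (v : ι → k) (n : ι → ℕ) (L : ℕ)
    (hv : ∀ i ∈ s, A.Sm L (v i)) : A.Sm ((∑ i ∈ s, n i) * L) (∏ i ∈ s, v i ^ n i) := by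
  classical
  induction s using Finset.induction_on with
  | empty => simpa using sm_one 0
  | insert a s ha ih =>
    rw [Finset.sum_insert ha, Finset.prod_insert ha, add_mul]
    exact sm_mul (sm_pow (hv a (Finset.mem_insert_self a s)) _)
      (ih fun i hi => hv i (Finset.mem_insert_of_mem hi))

theorem Arith.sm_eval {τ : Type} (f : MvPolynomial τ k) (hf : ∀ m, coeff m f ∈ A.R) :
    ∃ b : ℕ, ∀ (L : ℕ) (v : τ → k), (∀ i, A.Sm L (v i)) →
      A.Sm (b + f.totalDegree * L) (eval v f) := by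
  refine ⟨f.support.card + f.support.sup (fun m => A.sz (coeff m f)), fun L v hv => ?_⟩
  rw [eval_eq, add_assoc]
  refine sm_sum _ _ _ _ Nat.lt_two_pow_self.le fun m hm => ?_
  have h1 : A.Sm (A.sz (coeff m f)) (coeff m f) := ⟨hf m, Nat.lt_two_pow_self.le⟩
  refine (sm_mul h1 (A.sm_prod_pow m.support v m L fun i _ => hv i)).mono (add_le_add ?_ ?_)
  · exact Finset.le_sup (f := fun m => A.sz (coeff m f)) hm
  · exact Nat.mul_le_mul_right _ (le_totalDegree hm)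

theorem Arith.sm_det {ι : Type*} [Fintype ι] [DecidableEq ι] (M : Matrix ι ι k) (L b : ℕ)
    (hb : Fintype.card ι ≤ 2 ^ b) (hM : ∀ i j, A.Sm L (M i j)) :
    A.Sm (Fintype.card ι * (L + b)) M.det := by
  rw [Matrix.det_apply, mul_add, add_comm]
  refine sm_sum _ _ _ _ ?_ fun s _ => ?_
  · rw [Finset.card_univ, Fintype.card_perm, mul_comm, pow_mul]
    exact (Nat.factorial_le_pow _).trans (Nat.pow_le_pow_left hb _)
  · have h1 := A.sm_prod_pow Finset.univ (fun i => M (s i) i) (fun _ => 1) L fun i _ => hM _ _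
    simp only [pow_one, Finset.sum_const, Finset.card_univ, smul_eq_mul, mul_one] at h1
    rcases Int.units_eq_one_or (Equiv.Perm.sign s) with h | h
    · rw [h, one_smul]; exact h1
    · rw [h, Units.neg_smul, one_smul]; exact sm_neg h1

namespace HeightAux

variable {σ : Type} {G : Type*} [AddCommGroup G] [TopologicalSpace G] (c : Ctx k σ G)

/-- the point has a representative of bounded size -/
def Bd (A : Arith k E) (L : ℕ) (x : G) : Prop := ∃ v ∈ c.rep x, ∀ l, A.Sm L (v l)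

variable {c}

theorem Bd.mono {L L' : ℕ} {x : G} (h : Bd c A L x) (hL : L ≤ L') : Bd c A L' x := by
  obtain ⟨v, hv, h⟩ := h
  exact ⟨v, hv, fun l => (h l).mono hL⟩

theorem exP [Finite σ] {x : G} (h : ∃ v ∈ c.rep x, ∀ l, v l ∈ A.R) : ∃ L, Bd c A L x := by
  obtain ⟨v, hv, h⟩ := h
  choose L hL using fun l => A.exists_sm (h l)
  obtain ⟨B, hB⟩ := (Set.finite_range L).bddAbove
  exact ⟨B, v, hv, fun l => (hL l).mono (hB ⟨l, rfl⟩)⟩

theorem scaled_mem (hE : ∀ α l m, coeff m (c.law α l) ∈ E) (α : Fin c.N) (l : σ) (m) :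
    coeff m (C (A.h : k) * c.law α l) ∈ A.R := by
  rw [coeff_C_mul]
  exact A.clear _ (hE α l m)

theorem scaled_rep (A : Arith k E) {x y : G} {v w : σ → k} (hv : v ∈ c.rep x)
    (hw : w ∈ c.rep y) :
    ∃ α, (fun l => eval (Sum.elim v w) (C (A.h : k) * c.law α l)) ∈ c.rep (x + y) := by
  obtain ⟨α, l, h⟩ := c.law_cover x y v hv w hw
  refine ⟨α, ?_⟩
  have := c.smul_mem _ _ (c.law_mem α x y v hv w hw l h) (A.h : k)
    (fun h => A.h_ne (Subtype.ext h))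
  convert this using 1
  funext l
  simp

theorem add_step [Finite σ] (D : ℕ) (hD : ∀ α l, (c.law α l).totalDegree ≤ D)
    (hE : ∀ α l m, coeff m (c.law α l) ∈ E) :
    ∃ b, ∀ L, b ≤ L → ∀ x y : G, Bd c A L x → Bd c A L y → Bd c A ((D + 1) * L) (x + y) := by
  choose b hb using fun p : Fin c.N × σ => A.sm_eval _ (scaled_mem (A := A) hE p.1 p.2)
  obtain ⟨B, hB⟩ := (Set.finite_range b).bddAbove
  refine ⟨B, fun L hL x y ⟨v, hv, h1⟩ ⟨w, hw, h2⟩ => ?_⟩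
  obtain ⟨α, hα⟩ := scaled_rep A hv hw
  refine ⟨_, hα, fun l => (hb (α, l) L (Sum.elim v w) ?_).mono ?_⟩
  · rintro (i | i)
    · exact h1 i
    · exact h2 i
  · have h3 : (C (A.h : k) * c.law α l).totalDegree ≤ D := by
      refine (totalDegree_mul _ _).trans ?_
      rw [totalDegree_C, zero_add]
      exact hD α l
    have h4 : b (α, l) ≤ L := (hB ⟨(α, l), rfl⟩).trans hL
    have h5 := Nat.mul_le_mul_right L h3
    rw [add_mul, one_mul]
    dsimp only at h5 ⊢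
    omega

variable {D b : ℕ}
  (H : ∀ L, b ≤ L → ∀ x y : G, Bd c A L x → Bd c A L y → Bd c A ((D + 1) * L) (x + y))

include H in
theorem nsmul_bound {L : ℕ} (hL : b ≤ L) {x : G} (h0 : Bd c A L 0) (hx : Bd c A L x) (j : ℕ) :
    ∀ n < 2 ^ j, Bd c A ((D + 1) ^ (2 * j) * L) (n • x) := by
  induction j with
  | zero =>
    intro n hn
    have : n = 0 := by omega
    subst this
    simpa using h0
  | succ j ih =>
    intro n hn
    have h1 : L ≤ (D + 1) ^ (2 * j) * L := Nat.le_mul_of_pos_left _ (by positivity)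
    have h2 : (D + 1) ^ (2 * j) * L ≤ (D + 1) * ((D + 1) ^ (2 * j) * L) :=
      Nat.le_mul_of_pos_left _ (by positivity)
    have h3 := ih (n / 2) (by rw [pow_succ] at hn; omega)
    have h4 := H _ (hL.trans h1) _ _ h3 h3
    have h5 : Bd c A L ((n % 2) • x) := by
      rcases Nat.mod_two_eq_zero_or_one n with h | h
      · rw [h, zero_smul]; exact h0
      · rw [h, one_smul]; exact hx
    have h6 := H _ (hL.trans (h1.trans h2)) _ _ h4 (h5.mono (h1.trans h2))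
    rw [← add_smul, ← add_smul] at h6
    have e1 : n / 2 + n / 2 + n % 2 = n := by omega
    have e2 : (D + 1) ^ (2 * (j + 1)) * L =
        (D + 1) * ((D + 1) * ((D + 1) ^ (2 * j) * L)) := by ring
    rw [e2]
    rwa [e1] at h6

include H in
theorem sum_bound {ι : Type*} {L : ℕ} (hL : b ≤ L) (h0 : Bd c A L 0) (y : ι → G)
    (hy : ∀ i, Bd c A L (y i)) (s : Finset ι) :
    Bd c A ((D + 1) ^ s.card * L) (∑ i ∈ s, y i) := by
  classical
  induction s using Finset.induction_on with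
  | empty => simpa using h0
  | insert a s ha ih =>
    have h1 : L ≤ (D + 1) ^ s.card * L := Nat.le_mul_of_pos_left _ (by positivity)
    rw [Finset.sum_insert ha, Finset.card_insert_of_notMem ha, pow_succ', mul_assoc]
    exact H _ (hL.trans h1) _ _ ((hy a).mono h1) ih

end HeightAux

theorem Ctx.height_bound {σ : Type} {G : Type*} [AddCommGroup G] [TopologicalSpace G] [Finite σ]
    (c : Ctx k σ G) : ∃ κ : ℕ, ∀ (E : Set k) (A : Arith k E), (∀ α l m, coeff m (c.law α l) ∈ E) →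
      ∀ (ι : Type) [Fintype ι] (x : ι → G), (∃ v ∈ c.rep 0, ∀ l, v l ∈ A.R) →
        (∀ i, ∃ v ∈ c.rep (x i), ∀ l, v l ∈ A.R) → (∀ i, ∃ v ∈ c.rep (-x i), ∀ l, v l ∈ A.R) →
        ∃ C : ℕ, ∀ ρ : ℕ, 1 ≤ ρ → ∀ a : ι → ℤ, (∀ i, |a i| ≤ ρ) →
          ∃ v ∈ c.rep (∑ i, a i • x i), ∀ l, A.Sm (C * ρ ^ κ) (v l) := by
  obtain ⟨D, hD⟩ :=
    (Set.finite_range fun p : Fin c.N × σ => (c.law p.1 p.2).totalDegree).bddAbove
  refine ⟨2 * (D + 1), fun E A hE ι _ x h0 hx hx' => ?_⟩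
  obtain ⟨b, H⟩ := add_step (A := A) D (fun α l => hD ⟨(α, l), rfl⟩) hE
  obtain ⟨L0, hL0⟩ := exP h0
  choose L1 hL1 using fun i => exP (hx i)
  choose L2 hL2 using fun i => exP (hx' i)
  obtain ⟨B1, hB1⟩ := (Set.finite_range L1).bddAbove
  obtain ⟨B2, hB2⟩ := (Set.finite_range L2).bddAbove
  obtain ⟨L, hb, h0', h1, h2⟩ : ∃ L, b ≤ L ∧ Bd c A L 0 ∧ (∀ i, Bd c A L (x i)) ∧
      ∀ i, Bd c A L (-x i) :=
    ⟨b + L0 + B1 + B2, by omega, hL0.mono (by omega),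
      fun i => (hL1 i).mono ((hB1 ⟨i, rfl⟩).trans (by omega)),
      fun i => (hL2 i).mono ((hB2 ⟨i, rfl⟩).trans (by omega))⟩
  refine ⟨(D + 1) ^ Fintype.card ι * (2 ^ (2 * (D + 1)) * L), fun ρ hρ a ha => ?_⟩
  have j1 : ρ < 2 ^ (Nat.log 2 ρ + 1) := Nat.lt_pow_succ_log_self (by norm_num) ρ
  have j2 : 2 ^ (Nat.log 2 ρ + 1) ≤ 2 * ρ := by
    rw [pow_succ, mul_comm]
    exact Nat.mul_le_mul_left _ (Nat.pow_log_le_self 2 (by omega))
  generalize Nat.log 2 ρ + 1 = j at j1 j2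
  have j3 : (D + 1) ^ (2 * j) ≤ (2 * ρ) ^ (2 * (D + 1)) :=
    calc (D + 1) ^ (2 * j) ≤ (2 ^ (D + 1)) ^ (2 * j) :=
          Nat.pow_le_pow_left Nat.lt_two_pow_self.le _
      _ = (2 ^ j) ^ (2 * (D + 1)) := by rw [← pow_mul, ← pow_mul]; congr 1; ring
      _ ≤ _ := Nat.pow_le_pow_left j2 _
  have h3 : L ≤ (D + 1) ^ (2 * j) * L := Nat.le_mul_of_pos_left _ (by positivity)
  have h4 : ∀ i, Bd c A ((D + 1) ^ (2 * j) * L) (a i • x i) := fun i => by
    have hn : (a i).natAbs < 2 ^ j := by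
      have := ha i
      rw [← Int.natCast_natAbs] at this
      omega
    rcases Int.natAbs_eq (a i) with h | h
    · rw [h, natCast_zsmul]
      exact nsmul_bound H hb h0' (h1 i) j _ hn
    · rw [h, neg_smul, natCast_zsmul, ← smul_neg]
      exact nsmul_bound H hb h0' (h2 i) j _ hn
  refine (sum_bound H (hb.trans h3) (h0'.mono h3) _ h4 Finset.univ).mono ?_
  rw [Finset.card_univ, mul_assoc]
  refine Nat.mul_le_mul_left _ ((Nat.mul_le_mul_right _ j3).trans (le_of_eq ?_))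
  rw [mul_pow]
  ring

theorem Ctx.int_closure {σ : Type} {G : Type*} [AddCommGroup G] [TopologicalSpace G]
    (c : Ctx k σ G) (A : Arith k E) (hE : ∀ α l m, coeff m (c.law α l) ∈ E) {X : Set G}
    (h0 : ∃ v ∈ c.rep 0, ∀ l, v l ∈ A.R)
    (hX : ∀ x ∈ X, (∃ v ∈ c.rep x, ∀ l, v l ∈ A.R) ∧ ∃ v ∈ c.rep (-x), ∀ l, v l ∈ A.R) :
    ∀ x ∈ AddSubgroup.closure X, ∃ v ∈ c.rep x, ∀ l, v l ∈ A.R := by
  have hadd : ∀ x y : G, (∃ v ∈ c.rep x, ∀ l, v l ∈ A.R) → (∃ v ∈ c.rep y, ∀ l, v l ∈ A.R) →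
      ∃ v ∈ c.rep (x + y), ∀ l, v l ∈ A.R := by
    rintro x y ⟨v, hv, h1⟩ ⟨w, hw, h2⟩
    obtain ⟨α, hα⟩ := scaled_rep A hv hw
    refine ⟨_, hα, fun l => eval_mem _ _ (scaled_mem hE α l) _ ?_⟩
    rintro (i | i)
    · exact h1 i
    · exact h2 i
  intro x hx
  suffices h : (∃ v ∈ c.rep x, ∀ l, v l ∈ A.R) ∧ ∃ v ∈ c.rep (-x), ∀ l, v l ∈ A.R from h.1
  induction hx using AddSubgroup.closure_induction with
  | mem x hx => exact hX x hx
  | zero => rw [neg_zero]; exact ⟨h0, h0⟩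
  | add x y _ _ hx hy => rw [neg_add]; exact ⟨hadd _ _ hx.1 hy.1, hadd _ _ hx.2 hy.2⟩
  | neg x _ hx => rw [neg_neg]; exact ⟨hx.2, hx.1⟩

end Pool.Agent.P.MP_84b56d_ag
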