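import Pool.Agent.P.MP_84b56d_ag.Law

open MvPolynomial TopologicalSpace

namespace Pool.Agent.P.MP_84b56d_ag

variable {k : Type*} {σ : Type} {G : Type*} [Field k] [AddCommGroup G] [TopologicalSpace G]
  (c : Ctx k σ G)

/-- chains of irreducible closed sets -/
inductive Ch {G : Type*} [TopologicalSpace G] : ℕ → Set G → Prop
  | zero (W : Set G) : IsClosed W → IsIrreducible W → Ch 0 W
  | succ (i : ℕ) (W W' : Set G) : Ch i W → W ⊂ W' → IsClosed W' → IsIrreducible W' → Ch (i + 1) W'

omit [AddCommGroup G] in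
theorem Ch.ci {i : ℕ} {W : Set G} (h : Ch i W) : IsClosed W ∧ IsIrreducible W := by
  cases h with
  | zero _ h1 h2 => exact ⟨h1, h2⟩
  | succ _ _ _ _ _ h1 h2 => exact ⟨h1, h2⟩

omit [AddCommGroup G] in
theorem Ch.image {i : ℕ} {W : Set G} (h : Ch i W) (e : G ≃ₜ G) : Ch i (e '' W) := by
  induction h with
  | zero W h1 h2 => exact Ch.zero _ (e.isClosedMap _ h1) (h2.image _ e.continuous.continuousOn)
  | succ i W W' _ hs h1 h2 ih =>
    exact Ch.succ i _ _ ih ⟨Set.image_mono hs.1,
      fun h => hs.2 ((Set.image_subset_image_iff e.injective).1 h)⟩ (e.isClosedMap _ h1)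
      (h2.image _ e.continuous.continuousOn)

theorem Ctx.ch_le [Infinite k] [Finite σ] {i : ℕ} {W : Set G} (h : Ch i W) :
    i + 1 ≤ td (c.I W) := by
  induction h with
  | zero W h1 h2 => simpa using c.one_le_td h2
  | succ i W W' h hs h1 h2 ih =>
    have := c.td_lt_td h.ci.1 h.ci.2 h2 hs
    omega

theorem Ctx.zero_estimate [IsAlgClosed k] [Finite σ] [IrreducibleSpace G] (g : ℕ)
    (hg : td (c.I Set.univ) = g + 1) :
    ∃ C : ℕ, ∀ (m : ℕ) (f : MvPolynomial σ k), 1 ≤ m → f.IsHomogeneous m → f ∉ c.I Set.univ →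
      ∀ S : Finset G, (0 : G) ∈ S → (∀ a ∈ S, ∀ b ∈ S, a ≠ b → ND (a - b)) →
        (∀ τ : Fin g → G, (∀ i, τ i ∈ S) → ∀ w ∈ c.rep (∑ i, τ i), eval w f = 0) →
        S.card ≤ C * m ^ g := by
  classical
  haveI := c.noetherianSpace
  haveI := c.t1Space
  haveI := c.sepCont
  obtain ⟨C, hC⟩ := c.comp_count
  obtain ⟨D, hD1, hD⟩ := c.cut
  refine ⟨C * (2 * D) ^ g, fun m f hm hf hfI S h0 hS hvan => ?_⟩
  choose T hT hT' using hD f m hf
  let Y : ℕ → Set G := fun j => {x | ∀ τ : Fin j → G, (∀ i, τ i ∈ S) →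
    ∀ w ∈ c.rep (x + ∑ i, τ i), eval w f = 0}
  let U : ℕ → Set (MvPolynomial σ k) := fun j =>
    {h | ∃ τ : Fin j → G, (∀ i, τ i ∈ S) ∧ h ∈ T (∑ i, τ i)}
  have hYU : ∀ j, Y j = {x | ∀ h ∈ U j, ∀ v ∈ c.rep x, eval v h = 0} := by
    intro j
    ext x
    constructor
    · rintro hx h ⟨τ, hτ, hh⟩ v hv
      exact (hT' _ x v hv).2 (hx τ hτ) h hh
    · intro hx τ hτ
      obtain ⟨v, hv⟩ := c.nonempty x
      exact (hT' _ x v hv).1 fun h hh => hx h ⟨τ, hτ, hh⟩ v hv
  have hYc : ∀ j, IsClosed (Y j) := fun j => hYU j ▸ c.isClosed_zero _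
  have hstep : ∀ j, ∀ x ∈ Y (j + 1), ∀ s ∈ S, x + s ∈ Y j := by
    intro j x hx s hs τ hτ w hw
    refine hx (Fin.cons s τ) (fun i => ?_) w ?_
    · refine Fin.cases ?_ (fun i => ?_) i
      · simpa using hs
      · simpa using hτ i
    · rw [Fin.sum_univ_succ]
      simpa [add_assoc] using hw
  have hne : ∀ j, Y j ≠ Set.univ := by
    intro j
    induction j with
    | zero =>
      intro h
      refine hfI fun y _ w hw => ?_
      have hy : y ∈ Y 0 := h ▸ Set.mem_univ y
      exact hy (fun i => i.elim0) (fun i => i.elim0) w (by simpa using hw)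
    | succ j ih =>
      intro h
      refine ih (Set.eq_univ_of_forall fun x => ?_)
      simpa using hstep j x (h ▸ Set.mem_univ x) 0 h0
  have key : ∃ j, ∃ W : Set G, IsClosed W ∧ IsIrreducible W ∧
      ∀ s ∈ S, IsComp (Y j) (Homeomorph.addRight s '' W) := by
    by_contra hcon
    push Not at hcon
    have hch : ∀ i, i ≤ g → ∃ W, Ch i W ∧ W ⊆ Y (g - i) := by
      intro i
      induction i with
      | zero =>
        intro _
        refine ⟨{0}, Ch.zero _ isClosed_singleton isIrreducible_singleton, ?_⟩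
        rintro _ rfl τ hτ w hw
        exact hvan τ hτ w (by simpa using hw)
      | succ i ih =>
        intro hi
        obtain ⟨W, hW, hWY⟩ := ih (by omega)
        obtain ⟨s, hs, hn⟩ := hcon (g - (i + 1)) W hW.ci.1 hW.ci.2
        have hW' := hW.image (Homeomorph.addRight s)
        have hsub : Homeomorph.addRight s '' W ⊆ Y (g - (i + 1)) := by
          rintro _ ⟨x, hx, rfl⟩
          refine hstep _ x ?_ s hs
          rw [show g - (i + 1) + 1 = g - i by omega]
          exact hWY hx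
        have : ∃ W', IsIrreducible W' ∧ Homeomorph.addRight s '' W ⊆ W' ∧ W' ⊆ Y (g - (i + 1)) ∧
            ¬ W' ⊆ Homeomorph.addRight s '' W := by
          by_contra h
          push Not at h
          exact hn ⟨hW'.ci.2, hW'.ci.1, hsub, h⟩
        obtain ⟨W', h1, h2, h3, h4⟩ := this
        refine ⟨closure W', Ch.succ i _ _ hW' ⟨h2.trans subset_closure,
          fun h => h4 (subset_closure.trans h)⟩ isClosed_closure h1.closure,
          closure_minimal h3 (hYc _)⟩
    obtain ⟨W, hW, hWY⟩ := hch g le_rfl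
    have h2 : Ch (g + 1) (Set.univ : Set G) := Ch.succ g W _ hW
      ⟨Set.subset_univ _, fun h => hne _ (Set.eq_univ_of_univ_subset (h.trans hWY))⟩
      isClosed_univ (IrreducibleSpace.isIrreducible_univ G)
    have := c.ch_le h2
    omega
  obtain ⟨j, W, hWc, hWi, hW⟩ := key
  have hinj : Set.InjOn (fun s => Homeomorph.addRight s '' W) (S : Set G) := by
    intro s hs s' hs' he
    by_contra hss
    have hu : W = Set.univ := by
      refine eq_univ_of_nd hWc hWi.nonempty (hS s hs s' hs' hss) fun w hw => ?_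
      have : w + s ∈ Homeomorph.addRight s' '' W := by
        rw [← show Homeomorph.addRight s '' W = Homeomorph.addRight s' '' W from he]
        exact ⟨w, hw, rfl⟩
      obtain ⟨w', hw', e⟩ := this
      have e' : w' + s' = w + s := e
      rw [show w + (s - s') = w' by rw [← add_sub_assoc, ← e']; simp]
      exact hw'
    refine hne j (Set.eq_univ_of_univ_subset ?_)
    refine Set.Subset.trans ?_ (hW s hs).2.2.1
    rw [hu, Set.image_univ, (Homeomorph.addRight s).surjective.range_eq]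
  rw [← Finset.card_image_of_injOn hinj]
  have := hC (D * (m + 1)) (by nlinarith) (U j) ?_ (S.image fun s => Homeomorph.addRight s '' W) ?_
  · refine this.trans ?_
    rw [hg, Nat.add_sub_cancel, mul_assoc, ← mul_pow]
    refine Nat.mul_le_mul_left _ (Nat.pow_le_pow_left ?_ _)
    nlinarith
  · rintro h ⟨τ, -, hh⟩
    exact hT _ h hh
  · intro W' hW'
    obtain ⟨s, hs, rfl⟩ := Finset.mem_image.1 hW'
    rw [← hYU]
    exact hW s hs

end Pool.Agent.P.MP_84b56d_ag
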