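import Pool.Agent.P.MP_84b56d_ag.Loc
import Pool.Agent.P.MP_84b56d_ag.Zero
import Pool.Agent.P.MP_84b56d_ag.Height

open MvPolynomial

namespace Pool.Agent.P.MP_84b56d_ag

variable {k : Type*} {σ : Type} {G : Type*} [Field k] [AddCommGroup G] [TopologicalSpace G]
  (c : Ctx k σ G)

theorem prod_pow_sub {O : Subring k} {J : AddSubgroup k} (hL : Loc O J) {τ : Type*} (s : Finset τ)
    (m : τ → ℕ) {v w : τ → k} (hv : ∀ i, v i ∈ O) (hw : ∀ i, w i ∈ O) (h : ∀ i, v i - w i ∈ J) :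
    ∏ i ∈ s, v i ^ m i - ∏ i ∈ s, w i ^ m i ∈ J := by
  classical
  induction s using Finset.induction_on with
  | empty => simp
  | insert i s hi ih =>
    rw [Finset.prod_insert hi, Finset.prod_insert hi]
    have e : ∀ a b p q : k, a * p - b * q = a * (p - q) + q * (a - b) := by intros; ring
    rw [e]
    exact J.add_mem (hL.mul _ (O.pow_mem (hv i) _) _ ih)
      (hL.mul _ (O.prod_mem fun j _ => O.pow_mem (hw j) _) _
        (CongP.pow_sub hL (hv i) (hw i) (h i) _))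

/-- exponent vectors of the auxiliary monomials -/
def expo (g μ : ℕ) (n : Fin g → Fin (μ + 1)) : Fin (g + 1) → ℕ :=
  Fin.cons (g * μ - ∑ j, (n j : ℕ)) fun j => n j

theorem sum_expo (g μ : ℕ) (n : Fin g → Fin (μ + 1)) : ∑ j, expo g μ n j = g * μ := by
  rw [Fin.sum_univ_succ]
  have : ∑ j, (n j : ℕ) ≤ g * μ := by
    have := Finset.sum_le_card_nsmul Finset.univ (fun j => (n j : ℕ)) μ
      fun j _ => Nat.lt_succ_iff.1 (n j).2
    simpa using this
  simp only [expo, Fin.cons_zero, Fin.cons_succ]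
  omega

theorem expo_inj (g μ : ℕ) : Function.Injective (expo g μ) := by
  intro n n' h
  funext j
  have := congrFun h j.succ
  simp only [expo, Fin.cons_succ] at this
  exact Fin.ext this

theorem indep_mono {P : Ideal (MvPolynomial σ k)} {d : ℕ} (e : Fin d → σ)
    (he : AlgebraicIndependent k fun j => Ideal.Quotient.mk P (X (e j))) {ι : Type*} [Fintype ι]
    (ex : ι → Fin d → ℕ) (hex : Function.Injective ex) (a : ι → k)
    (h : ∑ n, C (a n) * ∏ j, X (e j) ^ ex n j ∈ P) : a = 0 := by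
  classical
  let p : MvPolynomial (Fin d) k := ∑ n, monomial (Finsupp.equivFunOnFinite.symm (ex n)) (a n)
  have hp : p = 0 := by
    refine he.eq_zero_of_aeval_eq_zero p ?_
    rw [← Ideal.Quotient.eq_zero_iff_mem] at h
    rw [← h]
    simp only [p, map_sum, aeval_monomial, map_mul, map_prod, map_pow]
    refine Finset.sum_congr rfl fun n _ => ?_
    rw [Finsupp.prod_fintype _ _ (by simp)]
    rfl
  funext n
  have := congrArg (coeff (Finsupp.equivFunOnFinite.symm (ex n))) hp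
  simp only [p, coeff_sum, coeff_monomial, EmbeddingLike.apply_eq_iff_eq, hex.eq_iff,
    Finset.sum_ite_eq', Finset.mem_univ, if_true, coeff_zero] at this
  exact this

theorem Ctx.det_bound [IsAlgClosed k] [Finite σ] [IrreducibleSpace G] (g : ℕ)
    (hg : td (c.I Set.univ) = g + 1) (hg1 : 1 ≤ g) :
    ∃ C₀ : ℕ, ∀ (E : Set k) (A : Arith k E), ∃ C : ℕ, ∀ μ L : ℕ, 1 ≤ μ → ∀ S : Finset G,
      (0 : G) ∈ S → (∀ a ∈ S, ∀ b ∈ S, a ≠ b → ND (a - b)) → C₀ * μ ^ g < S.card →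
      (∀ τ : Fin g → G, (∀ i, τ i ∈ S) → ∃ v ∈ c.rep (∑ i, τ i), ∀ l, A.Sm L (v l)) →
      ∀ Q : Finset A.Pr, (∀ q ∈ Q, ∃ T : Finset G, 2 * T.card ≤ μ ^ g ∧
        ∀ τ : Fin g → G, (∀ i, τ i ∈ S) → ∃ t ∈ T, c.Cong (A.O q) (A.M q) (∑ i, τ i) t) →
      Q.card ≤ C * μ * (L + 1) := by
  classical
  haveI := c.isPrime_I (IrreducibleSpace.isIrreducible_univ G)
  obtain ⟨C₀, hC₀⟩ := c.zero_estimate g hg
  obtain ⟨e, he⟩ : ∃ e : Fin (g + 1) → σ,
      AlgebraicIndependent k fun j => Ideal.Quotient.mk (c.I Set.univ) (X (e j)) := by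
    have := td_basis (c.I Set.univ)
    rwa [hg] at this
  refine ⟨C₀ * g ^ g, fun E A => ⟨2 * A.C * (g + 1), fun μ L hμ S h0 hS hcard hsm Q hQ => ?_⟩⟩
  let ι := Fin g → Fin (μ + 1)
  let row : (σ → k) → ι → k := fun v n => ∏ j, v (e j) ^ expo g μ n j
  let Ω : Set (ι → k) := {ρ | ∃ τ : Fin g → G, (∀ i, τ i ∈ S) ∧ ∃ v ∈ c.rep (∑ i, τ i),
    (∀ l, A.Sm L (v l)) ∧ ρ = row v}
  obtain ⟨M, hM, hdet⟩ : ∃ M : Matrix ι ι k, (∀ i, M i ∈ Ω) ∧ M.det ≠ 0 := by
    refine exists_det_ne Ω fun a ha => ?_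
    by_contra hne
    let f : MvPolynomial σ k := ∑ n, C (a n) * ∏ j, X (e j) ^ expo g μ n j
    have hf : f.IsHomogeneous (g * μ) := by
      refine IsHomogeneous.sum _ _ _ fun n _ => IsHomogeneous.C_mul ?_ _
      rw [← sum_expo g μ n]
      exact IsHomogeneous.prod _ _ _ fun j _ => isHomogeneous_X_pow _ _
    have hfI : f ∉ c.I Set.univ := fun h => hne (indep_mono e he _ (expo_inj g μ) a h)
    have := hC₀ (g * μ) f (Nat.mul_pos hg1 hμ) hf hfI S h0 hS fun τ hτ w hw => by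
      obtain ⟨v, hv, hvs⟩ := hsm τ hτ
      obtain ⟨b, rfl⟩ := c.exists_smul _ v hv w hw
      rw [eval_smul_of_hom hf]
      have h1 := ha _ ⟨τ, hτ, v, hv, hvs, rfl⟩
      have h2 : eval v f = ∑ n, row v n * a n := by
        simp only [f, row, map_sum, map_mul, eval_C, map_prod, map_pow, eval_X]
        exact Finset.sum_congr rfl fun n _ => mul_comm _ _
      rw [h2, h1, mul_zero]
    rw [mul_pow, ← mul_assoc] at this
    omega
  choose τ hτ v hv hvs hrow using hM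
  have hK : Fintype.card ι = (μ + 1) ^ g := by simp [ι]
  have hK2 : Fintype.card ι ≤ 2 ^ (g * μ) := by
    rw [hK, mul_comm, pow_mul]
    exact Nat.pow_le_pow_left Nat.lt_two_pow_self _
  have hsmall : A.Sm (Fintype.card ι * (g * μ * L + g * μ)) M.det := by
    refine Arith.sm_det M _ _ hK2 fun i n => ?_
    rw [hrow i, ← sum_expo g μ n]
    exact Arith.sm_prod_pow _ (fun j => v i (e j)) _ L fun j _ => hvs i _
  have hcount := A.count' hdet (Fintype.card ι - μ ^ g / 2) _ hsmall Q fun q hq => by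
    obtain ⟨T, hT, hcls⟩ := hQ q hq
    choose t ht hc using fun i => hcls (τ i) (hτ i)
    have hL := A.loc q
    have : ∀ x : G, ∃ w : σ → k, (∃ w ∈ c.rep x, Prim (A.O q) w) → w ∈ c.rep x ∧ Prim (A.O q) w := by
      intro x
      by_cases h : ∃ w ∈ c.rep x, Prim (A.O q) w
      · obtain ⟨w, hw⟩ := h
        exact ⟨w, fun _ => hw⟩
      · exact ⟨0, fun h' => absurd h' h⟩
    choose w hw using this
    have hw' : ∀ i, w (t i) ∈ c.rep (t i) ∧ Prim (A.O q) (w (t i)) := fun i => by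
      obtain ⟨_, -, w', hw', -, pw, -⟩ := hc i
      exact hw _ ⟨w', hw', pw⟩
    choose u hu pu hu' using fun i => (hc i).symm.of_prim hL (hw' i).1 (hw' i).2
    choose b hb hb' using fun i => Ctx.prim_smul (hu i) (hv i) (pu i)
      fun l => A.R_le_O q (hvs i l).1
    have hMe : M = Matrix.of fun i n => b i ^ (g * μ) * (Matrix.of fun i n => row (u i) n) i n := by
      ext i n
      rw [hrow i, (hb' i).1]
      simp only [row, Matrix.of_apply, Pi.smul_apply, smul_eq_mul, mul_pow, Finset.prod_mul_distrib,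
        Finset.prod_pow_eq_pow_sum, sum_expo]
    rw [hMe, Matrix.det_mul_column]
    refine mul_mem_prin ((A.O q).prod_mem fun i _ => (A.O q).pow_mem (hb i) _) ?_
    have hπ : (A.π q.1 : k) ∈ A.O q := A.R_le_O q (A.π q.1).2
    refine prin_pow_anti hπ (show Fintype.card ι - μ ^ g / 2 ≤ Fintype.card ι - T.card by omega) ?_
    refine det_mem_prin _ _ hπ _ (fun i n => ?_) t T ht fun i i' hii n => ?_
    · rw [Matrix.of_apply]
      exact (A.O q).prod_mem fun j _ => (A.O q).pow_mem ((pu i).1 _) _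
    · rw [Matrix.of_apply, Matrix.of_apply]
      refine prod_pow_sub hL _ _ (fun j => (pu i).1 _) (fun j => (pu i').1 _) fun j => ?_
      have h1 := hu' i (e j)
      have h2 := hu' i' (e j)
      rw [← hii] at h2
      have := (A.M q).sub_mem h2 h1
      rwa [sub_sub_sub_cancel_left] at this
  have hle : μ ^ g ≤ Fintype.card ι := hK ▸ Nat.pow_le_pow_left (Nat.le_succ μ) g
  have hpos : 0 < Fintype.card ι := hK ▸ Nat.pow_pos (Nat.succ_pos μ)
  set K := Fintype.card ι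
  have h1 : K ≤ 2 * (K - μ ^ g / 2) := by omega
  refine Nat.le_of_mul_le_mul_left ?_ hpos
  have h2 : K * (g * μ * L + g * μ) + 1 ≤ K * ((g + 1) * μ * (L + 1)) := by
    have : 1 ≤ K * (μ * (L + 1)) := Nat.mul_pos hpos (Nat.mul_pos hμ (Nat.succ_pos L))
    nlinarith
  calc K * Q.card ≤ 2 * ((K - μ ^ g / 2) * Q.card) := by
        rw [← mul_assoc]; exact Nat.mul_le_mul_right _ h1
    _ ≤ 2 * (A.C * (K * ((g + 1) * μ * (L + 1)))) :=
        Nat.mul_le_mul_left _ (hcount.trans (Nat.mul_le_mul_left _ h2))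
    _ = K * (2 * A.C * (g + 1) * μ * (L + 1)) := by ring

theorem Ctx.finite_cong {Y : Set G} (hY : IsClosed Y) {T : Set (MvPolynomial σ k)}
    (hT : ∀ f ∈ T, ∃ d, f.IsHomogeneous d) (hs : Ideal.span T = c.I Y) {E : Set k} (A : Arith k E)
    (hE : ∀ f ∈ T, ∀ m, coeff m f ∈ E) {x : G} (hx : x ∉ Y) (hv : ∃ v ∈ c.rep x, ∀ l, v l ∈ A.R) :
    {q : A.Pr | ∃ y ∈ Y, c.Cong (A.O q) (A.M q) x y}.Finite := by
  obtain ⟨v, hv, hvR⟩ := hv
  obtain ⟨f, hf, hne⟩ : ∃ f ∈ T, eval v f ≠ 0 := by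
    by_contra h
    push Not at h
    exact hx (c.mem_of_gens hY hT hs hv h)
  obtain ⟨d, hd⟩ := hT f hf
  have hfI : f ∈ c.I Y := hs ▸ Ideal.subset_span hf
  have hh : (A.h : k) ≠ 0 := fun h => A.h_ne (Subtype.ext h)
  have hR : (A.h : k) * eval v f ∈ A.R := by
    have := eval_mem (O := A.R) (f := C (A.h : k) * f)
      (fun m => by rw [coeff_C_mul]; exact A.clear _ (hE f hf m)) hvR
    simpa using this
  refine (A.finite_mem_M (mul_ne_zero hh hne) hR).subset ?_
  rintro q ⟨y, hy, u, hu, w, hw, pu, pw, huw⟩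
  obtain ⟨b, hb, rfl, -⟩ := Ctx.prim_smul hu hv pu fun l => A.R_le_O q (hvR l)
  have h1 := (A.loc q).eval_sub_mem (f := f) (fun m => A.subset_O q (hE f hf m)) pu.1 pw.1 huw
  rw [hfI y hy w hw, sub_zero] at h1
  change _ ∈ A.M q
  rw [eval_smul_of_hom hd]
  exact (A.loc q).mul _ (A.R_le_O q A.h.2) _ ((A.loc q).mul _ ((A.O q).pow_mem hb d) _ h1)

end Pool.Agent.P.MP_84b56d_ag
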