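import Pool.Agent.P.MP_84b56d_ag.Grp

open TopologicalSpace Pointwise

namespace Pool.Agent.P.MP_84b56d_ag

variable {G : Type*} [TopologicalSpace G] [NoetherianSpace G] [AddCommGroup G]
  [SeparatelyContinuousAdd G]

namespace HTAux

omit [NoetherianSpace G] [AddCommGroup G] [SeparatelyContinuousAdd G] in
lemma irr_sub {B : Set G} (hB : IsIrreducible B) {κ : Type*} {t : Set κ} (ht : t.Finite)
    (Z : κ → Set G) (hZ : ∀ i ∈ t, IsClosed (Z i)) (h : B ⊆ ⋃ i ∈ t, Z i) : ∃ i ∈ t, B ⊆ Z i := by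
  obtain ⟨z, hz, hz'⟩ := isIrreducible_iff_sUnion_isClosed.1 hB (ht.image Z).toFinset
    (fun z hz => by
      obtain ⟨i, hi, rfl⟩ := (Set.Finite.mem_toFinset _).1 hz
      exact hZ i hi) (by rwa [Set.Finite.coe_toFinset, Set.sUnion_image])
  obtain ⟨i, hi, rfl⟩ := (Set.Finite.mem_toFinset _).1 hz
  exact ⟨i, hi, hz'⟩

omit [NoetherianSpace G] in
lemma closed_add {Y : Set G} (hY : IsClosed Y) (c : G) : IsClosed {x | x + c ∈ Y} :=
  hY.preimage (continuous_add_const c)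

omit [NoetherianSpace G] in
lemma closed_add' {Y : Set G} (hY : IsClosed Y) (c : G) : IsClosed {x | c + x ∈ Y} := by
  simpa only [add_comm c] using closed_add hY c

lemma dense_fin (B Λ : AddSubgroup G) (hB : CI B) (hd : (B : Set G) ⊆ closure (Λ : Set G))
    (D : AddSubgroup Λ) [D.FiniteIndex] :
    (B : Set G) ⊆ closure (D.map Λ.subtype : Set G) := by
  obtain ⟨H, hH⟩ := exists_closure_subgroup (D.map Λ.subtype)
  have hc : IsClosed (H : Set G) := hH ▸ isClosed_closure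
  have cov : (Λ : Set G) ⊆ ⋃ q ∈ (Set.univ : Set (Λ ⧸ D)), {x | x + -(q.out : G) ∈ (H : Set G)} := by
    intro x hx
    refine Set.mem_biUnion (Set.mem_univ (QuotientAddGroup.mk ⟨x, hx⟩ : Λ ⧸ D)) ?_
    have h1 : -(QuotientAddGroup.mk ⟨x, hx⟩ : Λ ⧸ D).out + ⟨x, hx⟩ ∈ D :=
      QuotientAddGroup.eq.1 (QuotientAddGroup.out_eq' _)
    rw [Set.mem_ofPred_eq, hH, add_comm]
    exact subset_closure ⟨_, h1, rfl⟩
  obtain ⟨q, -, hq⟩ := irr_sub hB.2 Set.finite_univ _ (fun q _ => closed_add hc _)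
    (hd.trans (closure_minimal cov (Set.finite_univ.isClosed_biUnion fun q _ => closed_add hc _)))
  intro x hx
  have h1 : x + -(q.out : G) ∈ H := hq hx
  have h0 : 0 + -(q.out : G) ∈ H := hq B.zero_mem
  rw [← hH]
  simpa using H.sub_mem h1 h0

end HTAux

open HTAux

theorem pattern_dense (B Λ : AddSubgroup G) (hB : CI B) (hΛ : Λ ≤ B)
    (hd : (B : Set G) ⊆ closure (Λ : Set G)) {ι : Type*} (s : Finset ι) (a : ι → G)
    (K : ι → AddSubgroup G) (h0 : ∀ i ∈ s, a i ∉ K i) :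
    (B : Set G) ⊆ closure {x | x ∈ Λ ∧ ∀ i ∈ s, x - a i ∉ K i} := by
  classical
  set Y := closure {x | x ∈ Λ ∧ ∀ i ∈ s, x - a i ∉ K i} with hY
  have hYc : IsClosed Y := isClosed_closure
  have hYB : Y ⊆ B := closure_minimal (fun x hx => hΛ hx.1) hB.1
  set H : ι → AddSubgroup Λ := fun i => (K i).addSubgroupOf Λ with hH
  set D : AddSubgroup Λ := ⨅ i ∈ s.filter (fun i => (H i).FiniteIndex), H i with hD
  have : D.FiniteIndex := AddSubgroup.finiteIndex_iInf' _ fun i hi => (Finset.mem_filter.1 hi).2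
  have hBD := dense_fin B Λ hB hd D
  intro w₀ hw₀
  by_contra hw
  have emp : (Set.univ : Set G) ∩ ⋂ γ : D, {w | w + ((γ : Λ) : G) ∈ Y} = ∅ := by
    rw [Set.univ_inter, Set.eq_empty_iff_forall_notMem]
    intro w hw'
    have h1 : (B : Set G) ⊆ {x | w + x ∈ Y} := by
      refine hBD.trans (closure_minimal ?_ (closed_add' hYc w))
      rintro _ ⟨γ, hγ, rfl⟩
      exact Set.mem_iInter.1 hw' ⟨γ, hγ⟩
    have h2 : w + 0 ∈ Y := h1 B.zero_mem
    have h3 : w + (w₀ - w) ∈ Y := h1 (B.sub_mem hw₀ (by simpa using hYB h2))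
    exact hw (by simpa using h3)
  obtain ⟨t, ht⟩ := (NoetherianSpace.isCompact (Set.univ : Set G)).elim_finite_subfamily_closed
    _ (fun γ => closed_add hYc _) emp
  have key : ∀ δ : Λ, ∃ γ ∈ t, ∃ i ∈ s, (δ : G) + ((γ : Λ) : G) - a i ∈ K i := by
    intro δ
    by_contra hc
    push Not at hc
    have : (δ : G) ∈ (Set.univ : Set G) ∩ ⋂ γ ∈ t, {w | w + ((γ : Λ) : G) ∈ Y} :=
      ⟨Set.mem_univ _, Set.mem_biInter fun γ hγ =>
        subset_closure ⟨Λ.add_mem δ.2 (γ : Λ).2, hc γ hγ⟩⟩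
    rw [ht] at this
    exact this
  set u := (t ×ˢ s).filter fun p => ∃ δ : Λ, (δ : G) + ((p.1 : Λ) : G) - a p.2 ∈ K p.2 with hu
  have ch : ∀ p : D × ι, ∃ δ : Λ, p ∈ u → (δ : G) + ((p.1 : Λ) : G) - a p.2 ∈ K p.2 := by
    intro p
    by_cases hp : p ∈ u
    · obtain ⟨δ, hδ⟩ := (Finset.mem_filter.1 hp).2
      exact ⟨δ, fun _ => hδ⟩
    · exact ⟨0, fun h => absurd h hp⟩
  choose g hg using ch
  have cov : ⋃ p ∈ u, g p +ᵥ (H p.2 : Set Λ) = Set.univ := by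
    refine Set.eq_univ_of_forall fun δ => ?_
    obtain ⟨γ, hγ, i, hi, h⟩ := key δ
    have hp : (γ, i) ∈ u := Finset.mem_filter.2 ⟨Finset.mem_product.2 ⟨hγ, hi⟩, δ, h⟩
    refine Set.mem_biUnion hp ((mem_leftAddCoset_iff _).2 ?_)
    have := (K i).sub_mem h (hg _ hp)
    simp only [SetLike.mem_coe, hH, AddSubgroup.mem_addSubgroupOf, AddSubgroup.coe_add,
      AddSubgroup.coe_neg]
    convert this using 1
    abel
  have cov' := AddSubgroup.leftCoset_cover_filter_FiniteIndex cov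
  have z : (0 : Λ) ∈ (Set.univ : Set Λ) := Set.mem_univ _
  rw [← cov'] at z
  obtain ⟨p, hp, hz⟩ := Set.mem_iUnion₂.1 z
  obtain ⟨p1, p2⟩ := Finset.mem_filter.1 hp
  have p3 : p.2 ∈ s := (Finset.mem_product.1 (Finset.mem_filter.1 p1).1).2
  have a1 : -(g p : G) ∈ K p.2 := by
    have := (mem_leftAddCoset_iff _).1 hz
    simpa [hH, AddSubgroup.mem_addSubgroupOf] using this
  have a2 : ((p.1 : Λ) : G) ∈ K p.2 := by
    have h1 : (p.1 : Λ) ∈ ⨅ i ∈ s.filter (fun i => (H i).FiniteIndex), H i := p.1.2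
    exact AddSubgroup.mem_iInf.1 (AddSubgroup.mem_iInf.1 h1 p.2) (Finset.mem_filter.2 ⟨p3, p2⟩)
  refine h0 p.2 p3 ?_
  have := (K p.2).sub_mem ((K p.2).sub_mem a2 a1) (hg p p1)
  convert this using 1
  abel

theorem ht_dense (B B' Γ Λ Λ' : AddSubgroup G) (hB : CI B) (hB' : CI B') (hne : B ≠ ⊤)
    (hd : Dense ((B : Set G) + (B' : Set G))) (hΛ : Λ ≤ B) (hΛΓ : Λ ≤ Γ)
    (dΛ : (B : Set G) ⊆ closure (Λ : Set G)) (hΛ' : Λ' ≤ B') (hΛΓ' : Λ' ≤ Γ)
    (dΛ' : (B' : Set G) ⊆ closure (Λ' : Set G)) (Z : Set G) (hZ : Z.Finite) (hZΓ : Z ⊆ Γ)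
    (y₀ : G) (hy₀ : y₀ ∈ Γ) (hy : ∀ z ∈ Z, z - y₀ ∉ B') {P : Type*} (K : P → AddSubgroup G)
    (hfin : ∀ w ∈ Γ, w ∉ B → {q | ∃ b ∈ B, b ∈ Γ ∧ w - b ∈ K q}.Finite)
    (hfin' : ∀ w ∈ Γ, w ∉ B' → {q | ∃ b ∈ B', b ∈ Γ ∧ w - b ∈ K q}.Finite) :
    ∃ S : Set P, S.Finite ∧ Dense {x | x ∈ Γ ∧ ∀ q, q ∉ S → ∀ z ∈ Z, x - z ∉ K q} := by
  classical
  set S : Set P := ⋃ z ∈ Z, {q | ∃ b ∈ B', b ∈ Γ ∧ z - y₀ - b ∈ K q} with hS
  refine ⟨S, hZ.biUnion fun z hz => hfin' _ (Γ.sub_mem (hZΓ hz) hy₀) (hy z hz), ?_⟩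
  set Y := closure {x | x ∈ Γ ∧ ∀ q, q ∉ S → ∀ z ∈ Z, x - z ∉ K q} with hY
  have hYc : IsClosed Y := isClosed_closure
  have A : ∀ b' ∈ Λ', (∀ z ∈ Z, b' + (y₀ - z) ∉ B) → ∀ b ∈ B, y₀ + b' + b ∈ Y := by
    intro b' hb' hz
    have hx : y₀ + b' ∈ Γ := Γ.add_mem hy₀ (hΛΓ' hb')
    have hT : (⋃ z ∈ Z, {q | ∃ b ∈ B, b ∈ Γ ∧ z - (y₀ + b') - b ∈ K q}).Finite :=
      hZ.biUnion fun z hz' => hfin _ (Γ.sub_mem (hZΓ hz') hx) fun h => hz z hz' (by
        convert B.neg_mem h using 1; abel)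
    have := pattern_dense B Λ hB hΛ dΛ ((hT.toFinset.filter (· ∉ S)) ×ˢ hZ.toFinset)
      (fun p => p.2 - (y₀ + b')) (fun p => K p.1) (fun p hp h => by
        obtain ⟨p1, p2⟩ := Finset.mem_product.1 hp
        refine (Finset.mem_filter.1 p1).2 (Set.mem_biUnion (hZ.mem_toFinset.1 p2)
          ⟨b', hΛ' hb', hΛΓ' hb', ?_⟩)
        convert h using 1; abel)
    refine this.trans (closure_minimal (fun x hx' => subset_closure
      ⟨Γ.add_mem hx (hΛΓ hx'.1), fun q hq z hz' h => ?_⟩) (closed_add' hYc _))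
    refine hx'.2 (q, z) (Finset.mem_product.2 ⟨Finset.mem_filter.2 ⟨hT.mem_toFinset.2
      (Set.mem_biUnion hz' ⟨x, hΛ hx'.1, hΛΓ hx'.1, ?_⟩), hq⟩, hZ.mem_toFinset.2 hz'⟩) ?_
    · convert (K q).neg_mem h using 1; abel
    · convert h using 1; simp only; abel
  have C : ∀ b ∈ B, ∀ b' ∈ B', y₀ + b + b' ∈ Y := by
    intro b hb
    have c1 : IsClosed (⋃ z ∈ Z, {x | x + (y₀ - z) ∈ (B : Set G)}) :=
      hZ.isClosed_biUnion fun z _ => closed_add hB.1 _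
    have cov : (Λ' : Set G) ⊆ {x | y₀ + b + x ∈ Y} ∪ ⋃ z ∈ Z, {x | x + (y₀ - z) ∈ (B : Set G)} := by
      intro x hx
      by_cases h : ∀ z ∈ Z, x + (y₀ - z) ∉ B
      · left
        rw [Set.mem_ofPred_eq, add_right_comm]
        exact A x hx h b hb
      · push Not at h
        obtain ⟨z, hz, h⟩ := h
        exact Or.inr (Set.mem_biUnion hz h)
    rcases isPreirreducible_iff_isClosed_union_isClosed.1 hB'.2.2 _ _ (closed_add' hYc _) c1
      (dΛ'.trans (closure_minimal cov ((closed_add' hYc _).union c1))) with h | h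
    · exact fun b' hb' => h hb'
    · obtain ⟨z, -, hz⟩ := irr_sub hB'.2 hZ _ (fun z _ => closed_add hB.1 _) h
      refine absurd (AddSubgroup.coe_eq_univ.1 (Set.eq_univ_of_univ_subset ?_)) hne
      rw [← hd.closure_eq]
      refine closure_minimal ?_ hB.1
      rintro _ ⟨u, hu, v, hv, rfl⟩
      have h1 : v + (y₀ - z) ∈ B := hz hv
      have h2 : 0 + (y₀ - z) ∈ B := hz B'.zero_mem
      exact B.add_mem hu (by simpa using B.sub_mem h1 h2)
  intro x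
  have : closure ((B : Set G) + (B' : Set G)) ⊆ {w | y₀ + w ∈ Y} := by
    refine closure_minimal ?_ (closed_add' hYc _)
    rintro _ ⟨u, hu, v, hv, rfl⟩
    simpa only [Set.mem_ofPred_eq, add_assoc] using C u hu v hv
  simpa using this (hd (x - y₀))

end Pool.Agent.P.MP_84b56d_ag
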