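import Pool.Agent.P.MP_84b56d_ag.ND
import Pool.Agent.P.MP_84b56d_ag.Det
import Pool.Agent.P.MP_84b56d_ag.Ar4
import Pool.Agent.P.MP_84b56d_ag.HT
import Pool.Agent.P.MP_84b56d_ag.Dens
import Pool.Agent.P.MP_84b56d_ag.Count

open MvPolynomial TopologicalSpace Pointwise

namespace Pool.Agent.P.MP_84b56d_ag

variable {k : Type*} [Field k] {σ : Type} {G : Type*} [AddCommGroup G] [TopologicalSpace G]
  (c : Ctx k σ G)

theorem Ctx.setup [IsAlgClosed k] [CharZero k] [Finite σ] (X : Set G) (hX : X.Finite) (E₀ : Set k)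
    (hE₀ : E₀.Finite) : ∃ (E : Set k) (A : Arith k E) (K : A.Pr → AddSubgroup G), E₀ ⊆ E ∧
      (∀ α l m, coeff m (c.law α l) ∈ E) ∧
      (∀ q, ∀ x ∈ AddSubgroup.closure X, ∃ v ∈ c.rep x, Prim (A.O q) v) ∧
      (∀ x ∈ AddSubgroup.closure X, ∃ v ∈ c.rep x, ∀ l, v l ∈ A.R) ∧
      ∀ q, ∀ x ∈ AddSubgroup.closure X, ∀ y ∈ AddSubgroup.closure X,
        (x - y ∈ K q ↔ c.Cong (A.O q) (A.M q) x y) := by
  obtain ⟨E₁, hE₁, hlaw, hgood⟩ := c.exists_good
  choose r hr i hi using c.exists_rep_one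
  let X' : Set G := insert 0 (X ∪ (fun x => -x) '' X)
  have hX' : X'.Finite := (hX.union (hX.image _)).insert 0
  let E : Set k := E₀ ∪ (E₁ ∪ ⋃ x ∈ X', Set.range (r x))
  have hE : E.Finite := hE₀.union (hE₁.union (hX'.biUnion fun x _ => Set.finite_range _))
  obtain ⟨A⟩ := exists_arith E hE
  have hrE : ∀ x ∈ X', ∀ l, r x l ∈ E := fun x hx l => by
    refine Or.inr (Or.inr ?_)
    simp only [Set.mem_iUnion]
    exact ⟨x, hx, l, rfl⟩
  have hG : ∀ q, c.Good (A.O q) := fun q =>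
    hgood _ (A.loc q).loc fun e he => A.subset_O q (Or.inr (Or.inl he))
  have hp : ∀ q, ∀ x ∈ X', ∃ v ∈ c.rep x, Prim (A.O q) v := fun q x hx =>
    ⟨r x, hr x, fun l => A.subset_O q (hrE x hx l), i x, hi x ▸ un_one⟩
  have hh : (A.h : k) ≠ 0 := fun h => A.h_ne (Subtype.ext h)
  have hint : ∀ x ∈ X', ∃ v ∈ c.rep x, ∀ l, v l ∈ A.R := fun x hx =>
    ⟨(A.h : k) • r x, c.smul_mem x _ (hr x) _ hh, fun l => A.clear _ (hrE x hx l)⟩
  have hprim : ∀ q, ∀ x ∈ AddSubgroup.closure X, ∃ v ∈ c.rep x, Prim (A.O q) v := fun q =>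
    (hG q).prim_closure (hp q 0 (Or.inl rfl)) fun x hx =>
      ⟨hp q x (Or.inr (Or.inl hx)), hp q _ (Or.inr (Or.inr ⟨x, hx, rfl⟩))⟩
  choose K hK using fun q => c.exists_ker (A.loc q) (hG q) _ (hprim q)
  exact ⟨E, A, K, Set.subset_union_left, fun α l m => Or.inr (Or.inl (hlaw α l m)), hprim,
    c.int_closure A (fun α l m => Or.inr (Or.inl (hlaw α l m))) (hint 0 (Or.inl rfl)) fun x hx =>
      ⟨hint x (Or.inr (Or.inl hx)), hint _ (Or.inr (Or.inr ⟨x, hx, rfl⟩))⟩, hK⟩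

/-- the common conclusion of the two cases -/
def Ctx.Out (Z : Set G) (E₀ : Set k) : Prop :=
  ∃ (E : Set k) (A : Arith k E) (S : Set A.Pr), E₀ ⊆ E ∧ S.Finite ∧
    Dense {x | (∃ v ∈ c.rep x, ∀ l, v l ∈ A.R) ∧ ∀ q, q ∉ S →
      (∃ v ∈ c.rep x, Prim (A.O q) v) ∧ ∀ z ∈ Z, ¬ c.Cong (A.O q) (A.M q) x z}

theorem Ctx.out_sum [IsAlgClosed k] [CharZero k] [Finite σ] [IrreducibleSpace G]
    {B B' : AddSubgroup G} (hB : CI B) (hB' : CI B') (hne : B ≠ ⊤) (hne' : B' ≠ ⊤)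
    (hd : Dense ((B : Set G) + (B' : Set G))) (Z : Set G) (hZ : Z.Finite) (E₀ : Set k)
    (hE₀ : E₀.Finite) : c.Out Z E₀ := by
  classical
  haveI := c.noetherianSpace
  haveI := c.sepCont
  have hfg := exists_fg_dense (fun W => td (c.I W)) (td (c.I Set.univ))
    (fun W _ hW => c.td_le_td hW (IrreducibleSpace.isIrreducible_univ G) (Set.subset_univ W))
    (fun W W' h1 h2 _ h4 h => c.td_lt_td h1 h2 h4 h) c.ndProp
  obtain ⟨X, hX, hXB, hXd⟩ := hfg B hB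
  obtain ⟨X', hX', hXB', hXd'⟩ := hfg B' hB'
  obtain ⟨y₀, hy₀⟩ : ∃ y₀, ∀ z ∈ Z, z - y₀ ∉ B' := by
    by_contra hcon
    push Not at hcon
    obtain ⟨W, hW, hsub⟩ := isIrreducible_iff_sUnion_isClosed.1
      (IrreducibleSpace.isIrreducible_univ G)
      (hZ.toFinset.image fun z => (fun y => y + -z) ⁻¹' (B' : Set G)) (by
        intro W hW
        obtain ⟨z, -, rfl⟩ := Finset.mem_image.1 hW
        exact hB'.1.preimage (continuous_add_const _)) (by
        intro y _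
        obtain ⟨z, hz, h⟩ := hcon y
        refine ⟨_, Finset.mem_coe.2 (Finset.mem_image.2 ⟨z, hZ.mem_toFinset.2 hz, rfl⟩), ?_⟩
        have := B'.neg_mem h
        simpa [sub_eq_add_neg] using this)
    obtain ⟨z, -, rfl⟩ := Finset.mem_image.1 hW
    refine hne' ((AddSubgroup.eq_top_iff' _).2 fun y => ?_)
    simpa using hsub (Set.mem_univ (y + z))
  obtain ⟨T, hT, hTs⟩ := c.exists_gens (B : Set G)
  obtain ⟨T', hT', hTs'⟩ := c.exists_gens (B' : Set G)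
  obtain ⟨E, A, K, hE, -, hprim, hint, hK⟩ := c.setup (insert y₀ (Z ∪ (X ∪ X')))
    ((hZ.union (hX.union hX')).insert y₀) (E₀ ∪ ⋃ f ∈ T ∪ T', Set.range fun m => coeff m f)
    (hE₀.union ((T ∪ T').finite_toSet.biUnion fun f _ => finite_coeffs f))
  set Γ := AddSubgroup.closure (insert y₀ (Z ∪ (X ∪ X')))
  have hco : ∀ f ∈ T ∪ T', ∀ m, coeff m f ∈ E := fun f hf m => by
    refine hE (Or.inr ?_)
    simp only [Set.mem_iUnion]
    exact ⟨f, hf, m, rfl⟩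
  have hZΓ : Z ⊆ Γ := fun z hz => AddSubgroup.subset_closure (Or.inr (Or.inl hz))
  obtain ⟨S, hS, hdense⟩ := ht_dense B B' Γ (AddSubgroup.closure X) (AddSubgroup.closure X') hB hB'
    hne hd ((AddSubgroup.closure_le _).2 hXB)
    (AddSubgroup.closure_mono fun x hx => Or.inr (Or.inr (Or.inl hx))) hXd
    ((AddSubgroup.closure_le _).2 hXB')
    (AddSubgroup.closure_mono fun x hx => Or.inr (Or.inr (Or.inr hx))) hXd' Z hZ hZΓ y₀
    (AddSubgroup.subset_closure (Or.inl rfl)) hy₀ K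
    (fun w hw hwB => (c.finite_cong hB.1 hT hTs A
      (fun f hf => hco f (Finset.mem_union_left _ hf)) hwB (hint w hw)).subset (by
        rintro q ⟨b, hb, hbΓ, h⟩
        exact ⟨b, hb, (hK q w hw b hbΓ).1 h⟩))
    (fun w hw hwB => (c.finite_cong hB'.1 hT' hTs' A
      (fun f hf => hco f (Finset.mem_union_right _ hf)) hwB (hint w hw)).subset (by
        rintro q ⟨b, hb, hbΓ, h⟩
        exact ⟨b, hb, (hK q w hw b hbΓ).1 h⟩))
  refine ⟨E, A, S, Set.subset_union_left.trans hE, hS, hdense.mono ?_⟩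
  rintro x ⟨hx, h⟩
  exact ⟨hint x hx, fun q hq => ⟨hprim q x hx, fun z hz hc =>
    h q hq z hz ((hK q x hx z (hZΓ hz)).2 hc)⟩⟩

theorem sum_mem_box {r g ρ : ℕ} (a : Fin g → Fin r → ℤ) (h : ∀ i, a i ∈ box r ρ) :
    ∑ i, a i ∈ box r (g * ρ) := by
  rw [CountP.mem_box]
  intro j
  rw [Finset.sum_apply]
  refine (Finset.abs_sum_le_sum_abs _ _).trans ?_
  have := Finset.sum_le_card_nsmul Finset.univ (fun i => |a i j|) (ρ : ℤ)
    fun i _ => CountP.mem_box.1 (h i) j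
  simpa using this

theorem Ctx.out_nd [IsAlgClosed k] [CharZero k] [Finite σ] [IrreducibleSpace G] [Nontrivial G]
    (hdim : 3 ≤ td (c.I Set.univ)) (Z : Set G) (hZ : Z.Finite)
    (hnd : ∀ r : ℕ, ∃ x : Fin r → G, ∀ a : Fin r → ℤ, a ≠ 0 →
      ∀ u ∈ AddSubgroup.closure Z, ND (∑ i, a i • x i + u)) (E₀ : Set k) (hE₀ : E₀.Finite) :
    c.Out Z E₀ := by
  classical
  haveI := c.noetherianSpace
  haveI := c.sepCont
  haveI := c.t1Space
  obtain ⟨g, hg⟩ : ∃ g, td (c.I Set.univ) = g + 1 := ⟨td (c.I Set.univ) - 1, by omega⟩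
  have hg2 : 2 ≤ g := by omega
  obtain ⟨κ, hκ⟩ := c.height_bound
  obtain ⟨C₀, hC₀⟩ := c.det_bound g hg (by omega)
  set r := g * κ + 1 with hr
  obtain ⟨x, hx⟩ := hnd (r + 1)
  obtain ⟨E, A, K, hE, hlaw, hprim, hint, hK⟩ := c.setup (Z ∪ Set.range x)
    (hZ.union (Set.finite_range x)) E₀ hE₀
  set Γ := AddSubgroup.closure (Z ∪ Set.range x)
  obtain ⟨C, hC⟩ := hC₀ E A
  have hxΓ : ∀ i, x i ∈ Γ := fun i => AddSubgroup.subset_closure (Or.inr ⟨i, rfl⟩)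
  have hZΓ : ∀ z ∈ Z, z ∈ Γ := fun z hz => AddSubgroup.subset_closure (Or.inl hz)
  let φ : (Fin r → ℤ) →+ G := AddMonoidHom.mk' (fun a => ∑ i, a i • x i.succ) fun a b => by
    simp only [Pi.add_apply, add_zsmul, Finset.sum_add_distrib]
  have hφ : ∀ a, φ a = ∑ i, a i • x i.succ := fun a => rfl
  have hφΓ : ∀ a, φ a ∈ Γ := fun a => by
    rw [hφ]; exact Γ.sum_mem fun i _ => Γ.zsmul_mem (hxΓ _) _
  let ψ : G → ((Fin r → ℤ) × ℤ) →+ G := fun z =>
    AddMonoidHom.mk' (fun p => φ p.1 + p.2 • (z - x 0)) fun a b => by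
      simp only [Prod.fst_add, Prod.snd_add, map_add, add_zsmul]; abel
  have hψ : ∀ z p, ψ z p = φ p.1 + p.2 • (z - x 0) := fun z p => rfl
  have hψΓ : ∀ z ∈ Z, ∀ p, ψ z p ∈ Γ := fun z hz p =>
    Γ.add_mem (hφΓ _) (Γ.zsmul_mem (Γ.sub_mem (hZΓ z hz) (hxΓ 0)) _)
  have hψnd : ∀ z ∈ Z, ∀ p, p ≠ 0 → ND (ψ z p) := by
    intro z hz p hp
    have := hx (Fin.cons (-p.2) p.1) (fun h => hp ?_) (p.2 • z)
      ((AddSubgroup.closure Z).zsmul_mem (AddSubgroup.subset_closure hz) _)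
    · rw [Fin.sum_univ_succ] at this
      simp only [Fin.cons_zero, Fin.cons_succ] at this
      rwa [hψ, hφ, show ∑ i, p.1 i • x i.succ + p.2 • (z - x 0) =
        -p.2 • x 0 + ∑ i, p.1 i • x i.succ + p.2 • z by rw [zsmul_sub, neg_zsmul]; abel]
    · refine Prod.ext (funext fun i => ?_) ?_
      · simpa using congrFun h i.succ
      · simpa using congrFun h 0
  have hnd0 : ¬ ND (0 : G) := by
    intro h
    have h1 : closure (AddSubgroup.zmultiples (0 : G) : Set G) = Set.univ := h.closure_eq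
    rw [AddSubgroup.zmultiples_zero_eq_bot, AddSubgroup.coe_bot, closure_singleton] at h1
    obtain ⟨y, hy⟩ := exists_ne (0 : G)
    exact hy (show y ∈ ({0} : Set G) from h1 ▸ Set.mem_univ y)
  have hψinj : ∀ z ∈ Z, Function.Injective (ψ z) := fun z hz =>
    (injective_iff_map_eq_zero _).2 fun p hp => by
      by_contra h
      exact hnd0 (hp ▸ hψnd z hz p h)
  have key : ∀ z ∈ Z, ∃ S₀ : Set A.Pr, S₀.Finite ∧ ∃ i₀ : ℕ, ∀ i, i₀ ≤ i →
      (2 * (hZ.toFinset.card + 1)) * ((box r (2 ^ (i * g))).filter fun a =>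
        ∃ q, q ∉ S₀ ∧ (a, (-1 : ℤ)) ∈ (K q).comap (ψ z)).card ≤ (box r (2 ^ (i * g))).card := by
    intro z hz
    obtain ⟨C₁, hC₁⟩ := hκ E A hlaw (Fin (r + 1)) (Fin.cons (z - x 0) fun i => x i.succ)
      (hint 0 Γ.zero_mem)
      (fun i => hint _ (Fin.cases (Γ.sub_mem (hZΓ z hz) (hxΓ 0)) (fun i => hxΓ _) i))
      (fun i => hint _ (Γ.neg_mem (Fin.cases (Γ.sub_mem (hZΓ z hz) (hxΓ 0)) (fun i => hxΓ _) i)))
    refine count_main g κ r hg2 le_rfl (fun q => (K q).comap (ψ z)) C₀ (C * (C₁ * g ^ κ + 1))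
      (fun μ ρ τ hμ hρ hτ hcard S hS => ?_) _
    let Sg : Finset ((Fin r → ℤ) × ℤ) := box r ρ ×ˢ Finset.Icc (0 : ℤ) τ
    have hlift : ∀ t : Fin g → G, (∀ i, t i ∈ Sg.image (ψ z)) → ∃ p : (Fin r → ℤ) × ℤ,
        p.1 ∈ box r (g * ρ) ∧ 0 ≤ p.2 ∧ p.2 ≤ (g * τ : ℕ) ∧ ∑ i, t i = ψ z p := by
      intro t ht
      choose p hp hp' using fun i => Finset.mem_image.1 (ht i)
      refine ⟨∑ i, p i, ?_, ?_, ?_, by rw [map_sum]; simp only [hp']⟩
      · rw [Prod.fst_sum]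
        exact sum_mem_box _ fun i => (Finset.mem_product.1 (hp i)).1
      · rw [Prod.snd_sum]
        exact Finset.sum_nonneg fun i _ => (Finset.mem_Icc.1 (Finset.mem_product.1 (hp i)).2).1
      · rw [Prod.snd_sum]
        have := Finset.sum_le_card_nsmul Finset.univ (fun i => (p i).2) (τ : ℤ)
          fun i _ => (Finset.mem_Icc.1 (Finset.mem_product.1 (hp i)).2).2
        simpa using this
    have := hC μ (C₁ * (g * ρ) ^ κ) hμ (Sg.image (ψ z)) ?_ ?_ ?_ ?_ S ?_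
    · refine this.trans ?_
      have h1 : 1 ≤ ρ ^ κ := Nat.pow_pos hρ
      rw [mul_pow]
      calc C * μ * (C₁ * (g ^ κ * ρ ^ κ) + 1) ≤ C * μ * (C₁ * (g ^ κ * ρ ^ κ) + ρ ^ κ) :=
            Nat.mul_le_mul_left _ (by omega)
        _ = C * (C₁ * g ^ κ + 1) * μ * ρ ^ κ := by ring
    · refine Finset.mem_image.2 ⟨0, Finset.mem_product.2 ⟨?_, by simp⟩, map_zero _⟩
      rw [CountP.mem_box]; simp
    · intro a ha b hb hab
      obtain ⟨p, -, rfl⟩ := Finset.mem_image.1 ha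
      obtain ⟨p', -, rfl⟩ := Finset.mem_image.1 hb
      rw [← map_sub]
      exact hψnd z hz _ (sub_ne_zero.2 fun h => hab (by rw [h]))
    · rw [Finset.card_image_of_injective _ (hψinj z hz), Finset.card_product, CountP.card_box,
        Int.card_Icc]
      simpa using hcard
    · intro t ht
      obtain ⟨p, h1, h2, h3, h4⟩ := hlift t ht
      have := hC₁ (g * ρ) (Nat.mul_pos (by omega) hρ) (Fin.cons p.2 p.1) fun i => by
        refine Fin.cases ?_ (fun i => ?_) i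
        · rw [Fin.cons_zero, abs_of_nonneg h2]
          exact h3.trans (by exact_mod_cast Nat.mul_le_mul_left g hτ)
        · rw [Fin.cons_succ]
          exact CountP.mem_box.1 h1 i
      rw [Fin.sum_univ_succ] at this
      simp only [Fin.cons_zero, Fin.cons_succ] at this
      rwa [h4, hψ, hφ, add_comm]
    · intro q hq
      obtain ⟨T, hT, hT'⟩ := hS q hq
      refine ⟨T.image (ψ z), (Nat.mul_le_mul_left 2 Finset.card_image_le).trans hT, fun t ht => ?_⟩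
      obtain ⟨p, h1, h2, h3, h4⟩ := hlift t ht
      obtain ⟨b, hb, hb'⟩ := hT' p.1 h1 p.2 h2 h3
      refine ⟨ψ z b, Finset.mem_image_of_mem _ hb, ?_⟩
      rw [h4, ← hK q _ (hψΓ z hz p) _ (hψΓ z hz b), ← map_sub]
      exact hb'
  choose! S₀ hS₀ i₀ hi₀ using key
  let S : Set A.Pr := ⋃ z ∈ Z, S₀ z
  let Gd : Set (Fin r → ℤ) := {a | ∀ q, q ∉ S → ∀ z ∈ Z, (a, (-1 : ℤ)) ∉ (K q).comap (ψ z)}
  have hdense := dense_of_density (show 1 ≤ r by omega) φ (fun a ha => by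
    have := hx (Fin.cons 0 a) (fun h => ha (funext fun i => by simpa using congrFun h i.succ)) 0
      (AddSubgroup.zero_mem _)
    rw [Fin.sum_univ_succ] at this
    simpa [hφ] using this) (x 0) Gd fun N₀ => ?_
  · refine ⟨E, A, S, hE, hZ.biUnion hS₀, hdense.mono ?_⟩
    rintro _ ⟨a, ha, rfl⟩
    have hm : φ a + x 0 ∈ Γ := Γ.add_mem (hφΓ a) (hxΓ 0)
    refine ⟨hint _ hm, fun q hq => ⟨hprim q _ hm, fun z hz hc => ha q hq z hz ?_⟩⟩
    rw [AddSubgroup.mem_comap, hψ]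
    have := (hK q _ hm z (hZΓ z hz)).2 hc
    rwa [show φ a + x 0 - z = φ a + (-1 : ℤ) • (z - x 0) by rw [neg_zsmul, one_zsmul]; abel] at this
  · let i := hZ.toFinset.sup i₀ + N₀
    refine ⟨2 ^ (i * g), ?_, ?_⟩
    · have h1 : i * g < 2 ^ (i * g) := Nat.lt_two_pow_self
      have h2 : N₀ ≤ i * g := (Nat.le_add_left _ _).trans (Nat.le_mul_of_pos_right _ (by omega))
      omega
    set Bx := box r (2 ^ (i * g))
    have h1 : (Bx.filter fun a => ¬ a ∈ Gd) ⊆ hZ.toFinset.biUnion fun z => Bx.filter fun a =>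
        ∃ q, q ∉ S₀ z ∧ (a, (-1 : ℤ)) ∈ (K q).comap (ψ z) := by
      intro a ha
      obtain ⟨ha1, ha2⟩ := Finset.mem_filter.1 ha
      simp only [Gd, Set.mem_ofPred_eq, not_forall, not_not] at ha2
      obtain ⟨q, hq, z, hz, h⟩ := ha2
      refine Finset.mem_biUnion.2 ⟨z, hZ.mem_toFinset.2 hz, Finset.mem_filter.2
        ⟨ha1, q, fun h' => hq ?_, h⟩⟩
      simp only [S, Set.mem_iUnion]
      exact ⟨z, hz, h'⟩
    have h2 := (Finset.card_le_card h1).trans Finset.card_biUnion_le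
    have h3 := Finset.sum_le_card_nsmul hZ.toFinset (fun z => (2 * (hZ.toFinset.card + 1)) *
      (Bx.filter fun a => ∃ q, q ∉ S₀ z ∧ (a, (-1 : ℤ)) ∈ (K q).comap (ψ z)).card) Bx.card
      fun z hz => hi₀ z (hZ.mem_toFinset.1 hz) i
        ((Finset.le_sup (f := i₀) hz).trans (Nat.le_add_right _ _))
    rw [← Finset.mul_sum, smul_eq_mul] at h3
    have h4 := Finset.card_filter_add_card_filter_not (s := Bx) fun a => a ∈ Gd
    have h5 : 2 * (Bx.filter fun a => ¬ a ∈ Gd).card ≤ Bx.card := by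
      refine Nat.le_of_mul_le_mul_left ?_ (Nat.succ_pos hZ.toFinset.card)
      have := (Nat.mul_le_mul_left (2 * (hZ.toFinset.card + 1)) h2).trans h3
      rw [Nat.succ_eq_add_one]
      nlinarith
    omega

theorem Ctx.out [IsAlgClosed k] [CharZero k] [Finite σ] [IrreducibleSpace G] [Nontrivial G]
    (hdim : 3 ≤ td (c.I Set.univ)) (Z : Set G) (hZ : Z.Finite) (E₀ : Set k) (hE₀ : E₀.Finite) :
    c.Out Z E₀ := by
  haveI := c.noetherianSpace
  haveI := c.sepCont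
  haveI := c.t1Space
  rcases dichotomy (fun W => td (c.I W)) (td (c.I Set.univ))
    (fun W _ hW => c.td_le_td hW (IrreducibleSpace.isIrreducible_univ G) (Set.subset_univ W))
    (fun W W' h1 h2 _ h4 h => c.td_lt_td h1 h2 h4 h) c.ndProp with ⟨B, B', hB, hB', h1, h2, h3⟩ | h
  · exact c.out_sum hB hB' h1 h2 h3 Z hZ E₀ hE₀
  · exact c.out_nd hdim Z hZ (h Z hZ) E₀ hE₀

end Pool.Agent.P.MP_84b56d_ag
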