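import Pool.Agent.P.MP_84b56d_ag.Defs

open MvPolynomial

namespace Pool.Agent.P.MP_84b56d_ag

variable {k : Type*} {σ : Type} {G : Type*} [Field k] [AddCommGroup G] [TopologicalSpace G]
  {c : Ctx k σ G} {O : Subring k} {J : AddSubgroup k}

namespace CongP

lemma pow_sub (hL : Loc O J) {a b : k} (ha : a ∈ O) (hb : b ∈ O) (h : a - b ∈ J) (n : ℕ) :
    a ^ n - b ^ n ∈ J := by
  induction n with
  | zero => simp
  | succ n ih =>
    have e : a ^ (n + 1) - b ^ (n + 1) = a * (a ^ n - b ^ n) + b ^ n * (a - b) := by ring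
    rw [e]
    exact J.add_mem (hL.mul _ ha _ ih) (hL.mul _ (O.pow_mem hb n) _ h)

lemma mono_sub (hL : Loc O J) {τ : Type} (s : Finset τ) (m : τ →₀ ℕ) {v w : τ → k}
    (hv : ∀ i, v i ∈ O) (hw : ∀ i, w i ∈ O) (h : ∀ i, v i - w i ∈ J) :
    ∏ i ∈ s, v i ^ m i - ∏ i ∈ s, w i ^ m i ∈ J := by
  classical
  induction s using Finset.induction_on with
  | empty => simp
  | insert i s hi ih =>
    rw [Finset.prod_insert hi, Finset.prod_insert hi]
    have e : ∀ a b p q : k, a * p - b * q = a * (p - q) + q * (a - b) := by intros; ring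
    rw [e]
    exact J.add_mem (hL.mul _ (O.pow_mem (hv i) _) _ ih)
      (hL.mul _ (O.prod_mem fun j _ => O.pow_mem (hw j) _) _ (pow_sub hL (hv i) (hw i) (h i) _))

lemma un_pow {a : k} (ha : Un O a) (n : ℕ) : Un O (a ^ n) :=
  ⟨O.pow_mem ha.1 n, pow_ne_zero n ha.2.1, by rw [← inv_pow]; exact O.pow_mem ha.2.2 n⟩

lemma un_sum (hO : IsLoc O) {ι : Type*} (s : Finset ι) (f : ι → k) (hf : ∀ i ∈ s, f i ∈ O)
    (h : Un O (∑ i ∈ s, f i)) : ∃ i ∈ s, Un O (f i) := by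
  classical
  induction s using Finset.induction_on with
  | empty => exact absurd (by simp) h.2.1
  | insert i s hi ih =>
    rw [Finset.sum_insert hi] at h
    have h2 : ∀ j ∈ s, f j ∈ O := fun j hj => hf j (Finset.mem_insert_of_mem hj)
    rcases hO _ (hf i (Finset.mem_insert_self _ _)) _ (O.sum_mem h2) h with h | h
    · exact ⟨i, Finset.mem_insert_self _ _, h⟩
    · obtain ⟨j, hj, h⟩ := ih h2 h
      exact ⟨j, Finset.mem_insert_of_mem hj, h⟩

lemma coeff_fin {τ : Type} (f : MvPolynomial τ k) : (Set.range fun m => coeff m f).Finite := by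
  refine ((f.support.finite_toSet.image fun m => coeff m f).insert 0).subset ?_
  rintro _ ⟨m, rfl⟩
  by_cases h : m ∈ f.support
  · exact Or.inr ⟨m, h, rfl⟩
  · exact Or.inl (notMem_support_iff.mp h)

end CongP

theorem Un.mul {a b : k} (ha : Un O a) (hb : Un O b) : Un O (a * b) := by
  refine ⟨O.mul_mem ha.1 hb.1, mul_ne_zero ha.2.1 hb.2.1, ?_⟩
  rw [mul_inv]
  exact O.mul_mem ha.2.2 hb.2.2

theorem Un.inv {a : k} (ha : Un O a) : Un O a⁻¹ := by
  exact ⟨ha.2.2, inv_ne_zero ha.2.1, by rw [inv_inv]; exact ha.1⟩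

theorem Un.of_mul {a b : k} (ha : a ∈ O) (hb : b ∈ O) (h : Un O (a * b)) : Un O a := by
  have h1 : a ≠ 0 := left_ne_zero_of_mul h.2.1
  have h2 : b ≠ 0 := right_ne_zero_of_mul h.2.1
  refine ⟨ha, h1, ?_⟩
  have e : a⁻¹ = b * (a * b)⁻¹ := by field_simp
  rw [e]
  exact O.mul_mem hb h.2.2

theorem Loc.un_of_sub_mem (hL : Loc O J) {a b : k} (ha : Un O a) (h : a - b ∈ J) : Un O b := by
  have hb : b ∈ O := by
    have := O.sub_mem ha.1 (hL.le _ h)
    rwa [sub_sub_cancel] at this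
  have := hL.loc (a - b) (hL.le _ h) b hb (by rwa [sub_add_cancel])
  exact this.resolve_left (hL.nonunit _ h)

theorem eval_mem {τ : Type} {f : MvPolynomial τ k} (hf : ∀ m, coeff m f ∈ O) {v : τ → k}
    (hv : ∀ i, v i ∈ O) : eval v f ∈ O := by
  rw [eval_eq]
  exact O.sum_mem fun m _ => O.mul_mem (hf m) (O.prod_mem fun i _ => O.pow_mem (hv i) _)

theorem Loc.eval_sub_mem (hL : Loc O J) {τ : Type} {f : MvPolynomial τ k}
    (hf : ∀ m, coeff m f ∈ O) {v w : τ → k} (hv : ∀ i, v i ∈ O) (hw : ∀ i, w i ∈ O)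
    (h : ∀ i, v i - w i ∈ J) : eval v f - eval w f ∈ J := by
  rw [eval_eq, eval_eq, ← Finset.sum_sub_distrib]
  refine J.sum_mem fun m _ => ?_
  rw [← mul_sub]
  exact hL.mul _ (hf m) _ (CongP.mono_sub hL _ m hv hw h)

/-- mixed second difference -/
theorem Loc.eval_mixed (hL : Loc O J) {J₂ : AddSubgroup k} (h₂ : ∀ a ∈ O, ∀ b ∈ J₂, a * b ∈ J₂)
    (hJ : ∀ a ∈ J, ∀ b ∈ J, a * b ∈ J₂) {f : MvPolynomial (σ ⊕ σ) k}
    (hf : ∀ m, coeff m f ∈ O) {v v' w w' : σ → k} (hv : ∀ i, v i ∈ O) (hv' : ∀ i, v' i ∈ O)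
    (hw : ∀ i, w i ∈ O) (hw' : ∀ i, w' i ∈ O) (h : ∀ i, v i - v' i ∈ J) (h' : ∀ i, w i - w' i ∈ J) :
    eval (Sum.elim v w) f - eval (Sum.elim v w') f - eval (Sum.elim v' w) f +
      eval (Sum.elim v' w') f ∈ J₂ := by
  simp only [eval_eq]
  rw [← Finset.sum_sub_distrib, ← Finset.sum_sub_distrib, ← Finset.sum_add_distrib]
  refine J₂.sum_mem fun m _ => ?_
  have e : ∀ a b : σ → k, ∏ i ∈ m.support, Sum.elim a b i ^ m i =
      (∏ i ∈ m.support, Sum.elim a (fun _ => (1 : k)) i ^ m i) *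
        ∏ i ∈ m.support, Sum.elim (fun _ => (1 : k)) b i ^ m i := by
    intro a b
    rw [← Finset.prod_mul_distrib]
    refine Finset.prod_congr rfl fun i _ => ?_
    cases i <;> simp
  have h1 := CongP.mono_sub hL m.support m (v := Sum.elim v fun _ => (1 : k))
    (w := Sum.elim v' fun _ => (1 : k)) (by rintro (i | i); exacts [hv i, O.one_mem])
    (by rintro (i | i); exacts [hv' i, O.one_mem])
    (by rintro (i | i); exacts [h i, by simp])
  have h2 := CongP.mono_sub hL m.support m (v := Sum.elim (fun _ => (1 : k)) w)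
    (w := Sum.elim (fun _ => (1 : k)) w') (by rintro (i | i); exacts [O.one_mem, hw i])
    (by rintro (i | i); exacts [O.one_mem, hw' i])
    (by rintro (i | i); exacts [by simp, h' i])
  have h3 := h₂ _ (hf m) _ (hJ _ h1 _ h2)
  rw [e v w, e v w', e v' w, e v' w']
  convert h3 using 1
  ring

theorem Ctx.prim_smul {x : G} {v w : σ → k} (hv : v ∈ c.rep x) (hw : w ∈ c.rep x)
    (pv : Prim O v) (ow : ∀ i, w i ∈ O) : ∃ a ∈ O, w = a • v ∧ (Prim O w → Un O a) := by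
  obtain ⟨a, rfl⟩ := c.exists_smul x v hv w hw
  obtain ⟨i, hi⟩ := pv.2
  have ha : a ∈ O := by
    have e : a = (a • v) i * (v i)⁻¹ := by
      rw [Pi.smul_apply, smul_eq_mul, mul_assoc, mul_inv_cancel₀ hi.2.1, mul_one]
    rw [e]
    exact O.mul_mem (ow i) hi.2.2
  refine ⟨a, ha, rfl, fun pw => ?_⟩
  obtain ⟨j, hj⟩ := pw.2
  exact Un.of_mul ha (pv.1 j) hj

theorem Ctx.Cong.refl {x : G} (h : ∃ v ∈ c.rep x, Prim O v) : c.Cong O J x x := by
  obtain ⟨v, hv, pv⟩ := h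
  exact ⟨v, hv, v, hv, pv, pv, fun i => by simp⟩

theorem Ctx.Cong.symm {x y : G} (h : c.Cong O J x y) : c.Cong O J y x := by
  obtain ⟨v, hv, w, hw, pv, pw, h⟩ := h
  exact ⟨w, hw, v, hv, pw, pv, fun i => by rw [← neg_sub]; exact J.neg_mem (h i)⟩

theorem Ctx.Cong.of_prim (hL : Loc O J) {x y : G} (h : c.Cong O J x y) {v : σ → k}
    (hv : v ∈ c.rep x) (pv : Prim O v) : ∃ w ∈ c.rep y, Prim O w ∧ ∀ i, v i - w i ∈ J := by
  obtain ⟨v₀, hv₀, w, hw, pv₀, pw, h⟩ := h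
  obtain ⟨a, ha, rfl, hu⟩ := c.prim_smul hv₀ hv pv₀ pv.1
  obtain ⟨j, hj⟩ := pw.2
  refine ⟨a • w, c.smul_mem y w hw a (hu pv).2.1, ⟨fun i => O.mul_mem ha (pw.1 i), j,
    (hu pv).mul hj⟩, fun i => ?_⟩
  simp only [Pi.smul_apply, smul_eq_mul, ← mul_sub]
  exact hL.mul a ha _ (h i)

theorem Ctx.Cong.trans (hL : Loc O J) {x y z : G} (h : c.Cong O J x y) (h' : c.Cong O J y z) :
    c.Cong O J x z := by
  obtain ⟨v, hv, w, hw, pv, pw, h⟩ := h
  obtain ⟨u, hu, pu, h2⟩ := h'.of_prim hL hw pw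
  refine ⟨v, hv, u, hu, pv, pu, fun i => ?_⟩
  have := J.add_mem (h i) (h2 i)
  rwa [sub_add_sub_cancel] at this

theorem Ctx.Cong.mono {J' : AddSubgroup k} (hJ : J ≤ J') {x y : G} (h : c.Cong O J x y) :
    c.Cong O J' x y := by
  obtain ⟨v, hv, w, hw, pv, pw, h⟩ := h
  exact ⟨v, hv, w, hw, pv, pw, fun i => hJ (h i)⟩

theorem Ctx.Cong.add (hL : Loc O J) (hG : c.Good O) {x y x' y' : G} (h : c.Cong O J x x')
    (h' : c.Cong O J y y') : c.Cong O J (x + y) (x' + y') := by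
  obtain ⟨v, hv, v', hv', pv, pv', h⟩ := h
  obtain ⟨w, hw, w', hw', pw, pw', h'⟩ := h'
  obtain ⟨α, l, hu⟩ := hG.2 x y v hv w hw pv pw
  have m1 : ∀ i, Sum.elim v w i ∈ O := by rintro (i | i); exacts [pv.1 i, pw.1 i]
  have m2 : ∀ i, Sum.elim v' w' i ∈ O := by rintro (i | i); exacts [pv'.1 i, pw'.1 i]
  have hs : ∀ l, eval (Sum.elim v w) (c.law α l) - eval (Sum.elim v' w') (c.law α l) ∈ J :=
    fun l => hL.eval_sub_mem (hG.1 α l) m1 m2 (by rintro (i | i); exacts [h i, h' i])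
  have hu' := hL.un_of_sub_mem hu (hs l)
  exact ⟨_, c.law_mem α x y v hv w hw l hu.2.1, _, c.law_mem α x' y' v' hv' w' hw' l hu'.2.1,
    ⟨fun l => eval_mem (hG.1 α l) m1, l, hu⟩, ⟨fun l => eval_mem (hG.1 α l) m2, l, hu'⟩, hs⟩

theorem Ctx.Good.prim_add (hG : c.Good O) {x y : G} (hx : ∃ v ∈ c.rep x, Prim O v)
    (hy : ∃ v ∈ c.rep y, Prim O v) : ∃ v ∈ c.rep (x + y), Prim O v := by
  obtain ⟨v, hv, pv⟩ := hx
  obtain ⟨w, hw, pw⟩ := hy
  obtain ⟨α, l, hu⟩ := hG.2 x y v hv w hw pv pw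
  have m1 : ∀ i, Sum.elim v w i ∈ O := by rintro (i | i); exacts [pv.1 i, pw.1 i]
  exact ⟨_, c.law_mem α x y v hv w hw l hu.2.1, fun l => eval_mem (hG.1 α l) m1, l, hu⟩

theorem Ctx.Good.prim_closure (hG : c.Good O) {X : Set G} (h0 : ∃ v ∈ c.rep 0, Prim O v)
    (hX : ∀ x ∈ X, (∃ v ∈ c.rep x, Prim O v) ∧ ∃ v ∈ c.rep (-x), Prim O v) :
    ∀ x ∈ AddSubgroup.closure X, ∃ v ∈ c.rep x, Prim O v := by
  have key : ∀ x ∈ AddSubgroup.closure X,
      (∃ v ∈ c.rep x, Prim O v) ∧ ∃ v ∈ c.rep (-x), Prim O v := by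
    intro x hx
    induction hx using AddSubgroup.closure_induction with
    | mem x hx => exact hX x hx
    | zero => exact ⟨h0, by rwa [neg_zero]⟩
    | add x y _ _ hx hy => exact ⟨hG.prim_add hx.1 hy.1, by rw [neg_add]; exact hG.prim_add hx.2 hy.2⟩
    | neg x _ hx => exact ⟨hx.2, by rw [neg_neg]; exact hx.1⟩
  exact fun x hx => (key x hx).1

/-- the kernel of reduction on a subgroup of points with primitive representatives -/
theorem Ctx.exists_ker (hL : Loc O J) (hG : c.Good O) (Γ : AddSubgroup G)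
    (hΓ : ∀ x ∈ Γ, ∃ v ∈ c.rep x, Prim O v) :
    ∃ K : AddSubgroup G, ∀ x ∈ Γ, ∀ y ∈ Γ, (x - y ∈ K ↔ c.Cong O J x y) := by
  have sh : ∀ x y, ∀ z ∈ Γ, c.Cong O J x y → c.Cong O J (x + z) (y + z) :=
    fun x y z hz h => h.add hL hG (Ctx.Cong.refl (hΓ z hz))
  refine ⟨{ carrier := {z | z ∈ Γ ∧ c.Cong O J z 0}
            zero_mem' := ⟨Γ.zero_mem, Ctx.Cong.refl (hΓ 0 Γ.zero_mem)⟩
            add_mem' := fun {a b} ha hb => ⟨Γ.add_mem ha.1 hb.1, by
              simpa using ha.2.add hL hG hb.2⟩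
            neg_mem' := fun {a} ha => ⟨Γ.neg_mem ha.1, by
              simpa using (sh a 0 (-a) (Γ.neg_mem ha.1) ha.2).symm⟩ }, fun x hx y hy => ?_⟩
  constructor
  · rintro ⟨-, h⟩
    simpa using sh _ _ y hy h
  · intro h
    refine ⟨Γ.sub_mem hx hy, ?_⟩
    simpa [sub_eq_add_neg] using sh _ _ (-y) (Γ.neg_mem hy) h

theorem Ctx.exists_good [IsAlgClosed k] [Finite σ] (c : Ctx k σ G) :
    ∃ E : Set k, E.Finite ∧ (∀ α l m, coeff m (c.law α l) ∈ E) ∧
      ∀ O : Subring k, IsLoc O → E ⊆ O → c.Good O := by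
  classical
  have := Fintype.ofFinite σ
  let Z : Ideal (MvPolynomial (σ ⊕ σ) k) :=
    { carrier := {f | ∀ x y, ∀ v ∈ c.rep x, ∀ w ∈ c.rep y, eval (Sum.elim v w) f = 0}
      zero_mem' := fun _ _ _ _ _ _ => by simp
      add_mem' := fun {a b} ha hb x y v hv w hw => by
        simp [ha x y v hv w hw, hb x y v hv w hw]
      smul_mem' := fun a b hb x y v hv w hw => by simp [hb x y v hv w hw] }
  let L : Ideal (MvPolynomial (σ ⊕ σ) k) :=
    Ideal.span (Set.range fun p : Fin c.N × σ => c.law p.1 p.2)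
  have key : ∀ i j : σ, ∃ n : ℕ, ∃ z ∈ Z, ∃ a : Fin c.N × σ → MvPolynomial (σ ⊕ σ) k,
      (X (Sum.inl i) * X (Sum.inr j)) ^ n = z + ∑ p, a p * c.law p.1 p.2 := by
    intro i j
    have h : X (Sum.inl i) * X (Sum.inr j) ∈ (Z ⊔ L).radical := by
      rw [← vanishingIdeal_zeroLocus_eq_radical (K := k), mem_vanishingIdeal_iff]
      intro u hu
      rw [mem_zeroLocus_iff] at hu
      simp only [aeval_eq_eval] at hu ⊢
      by_contra hne
      rw [map_mul, eval_X, eval_X] at hne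
      obtain ⟨x, hx⟩ := c.cone_closed (u ∘ Sum.inl)
        (fun h => left_ne_zero_of_mul hne (congrFun h i)) fun f hf => by
          rw [← eval_rename]
          refine hu _ (Ideal.mem_sup_left fun x y v hv w _ => ?_)
          rw [eval_rename]
          exact hf x v hv
      obtain ⟨y, hy⟩ := c.cone_closed (u ∘ Sum.inr)
        (fun h => right_ne_zero_of_mul hne (congrFun h j)) fun f hf => by
          rw [← eval_rename]
          refine hu _ (Ideal.mem_sup_left fun x y v _ w hw => ?_)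
          rw [eval_rename]
          exact hf y w hw
      obtain ⟨α, l, h⟩ := c.law_cover x y _ hx _ hy
      rw [Sum.elim_comp_inl_inr] at h
      exact h (hu _ (Ideal.mem_sup_right (Ideal.subset_span ⟨(α, l), rfl⟩)))
    obtain ⟨n, hn⟩ := h
    obtain ⟨z, hz, y, hy, e⟩ := Submodule.mem_sup.mp hn
    obtain ⟨a, rfl⟩ := Ideal.mem_span_range_iff_exists_fun.mp hy
    exact ⟨n, z, hz, a, e.symm⟩
  choose n z hz a ha using key
  refine ⟨(⋃ α, ⋃ l, Set.range fun m => coeff m (c.law α l)) ∪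
      ⋃ i, ⋃ j, ⋃ p, Set.range fun m => coeff m (a i j p), ?_, fun α l m => ?_, ?_⟩
  · exact (Set.finite_iUnion fun _ => Set.finite_iUnion fun _ => CongP.coeff_fin _).union
      (Set.finite_iUnion fun _ => Set.finite_iUnion fun _ => Set.finite_iUnion fun _ =>
        CongP.coeff_fin _)
  · exact Or.inl (Set.mem_iUnion₂.mpr ⟨α, l, m, rfl⟩)
  intro O hO hE
  have h1 : ∀ α l m, coeff m (c.law α l) ∈ O :=
    fun α l m => hE (Or.inl (Set.mem_iUnion₂.mpr ⟨α, l, m, rfl⟩))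
  refine ⟨h1, fun x y v hv w hw pv pw => ?_⟩
  obtain ⟨i, hi⟩ := pv.2
  obtain ⟨j, hj⟩ := pw.2
  have m1 : ∀ i, Sum.elim v w i ∈ O := by rintro (i | i); exacts [pv.1 i, pw.1 i]
  have h2 : ∀ p m, coeff m (a i j p) ∈ O := fun p m =>
    hE (Or.inr (Set.mem_iUnion₂.mpr ⟨i, j, Set.mem_iUnion.mpr ⟨p, m, rfl⟩⟩))
  have e := congrArg (eval (Sum.elim v w)) (ha i j)
  rw [map_add, hz i j x y v hv w hw, zero_add, map_sum, map_pow, map_mul, eval_X, eval_X] at e
  have hu : Un O (∑ p, eval (Sum.elim v w) (a i j p * c.law p.1 p.2)) :=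
    e ▸ CongP.un_pow (hi.mul hj) _
  simp only [map_mul] at hu
  obtain ⟨p, -, hp⟩ := CongP.un_sum hO _ _
    (fun p _ => O.mul_mem (eval_mem (h2 p) m1) (eval_mem (h1 p.1 p.2) m1)) hu
  rw [mul_comm] at hp
  exact ⟨p.1, p.2, Un.of_mul (eval_mem (h1 p.1 p.2) m1) (eval_mem (h2 p) m1) hp⟩

end Pool.Agent.P.MP_84b56d_ag
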