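import Pool.Agent.P.MP_84b56d_ag.Bezout

open MvPolynomial

namespace Pool.Agent.P.MP_84b56d_ag

variable {k : Type*} [Field k] {σ : Type} [Finite σ]

namespace Crv

theorem step (P : Ideal (MvPolynomial σ k)) [P.IsPrime] (v : σ → k)
    (hv : ∀ f ∈ P, eval v f = 0) (J : Ideal (MvPolynomial σ k)) (hJ : ¬ J ≤ P) (h2 : 2 ≤ td P) :
    ∃ Q : Ideal (MvPolynomial σ k), Q.IsPrime ∧ P ≤ Q ∧ td Q + 1 = td P ∧
      (∀ f ∈ Q, eval v f = 0) ∧ ¬ J ≤ Q := by
  have hm : (RingHom.ker (eval v : MvPolynomial σ k →+* k)).IsPrime := RingHom.ker_isPrime _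
  have hfin : (insert P {Q ∈ (P ⊔ J).minimalPrimes | 1 ≤ td Q}).Finite :=
    ((Ideal.finite_minimalPrimes_of_isNoetherianRing _ (P ⊔ J)).subset fun _ h => h.1).insert P
  have hpr : ∀ Q ∈ insert P {Q ∈ (P ⊔ J).minimalPrimes | 1 ≤ td Q}, Q.IsPrime ∧ 1 ≤ td Q := by
    rintro Q (rfl | hQ)
    · exact ⟨inferInstance, by omega⟩
    · exact ⟨hQ.1.1.1, hQ.2⟩
  have hns : ¬ ((RingHom.ker (eval v : MvPolynomial σ k →+* k) : Set (MvPolynomial σ k)) ⊆
      ⋃ Q ∈ insert P {Q ∈ (P ⊔ J).minimalPrimes | 1 ≤ td Q}, (Q : Set (MvPolynomial σ k))) := by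
    intro h
    obtain ⟨Q, hQ, hle⟩ := (Ideal.subset_union_prime_finite hfin (f := id) P P
      fun Q hQ _ _ => (hpr Q hQ).1).mp h
    obtain ⟨a1, a2⟩ := hpr Q hQ
    have := Bez.td_le (Q := Q) hle
    rw [td_ker_eval] at this
    omega
  obtain ⟨g, hg, hg'⟩ := Set.not_subset.mp hns
  have hav : ∀ Q ∈ insert P {Q ∈ (P ⊔ J).minimalPrimes | 1 ≤ td Q}, g ∉ Q := fun Q hQ h =>
    hg' (Set.mem_iUnion₂.mpr ⟨Q, hQ, h⟩)
  obtain ⟨Q, hQ, hle⟩ := Ideal.exists_minimalPrimes_le (I := P ⊔ Ideal.span {g})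
    (J := RingHom.ker (eval v : MvPolynomial σ k →+* k))
    (sup_le (fun f hf => hv f hf) ((Ideal.span_singleton_le_iff_mem _).mpr hg))
  have hQp := hQ.1.1
  have htd := Bez.td_min (hav P (Set.mem_insert _ _)) hQ
  have hPQ : P ≤ Q := le_sup_left.trans hQ.1.2
  refine ⟨Q, hQp, hPQ, htd, fun f hf => hle hf, fun hJQ => ?_⟩
  obtain ⟨Q', hQ', hle'⟩ := Ideal.exists_minimalPrimes_le (I := P ⊔ J) (J := Q) (sup_le hPQ hJQ)
  have hQp' := hQ'.1.1
  have a1 := Bez.td_le hle'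
  have a2 : td Q' < td P := td_lt (lt_of_le_of_ne (le_sup_left.trans hQ'.1.2) (by
    rintro rfl
    exact hJ (le_sup_right.trans hQ'.1.2)))
  have a3 : Q' = Q := Bez.eq_of_td hle' (by omega)
  refine hav Q' (Set.mem_insert_of_mem _ ⟨hQ', by omega⟩) ?_
  rw [a3]
  exact (le_sup_right.trans hQ.1.2) (Ideal.subset_span rfl)

end Crv

theorem exists_curve (P : Ideal (MvPolynomial σ k)) [P.IsPrime] (v : σ → k)
    (hv : ∀ f ∈ P, eval v f = 0) (J : Ideal (MvPolynomial σ k)) (hJ : ¬ J ≤ P) (h1 : 1 ≤ td P) :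
    ∃ Q : Ideal (MvPolynomial σ k), Q.IsPrime ∧ P ≤ Q ∧ td Q = 1 ∧ (∀ f ∈ Q, eval v f = 0) ∧
      ¬ J ≤ Q := by
  obtain ⟨n, hn⟩ : ∃ n, td P = n + 1 := ⟨td P - 1, by omega⟩
  clear h1
  induction n generalizing P with
  | zero => exact ⟨P, inferInstance, le_rfl, hn, hv, hJ⟩
  | succ n ih =>
    obtain ⟨Q, a1, a2, a3, a4, a5⟩ := Crv.step P v hv J hJ (by omega)
    obtain ⟨Q', b1, b2, b3⟩ := ih Q a4 a5 (by omega)
    exact ⟨Q', b1, a2.trans b2, b3⟩

theorem curve_param [IsAlgClosed k] (Q : Ideal (MvPolynomial σ k)) [Q.IsPrime] (h1 : td Q = 1) :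
    ∃ (t : MvPolynomial σ k) (p : σ → Polynomial (Polynomial k)), (∀ i, (p i).Monic) ∧
      (∀ a : k, ∃ v : σ → k, (∀ f ∈ Q, eval v f = 0) ∧ eval v t = a) ∧
      ∀ v : σ → k, (∀ f ∈ Q, eval v f = 0) → ∀ i,
        ((p i).map (Polynomial.evalRingHom (eval v t))).eval (v i) = 0 := by
  obtain ⟨φ, hi, hf⟩ : ∃ φ : MvPolynomial (Fin 1) k →ₐ[k] MvPolynomial σ k ⧸ Q,
      Function.Injective φ ∧ φ.Finite := h1 ▸ exists_noether Q
  have hint : φ.toRingHom.IsIntegral := RingHom.Finite.to_isIntegral hf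
  obtain ⟨t, ht⟩ := Ideal.Quotient.mk_surjective (φ (X 0))
  choose p hp hp' using fun i => hint (Ideal.Quotient.mk Q (X i))
  refine ⟨t, fun i => (p i).map (aeval fun _ => (Polynomial.X : Polynomial k)).toRingHom,
    fun i => (hp i).map _, fun a => ?_, fun v hv i => ?_⟩
  · let := φ.toRingHom.toAlgebra
    have : Algebra.IsIntegral (MvPolynomial (Fin 1) k) (MvPolynomial σ k ⧸ Q) := ⟨hint⟩
    have hmax : (RingHom.ker (eval (fun _ : Fin 1 => a) : MvPolynomial (Fin 1) k →+* k)).IsMaximal :=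
      RingHom.ker_isMaximal_of_surjective _ fun b => ⟨C b, by simp⟩
    obtain ⟨M, hM, hM'⟩ := Ideal.exists_ideal_over_maximal_of_isIntegral
      (S := MvPolynomial σ k ⧸ Q) (RingHom.ker (eval (fun _ : Fin 1 => a)))
      (((RingHom.injective_iff_ker_eq_bot _).mp hi).trans_le bot_le)
    have hM2 := Ideal.comap_isMaximal_of_surjective (Ideal.Quotient.mk Q)
      Ideal.Quotient.mk_surjective (K := M)
    obtain ⟨v, hv⟩ := isMaximal_iff_eq_vanishingIdeal_singleton.mp hM2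
    have hv' : ∀ f, Ideal.Quotient.mk Q f ∈ M → eval v f = 0 := fun f hf => by
      have : f ∈ vanishingIdeal k {v} := hv ▸ hf
      simpa [mem_vanishingIdeal_singleton_iff] using this
    refine ⟨v, fun f hf => hv' f (by rw [Ideal.Quotient.eq_zero_iff_mem.mpr hf]; exact M.zero_mem),
      ?_⟩
    have h2 : X 0 - C a ∈ M.comap (algebraMap (MvPolynomial (Fin 1) k) (MvPolynomial σ k ⧸ Q)) := by
      rw [hM', RingHom.mem_ker]; simp
    have h3 : φ (X 0 - C a) ∈ M := h2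
    have h4 : φ (X 0 - C a) = Ideal.Quotient.mk Q (t - C a) := by
      rw [map_sub, map_sub, ht, ← algebraMap_eq, AlgHom.commutes]; rfl
    have h5 := hv' _ (h4 ▸ h3)
    simpa [sub_eq_zero] using h5
  · obtain ⟨ev, hev⟩ : ∃ ev : MvPolynomial σ k ⧸ Q →+* k, ∀ f, ev (Ideal.Quotient.mk Q f) = eval v f :=
      ⟨Ideal.Quotient.lift Q (eval v) hv, fun _ => rfl⟩
    have h2 : (Polynomial.evalRingHom (eval v t)).comp
        (aeval fun _ => (Polynomial.X : Polynomial k)).toRingHom = ev.comp φ.toRingHom := by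
      refine MvPolynomial.ringHom_ext (fun a => ?_) (fun j => ?_)
      · have : φ (C a) = Ideal.Quotient.mk Q (C a) := by
          rw [← algebraMap_eq, AlgHom.commutes]; rfl
        simp [this, hev]
      · obtain rfl : j = 0 := Subsingleton.elim _ _
        simp [← ht, hev]
    have h3 : v i = ev (Ideal.Quotient.mk Q (X i)) := by rw [hev, eval_X]
    rw [Polynomial.map_map, h2, Polynomial.eval_map, h3, ← Polynomial.hom_eval₂, hp', map_zero]

theorem curve_count [Infinite k] (Q : Ideal (MvPolynomial σ k)) [Q.IsPrime] (h1 : td Q = 1)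
    (D : ℕ) : ∃ C : ℕ, ∀ T : Set (MvPolynomial σ k), (∀ f ∈ T, f.totalDegree ≤ D) →
      (∃ f ∈ T, f ∉ Q) → ∀ s : Finset (σ → k),
        (∀ v ∈ s, (∀ f ∈ Q, eval v f = 0) ∧ ∀ f ∈ T, eval v f = 0) → s.card ≤ C := by
  classical
  obtain ⟨C, hC⟩ := bezout Q
  refine ⟨C * (max D 1) ^ (td Q - 0), fun T hT ⟨f, hf, hfQ⟩ s hs => ?_⟩
  have hinj : Function.Injective fun v : σ → k =>
      RingHom.ker (eval v : MvPolynomial σ k →+* k) := by
    intro v w h
    funext i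
    have h2 : X i - MvPolynomial.C (v i) ∈ RingHom.ker (eval v : MvPolynomial σ k →+* k) := by
      simp [RingHom.mem_ker]
    have h3 : X i - MvPolynomial.C (v i) ∈ RingHom.ker (eval w : MvPolynomial σ k →+* k) := by
      have h' : RingHom.ker (eval v : MvPolynomial σ k →+* k) = RingHom.ker (eval w) := h
      rwa [h'] at h2
    have h4 : w i - v i = 0 := by simpa [RingHom.mem_ker] using h3
    exact (sub_eq_zero.mp h4).symm
  rw [← Finset.card_image_of_injective s hinj]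
  refine hC (max D 1) 0 (le_max_right _ _) T (fun g hg => (hT g hg).trans (le_max_left _ _)) _
    fun m hm => ⟨?_, Nat.zero_le _⟩
  obtain ⟨v, hv, rfl⟩ := Finset.mem_image.mp hm
  have hm : (RingHom.ker (eval v : MvPolynomial σ k →+* k)).IsPrime := RingHom.ker_isPrime _
  refine ⟨⟨hm, sup_le (fun g hg => (hs v hv).1 g hg)
    (Ideal.span_le.mpr fun g hg => (hs v hv).2 g hg)⟩, fun P' hP' hle => ?_⟩
  have := hP'.1
  have a1 : td P' < td Q := td_lt (lt_of_le_of_ne (le_sup_left.trans hP'.2) (by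
    rintro rfl
    exact hfQ ((le_sup_right.trans hP'.2) (Ideal.subset_span hf))))
  exact (Bez.eq_of_td hle (by omega)).ge

end Pool.Agent.P.MP_84b56d_ag
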