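import Mathlib

/-! Internal definitions for the puncturing theorem for abelian varieties. -/

open MvPolynomial

namespace Pool.Agent.P.MP_84b56d_ag

/-- transcendence degree of the quotient of a polynomial ring by an ideal -/
noncomputable def td {k : Type*} [Field k] {σ : Type} (P : Ideal (MvPolynomial σ k)) : ℕ :=
  Cardinal.toNat (Algebra.trdeg k (MvPolynomial σ k ⧸ P))

/-- affine Hilbert function -/
noncomputable def hf {k : Type*} [Field k] {σ : Type} (J : Ideal (MvPolynomial σ k)) (T : ℕ) : ℕ :=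
  Module.finrank k ((restrictTotalDegree σ k T).map (Ideal.Quotient.mkₐ k J).toLinearMap)

/-- A commutative group whose points are the points of a closed subset of a projective space,
with its Zariski topology and a finite complete family of addition laws. -/
structure Ctx (k : Type*) (σ : Type) (G : Type*) [Field k] [AddCommGroup G]
    [TopologicalSpace G] where
  rep : G → Set (σ → k)
  ne_zero : ∀ x, ∀ v ∈ rep x, v ≠ 0
  nonempty : ∀ x, (rep x).Nonempty
  smul_mem : ∀ x, ∀ v ∈ rep x, ∀ a : k, a ≠ 0 → a • v ∈ rep x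
  exists_smul : ∀ x, ∀ v ∈ rep x, ∀ w ∈ rep x, ∃ a : k, w = a • v
  eq_of_mem : ∀ x y, ∀ v ∈ rep x, v ∈ rep y → x = y
  cone_closed : ∀ v : σ → k, v ≠ 0 →
    (∀ f : MvPolynomial σ k, (∀ x, ∀ w ∈ rep x, eval w f = 0) → eval v f = 0) → ∃ x, v ∈ rep x
  isClosed_iff : ∀ Y : Set G, IsClosed Y ↔ ∀ x, (∀ f : MvPolynomial σ k,
    (∀ y ∈ Y, ∀ w ∈ rep y, eval w f = 0) → ∀ v ∈ rep x, eval v f = 0) → x ∈ Y
  N : ℕ
  law : Fin N → σ → MvPolynomial (σ ⊕ σ) k
  law_mem : ∀ α x y, ∀ v ∈ rep x, ∀ w ∈ rep y, ∀ l, eval (Sum.elim v w) (law α l) ≠ 0 →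
    (fun l => eval (Sum.elim v w) (law α l)) ∈ rep (x + y)
  law_cover : ∀ x y, ∀ v ∈ rep x, ∀ w ∈ rep y, ∃ α l, eval (Sum.elim v w) (law α l) ≠ 0

/-- the ideal of polynomials vanishing at all representatives of the points of `Y` -/
def Ctx.I {k : Type*} {σ : Type} {G : Type*} [Field k] [AddCommGroup G] [TopologicalSpace G]
    (c : Ctx k σ G) (Y : Set G) : Ideal (MvPolynomial σ k) where
  carrier := {f | ∀ y ∈ Y, ∀ w ∈ c.rep y, eval w f = 0}
  zero_mem' := by intro y _ w _; simp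
  add_mem' := by
    intro a b ha hb y hy w hw
    simp [ha y hy w hw, hb y hy w hw]
  smul_mem' := by
    intro a b hb y hy w hw
    simp [hb y hy w hw]

/-- unit of a subring -/
def Un {k : Type*} [Field k] (O : Subring k) (a : k) : Prop := a ∈ O ∧ a ≠ 0 ∧ a⁻¹ ∈ O

/-- local subring -/
def IsLoc {k : Type*} [Field k] (O : Subring k) : Prop :=
  ∀ a ∈ O, ∀ b ∈ O, Un O (a + b) → Un O a ∨ Un O b

/-- `J` is a proper ideal of the local subring `O` -/
structure Loc {k : Type*} [Field k] (O : Subring k) (J : AddSubgroup k) : Prop where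
  loc : IsLoc O
  le : ∀ a ∈ J, a ∈ O
  mul : ∀ a ∈ O, ∀ b ∈ J, a * b ∈ J
  nonunit : ∀ a ∈ J, ¬ Un O a

/-- the principal ideal generated by `p` in `O`, as an additive subgroup of the field -/
def prin {k : Type*} [Field k] (O : Subring k) (p : k) : AddSubgroup k where
  carrier := {a | ∃ y ∈ O, a = p * y}
  zero_mem' := ⟨0, O.zero_mem, by simp⟩
  add_mem' := by
    rintro a b ⟨y, hy, rfl⟩ ⟨z, hz, rfl⟩
    exact ⟨y + z, O.add_mem hy hz, by ring⟩
  neg_mem' := by
    rintro a ⟨y, hy, rfl⟩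
    exact ⟨-y, O.neg_mem hy, by ring⟩

/-- primitive vector -/
def Prim {k : Type*} [Field k] {σ : Type} (O : Subring k) (v : σ → k) : Prop :=
  (∀ i, v i ∈ O) ∧ ∃ i, Un O (v i)

/-- congruence of two points modulo `J` -/
def Ctx.Cong {k : Type*} {σ : Type} {G : Type*} [Field k] [AddCommGroup G] [TopologicalSpace G]
    (c : Ctx k σ G) (O : Subring k) (J : AddSubgroup k) (x y : G) : Prop :=
  ∃ v ∈ c.rep x, ∃ w ∈ c.rep y, Prim O v ∧ Prim O w ∧ ∀ i, v i - w i ∈ J

/-- the addition laws are defined over `O` and complete on primitive vectors -/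
def Ctx.Good {k : Type*} {σ : Type} {G : Type*} [Field k] [AddCommGroup G] [TopologicalSpace G]
    (c : Ctx k σ G) (O : Subring k) : Prop :=
  (∀ α l m, coeff m (c.law α l) ∈ O) ∧ ∀ x y, ∀ v ∈ c.rep x, ∀ w ∈ c.rep y, Prim O v → Prim O w →
    ∃ α l, Un O (eval (Sum.elim v w) (c.law α l))

/-- nondegenerate point -/
def ND {G : Type*} [AddCommGroup G] [TopologicalSpace G] (x : G) : Prop :=
  Dense (AddSubgroup.zmultiples x : Set G)

/-- closed irreducible subgroup -/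
def CI {G : Type*} [AddCommGroup G] [TopologicalSpace G] (B : AddSubgroup G) : Prop :=
  IsClosed (B : Set G) ∧ IsIrreducible (B : Set G)

/-- `W` is an irreducible component of `X` -/
def IsComp {G : Type*} [TopologicalSpace G] (X W : Set G) : Prop :=
  IsIrreducible W ∧ IsClosed W ∧ W ⊆ X ∧ ∀ W', IsIrreducible W' → W ⊆ W' → W' ⊆ X → W' ⊆ W

/-- the statement of the nondegeneracy lemma -/
def NDProp (G : Type*) [AddCommGroup G] [TopologicalSpace G] : Prop :=
  ∀ B B₁ : AddSubgroup G, CI B → CI B₁ → B₁ < B →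
    (∀ B' : AddSubgroup G, CI B' → B₁ ≤ B' → B' ≤ B → B' = B₁ ∨ B' = B) →
    ∀ E : Set G, E.Finite → ∃ x ∈ B, ∀ n : ℕ, 1 ≤ n → ∀ u ∈ AddSubgroup.closure E, n • x + u ∉ B₁

/-- the integer points of the cube of radius `N` -/
noncomputable def box (r N : ℕ) : Finset (Fin r → ℤ) := Fintype.piFinset fun _ => Finset.Icc (-(N : ℤ)) N

/-- weighted `ℓ¹` norm of an integer polynomial -/
noncomputable def nrm {e : ℕ} (F : MvPolynomial (Fin e) ℤ) : ℕ :=
  ∑ m ∈ F.support, (coeff m F).natAbs * 2 ^ m.degree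

/-- arithmetic data: a finitely generated subring with a size function that controls the number
of height one primes dividing an element -/
structure Arith (k : Type*) [Field k] (E : Set k) where
  R : Subring k
  fg : ∃ s : Finset k, R = Subring.closure (s : Set k)
  h : R
  h_ne : h ≠ 0
  clear : ∀ e ∈ E, (h : k) * e ∈ R
  sz : k → ℕ
  sz_zero : sz 0 = 0
  sz_one : sz 1 ≤ 1
  sz_neg : ∀ a ∈ R, sz (-a) = sz a
  sz_add : ∀ a ∈ R, ∀ b ∈ R, sz (a + b) ≤ sz a + sz b
  sz_mul : ∀ a ∈ R, ∀ b ∈ R, sz (a * b) ≤ sz a * sz b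
  π : Ideal R → R
  π_spec : ∀ q : Ideal R, q.IsPrime → q.height = 1 → h ∉ q →
    π q ∈ q ∧ ∀ a ∈ q, ∃ b, b ∉ q ∧ ∃ y, b * a = π q * y
  C : ℕ
  count : ∀ Δ : R, Δ ≠ 0 → ∀ a L : ℕ, sz (Δ : k) ≤ 2 ^ L → ∀ S : Finset (Ideal R),
    (∀ q ∈ S, q.IsPrime ∧ q.height = 1 ∧ h ∉ q ∧ ∃ b, b ∉ q ∧ ∃ y, b * Δ = π q ^ a * y) →
    a * S.card ≤ C * (L + 1)

/-- small element of the arithmetic ring -/
def Arith.Sm {k : Type*} [Field k] {E : Set k} (A : Arith k E) (L : ℕ) (x : k) : Prop :=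
  x ∈ A.R ∧ A.sz x ≤ 2 ^ L

/-- the good primes -/
def Arith.Pr {k : Type*} [Field k] {E : Set k} (A : Arith k E) : Type _ :=
  {q : Ideal A.R // q.IsPrime ∧ q.height = 1 ∧ A.h ∉ q}

/-- the local ring at a good prime, inside the field -/
def Arith.O {k : Type*} [Field k] {E : Set k} (A : Arith k E) (q : A.Pr) : Subring k where
  carrier := {x | ∃ b : A.R, b ∉ q.1 ∧ (b : k) * x ∈ A.R}
  zero_mem' := ⟨1, (Ideal.ne_top_iff_one _).1 q.2.1.ne_top, by simp⟩
  one_mem' := ⟨1, (Ideal.ne_top_iff_one _).1 q.2.1.ne_top, by simp⟩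
  add_mem' := by
    rintro x y ⟨b, hb, hx⟩ ⟨b', hb', hy⟩
    refine ⟨b * b', fun h => (q.2.1.mem_or_mem h).elim hb hb', ?_⟩
    have : ((b * b' : A.R) : k) * (x + y) = b' * (b * x) + b * (b' * y) := by push_cast; ring
    rw [this]
    exact A.R.add_mem (A.R.mul_mem b'.2 hx) (A.R.mul_mem b.2 hy)
  mul_mem' := by
    rintro x y ⟨b, hb, hx⟩ ⟨b', hb', hy⟩
    refine ⟨b * b', fun h => (q.2.1.mem_or_mem h).elim hb hb', ?_⟩
    have : ((b * b' : A.R) : k) * (x * y) = (b * x) * (b' * y) := by push_cast; ring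
    rw [this]
    exact A.R.mul_mem hx hy
  neg_mem' := by
    rintro x ⟨b, hb, hx⟩
    exact ⟨b, hb, by rw [mul_neg]; exact A.R.neg_mem hx⟩

/-- the maximal ideal of the local ring at a good prime -/
def Arith.M {k : Type*} [Field k] {E : Set k} (A : Arith k E) (q : A.Pr) : AddSubgroup k :=
  prin (A.O q) (A.π q.1 : k)

end Pool.Agent.P.MP_84b56d_ag
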