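import Pool.Agent.P.MP_84b56d_ag.Defs

namespace Pool.Agent.P.MP_84b56d_ag

open Polynomial

variable {k : Type*} [Field k] [CharZero k]

namespace Fld1

theorem int_two (R A : Type*) [CommRing R] [CommRing A] [Algebra R A] : IsIntegral R (2 : A) :=
  map_ofNat (algebraMap R A) 2 ▸ isIntegral_algebraMap

theorem not_pow {ι : Type*} {p : ℕ} (hp : p.Prime) (c : FractionRing (MvPolynomial ι ℚ)) :
    c ^ p ≠ 2 := by
  intro h
  obtain ⟨P, rfl⟩ := IsIntegrallyClosed.exists_algebraMap_eq_of_isIntegral_pow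
    (R := MvPolynomial ι ℚ) hp.pos (h ▸ int_two _ _ : IsIntegral _ (c ^ p))
  rw [← map_pow, ← map_ofNat (algebraMap (MvPolynomial ι ℚ) _) 2] at h
  have h1 := congrArg MvPolynomial.constantCoeff (IsFractionRing.injective _ _ h)
  rw [map_pow, map_ofNat] at h1
  obtain ⟨m, hm⟩ := IsIntegrallyClosed.exists_algebraMap_eq_of_isIntegral_pow (R := ℤ) hp.pos
    (h1 ▸ int_two _ _ : IsIntegral ℤ (MvPolynomial.constantCoeff P ^ p))
  rw [← hm] at h1
  have h2 : m ^ p = 2 := Int.cast_injective (α := ℚ) (by simpa using h1)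
  exact not_irreducible_pow hp.ne_one (h2 ▸ Int.prime_two.irreducible)

theorem ne_equiv {F L ι : Type*} [Field F] [Field L] [Algebra F L] {x : ι → L}
    (h : AlgebraicIndependent F x) : Nonempty (IntermediateField.adjoin F (Set.range x) ≃+*
      FractionRing (MvPolynomial ι F)) := ⟨h.aevalEquivField.toRingEquiv.symm⟩

end Fld1

theorem exists_conj [IsAlgClosed k] (E : Set k) (hE : E.Finite) (N : ℕ) :
    ∃ (ω : k) (s : Fin N → k ≃+* k), IsIntegral ℤ ω ∧ (∀ j, ∀ e ∈ E, s j e = e) ∧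
      Function.Injective fun j => s j ω := by
  obtain ⟨T, hT⟩ := exists_isTranscendenceBasis ℚ k
  set K := IntermediateField.adjoin ℚ (Set.range (Subtype.val : T → k))
  have : Algebra.IsAlgebraic K k := hT.isAlgebraic_field
  set F := IntermediateField.adjoin K E
  have := hE.to_subtype
  have : FiniteDimensional K F :=
    IntermediateField.finiteDimensional_adjoin fun x _ => Algebra.IsIntegral.isIntegral x
  have : IsAlgClosure F k := ⟨inferInstance, inferInstance⟩
  obtain ⟨p, hpN, hp⟩ := Nat.exists_infinite_primes (N + Module.finrank K F + 1)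
  obtain ⟨φ⟩ := Fld1.ne_equiv hT.1
  have h1 : ∀ c : K, c ^ p ≠ 2 := fun c h => Fld1.not_pow hp (φ c) (by
    rw [← map_pow, h, map_ofNat])
  have h2 : ∀ c : F, c ^ p ≠ 2 := fun c h => by
    have h3 := minpoly.eq_of_irreducible_of_monic (X_pow_sub_C_irreducible_of_prime hp h1)
      (x := c) (by simp [h, map_ofNat]) (monic_X_pow_sub_C _ hp.ne_zero)
    have h4 := minpoly.natDegree_le (A := K) c
    rw [← h3, natDegree_X_pow_sub_C] at h4
    omega
  obtain ⟨ω, hω⟩ := IsAlgClosed.exists_pow_nat_eq (2 : k) hp.pos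
  have : NeZero p := ⟨hp.ne_zero⟩
  obtain ⟨ζ, hζ⟩ := HasEnoughRootsOfUnity.exists_primitiveRoot k p
  have h3 := minpoly.eq_of_irreducible_of_monic (X_pow_sub_C_irreducible_of_prime hp h2)
    (x := ω) (by simp [hω, map_ofNat]) (monic_X_pow_sub_C _ hp.ne_zero)
  choose s hs using fun j : Fin N => minpoly.exists_algEquiv_of_root' (K := F)
    (Algebra.IsAlgebraic.isAlgebraic ω) (x := ζ ^ (j : ℕ) * ω) (by
      rw [← h3]
      simp [mul_pow, pow_right_comm ζ _ p, hζ.pow_eq_one, hω, map_ofNat])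
  refine ⟨ω, fun j => (s j).toRingEquiv, IsIntegral.of_pow hp.pos (hω ▸ Fld1.int_two _ _),
    fun j e he => (s j).commutes ⟨e, IntermediateField.subset_adjoin _ _ he⟩, fun i j h => ?_⟩
  have h4 : ω ≠ 0 := fun h0 => by simp [h0, hp.ne_zero] at hω
  have h5 : ζ ^ (i : ℕ) * ω = ζ ^ (j : ℕ) * ω := (hs i).symm.trans (h.trans (hs j))
  exact Fin.ext (hζ.pow_inj (by omega) (by omega) (mul_right_cancel₀ h4 h5))

end Pool.Agent.P.MP_84b56d_ag
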