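import Pool.Agent.P.MP_84b56d_ag.Defs

namespace Pool.Agent.P.MP_84b56d_ag

namespace Fld2

open MvPolynomial

variable {k : Type*} [Field k] {T : Type*} [Algebra (MvPolynomial T ℤ) k]

/-- fractions with denominator prime to a given prime element -/
def locAt (π : MvPolynomial T ℤ) (hπ : Prime π) : Subring k where
  carrier := {x | ∃ a b : MvPolynomial T ℤ, ¬ π ∣ b ∧
    algebraMap (MvPolynomial T ℤ) k b * x = algebraMap (MvPolynomial T ℤ) k a}
  zero_mem' := ⟨0, 1, hπ.not_dvd_one, by simp⟩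
  one_mem' := ⟨1, 1, hπ.not_dvd_one, by simp⟩
  add_mem' := by
    rintro x y ⟨a, b, hb, hx⟩ ⟨a', b', hb', hy⟩
    refine ⟨b' * a + b * a', b * b', fun h => (hπ.dvd_or_dvd h).elim hb hb', ?_⟩
    rw [map_add, map_mul, map_mul, map_mul, ← hx, ← hy]
    ring
  mul_mem' := by
    rintro x y ⟨a, b, hb, hx⟩ ⟨a', b', hb', hy⟩
    refine ⟨a * a', b * b', fun h => (hπ.dvd_or_dvd h).elim hb hb', ?_⟩
    rw [map_mul, map_mul, ← hx, ← hy]
    ring
  neg_mem' := by
    rintro x ⟨a, b, hb, hx⟩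
    exact ⟨-a, b, hb, by rw [map_neg, ← hx]; ring⟩

theorem exists_V (hinj : Function.Injective (algebraMap (MvPolynomial T ℤ) k))
    (π : MvPolynomial T ℤ) (hπ : Prime π) :
    ∃ V : ValuationSubring k, (∀ a, algebraMap (MvPolynomial T ℤ) k a ∈ V) ∧
      (∀ b, ¬ π ∣ b → (algebraMap (MvPolynomial T ℤ) k b)⁻¹ ∈ V) ∧
      (algebraMap (MvPolynomial T ℤ) k π)⁻¹ ∉ V := by
  have hmem : ∀ a, algebraMap (MvPolynomial T ℤ) k a ∈ locAt (k := k) π hπ :=
    fun a => ⟨a, 1, hπ.not_dvd_one, by simp⟩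
  let x : locAt (k := k) π hπ := ⟨_, hmem π⟩
  have hI : Ideal.span {x} ≠ ⊤ := by
    intro h
    rw [Ideal.span_singleton_eq_top, isUnit_iff_exists_inv] at h
    obtain ⟨⟨y, a, b, hb, hy⟩, hxy⟩ := h
    have h1 : algebraMap (MvPolynomial T ℤ) k π * y = 1 := congrArg Subtype.val hxy
    apply hb
    refine ⟨a, hinj ?_⟩
    rw [map_mul, ← hy]
    linear_combination (-(algebraMap (MvPolynomial T ℤ) k b)) * h1
  obtain ⟨V, hV1, hV2⟩ := Ideal.image_subset_nonunits_valuationSubring _ hI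
  refine ⟨V, fun a => hV1 (hmem a), fun b hb => hV1 ⟨1, b, hb, ?_⟩, ?_⟩
  · have : algebraMap (MvPolynomial T ℤ) k b ≠ 0 := by
      intro h
      apply hb
      rw [hinj (h.trans (map_zero _).symm)]
      exact dvd_zero _
    rw [mul_inv_cancel₀ this, map_one]
  · have h1 : algebraMap (MvPolynomial T ℤ) k π ∈ V.nonunits :=
      hV2 ⟨x, Ideal.mem_span_singleton_self x, rfl⟩
    rcases V.mem_nonunits_iff_or.1 h1 with h | h
    · exact absurd (hinj (h.trans (map_zero _).symm)) hπ.ne_zero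
    · exact h

theorem pow_dvd (hinj : Function.Injective (algebraMap (MvPolynomial T ℤ) k))
    (π : MvPolynomial T ℤ) (hπ : Prime π) (V : ValuationSubring k)
    (h1 : ∀ a, algebraMap (MvPolynomial T ℤ) k a ∈ V)
    (h2 : ∀ b, ¬ π ∣ b → (algebraMap (MvPolynomial T ℤ) k b)⁻¹ ∈ V)
    (h3 : (algebraMap (MvPolynomial T ℤ) k π)⁻¹ ∉ V) (j : ℕ) :
    ∀ a, algebraMap (MvPolynomial T ℤ) k a / algebraMap (MvPolynomial T ℤ) k π ^ j ∈ V →
      π ^ j ∣ a := by
  have hπ0 : algebraMap (MvPolynomial T ℤ) k π ≠ 0 :=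
    fun h => hπ.ne_zero (hinj (h.trans (map_zero _).symm))
  induction j with
  | zero => intro a _; simp
  | succ j ih =>
    intro a ha
    by_cases hd : π ∣ a
    · obtain ⟨a', rfl⟩ := hd
      rw [pow_succ']
      refine mul_dvd_mul_left _ (ih a' ?_)
      convert ha using 1
      rw [map_mul, pow_succ']
      field_simp
    · exfalso
      apply h3
      have ha0 : algebraMap (MvPolynomial T ℤ) k a ≠ 0 := by
        intro h
        apply hd
        rw [hinj (h.trans (map_zero _).symm)]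
        exact dvd_zero _
      have := V.mul_mem _ _ (V.mul_mem _ _ ha (h2 a hd)) (h1 (π ^ j))
      convert this using 1
      rw [map_pow, pow_succ]
      field_simp

theorem eq_zero_of_pow_dvd (p : ℕ) (hp : 1 < p) (a : MvPolynomial T ℤ)
    (h : ∀ j : ℕ, (C (p : ℤ) : MvPolynomial T ℤ) ^ j ∣ a) : a = 0 := by
  ext m
  rw [coeff_zero]
  have h1 := h (coeff m a).natAbs
  rw [← map_pow, C_dvd_iff_dvd_coeff] at h1
  have h2 := Int.natAbs_dvd_natAbs.2 (h1 m)
  rw [Int.natAbs_pow, Int.natAbs_natCast] at h2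
  exact Int.natAbs_eq_zero.1 (Nat.eq_zero_of_dvd_of_lt h2 (Nat.lt_pow_self hp))

theorem mem_of_integral (V : ValuationSubring k)
    (h1 : ∀ a, algebraMap (MvPolynomial T ℤ) k a ∈ V) (x : k)
    (hx : IsIntegral (MvPolynomial T ℤ) x) : x ∈ V := by
  let f : MvPolynomial T ℤ →+* V :=
    (algebraMap (MvPolynomial T ℤ) k).codRestrict V.toSubring h1
  have hx' : IsIntegral V x := by
    obtain ⟨P, hP, hPx⟩ := hx
    refine ⟨P.map f, hP.map f, ?_⟩
    rw [Polynomial.eval₂_map]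
    exact hPx
  obtain ⟨y, rfl⟩ := IsIntegrallyClosed.isIntegral_iff.1 hx'
  exact y.2

theorem main (hinj : Function.Injective (algebraMap (MvPolynomial T ℤ) k))
    (halg : ∀ x : k, IsAlgebraic (MvPolynomial T ℤ) x) (E : Set k) (hE : E.Finite) (N : ℕ) :
    ∃ (p : ℕ) (V : ValuationSubring k), p.Prime ∧ N < p ∧ (∀ e ∈ E, e ∈ V) ∧ (p : k)⁻¹ ∉ V ∧
      ∀ c : k, (∀ j : ℕ, c / (p : k) ^ j ∈ V) → c = 0 := by
  classical
  choose b hb0 hb using fun x : k => (halg x).exists_integral_multiple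
  have hm : ∀ x : k, ∃ m, coeff m (b x) ≠ 0 := fun x => by
    by_contra h
    push Not at h
    exact hb0 x (MvPolynomial.ext _ _ fun m => by rw [h m, coeff_zero])
  choose m hm using hm
  obtain ⟨p, hp1, hp⟩ := Nat.exists_infinite_primes
    (N + hE.toFinset.sup (fun x => (coeff (m x) (b x)).natAbs) + 1)
  have hπ : Prime (C (p : ℤ) : MvPolynomial T ℤ) :=
    (MvPolynomial.prime_C_iff T).2 (Nat.prime_iff_prime_int.1 hp)
  obtain ⟨V, h1, h2, h3⟩ := exists_V hinj _ hπ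
  have hpk : algebraMap (MvPolynomial T ℤ) k (C (p : ℤ)) = (p : k) := by simp
  refine ⟨p, V, hp, by omega, ?_, by rwa [hpk] at h3, ?_⟩
  · intro x hx
    have hnd : ¬ (C (p : ℤ) : MvPolynomial T ℤ) ∣ b x := by
      intro h
      have h4 := Int.natAbs_dvd_natAbs.2 ((C_dvd_iff_dvd_coeff _ _).1 h (m x))
      rw [Int.natAbs_natCast] at h4
      have h5 := Nat.le_of_dvd (Int.natAbs_pos.2 (hm x)) h4
      have h6 : (coeff (m x) (b x)).natAbs ≤
          hE.toFinset.sup (fun x => (coeff (m x) (b x)).natAbs) :=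
        Finset.le_sup (f := fun x => (coeff (m x) (b x)).natAbs) (hE.mem_toFinset.2 hx)
      omega
    have h4 := V.mul_mem _ _ (h2 _ hnd) (mem_of_integral V h1 _ (hb x))
    have h0 : algebraMap (MvPolynomial T ℤ) k (b x) ≠ 0 :=
      fun h => hb0 x (hinj (h.trans (map_zero _).symm))
    rwa [Algebra.smul_def, inv_mul_cancel_left₀ h0] at h4
  · intro c hc
    by_contra hc0
    obtain ⟨t, ht, r, hr, hrt⟩ :=
      (halg c).exists_nonzero_eq_adjoin_mul (mem_nonZeroDivisors_of_ne_zero hc0)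
    have hcV : c ∈ V := by simpa using hc 0
    have htV : t ∈ V := by
      clear hrt
      induction ht using Algebra.adjoin_induction with
      | mem x hx => rw [Set.mem_singleton_iff.1 hx]; exact hcV
      | algebraMap r => exact h1 r
      | add x y _ _ hx hy => exact V.add_mem _ _ hx hy
      | mul x y _ _ hx hy => exact V.mul_mem _ _ hx hy
    apply hr
    refine eq_zero_of_pow_dvd p hp.one_lt r fun j => pow_dvd hinj _ hπ V h1 h2 h3 j r ?_
    rw [hpk, ← hrt, mul_div_right_comm]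
    exact V.mul_mem _ _ (hc j) htV

end Fld2

variable {k : Type*} [Field k] [CharZero k]

theorem exists_val (E : Set k) (hE : E.Finite) (N : ℕ) :
    ∃ (p : ℕ) (V : ValuationSubring k), p.Prime ∧ N < p ∧ (∀ e ∈ E, e ∈ V) ∧ (p : k)⁻¹ ∉ V ∧
      ∀ c : k, (∀ j : ℕ, c / (p : k) ^ j ∈ V) → c = 0 := by
  obtain ⟨T, hT⟩ := exists_isTranscendenceBasis ℤ k
  let _ : Algebra (MvPolynomial T ℤ) k :=
    (MvPolynomial.aeval ((↑) : T → k) : MvPolynomial T ℤ →ₐ[ℤ] k).toRingHom.toAlgebra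
  refine Fld2.main (T := T) hT.1 (fun x => ?_) E hE N
  obtain ⟨P, hP, hPx⟩ := hT.isAlgebraic.isAlgebraic x
  refine ⟨P.map (hT.1.aevalEquiv.symm : _ →+* MvPolynomial T ℤ),
    (Polynomial.map_ne_zero_iff hT.1.aevalEquiv.symm.injective).2 hP, ?_⟩
  rw [Polynomial.aeval_def, Polynomial.eval₂_map, ← hPx, Polynomial.aeval_def]
  congr 1
  ext y
  obtain ⟨z, rfl⟩ := hT.1.aevalEquiv.surjective y
  rw [hT.1.algebraMap_aevalEquiv]
  simp only [RingHom.coe_comp, Function.comp_apply, RingHom.coe_coe, AlgEquiv.symm_apply_apply]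
  rfl

end Pool.Agent.P.MP_84b56d_ag
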