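import Pool.Agent.P.MP_84b56d_ag.Dim

open MvPolynomial

namespace Pool.Agent.P.MP_84b56d_ag

variable {k : Type*} [Field k] {σ : Type} [Finite σ]

namespace HilbP

omit [Finite σ] in
theorem map_factor {J J' : Ideal (MvPolynomial σ k)} (h : J ≤ J') (T : ℕ) :
    (restrictTotalDegree σ k T).map (Ideal.Quotient.mkₐ k J').toLinearMap =
      ((restrictTotalDegree σ k T).map (Ideal.Quotient.mkₐ k J).toLinearMap).map
        (Ideal.Quotient.factorₐ k h).toLinearMap := by
  rw [← Submodule.map_comp]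
  rfl

theorem finrank_map_add {M N : Type*} [AddCommGroup M] [Module k M] [AddCommGroup N] [Module k N]
    (f : M →ₗ[k] N) (p : Submodule k M) [Module.Finite k p] :
    Module.finrank k (p.map f) + Module.finrank k ↥(p ⊓ LinearMap.ker f) = Module.finrank k p := by
  rw [← (f.domRestrict p).finrank_range_add_finrank_ker, LinearMap.range_domRestrict,
    LinearMap.ker_domRestrict, ← Submodule.finrank_map_subtype_eq p (Submodule.comap _ _),
    Submodule.map_comap_subtype]

theorem finrank_restrict (d n : ℕ) :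
    Module.finrank k (restrictTotalDegree (Fin d) k n) ≤ (n + 1) ^ d := by
  refine (Submodule.finrank_mono (restrictTotalDegree_le_restrictDegree (Fin d) k n)).trans ?_
  rw [restrictDegree, Module.finrank_eq_nat_card_basis (basisRestrictSupport k _)]
  refine (Nat.card_le_card_of_injective
    (fun a : {a : Fin d →₀ ℕ | ∀ i, a i ≤ n} => fun i => (⟨a.1 i, Nat.lt_succ_of_le (a.2 i)⟩ :
      Fin (n + 1))) fun a b h => ?_).trans (by simp)
  exact Subtype.ext (Finsupp.ext fun i => congrArg Fin.val (congrFun h i))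

theorem linInd_pow {B : Type*} [CommRing B] [Algebra k B] {d : ℕ} {x : Fin d → B}
    (hx : AlgebraicIndependent k x) (M : ℕ) :
    LinearIndependent k fun n : Fin d → Fin (M + 1) => ∏ j, x j ^ (n j : ℕ) := by
  have h1 := ((basisMonomials (Fin d) k).linearIndependent.comp
    (fun n : Fin d → Fin (M + 1) => Finsupp.equivFunOnFinite.symm fun j => (n j : ℕ))
    (fun a b h => funext fun j => Fin.ext
      (congrFun (Finsupp.equivFunOnFinite.symm.injective h) j))).map'
    (aeval x).toLinearMap (LinearMap.ker_eq_bot.mpr hx)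
  have h2 : (fun n : Fin d → Fin (M + 1) => ∏ j, x j ^ (n j : ℕ)) = _ := funext fun n => by
    show _ = ((aeval x).toLinearMap ∘ (basisMonomials (Fin d) k) ∘
      fun n : Fin d → Fin (M + 1) => Finsupp.equivFunOnFinite.symm fun j => (n j : ℕ)) n
    simp [aeval_monomial, Finsupp.prod_fintype]
  rw [h2]
  exact h1

section upper

variable {B : Type*} [CommRing B] [Algebra k B] {d : ℕ}

/-- combinations of the generators `s` with coefficients of degree at most `n` -/
def Lev {N : ℕ} (φ : MvPolynomial (Fin d) k →ₐ[k] B) (s : Fin N → B) (n : ℕ) : Submodule k B where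
  carrier := {b | ∃ c : Fin N → MvPolynomial (Fin d) k,
    (∀ l, (c l).totalDegree ≤ n) ∧ ∑ l, φ (c l) * s l = b}
  add_mem' := by
    rintro _ _ ⟨c, hc, rfl⟩ ⟨c', hc', rfl⟩
    exact ⟨c + c', fun l => (totalDegree_add _ _).trans (max_le (hc l) (hc' l)),
      by simp [add_mul, Finset.sum_add_distrib]⟩
  zero_mem' := ⟨0, by simp, by simp⟩
  smul_mem' := by
    rintro a _ ⟨c, hc, rfl⟩
    exact ⟨a • c, fun l => (totalDegree_smul_le _ _).trans (hc l), by simp [Finset.smul_sum]⟩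

theorem Lev_mono {N : ℕ} (φ : MvPolynomial (Fin d) k →ₐ[k] B) (s : Fin N → B) {m n : ℕ} (h : m ≤ n) :
    Lev φ s m ≤ Lev φ s n := by
  rintro _ ⟨c, hc, rfl⟩
  exact ⟨c, fun l => (hc l).trans h, rfl⟩

theorem Lev_eq {N : ℕ} (φ : MvPolynomial (Fin d) k →ₐ[k] B) (s : Fin N → B) (n : ℕ) :
    Lev φ s n = LinearMap.range (∑ l, LinearMap.mulRight k (s l) ∘ₗ φ.toLinearMap ∘ₗ
      (restrictTotalDegree (Fin d) k n).subtype ∘ₗ
        LinearMap.proj (φ := fun _ : Fin N => restrictTotalDegree (Fin d) k n) l) := by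
  ext b
  constructor
  · rintro ⟨c, hc, rfl⟩
    exact ⟨fun l => ⟨c l, (mem_restrictTotalDegree _ _ _).mpr (hc l)⟩, by simp⟩
  · rintro ⟨c, rfl⟩
    exact ⟨fun l => c l, fun l => (mem_restrictTotalDegree _ _ _).mp (c l).2, by simp⟩

theorem mul_mem_Lev {N : ℕ} (φ : MvPolynomial (Fin d) k →ₐ[k] B) (s : Fin N → B) {x : B} {E : ℕ}
    (h : ∀ j, x * s j ∈ Lev φ s E) {n : ℕ} {b : B} (hb : b ∈ Lev φ s n) :
    x * b ∈ Lev φ s (n + E) := by
  obtain ⟨c, hc, rfl⟩ := hb
  choose e he h1 using h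
  refine ⟨fun l => ∑ j, c j * e j l, fun l => totalDegree_finsetSum_le fun j _ =>
    (totalDegree_mul _ _).trans (add_le_add (hc j) (he j l)), ?_⟩
  simp only [map_sum, map_mul, Finset.sum_mul, Finset.mul_sum]
  rw [Finset.sum_comm]
  refine Finset.sum_congr rfl fun j _ => ?_
  rw [mul_left_comm, ← h1 j, Finset.mul_sum]
  exact Finset.sum_congr rfl fun l _ => mul_assoc _ _ _

theorem exists_Lev (φ : MvPolynomial (Fin d) k →ₐ[k] B) (hφ : φ.Finite) :
    ∃ (N : ℕ) (s : Fin N → B), ∀ b, ∃ n, b ∈ Lev φ s n := by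
  let : Algebra (MvPolynomial (Fin d) k) B := φ.toRingHom.toAlgebra
  have hf : Module.Finite (MvPolynomial (Fin d) k) B := hφ
  obtain ⟨N, s, hs⟩ := hf.exists_fin
  refine ⟨N, s, fun b => ?_⟩
  have hb : b ∈ Submodule.span (MvPolynomial (Fin d) k) (Set.range s) := by rw [hs]; trivial
  obtain ⟨c, hc⟩ := (Submodule.mem_span_range_iff_exists_fun _).mp hb
  exact ⟨Finset.univ.sup fun l => (c l).totalDegree, c,
    fun l => Finset.le_sup (f := fun l => (c l).totalDegree) (Finset.mem_univ l), hc⟩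

theorem finrank_le_of_le_Lev {N : ℕ} (φ : MvPolynomial (Fin d) k →ₐ[k] B) (s : Fin N → B) {n : ℕ}
    {W : Submodule k B} (h : W ≤ Lev φ s n) : Module.finrank k W ≤ N * (n + 1) ^ d := by
  rw [Lev_eq] at h
  refine (Submodule.finrank_mono h).trans ((LinearMap.finrank_range_le _).trans ?_)
  rw [Module.finrank_pi_fintype, Finset.sum_const, Finset.card_univ, Fintype.card_fin, smul_eq_mul]
  exact Nat.mul_le_mul_left _ (finrank_restrict _ _)

omit [Finite σ] in
theorem mon_mem_Lev {N : ℕ} (φ : MvPolynomial (Fin d) k →ₐ[k] B) (s : Fin N → B)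
    (π : MvPolynomial σ k →ₐ[k] B) {E : ℕ} (hE : ∀ i j, π (X i) * s j ∈ Lev φ s E)
    (a : σ →₀ ℕ) : ∀ (m : ℕ) b, b ∈ Lev φ s m →
      π (monomial a 1) * b ∈ Lev φ s (m + E * a.degree) := by
  induction a using Finsupp.induction_linear with
  | zero => intro m b hb; simpa using hb
  | add a a' ha ha' =>
    intro m b hb
    have h1 : monomial (a + a') (1 : k) = monomial a 1 * monomial a' 1 := by
      rw [monomial_mul, one_mul]
    have h2 : m + E * (a + a').degree = m + E * a'.degree + E * a.degree := by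
      rw [map_add]; ring
    rw [h1, h2, map_mul, mul_assoc]
    exact ha _ _ (ha' _ _ hb)
  | single i e =>
    intro m b hb
    rw [← X_pow_eq_monomial, Finsupp.degree_single]
    induction e with
    | zero => simpa using hb
    | succ e ih =>
      rw [pow_succ', map_mul, mul_assoc, Nat.mul_succ, ← add_assoc]
      exact mul_mem_Lev φ s (hE i) ih

theorem upper_gen (φ : MvPolynomial (Fin d) k →ₐ[k] B) (hφ : φ.Finite)
    (π : MvPolynomial σ k →ₐ[k] B) : ∃ C : ℕ, ∀ T : ℕ,
      Module.finrank k ((restrictTotalDegree σ k T).map π.toLinearMap) ≤ C * (T + 1) ^ d := by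
  obtain ⟨N, s, hs⟩ := exists_Lev φ hφ
  choose n hn using hs
  obtain ⟨E', hE'⟩ := (Set.finite_range fun z : σ × Fin N => n (π (X z.1) * s z.2)).bddAbove
  obtain ⟨E, hE1, hE⟩ : ∃ E, n 1 ≤ E ∧ ∀ i j, n (π (X i) * s j) ≤ E :=
    ⟨n 1 + E', Nat.le_add_right _ _, fun i j => (hE' ⟨(i, j), rfl⟩).trans (Nat.le_add_left _ _)⟩
  have hmon := mon_mem_Lev φ s π fun i j => Lev_mono φ s (hE i j) (hn _)
  refine ⟨N * (E + 1) ^ d, fun T => ?_⟩
  have hle : (restrictTotalDegree σ k T).map π.toLinearMap ≤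
      Lev φ s (E + E * T) := by
    rintro _ ⟨q, hq, rfl⟩
    rw [q.as_sum, map_sum]
    refine Submodule.sum_mem _ fun a ha => ?_
    have h1 : a.degree ≤ T := by
      rw [Finsupp.degree_apply]
      exact (le_totalDegree ha).trans ((mem_restrictTotalDegree _ _ _).mp hq)
    have h2 : monomial a (coeff a q) = coeff a q • monomial a (1 : k) := by
      rw [smul_monomial, smul_eq_mul, mul_one]
    rw [h2, map_smul]
    refine Submodule.smul_mem _ _ (Lev_mono φ s (add_le_add hE1 (Nat.mul_le_mul_left E h1)) ?_)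
    have h3 := hmon a _ 1 (hn 1)
    rw [mul_one] at h3
    exact h3
  refine (finrank_le_of_le_Lev φ s hle).trans ?_
  rw [mul_assoc, ← mul_pow]
  refine Nat.mul_le_mul_left _ (Nat.pow_le_pow_left ?_ _)
  nlinarith

end upper

end HilbP

open HilbP

theorem hf_anti {J J' : Ideal (MvPolynomial σ k)} (h : J ≤ J') (T : ℕ) : hf J' T ≤ hf J T := by
  rw [hf, hf, map_factor h]
  exact Submodule.finrank_map_le _ _

theorem hf_mono (J : Ideal (MvPolynomial σ k)) {T T' : ℕ} (h : T ≤ T') : hf J T ≤ hf J T' :=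
  Submodule.finrank_mono (Submodule.map_mono fun _ hq =>
    (mem_restrictTotalDegree _ _ _).mpr (((mem_restrictTotalDegree _ _ _).mp hq).trans h))

theorem hf_cut (J : Ideal (MvPolynomial σ k)) (g : MvPolynomial σ k) (D T : ℕ)
    (hg : ∀ f, g * f ∈ J → f ∈ J) (hD : g.totalDegree ≤ D) :
    hf (J ⊔ Ideal.span {g}) (T + D) + hf J T ≤ hf J (T + D) := by
  rw [hf, hf, hf, map_factor (le_sup_left : J ≤ J ⊔ Ideal.span {g}),
    ← finrank_map_add (Ideal.Quotient.factorₐ k (le_sup_left : J ≤ J ⊔ Ideal.span {g})).toLinearMap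
      ((restrictTotalDegree σ k (T + D)).map (Ideal.Quotient.mkₐ k J).toLinearMap)]
  refine Nat.add_le_add_left ?_ _
  have hinj : Function.Injective (LinearMap.mulLeft k (Ideal.Quotient.mk J g)) := by
    refine (injective_iff_map_eq_zero _).mpr fun b hb => ?_
    obtain ⟨f, rfl⟩ := Ideal.Quotient.mk_surjective b
    exact Ideal.Quotient.eq_zero_iff_mem.mpr (hg f (Ideal.Quotient.eq_zero_iff_mem.mp hb))
  rw [(Submodule.equivMapOfInjective _ hinj _).finrank_eq]
  refine Submodule.finrank_mono ?_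
  rintro _ ⟨_, ⟨f, hf', rfl⟩, rfl⟩
  refine ⟨⟨g * f, (mem_restrictTotalDegree _ _ _).mpr ((totalDegree_mul _ _).trans ?_), rfl⟩, ?_⟩
  · have := (mem_restrictTotalDegree _ _ _).mp hf'
    omega
  · change Ideal.Quotient.mk (J ⊔ Ideal.span {g}) (g * f) = 0
    exact Ideal.Quotient.eq_zero_iff_mem.mpr
      (Ideal.mem_sup_right (Ideal.mul_mem_right _ _ (Ideal.mem_span_singleton_self g)))

theorem hf_upper (P : Ideal (MvPolynomial σ k)) [P.IsPrime] :
    ∃ C : ℕ, ∀ T : ℕ, hf P T ≤ C * (T + 1) ^ td P := by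
  obtain ⟨φ, -, hφ⟩ := exists_noether P
  exact upper_gen φ hφ (Ideal.Quotient.mkₐ k P)

theorem hf_lower (d : ℕ) (S : Finset (Ideal (MvPolynomial σ k)))
    (hS : ∀ Q ∈ S, Q.IsPrime ∧ td Q = d) :
    ∃ U : ℕ, ∀ J : Ideal (MvPolynomial σ k), (∀ Q ∈ S, J ≤ Q) → ∀ M : ℕ,
      S.card * (M + 1) ^ d ≤ hf J (U + d * M) := by
  classical
  have h1 : ∀ Q Q' : S, ∃ z, Q' ≠ Q → z ∈ Q'.1 ∧ z ∉ Q.1 := by
    intro Q Q'
    by_cases h : Q' = Q
    · exact ⟨0, fun h' => (h' h).elim⟩
    · have := (hS _ Q.2).1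
      have := (hS _ Q'.2).1
      have h2 : ¬ Q'.1 ≤ Q.1 := fun h2 => by
        have := td_lt (lt_of_le_of_ne h2 fun e => h (Subtype.ext e))
        rw [(hS _ Q.2).2, (hS _ Q'.2).2] at this
        exact lt_irrefl _ this
      obtain ⟨z, h3, h4⟩ := SetLike.not_le_iff_exists.mp h2
      exact ⟨z, fun _ => ⟨h3, h4⟩⟩
  choose z hz using h1
  have h2 : ∀ Q : S, ∃ u, u ∉ Q.1 ∧ ∀ Q' : S, Q' ≠ Q → u ∈ Q'.1 := by
    intro Q
    have := (hS _ Q.2).1
    refine ⟨∏ Q' ∈ Finset.univ.erase Q, z Q Q', fun h => ?_, fun Q' h => ?_⟩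
    · obtain ⟨Q', h3, h4⟩ := Ideal.IsPrime.prod_mem_iff.mp h
      exact (hz Q Q' (Finset.mem_erase.mp h3).1).2 h4
    · exact Ideal.mem_of_dvd _ (Finset.dvd_prod_of_mem _
        (Finset.mem_erase.mpr ⟨h, Finset.mem_univ _⟩)) (hz Q Q' h).1
  choose u hu hu' using h2
  have h3 : ∀ Q : S, ∃ e : Fin d → σ,
      AlgebraicIndependent k fun j => Ideal.Quotient.mk Q.1 (X (e j)) := by
    intro Q
    have := (hS _ Q.2).1
    rw [← (hS _ Q.2).2]
    exact td_basis Q.1
  choose e he using h3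
  refine ⟨Finset.univ.sup fun Q => (u Q).totalDegree, fun J hJ M => ?_⟩
  let b : S × (Fin d → Fin (M + 1)) → MvPolynomial σ k :=
    fun w => u w.1 * ∏ j, X (e w.1 j) ^ (w.2 j : ℕ)
  have hb : ∀ w, (b w).totalDegree ≤ (Finset.univ.sup fun Q => (u Q).totalDegree) + d * M := by
    intro w
    refine (totalDegree_mul _ _).trans (add_le_add
      (Finset.le_sup (f := fun Q => (u Q).totalDegree) (Finset.mem_univ _))
      ((totalDegree_finsetProd _ _).trans ?_))
    refine (Finset.sum_le_card_nsmul _ _ M fun j _ => ?_).trans (by simp)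
    rw [totalDegree_X_pow]
    exact Nat.le_of_lt_succ (w.2 j).2
  have hli : LinearIndependent k fun w => Ideal.Quotient.mkₐ k J (b w) := by
    refine Fintype.linearIndependent_iff.mpr fun c hc => ?_
    rintro ⟨Q, m⟩
    have := (hS _ Q.2).1
    have h4 := congrArg (Ideal.Quotient.factorₐ k (hJ _ Q.2)) hc
    rw [map_sum, map_zero, Fintype.sum_prod_type, Finset.sum_eq_single Q] at h4
    · refine Fintype.linearIndependent_iff.mp (linInd_pow (he Q) M) (fun m => c (Q, m)) ?_ m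
      refine (mul_eq_zero.mp (?_ : Ideal.Quotient.mk Q.1 (u Q) * _ = 0)).resolve_left
        fun h => hu Q (Ideal.Quotient.eq_zero_iff_mem.mp h)
      rw [← h4, Finset.mul_sum]
      refine Finset.sum_congr rfl fun m _ => ?_
      rw [map_smul, mul_smul_comm]
      congr 1
      change _ = Ideal.Quotient.mk Q.1 (b (Q, m))
      simp [b]
    · intro Q' _ h
      refine Finset.sum_eq_zero fun m _ => ?_
      rw [map_smul]
      have : Ideal.Quotient.factorₐ k (hJ _ Q.2) (Ideal.Quotient.mkₐ k J (b (Q', m))) = 0 :=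
        (Ideal.Quotient.eq_zero_iff_mem (I := Q.1)).mpr
          (Ideal.mul_mem_right _ _ (hu' Q' Q h.symm))
      rw [this, smul_zero]
    · simp
  have h5 := finrank_span_eq_card hli
  rw [Fintype.card_prod, Fintype.card_coe, Fintype.card_fun, Fintype.card_fin,
    Fintype.card_fin] at h5
  rw [← h5]
  refine Submodule.finrank_mono (Submodule.span_le.mpr ?_)
  rintro _ ⟨w, rfl⟩
  exact ⟨b w, (mem_restrictTotalDegree _ _ _).mpr (hb w), rfl⟩

end Pool.Agent.P.MP_84b56d_ag
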