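import Pool.Agent.P.MP_84b56d_ag.Basic

open MvPolynomial TopologicalSpace

namespace Pool.Agent.P.MP_84b56d_ag

variable {k : Type*} {σ : Type} {G : Type*} [Field k] [AddCommGroup G] [TopologicalSpace G]
  (c : Ctx k σ G)

/-- regular self maps -/
def Ctx.Reg (φ : G → G) : Prop :=
  ∀ x, ∀ v ∈ c.rep x, ∃ (D : MvPolynomial σ k) (F : σ → MvPolynomial σ k), eval v D ≠ 0 ∧
    ∀ y, ∀ w ∈ c.rep y, eval w D ≠ 0 → (fun l => eval w (F l)) ∈ c.rep (φ y)

theorem Ctx.reg_id : c.Reg fun x => x := fun x v _ =>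
  ⟨1, X, by simp, fun y w hw _ => by simpa using hw⟩

theorem Ctx.reg_const (a : G) : c.Reg fun _ => a := fun x v _ => by
  obtain ⟨u, hu⟩ := c.nonempty a
  exact ⟨1, fun l => C (u l), by simp, fun y w _ _ => by simpa using hu⟩

theorem eval_aeval_sum {τ : Type} (F F' : σ → MvPolynomial τ k) (w : τ → k)
    (f : MvPolynomial (σ ⊕ σ) k) : eval w (aeval (Sum.elim F F') f) =
      eval (Sum.elim (fun l => eval w (F l)) fun l => eval w (F' l)) f := by
  rw [eval_aeval']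
  congr 2
  funext i
  cases i <;> rfl

theorem Ctx.Reg.add {c : Ctx k σ G} {φ ψ : G → G} (h : c.Reg φ) (h' : c.Reg ψ) :
    c.Reg fun x => φ x + ψ x := by
  intro x v hv
  obtain ⟨D, F, hD, hF⟩ := h x v hv
  obtain ⟨D', F', hD', hF'⟩ := h' x v hv
  obtain ⟨α, l, hl⟩ := c.law_cover _ _ _ (hF x v hv hD) _ (hF' x v hv hD')
  refine ⟨D * D' * aeval (Sum.elim F F') (c.law α l),
    fun l => aeval (Sum.elim F F') (c.law α l), ?_, fun y w hw hne => ?_⟩
  · rw [map_mul, map_mul, eval_aeval_sum]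
    exact mul_ne_zero (mul_ne_zero hD hD') hl
  · rw [map_mul, map_mul, eval_aeval_sum] at hne
    simp only [eval_aeval_sum]
    exact c.law_mem α _ _ _ (hF y w hw (left_ne_zero_of_mul (left_ne_zero_of_mul hne))) _
      (hF' y w hw (right_ne_zero_of_mul (left_ne_zero_of_mul hne))) l (right_ne_zero_of_mul hne)

theorem Ctx.Reg.continuous {c : Ctx k σ G} {φ : G → G} (h : c.Reg φ) : Continuous φ := by
  refine continuous_iff_isClosed.2 fun Y hY => c.isClosed_of fun x hx => ?_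
  obtain ⟨v, hv⟩ := c.nonempty x
  obtain ⟨D, F, hD, hF⟩ := h x v hv
  obtain ⟨f, hf, hne⟩ := c.exists_I_ne hY hx (hF x v hv hD)
  refine ⟨v, hv, D * aeval F f, fun y hy w hw => ?_, ?_⟩
  · rw [map_mul, eval_aeval']
    by_cases h0 : eval w D = 0
    · rw [h0, zero_mul]
    · rw [hf _ hy _ (hF y w hw h0), mul_zero]
  · rw [map_mul, eval_aeval']
    exact mul_ne_zero hD hne

include c in
theorem Ctx.sepCont : SeparatelyContinuousAdd G :=
  ⟨fun {a} => ((c.reg_const a).add c.reg_id).continuous,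
    fun {a} => (c.reg_id.add (c.reg_const a)).continuous⟩

theorem Ctx.reg_nsmul (n : ℕ) : c.Reg fun x : G => n • x := by
  induction n with
  | zero => simpa using c.reg_const 0
  | succ n ih => simpa [succ_nsmul] using ih.add c.reg_id

include c in
theorem Ctx.continuous_nsmul (n : ℕ) : Continuous fun x : G => n • x :=
  (c.reg_nsmul n).continuous

theorem Ctx.exists_deg [Finite σ] : ∃ D : ℕ, 1 ≤ D ∧ ∀ α l, (c.law α l).totalDegree ≤ D := by
  have := Fintype.ofFinite σ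
  refine ⟨1 + Finset.univ.sup fun p : Fin c.N × σ => (c.law p.1 p.2).totalDegree, by omega,
    fun α l => ?_⟩
  have := Finset.le_sup (f := fun p : Fin c.N × σ => (c.law p.1 p.2).totalDegree)
    (Finset.mem_univ (α, l))
  simp only at this
  omega

theorem Ctx.cut [Finite σ] : ∃ D : ℕ, 1 ≤ D ∧ ∀ (f : MvPolynomial σ k) (m : ℕ), f.IsHomogeneous m →
    ∀ a : G, ∃ T : Set (MvPolynomial σ k), (∀ h ∈ T, h.totalDegree ≤ D * (m + 1)) ∧
      ∀ y, ∀ v ∈ c.rep y, ((∀ h ∈ T, eval v h = 0) ↔ ∀ w ∈ c.rep (y + a), eval w f = 0) := by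
  obtain ⟨D, hD1, hD⟩ := c.exists_deg
  refine ⟨D, hD1, fun f m hf a => ?_⟩
  obtain ⟨u, hu⟩ := c.nonempty a
  let L : Fin c.N → σ → MvPolynomial σ k := fun α l =>
    aeval (Sum.elim X fun j => C (u j)) (c.law α l)
  have hL : ∀ α l v, eval v (L α l) = eval (Sum.elim v u) (c.law α l) := by
    intro α l v
    simp only [L, eval_aeval_sum, eval_X, eval_C]
  have hLd : ∀ α l, (L α l).totalDegree ≤ D := by
    intro α l
    refine (totalDegree_aeval_le _ 1 ?_ _).trans (by simpa using hD α l)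
    rintro (j | j)
    · exact (isHomogeneous_X k j).totalDegree_le
    · simp
  refine ⟨{h | ∃ α l, h = aeval (L α) f * L α l}, ?_, fun y v hv => ⟨fun h w hw => ?_, ?_⟩⟩
  · rintro _ ⟨α, l, rfl⟩
    refine (totalDegree_mul _ _).trans ?_
    have h1 := totalDegree_aeval_le (L α) D (hLd α) f
    have h2 := Nat.mul_le_mul_left D hf.totalDegree_le
    have h3 := hLd α l
    rw [mul_add, mul_one]
    omega
  · obtain ⟨α, l, hl⟩ := c.law_cover _ _ v hv u hu
    have h1 := h _ ⟨α, l, rfl⟩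
    rw [map_mul, eval_aeval', hL] at h1
    simp only [hL] at h1
    obtain ⟨b, rfl⟩ := c.exists_smul _ _ (c.law_mem α _ _ v hv u hu l hl) w hw
    rw [eval_smul_of_hom hf, (mul_eq_zero.1 h1).resolve_right hl, mul_zero]
  · rintro h _ ⟨α, l, rfl⟩
    rw [map_mul, eval_aeval', hL]
    simp only [hL]
    by_cases hl : eval (Sum.elim v u) (c.law α l) = 0
    · rw [hl, mul_zero]
    · rw [h _ (c.law_mem α _ _ v hv u hu l hl), zero_mul]

theorem Ctx.cut_closed [Infinite k] [Finite σ] {Y : Set G} (hY : IsClosed Y) :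
    ∃ D : ℕ, ∀ a : G, ∃ T : Set (MvPolynomial σ k), (∀ h ∈ T, h.totalDegree ≤ D) ∧
      ∀ y, ∀ v ∈ c.rep y, ((∀ h ∈ T, eval v h = 0) ↔ y + a ∈ Y) := by
  obtain ⟨D, -, hD⟩ := c.cut
  obtain ⟨S, hS, hspan⟩ := c.exists_gens Y
  choose! d hd using hS
  refine ⟨D * (S.sup d + 1), fun a => ?_⟩
  choose! T hT hT' using fun f (hf : f ∈ S) => hD f (d f) (hd f hf) a
  refine ⟨⋃ f ∈ S, T f, ?_, fun y v hv => ⟨fun h => ?_, fun h => ?_⟩⟩
  · intro h hh
    simp only [Set.mem_iUnion] at hh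
    obtain ⟨f, hf, hh⟩ := hh
    exact (hT f hf h hh).trans (Nat.mul_le_mul_left _ (Nat.succ_le_succ (Finset.le_sup hf)))
  · obtain ⟨w, hw⟩ := c.nonempty (y + a)
    refine c.mem_of_gens hY (fun f hf => ⟨_, hd f hf⟩) hspan hw fun f hf => ?_
    refine (hT' f hf y v hv).1 (fun g hg => h g ?_) w hw
    simp only [Set.mem_iUnion]
    exact ⟨f, hf, hg⟩
  · intro g hg
    simp only [Set.mem_iUnion] at hg
    obtain ⟨f, hf, hg⟩ := hg
    refine (hT' f hf y v hv).2 (fun w hw => ?_) g hg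
    have : f ∈ c.I Y := hspan ▸ Ideal.subset_span hf
    exact this _ h w hw

end Pool.Agent.P.MP_84b56d_ag
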