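import Pool.Agent.P.MP_84b56d_ag.Cong

open MvPolynomial

namespace Pool.Agent.P.MP_84b56d_ag

variable {k : Type*} [Field k]

theorem det_mem {ι : Type*} [Fintype ι] [DecidableEq ι] (O : Subring k) (M : Matrix ι ι k)
    (hM : ∀ i j, M i j ∈ O) : M.det ∈ O := by
  rw [Matrix.det_apply']
  exact O.sum_mem fun s _ => O.mul_mem (intCast_mem O _) (O.prod_mem fun i _ => hM _ _)

theorem prin_pow_anti {O : Subring k} {p : k} (hp : p ∈ O) {a b : ℕ} (h : a ≤ b) :
    prin O (p ^ b) ≤ prin O (p ^ a) := by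
  rintro _ ⟨y, hy, rfl⟩
  refine ⟨p ^ (b - a) * y, O.mul_mem (O.pow_mem hp _) hy, ?_⟩
  rw [← mul_assoc, ← pow_add, Nat.add_sub_cancel' h]

theorem mul_mem_prin {O : Subring k} {p a b : k} (ha : a ∈ O) (hb : b ∈ prin O p) :
    a * b ∈ prin O p := by
  obtain ⟨y, hy, rfl⟩ := hb
  exact ⟨a * y, O.mul_mem ha hy, by ring⟩

theorem det_mem_prin {ι : Type*} [Fintype ι] [DecidableEq ι] (O : Subring k) (p : k) (hp : p ∈ O)
    (M : Matrix ι ι k) (hM : ∀ i j, M i j ∈ O) {T : Type*} (cls : ι → T) (s : Finset T)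
    (hs : ∀ i, cls i ∈ s) (h : ∀ i i', cls i = cls i' → ∀ j, M i j - M i' j ∈ prin O p) :
    M.det ∈ prin O (p ^ (Fintype.card ι - s.card)) := by
  classical
  have hex : ∀ i, ∃ i', cls i' = cls i := fun i => ⟨i, rfl⟩
  let r : T → ι → ι := fun t i => if h : ∃ i', cls i' = t then h.choose else i
  let ρ : ι → ι := fun i => r (cls i) i
  have hρ : ∀ i, cls (ρ i) = cls i := by
    intro i
    simp only [ρ, r, dif_pos (hex i)]
    exact (hex i).choose_spec
  have hρ' : ∀ i i', cls i = cls i' → ρ i = ρ i' := by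
    intro i i' e
    simp only [ρ, r, dif_pos (hex i), dif_pos (hex i'), e]
  have hρρ : ∀ i, ρ (ρ i) = ρ i := fun i => hρ' _ _ (hρ i)
  choose N hN hN' using fun i j => h i (ρ i) (hρ i).symm j
  let M' : Matrix ι ι k := fun i j => if ρ i = i then M i j else N i j
  let d : ι → k := fun i => if ρ i = i then 1 else p
  let U : Matrix ι ι k := 1 + Matrix.of fun i i' => if ρ i ≠ i ∧ i' = ρ i then 1 else 0
  have hMU : M = U * Matrix.of fun i j => d i * M' i j := by
    ext i j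
    simp only [U]
    rw [Matrix.add_mul, Matrix.one_mul]
    simp only [Matrix.add_apply, Matrix.mul_apply, Matrix.of_apply, d, M']
    by_cases hi : ρ i = i
    · simp [hi]
    · have := hN' i j
      simp only [hi, if_false, ne_eq, not_false_eq_true, true_and, ite_mul, one_mul, zero_mul,
        Finset.sum_ite_eq', Finset.mem_univ, if_true, hρρ]
      linear_combination this
  have hd : ∏ i, d i = p ^ (Finset.univ.filter fun i => ¬ ρ i = i).card := by
    simp only [d]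
    rw [Finset.prod_ite]
    simp
  have hcard : Fintype.card ι - s.card ≤ (Finset.univ.filter fun i => ¬ ρ i = i).card := by
    have h1 : (Finset.univ.filter fun i => ρ i = i).card ≤ s.card := by
      refine Finset.card_le_card_of_injOn cls (fun i _ => hs i) fun i hi i' hi' e => ?_
      have h1 : ρ i = i := by simpa using hi
      have h2 : ρ i' = i' := by simpa using hi'
      rw [← h1, ← h2]
      exact hρ' _ _ e
    have h2 := Finset.card_filter_add_card_filter_not (s := Finset.univ) fun i => ρ i = i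
    rw [Finset.card_univ] at h2
    omega
  refine prin_pow_anti hp hcard ?_
  rw [hMU, Matrix.det_mul, Matrix.det_mul_column, hd]
  refine mul_mem_prin (det_mem O _ fun i j => ?_) ⟨_, det_mem O _ fun i j => ?_, rfl⟩
  · simp only [U, Matrix.add_apply, Matrix.one_apply, Matrix.of_apply]
    refine O.add_mem ?_ ?_ <;> split_ifs <;> simp
  · simp only [M']
    split_ifs
    · exact hM i j
    · exact hN i j

theorem exists_det_ne {ι : Type*} [Fintype ι] [DecidableEq ι] (Ω : Set (ι → k))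
    (h : ∀ a : ι → k, (∀ v ∈ Ω, ∑ j, v j * a j = 0) → a = 0) :
    ∃ M : Matrix ι ι k, (∀ i, M i ∈ Ω) ∧ M.det ≠ 0 := by
  classical
  have htop : Submodule.span k Ω = ⊤ := by
    by_contra hne
    obtain ⟨f, hf, hle⟩ := Submodule.exists_le_ker_of_lt_top _ (lt_top_iff_ne_top.2 hne)
    have := h (fun i => f fun j => if i = j then 1 else 0) fun v hv => by
      have h1 : f v = 0 := hle (Submodule.subset_span hv)
      rw [LinearMap.pi_apply_eq_sum_univ] at h1
      simpa using h1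
    refine hf (LinearMap.ext fun v => ?_)
    rw [LinearMap.pi_apply_eq_sum_univ]
    refine Finset.sum_eq_zero fun i _ => ?_
    have h2 := congrFun this i
    simp only [Pi.zero_apply] at h2
    rw [h2, smul_zero]
  obtain ⟨b, hb, hsp, hli⟩ := exists_linearIndependent k Ω
  let B : Module.Basis b k (ι → k) := Module.Basis.mk hli (by
    rw [Subtype.range_coe, hsp, htop])
  let e : ι ≃ b := (Pi.basisFun k ι).indexEquiv B
  refine ⟨fun i => (e i : ι → k), fun i => hb (e i).2, ?_⟩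
  have : LinearIndependent k (Matrix.row (fun i => (e i : ι → k) : Matrix ι ι k)) :=
    hli.comp e e.injective
  exact ((Matrix.isUnit_iff_isUnit_det _).1 (Matrix.linearIndependent_rows_iff_isUnit.1 this)).ne_zero

variable {E : Set k} (A : Arith k E)

theorem Arith.mem_O (q : A.Pr) {x : k} : x ∈ A.O q ↔ ∃ b : A.R, b ∉ q.1 ∧ (b : k) * x ∈ A.R :=
  Iff.rfl

theorem Arith.one_notMem (q : A.Pr) : (1 : A.R) ∉ q.1 := (Ideal.ne_top_iff_one _).1 q.2.1.ne_top

theorem Arith.R_le_O (q : A.Pr) {x : k} (hx : x ∈ A.R) : x ∈ A.O q :=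
  ⟨1, A.one_notMem q, by simpa using hx⟩

theorem Arith.subset_O (q : A.Pr) : E ⊆ A.O q := fun e he => ⟨A.h, q.2.2.2, A.clear e he⟩

theorem Arith.coe_ne (q : A.Pr) {b : A.R} (hb : b ∉ q.1) : (b : k) ≠ 0 := by
  intro h
  have : b = 0 := Subtype.ext h
  exact hb (this ▸ q.1.zero_mem)

theorem Arith.un_of_notMem (q : A.Pr) {b : A.R} (hb : b ∉ q.1) : Un (A.O q) (b : k) :=
  ⟨A.R_le_O q b.2, A.coe_ne q hb, b, hb, by rw [mul_inv_cancel₀ (A.coe_ne q hb)]; exact A.R.one_mem⟩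

theorem Arith.mem_M_of_mem (q : A.Pr) {a : A.R} (ha : a ∈ q.1) : (a : k) ∈ A.M q := by
  obtain ⟨b, hb, y, hy⟩ := (A.π_spec q.1 q.2.1 q.2.2.1 q.2.2.2).2 a ha
  have hy' : (b : k) * a = A.π q.1 * y := by exact_mod_cast congrArg Subtype.val hy
  have hb0 := A.coe_ne q hb
  refine ⟨(b : k)⁻¹ * y, (A.O q).mul_mem (A.un_of_notMem q hb).2.2 (A.R_le_O q y.2), ?_⟩
  field_simp
  linear_combination hy'

theorem Arith.mem_M_of_not_un (q : A.Pr) {x : k} (hx : x ∈ A.O q) (hn : ¬ Un (A.O q) x) :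
    x ∈ A.M q := by
  obtain ⟨b, hb, ha⟩ := hx
  have hb0 := A.coe_ne q hb
  have e : x = (b : k)⁻¹ * (b * x) := by field_simp
  by_cases h : (⟨_, ha⟩ : A.R) ∈ q.1
  · rw [e]
    exact mul_mem_prin (A.un_of_notMem q hb).2.2 (A.mem_M_of_mem q h)
  · exact absurd (e ▸ (A.un_of_notMem q hb).inv.mul (A.un_of_notMem q h)) hn

theorem Arith.not_un_of_mem_M (q : A.Pr) {x : k} (hx : x ∈ A.M q) : ¬ Un (A.O q) x := by
  rintro ⟨-, h0, b', hb', ha'⟩
  obtain ⟨y, ⟨b, hb, ha⟩, rfl⟩ := hx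
  have hπ := (A.π_spec q.1 q.2.1 q.2.2.1 q.2.2.2).1
  have : b * b' = A.π q.1 * (⟨_, ha⟩ * ⟨_, ha'⟩) := by
    apply Subtype.ext
    have h1 := left_ne_zero_of_mul h0
    have h2 := right_ne_zero_of_mul h0
    push_cast
    field_simp
  have hm : b * b' ∈ q.1 := this ▸ q.1.mul_mem_right _ hπ
  exact (q.2.1.mem_or_mem hm).elim hb hb'

theorem Arith.loc (q : A.Pr) : Loc (A.O q) (A.M q) where
  loc := fun a ha b hb h => by
    by_contra hcon
    push Not at hcon
    exact A.not_un_of_mem_M q ((A.M q).add_mem (A.mem_M_of_not_un q ha hcon.1)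
      (A.mem_M_of_not_un q hb hcon.2)) h
  le := by
    rintro _ ⟨y, hy, rfl⟩
    exact (A.O q).mul_mem (A.R_le_O q (A.π q.1).2) hy
  mul := fun a ha b hb => mul_mem_prin ha hb
  nonunit := fun a ha => A.not_un_of_mem_M q ha

theorem Arith.mem_of_mem_M (q : A.Pr) {a : A.R} (ha : (a : k) ∈ A.M q) : a ∈ q.1 := by
  by_contra h
  exact A.not_un_of_mem_M q ha (A.un_of_notMem q h)

theorem Arith.count' {Δ : k} (h0 : Δ ≠ 0) (a L : ℕ) (hΔ : A.Sm L Δ) (S : Finset A.Pr)
    (hS : ∀ q ∈ S, Δ ∈ prin (A.O q) ((A.π q.1 : k) ^ a)) : a * S.card ≤ A.C * (L + 1) := by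
  have := A.count ⟨Δ, hΔ.1⟩ (fun h => h0 (congrArg Subtype.val h)) a L hΔ.2
    (S.map ⟨Subtype.val, Subtype.val_injective⟩) ?_
  · rwa [Finset.card_map] at this
  · intro q hq
    obtain ⟨q, hq', rfl⟩ := Finset.mem_map.1 hq
    obtain ⟨y, ⟨b, hb, ha⟩, e⟩ := hS q hq'
    refine ⟨q.2.1, q.2.2.1, q.2.2.2, b, hb, ⟨_, ha⟩, Subtype.ext ?_⟩
    push_cast
    rw [e]
    simp only [Function.Embedding.coeFn_mk]
    ring

theorem Arith.finite_mem_M {Δ : k} (h0 : Δ ≠ 0) (hΔ : Δ ∈ A.R) :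
    {q : A.Pr | Δ ∈ A.M q}.Finite := by
  by_contra hinf
  obtain ⟨S, hS, hcard⟩ := Set.Infinite.exists_subset_card_eq hinf (A.C * (A.sz Δ + 1) + 1)
  have := A.count' h0 1 (A.sz Δ) ⟨hΔ, Nat.lt_two_pow_self.le⟩ S fun q hq => by
    rw [pow_one]; exact hS hq
  omega

end Pool.Agent.P.MP_84b56d_ag
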