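import Pool.Agent.P.MP_84b56d_ag.Cases

open MvPolynomial TopologicalSpace

namespace Pool.Agent.P.MP_84b56d_ag

variable {k : Type*} [Field k] {σ : Type} {G : Type*} [AddCommGroup G] [TopologicalSpace G]
  (c : Ctx k σ G)

theorem loc_away (R : Subring k) (hR : ∃ s : Finset k, R = Subring.closure (s : Set k)) (H : R)
    (hH : H ≠ 0) : ∃ R₁ : Subring k, (∃ s : Finset k, R₁ = Subring.closure (s : Set k)) ∧
      ∃ hle : R ≤ R₁, (H : k)⁻¹ ∈ R₁ ∧ ∀ s₁ : Ideal R₁, s₁.IsPrime → s₁.height = 1 →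
        (s₁.comap (Subring.inclusion hle)).IsPrime ∧ (s₁.comap (Subring.inclusion hle)).height = 1 ∧
          H ∉ s₁.comap (Subring.inclusion hle) := by
  classical
  obtain ⟨s, hs⟩ := hR
  have hH' : (H : k) ≠ 0 := fun h => hH (Subtype.ext h)
  let R₁ := Subring.closure ((insert (H : k)⁻¹ s : Finset k) : Set k)
  have hle : R ≤ R₁ := by
    rw [hs]
    exact Subring.closure_mono (by simp)
  have hinv : (H : k)⁻¹ ∈ R₁ := Subring.subset_closure (by simp)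
  refine ⟨R₁, ⟨_, rfl⟩, hle, hinv, fun s₁ hp h1 => ?_⟩
  letI : Algebra R R₁ := (Subring.inclusion hle).toAlgebra
  have hu : IsUnit (algebraMap R R₁ H) :=
    IsUnit.of_mul_eq_one ⟨_, hinv⟩ (Subtype.ext (mul_inv_cancel₀ hH'))
  have hsurj : ∀ x ∈ R₁, ∃ n : ℕ, x * (H : k) ^ n ∈ R := by
    intro x hx
    induction hx using Subring.closure_induction with
    | mem x hx =>
      rcases Finset.mem_insert.1 hx with rfl | hx
      · exact ⟨1, by rw [pow_one, inv_mul_cancel₀ hH']; exact R.one_mem⟩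
      · exact ⟨0, by rw [pow_zero, mul_one, hs]; exact Subring.subset_closure hx⟩
    | zero => exact ⟨0, by simp⟩
    | one => exact ⟨0, by simp⟩
    | add x y _ _ hx hy =>
      obtain ⟨n, hn⟩ := hx
      obtain ⟨m, hm⟩ := hy
      refine ⟨n + m, ?_⟩
      rw [show (x + y) * (H : k) ^ (n + m) = x * H ^ n * H ^ m + y * H ^ m * H ^ n by ring]
      exact R.add_mem (R.mul_mem hn (R.pow_mem H.2 _)) (R.mul_mem hm (R.pow_mem H.2 _))
    | neg x _ hx =>
      obtain ⟨n, hn⟩ := hx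
      exact ⟨n, by rw [neg_mul]; exact R.neg_mem hn⟩
    | mul x y _ _ hx hy =>
      obtain ⟨n, hn⟩ := hx
      obtain ⟨m, hm⟩ := hy
      refine ⟨n + m, ?_⟩
      rw [show (x * y) * (H : k) ^ (n + m) = x * H ^ n * (y * H ^ m) by ring]
      exact R.mul_mem hn hm
  haveI : IsLocalization.Away H R₁ := by
    refine IsLocalization.Away.mk H hu (fun x => ?_) fun a b hab => ⟨0, ?_⟩
    · obtain ⟨n, hn⟩ := hsurj x x.2
      exact ⟨n, ⟨_, hn⟩, Subtype.ext rfl⟩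
    · rw [Subring.inclusion_injective hle hab]
  refine ⟨Ideal.comap_isPrime _ _, ?_, fun h => hp.ne_top (Ideal.eq_top_of_isUnit_mem _ h hu)⟩
  rw [← h1]
  exact IsLocalization.height_under (Submonoid.powers H) s₁

theorem Ctx.not_cong_minor {O : Subring k} {J : AddSubgroup k} (hL : Loc O J) {x z : G}
    {v w : σ → k} (hv : v ∈ c.rep x) (hw : w ∈ c.rep z) (pv : Prim O v) (hwO : ∀ i, w i ∈ O)
    {j : σ} (hj : w j = 1) (h : ¬ c.Cong O J x z) : ∃ i, v i * w j - v j * w i ∉ J := by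
  by_contra hcon
  push Not at hcon
  obtain ⟨i, hi⟩ := pv.2
  have h1 : Un O (v j * w i) := hL.un_of_sub_mem hi (by simpa [hj] using hcon i)
  have h2 : Un O (v j) := Un.of_mul (pv.1 j) (hwO i) h1
  refine h ⟨v, hv, v j • w, c.smul_mem z w hw _ h2.2.1, pv,
    ⟨fun l => O.mul_mem (pv.1 j) (hwO l), j, by simpa [hj] using h2⟩, fun l => ?_⟩
  simpa [hj] using hcon l

theorem Ctx.main [IsAlgClosed k] [CharZero k] [Finite σ] [IrreducibleSpace G]
    (hdim : ∃ W, Ch 2 (W : Set G)) (Z : Set G) (hZ : Z.Finite) (E₀ : Set k) (hE₀ : E₀.Finite)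
    (zr : G → σ → k) (hzr : ∀ z ∈ Z, zr z ∈ c.rep z ∧ (∃ j, zr z j = 1) ∧ ∀ i, zr z i ∈ E₀) :
    ∃ R : Subring k, (∃ s : Finset k, R = Subring.closure (s : Set k)) ∧ E₀ ⊆ R ∧
      Dense {x | x ∉ Z ∧ (∃ v ∈ c.rep x, ∀ i, v i ∈ R) ∧
        ∀ s : Ideal R, s.IsPrime → s.height = 1 → ∃ v : σ → R, (fun i => (v i : k)) ∈ c.rep x ∧
          (∃ i, v i ∉ s) ∧ ∀ z ∈ Z, ∃ i j, ∀ a : R,
            (a : k) = v i * zr z j - v j * zr z i → a ∉ s} := by
  classical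
  haveI := c.t1Space
  haveI := Fintype.ofFinite σ
  obtain ⟨W, hW⟩ := hdim
  have hdim : 3 ≤ td (c.I Set.univ) := (c.ch_le hW).trans
    (c.td_le_td hW.ci.2 (IrreducibleSpace.isIrreducible_univ G) (Set.subset_univ W))
  haveI : Nontrivial G := by
    cases hW with
    | succ _ W' _ h hs _ _ =>
      obtain ⟨a, ha⟩ := h.ci.2.nonempty
      obtain ⟨b, -, hb⟩ := Set.exists_of_ssubset hs
      exact ⟨a, b, fun e => hb (e ▸ ha)⟩
  obtain ⟨E, A, S, hE, hS, hdense⟩ := c.out hdim Z hZ E₀ hE₀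
  have hex : ∀ q : A.Pr, ∃ a ∈ q.1, a ≠ 0 := fun q =>
    Submodule.exists_mem_ne_zero_of_ne_bot (Ideal.ne_bot_of_height_eq_one q.2.2.1)
  choose a ha ha0 using hex
  obtain ⟨R, hR, hle, hinv, hprime⟩ := loc_away A.R A.fg (A.h * ∏ q ∈ hS.toFinset, a q)
    (mul_ne_zero A.h_ne (Finset.prod_ne_zero_iff.2 fun q _ => ha0 q))
  have hh : (A.h : k) ≠ 0 := fun h => A.h_ne (Subtype.ext h)
  have hER : E₀ ⊆ R := by
    intro e he
    have h0 : ((∏ q ∈ hS.toFinset, a q : A.R) : k) ≠ 0 := fun h =>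
      Finset.prod_ne_zero_iff.2 (fun q _ => ha0 q) (Subtype.ext h)
    have := R.mul_mem (R.mul_mem hinv (hle (∏ q ∈ hS.toFinset, a q).2)) (hle (A.clear e (hE he)))
    rwa [show ((A.h * ∏ q ∈ hS.toFinset, a q : A.R) : k)⁻¹ * (∏ q ∈ hS.toFinset, a q : A.R) *
      (A.h * e) = e by rw [Subring.coe_mul]; field_simp] at this
  refine ⟨R, hR, hER, ?_⟩
  have hZne : Z ≠ Set.univ := by
    intro h
    obtain ⟨T, hT, hsub⟩ := isIrreducible_iff_sUnion_isClosed.1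
      (IrreducibleSpace.isIrreducible_univ G) (hZ.toFinset.image fun z => ({z} : Set G)) (by
        intro T hT
        obtain ⟨z, -, rfl⟩ := Finset.mem_image.1 hT
        exact isClosed_singleton) (by
        intro y _
        exact ⟨_, Finset.mem_coe.2 (Finset.mem_image.2
          ⟨y, hZ.mem_toFinset.2 (h ▸ Set.mem_univ y), rfl⟩), rfl⟩)
    obtain ⟨z, -, rfl⟩ := Finset.mem_image.1 hT
    obtain ⟨y, hy⟩ := exists_ne z
    exact hy (hsub (Set.mem_univ y))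
  have hd2 := hdense.inter_of_isOpen_right
    (hZ.isClosed.isOpen_compl.dense (Set.nonempty_compl.2 hZne)) hZ.isClosed.isOpen_compl
  refine hd2.mono ?_
  rintro x ⟨⟨⟨v, hv, hvR⟩, hx⟩, hxZ⟩
  refine ⟨hxZ, ⟨v, hv, fun i => hle (hvR i)⟩, fun s hs h1 => ?_⟩
  obtain ⟨hq1, hq2, hq3⟩ := hprime s hs h1
  let q : A.Pr := ⟨s.comap (Subring.inclusion hle), hq1, hq2,
    fun h => hq3 (Ideal.mul_mem_right _ _ h)⟩
  have hqS : q ∉ S := fun h => hq3 (Ideal.mul_mem_left _ _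
    (Ideal.mem_of_dvd _ (Finset.dvd_prod_of_mem a (hS.mem_toFinset.2 h)) (ha q)))
  obtain ⟨⟨u, hu, pu⟩, hnc⟩ := hx q hqS
  choose b hb hb' using pu.1
  have hB : ∏ i, b i ∉ q.1 := fun h => by
    haveI := q.2.1
    obtain ⟨i, -, hi⟩ := Ideal.IsPrime.prod_mem_iff.1 h
    exact hb i hi
  have hBu := A.un_of_notMem q hB
  have hmem : ∀ i, ((∏ i, b i : A.R) : k) * u i ∈ A.R := by
    intro i
    rw [← Finset.prod_erase_mul _ _ (Finset.mem_univ i), Subring.coe_mul, mul_assoc]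
    exact A.R.mul_mem (Subtype.mem _) (hb' i)
  have hrep : (fun i => ((∏ i, b i : A.R) : k) * u i) ∈ c.rep x := c.smul_mem x u hu _ hBu.2.1
  have hprim : Prim (A.O q) fun i => ((∏ i, b i : A.R) : k) * u i := by
    obtain ⟨i, hi⟩ := pu.2
    exact ⟨fun i => A.R_le_O q (hmem i), i, hBu.mul hi⟩
  refine ⟨fun i => ⟨_, hle (hmem i)⟩, hrep, ?_, fun z hz => ?_⟩
  · obtain ⟨i, hi⟩ := hprim.2
    exact ⟨i, fun h => A.not_un_of_mem_M q (A.mem_M_of_mem q (a := ⟨_, hmem i⟩) h) hi⟩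
  · obtain ⟨hz1, ⟨j, hj⟩, hz3⟩ := hzr z hz
    obtain ⟨i, hi⟩ := c.not_cong_minor (A.loc q) hrep hz1 hprim
      (fun i => A.subset_O q (hE (hz3 i))) hj (hnc z hz)
    refine ⟨i, j, fun a' ha' hmem' => hi ?_⟩
    have hR' : (A.h : k) * a' ∈ A.R := by
      rw [ha', show ∀ p p' r r' : k, (A.h : k) * (p * r - p' * r') = p * (A.h * r) - p' * (A.h * r')
        from fun _ _ _ _ => by ring]
      exact A.R.sub_mem (A.R.mul_mem (hmem i) (A.clear _ (hE (hz3 j))))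
        (A.R.mul_mem (hmem j) (A.clear _ (hE (hz3 i))))
    have h2 : (⟨_, hR'⟩ : A.R) ∈ q.1 := by
      have : Subring.inclusion hle ⟨_, hR'⟩ = ⟨A.h, hle A.h.2⟩ * a' := Subtype.ext rfl
      change Subring.inclusion hle ⟨_, hR'⟩ ∈ s
      rw [this]
      exact s.mul_mem_left _ hmem'
    have h3 := (A.loc q).mul _ (A.un_of_notMem q q.2.2.2).2.2 _ (A.mem_M_of_mem q h2)
    rwa [← mul_assoc, inv_mul_cancel₀ hh, one_mul, ha'] at h3

end Pool.Agent.P.MP_84b56d_ag
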