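import Pool.Agent.P.MP_84b56d_ag.Formal
import Pool.Agent.P.MP_84b56d_ag.Curve
import Pool.Agent.P.MP_84b56d_ag.Fld1
import Pool.Agent.P.MP_84b56d_ag.Fld2

open MvPolynomial TopologicalSpace

namespace Pool.Agent.P.MP_84b56d_ag

variable {k : Type*} [Field k] {σ : Type} {G : Type*} [AddCommGroup G] [TopologicalSpace G]
  (c : Ctx k σ G)

theorem eval_comp_fix {τ : Type} (s : k ≃+* k) {f : MvPolynomial τ k}
    (hf : ∀ m, s (coeff m f) = coeff m f) (v : τ → k) :
    eval (fun i => s (v i)) f = s (eval v f) := by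
  rw [eval_eq, eval_eq, map_sum]
  refine Finset.sum_congr rfl fun m _ => ?_
  rw [map_mul, hf, map_prod]
  simp only [map_pow]

theorem Ctx.exists_act [Infinite k] [Finite σ] : ∃ E : Set k, E.Finite ∧ ∀ s : k ≃+* k,
    (∀ e ∈ E, s e = e) → ∃ φ : G →+ G, ∀ x, ∀ v ∈ c.rep x, (fun i => s (v i)) ∈ c.rep (φ x) := by
  obtain ⟨T, -, hT⟩ := c.exists_gens Set.univ
  refine ⟨(⋃ f ∈ T, Set.range fun m => coeff m f) ∪
    ⋃ α, ⋃ l, Set.range fun m => coeff m (c.law α l), ?_, fun s hs => ?_⟩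
  · exact (T.finite_toSet.biUnion fun f _ => finite_coeffs f).union
      (Set.finite_iUnion fun α => Set.finite_iUnion fun l => finite_coeffs _)
  have h1 : ∀ x, ∃ y, ∀ v ∈ c.rep x, (fun i => s (v i)) ∈ c.rep y := by
    intro x
    obtain ⟨v, hv⟩ := c.nonempty x
    obtain ⟨y, hy⟩ := c.cone_closed (fun i => s (v i)) (by
      intro h
      refine c.ne_zero x v hv (funext fun i => ?_)
      simpa using congrFun h i) fun f hf => by
      refine eval_eq_zero_of_span (T := (T : Set _)) (fun g hg => ?_) f ?_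
      · rw [eval_comp_fix s fun m => hs _ (Or.inl ?_)]
        · have : g ∈ c.I Set.univ := hT ▸ Ideal.subset_span hg
          rw [this x trivial v hv, map_zero]
        · simp only [Set.mem_iUnion]
          exact ⟨g, hg, m, rfl⟩
      · rw [hT]
        exact fun y _ w hw => hf y w hw
    refine ⟨y, fun w hw => ?_⟩
    obtain ⟨a, ha, rfl⟩ := c.exists_smul_ne hv hw
    have := c.smul_mem y _ hy (s a) (by simpa using ha)
    rwa [show (fun i => s ((a • v) i)) = s a • fun i => s (v i) from funext fun i => by simp]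
  choose φ hφ using h1
  refine ⟨AddMonoidHom.mk' φ fun x y => ?_, hφ⟩
  obtain ⟨v, hv⟩ := c.nonempty x
  obtain ⟨w, hw⟩ := c.nonempty y
  obtain ⟨α, l, hl⟩ := c.law_cover x y v hv w hw
  have he : ∀ l, eval (Sum.elim (fun i => s (v i)) fun i => s (w i)) (c.law α l) =
      s (eval (Sum.elim v w) (c.law α l)) := by
    intro l
    rw [← eval_comp_fix s fun m => hs _ (Or.inr ?_)]
    · congr 2
      funext i
      cases i <;> rfl
    · simp only [Set.mem_iUnion]
      exact ⟨α, l, m, rfl⟩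
  have h2 := c.law_mem α _ _ _ (hφ x v hv) _ (hφ y w hw) l (by rw [he]; simpa using hl)
  simp only [he] at h2
  exact c.eq_of_mem _ _ _ (hφ _ _ (c.law_mem α x y v hv w hw l hl)) h2

theorem Ctx.exists_chart_curve [Infinite k] [Finite σ] {B B₁ : AddSubgroup G} (hB : CI B)
    (hB₁ : CI B₁) (hlt : B₁ < B) :
    ∃ (Q : Ideal (MvPolynomial σ k)) (i₀ : σ), Q.IsPrime ∧ td Q = 1 ∧ ¬ c.I B₁ ≤ Q ∧
      (∃ v₀ ∈ c.rep 0, ∀ f ∈ Q, eval v₀ f = 0) ∧
      ∀ v : σ → k, (∀ f ∈ Q, eval v f = 0) → v i₀ = 1 ∧ ∃ x ∈ B, v ∈ c.rep x := by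
  classical
  obtain ⟨v₀, hv₀, i₀, h1⟩ := c.exists_rep_one 0
  haveI := c.isPrime_I hB.2
  haveI := c.isPrime_I hB₁.2
  haveI : (RingHom.ker (eval v₀ : MvPolynomial σ k →+* k)).IsPrime := RingHom.ker_isPrime _
  obtain ⟨P, hP, hPle⟩ := Ideal.exists_minimalPrimes_le
    (I := c.I B ⊔ Ideal.span {(X i₀ - 1 : MvPolynomial σ k)})
    (J := RingHom.ker (eval v₀ : MvPolynomial σ k →+* k))
    (sup_le (fun f hf => hf 0 B.zero_mem v₀ hv₀)
      ((Ideal.span_singleton_le_iff_mem _).2 (by rw [RingHom.mem_ker]; simp [h1])))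
  haveI := hP.1.1
  have hXP : (X i₀ - 1 : MvPolynomial σ k) ∈ P :=
    hP.1.2 (Ideal.mem_sup_right (Ideal.mem_span_singleton_self _))
  have t1 := td_le_succ _ hP
  have t2 := c.td_lt_td hB₁.1 hB₁.2 hB.2 (SetLike.coe_ssubset_coe.2 hlt)
  have t3 := c.one_le_td hB₁.2
  have hn : ¬ c.I B₁ ≤ P := by
    intro h
    have : c.I B₁ < P := by
      refine lt_of_le_of_ne h fun he => ?_
      obtain ⟨a, ha⟩ := Infinite.exists_notMem_finset ({0, 1} : Finset k)
      simp only [Finset.mem_insert, Finset.mem_singleton, not_or] at ha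
      have h2 : (X i₀ - 1 : MvPolynomial σ k) ∈ c.I B₁ := he ▸ hXP
      have := h2 0 B₁.zero_mem _ (c.smul_mem 0 v₀ hv₀ a ha.1)
      simp [h1, sub_eq_zero] at this
      exact ha.2 this
    have := td_lt this
    omega
  obtain ⟨Q, hQ, hPQ, hQ1, hQv, hQn⟩ := exists_curve P v₀ (fun f hf => hPle hf) (c.I B₁) hn
    (by omega)
  refine ⟨Q, i₀, hQ, hQ1, hQn, ⟨v₀, hv₀, hQv⟩, fun v hv => ?_⟩
  have hv1 : v i₀ = 1 := by simpa [sub_eq_zero] using hv _ (hPQ hXP)
  have hIB : c.I B ≤ Q := (le_sup_left.trans hP.1.2).trans hPQ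
  obtain ⟨x, hx⟩ := c.cone_closed v (fun h => by simp [h] at hv1) fun f hf =>
    hv f (hIB fun y _ w hw => hf y w hw)
  refine ⟨hv1, x, ?_, hx⟩
  by_contra hxB
  obtain ⟨f, hf, hne⟩ := c.exists_I_ne hB.1 hxB hx
  exact hne (hv f (hIB hf))

theorem exists_good_val [CharZero k] {B B₁ : AddSubgroup G} (hlt : B₁ < B) (E : Set k)
    (hE : E.Finite) : ∃ (p : ℕ) (V : ValuationSubring k), p.Prime ∧ (∀ e ∈ E, e ∈ V) ∧
      (p : k)⁻¹ ∉ V ∧ (∀ a : k, (∀ j : ℕ, a / (p : k) ^ j ∈ V) → a = 0) ∧ ∃ b ∈ B, p • b ∉ B₁ := by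
  obtain ⟨p, V, hp, -, h⟩ := exists_val E hE 0
  obtain ⟨p', V', hp', hlt', h'⟩ := exists_val E hE p
  by_contra hcon
  push Not at hcon
  obtain ⟨b, hb, hb'⟩ := SetLike.exists_of_lt hlt
  have h1 := hcon p V hp h.1 h.2.1 h.2.2 b hb
  have h2 := hcon p' V' hp' h'.1 h'.2.1 h'.2.2 b hb
  obtain ⟨s, t, hst⟩ : IsCoprime (p : ℤ) (p' : ℤ) :=
    Nat.isCoprime_iff_coprime.2 ((Nat.coprime_primes hp hp').2 hlt'.ne)
  have := B₁.add_mem (B₁.zsmul_mem h1 s) (B₁.zsmul_mem h2 t)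
  rw [← natCast_zsmul, ← natCast_zsmul, ← mul_zsmul, ← mul_zsmul, ← add_zsmul, hst,
    one_zsmul] at this
  exact hb' this

theorem finite_coeffs₂ (f : Polynomial (Polynomial k)) :
    (Set.range fun m : ℕ × ℕ => (f.coeff m.1).coeff m.2).Finite := by
  classical
  refine ((f.support.finite_toSet.biUnion fun i _ =>
    (f.coeff i).support.finite_toSet.image (f.coeff i).coeff).insert 0).subset ?_
  rintro _ ⟨⟨i, j⟩, rfl⟩
  by_cases h : (f.coeff i).coeff j = 0
  · exact Or.inl h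
  · right
    simp only [Set.mem_iUnion]
    refine ⟨i, ?_, j, by simpa using h, rfl⟩
    simp only [Finset.mem_coe, Polynomial.mem_support_iff]
    intro h0
    simp [h0] at h

include c in
theorem Ctx.ndProp [IsAlgClosed k] [CharZero k] [Finite σ] : NDProp G := by
  classical
  intro B B₁ hB hB₁ hlt hmax E₀ hE₀
  haveI := Fintype.ofFinite σ
  obtain ⟨Q, i₀, hQ, hQ1, hQn, ⟨v₀, hv₀, hQv⟩, hpt⟩ := c.exists_chart_curve hB hB₁ hlt
  obtain ⟨t, pp, hmon, hsurj, hroot⟩ := curve_param Q hQ1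
  obtain ⟨D, hD⟩ := c.cut_closed hB₁.1
  obtain ⟨C, hC⟩ := curve_count Q hQ1 D
  obtain ⟨E₁, hE₁, -, hgood⟩ := c.exists_good
  obtain ⟨E₂, hE₂, hact⟩ := c.exists_act
  obtain ⟨T₁, hT₁, hT₁'⟩ := c.exists_gens (B₁ : Set G)
  obtain ⟨TQ, hTQ⟩ := (isNoetherianRing_iff_ideal_fg _).1 inferInstance Q
  choose r hr using c.nonempty
  let E : Set k := (E₁ ∪ E₂) ∪ ((⋃ f ∈ insert t (T₁ ∪ TQ), Set.range fun m => coeff m f) ∪
    ((⋃ i, Set.range fun m : ℕ × ℕ => ((pp i).coeff m.1).coeff m.2) ∪ ⋃ u ∈ E₀, Set.range (r u)))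
  have hE : E.Finite := (hE₁.union hE₂).union
    (((insert t (T₁ ∪ TQ)).finite_toSet.biUnion fun f _ => finite_coeffs f).union
      ((Set.finite_iUnion fun i => finite_coeffs₂ _).union
        (hE₀.biUnion fun u _ => Set.finite_range _)))
  have hEf : ∀ f ∈ insert t (T₁ ∪ TQ), ∀ m, coeff m f ∈ E := fun f hf m => by
    refine Or.inr (Or.inl ?_)
    simp only [Set.mem_iUnion]
    exact ⟨f, hf, m, rfl⟩
  obtain ⟨p, V, hp, hEV, hp', hsep, hpB⟩ := exists_good_val hlt E hE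
  have hp0 : (p : k) ≠ 0 := Nat.cast_ne_zero.2 hp.ne_zero
  have hpV : (p : k) ∈ V := natCast_mem V p
  have hG : c.Good V.toSubring := hgood _ (val_isLoc V) fun e he => hEV e (Or.inl (Or.inl he))
  obtain ⟨M, hM, hsat⟩ := c.saturated V hG hp hp0 hp' hsep hB hB₁ hlt.le hmax hpB
  let d : ℕ := (Finset.univ.sup fun i => (pp i).natDegree) + 1
  let grid : Finset (σ → k) :=
    Fintype.piFinset fun i => ((pp i).map (Polynomial.evalRingHom 0)).roots.toFinset
  obtain ⟨ω, s, hω, hs, hinj⟩ := exists_conj E hE (grid.card * C + 1)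
  obtain ⟨v, hvQ, hvt⟩ := hsurj ((p : k) ^ (M * d) * ω)
  obtain ⟨-, x, hxB, hx⟩ := hpt v hvQ
  refine ⟨x, hxB, fun n hn u hu hnu => ?_⟩
  choose φ hφ using fun j => hact (s j) fun e he => hs j e (Or.inl (Or.inr he))
  let w : Fin (grid.card * C + 1) → σ → k := fun j i => s j (v i)
  have hw : ∀ j, w j ∈ c.rep (φ j x) := fun j => hφ j x v hx
  have hwQ : ∀ j, ∀ f ∈ Q, eval (w j) f = 0 := by
    intro j f hf
    refine eval_eq_zero_of_span (T := (TQ : Set _)) (fun g hg => ?_) f (hTQ ▸ hf)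
    rw [eval_comp_fix (s j) fun m => hs j _ (hEf g (by simp [Finset.mem_coe.1 hg]) m),
      hvQ g (hTQ ▸ Ideal.subset_span hg), map_zero]
  have hwt : ∀ j, eval (w j) t = (p : k) ^ (M * d) * s j ω := by
    intro j
    rw [eval_comp_fix (s j) fun m => hs j _ (hEf t (by simp) m), hvt]
    simp
  have hxj : ∀ j, φ j x ∈ B := fun j => by
    obtain ⟨-, y, hy, hy'⟩ := hpt _ (hwQ j)
    rwa [c.eq_of_mem _ _ _ (hw j) hy']
  have hφB : ∀ j, ∀ b ∈ B₁, φ j b ∈ B₁ := by
    intro j b hb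
    refine c.mem_of_gens hB₁.1 hT₁ hT₁' (hφ j b _ (hr b)) fun f hf => ?_
    have hfI : f ∈ c.I B₁ := hT₁' ▸ Ideal.subset_span hf
    rw [eval_comp_fix (s j) fun m => hs j _ (hEf f (by simp [Finset.mem_coe.1 hf]) m),
      hfI b hb _ (hr b), map_zero]
  have hφu : ∀ j, φ j u = u := by
    intro j
    refine AddSubgroup.closure_induction (fun y hy => ?_) (map_zero _)
      (fun a b _ _ ha hb => by rw [map_add, ha, hb]) (fun a _ ha => by rw [map_neg, ha]) hu
    refine c.eq_of_mem _ _ _ (hφ j y _ (hr y)) ?_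
    rw [show (fun i => s j (r y i)) = r y from funext fun i => hs j _ ?_]
    · exact hr y
    · refine Or.inr (Or.inr (Or.inr ?_))
      simp only [Set.mem_iUnion]
      exact ⟨y, hy, i, rfl⟩
  have hppV : ∀ i a b, ((pp i).coeff a).coeff b ∈ V.toSubring := fun i a b =>
    hEV _ (Or.inr (Or.inr (Or.inl (Set.mem_iUnion.2 ⟨i, (a, b), rfl⟩))))
  have hωV : ∀ j, s j ω ∈ V := by
    intro j
    obtain ⟨f, hf, hf0⟩ := hω
    refine val_root V (hf.map (Int.castRingHom k)) (fun i => ?_) ?_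
    · rw [Polynomial.coeff_map]; exact intCast_mem V _
    · have := congrArg (s j) hf0
      rw [map_zero, ← RingEquiv.coe_toRingHom, Polynomial.hom_eval₂] at this
      rw [Polynomial.eval_map, ← this]
      exact congrArg (fun g => Polynomial.eval₂ g _ f) (RingHom.ext_int _ _)
  have haV : ∀ j, eval (w j) t ∈ V.toSubring := fun j =>
    hwt j ▸ V.toSubring.mul_mem (V.toSubring.pow_mem hpV _) (hωV j)
  have hwV : ∀ j i, w j i ∈ V := fun j i =>
    val_root V ((hmon i).map _) (fun a => by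
      rw [Polynomial.coeff_map]; exact poly_eval_mem (hppV i a) (haV j)) (hroot _ (hwQ j) i)
  have hnear : ∀ j i, ∃ ρ ∈ ((pp i).map (Polynomial.evalRingHom 0)).roots,
      w j i - ρ ∈ prin V.toSubring ((p : k) ^ M) := by
    intro j i
    refine val_near_root V ((hmon i).map _) hpV hp0 hp' hM (d := d) ?_ (by omega) ?_
    · refine Polynomial.natDegree_map_le.trans ?_
      exact (Finset.le_sup (f := fun i => (pp i).natDegree) (Finset.mem_univ i)).trans
        (Nat.le_succ _)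
    · have := eval_map_sub (hppV i) (haV j) (b := (p : k) ^ (M * d)) ⟨_, hωV j, hwt j⟩ (hwV j i)
      rw [hroot _ (hwQ j) i, zero_sub] at this
      exact neg_mem_iff.1 this
  choose ρ hρ hρ' using hnear
  obtain ⟨y, -, hy⟩ := Finset.exists_lt_card_fiber_of_mul_lt_card_of_maps_to
    (s := Finset.univ) (t := grid) (f := ρ) (n := C)
    (fun j _ => Fintype.mem_piFinset.2 fun i => Multiset.mem_toFinset.2 (hρ j i)) (by simp)
  obtain ⟨j₀, hj₀⟩ := Finset.card_pos.1 (lt_of_le_of_lt (Nat.zero_le _) hy)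
  have hprim : ∀ j, Prim V.toSubring (w j) := fun j =>
    ⟨hwV j, i₀, (hpt _ (hwQ j)).1 ▸ un_one⟩
  have hcos : ∀ j ∈ Finset.univ.filter fun j => ρ j = y, φ j x - φ j₀ x ∈ B₁ := by
    intro j hj
    refine hsat _ (hxj j) _ (hxj j₀) ⟨_, hw j, _, hw j₀, hprim j, hprim j₀, fun i => ?_⟩ n hn ?_
    · have := (prin V.toSubring ((p : k) ^ M)).sub_mem (hρ' j i) (hρ' j₀ i)
      rwa [(Finset.mem_filter.1 hj).2, (Finset.mem_filter.1 hj₀).2, sub_sub_sub_cancel_right]
        at this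
    · have := B₁.sub_mem (hφB j _ hnu) (hφB j₀ _ hnu)
      rwa [map_add, map_add, hφu, hφu, map_nsmul, map_nsmul, add_sub_add_right_eq_sub,
        ← nsmul_sub] at this
  obtain ⟨T, hT, hT'⟩ := hD (-φ j₀ x)
  have hwinj : Function.Injective w := by
    intro j j' e
    have := hwt j
    rw [e, hwt j'] at this
    exact hinj (mul_left_cancel₀ (pow_ne_zero _ hp0) this).symm
  have := hC T hT ?_ ((Finset.univ.filter fun j => ρ j = y).image w) ?_
  · rw [Finset.card_image_of_injective _ hwinj] at this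
    omega
  · by_contra hcon
    push Not at hcon
    have h0 : -φ j₀ x ∈ B₁ := by
      simpa using (hT' 0 v₀ hv₀).1 fun h hh => hQv h (hcon h hh)
    refine hQn fun f hf => mem_of_vanish Q fun v' hv' => ?_
    obtain ⟨-, z, -, hz⟩ := hpt v' hv'
    have h1 := (hT' z v' hz).1 fun h hh => hv' h (hcon h hh)
    exact hf z (by simpa using B₁.sub_mem h1 h0) v' hz
  · intro v' hv'
    obtain ⟨j, hj, rfl⟩ := Finset.mem_image.1 hv'
    exact ⟨hwQ j, (hT' _ _ (hw j)).2 (by simpa [sub_eq_add_neg] using hcos j hj)⟩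

end Pool.Agent.P.MP_84b56d_ag
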