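import Pool.Agent.P.MP_84b56d_ag.Z.Main

/-! An abelian variety minus a closed subset of codimension at least two is
arithmetically-special, and so is every quasi-projective variety that it dominates.
Varieties are classical: subsets of projective space over an algebraically closed field. -/

open MvPolynomial
open scoped LinearAlgebra.Projectivization

namespace Pool.Agent.P.MP_84b56d_ag.OldAbelianAll

/-- The Zariski topology of projective `n`-space: generated by the complements of hypersurfaces. -/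
def zariski (k : Type*) [Field k] (n : ℕ) : TopologicalSpace (ℙ k (Fin (n + 1) → k)) :=
  TopologicalSpace.generateFrom {U | ∃ (f : MvPolynomial (Fin (n + 1)) k) (d : ℕ),
    f.IsHomogeneous d ∧ U = {x | eval x.rep f ≠ 0}}

/-- `f (X, Y)` is homogeneous of degree `d.1` in `X` and of degree `d.2` in `Y`. -/
def Bihomogeneous {k : Type*} [Field k] {n : ℕ} (f : MvPolynomial (Fin (n + 1) ⊕ Fin (n + 1)) k)
    (d : ℕ × ℕ) : Prop :=
  f.IsWeightedHomogeneous (Sum.elim (fun _ => ((1, 0) : ℕ × ℕ)) fun _ => (0, 1)) d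

/-- `A` is an irreducible closed subset of projective space, and addition and negation of the
given group structure are morphisms: near every point they are given by forms of one
(bi)degree without common zero on a principal open set. -/
structure IsAbelianVariety {k : Type*} [Field k] {n : ℕ} (A : Set (ℙ k (Fin (n + 1) → k)))
    [AddCommGroup A] : Prop where
  closed : @IsClosed _ (zariski k n) A
  irreducible : @IsIrreducible _ (zariski k n) A
  add_regular : ∀ x y : A, ∃ (D : MvPolynomial (Fin (n + 1) ⊕ Fin (n + 1)) k)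
    (F : Fin (n + 1) → MvPolynomial (Fin (n + 1) ⊕ Fin (n + 1)) k) (d e : ℕ × ℕ),
    Bihomogeneous D d ∧ (∀ l, Bihomogeneous (F l) e) ∧ eval (Sum.elim x.1.rep y.1.rep) D ≠ 0 ∧
    ∀ x' y' : A, eval (Sum.elim x'.1.rep y'.1.rep) D ≠ 0 →
      ∃ h : (fun l => eval (Sum.elim x'.1.rep y'.1.rep) (F l)) ≠ 0,
        Projectivization.mk k _ h = (x' + y').1
  neg_regular : ∀ x : A, ∃ (D : MvPolynomial (Fin (n + 1)) k)
    (F : Fin (n + 1) → MvPolynomial (Fin (n + 1)) k) (d e : ℕ),
    D.IsHomogeneous d ∧ (∀ l, (F l).IsHomogeneous e) ∧ eval x.1.rep D ≠ 0 ∧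
    ∀ x' : A, eval x'.1.rep D ≠ 0 →
      ∃ h : (fun l => eval x'.1.rep (F l)) ≠ 0, Projectivization.mk k _ h = (-x').1

/-- `Z` is a closed subset of `A` of codimension at least two: every irreducible closed subset of
`A` inside `Z` has coheight at least two among the irreducible closed subsets of `A`. -/
def CodimTwo {k : Type*} [Field k] {n : ℕ} (A Z : Set (ℙ k (Fin (n + 1) → k))) : Prop :=
  letI := zariski k n
  IsClosed Z ∧ Z ⊆ A ∧ ∀ W : TopologicalSpace.IrreducibleCloseds A,
    (W : Set A) ⊆ Subtype.val ⁻¹' Z → 2 ≤ Order.coheight W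

/-- `f` is a morphism on `U`: near every point of `U` it is given by forms of one degree without
common zero. -/
def IsMorphismOn {k : Type*} [Field k] {n m : ℕ} (U : Set (ℙ k (Fin (n + 1) → k)))
    (f : ℙ k (Fin (n + 1) → k) → ℙ k (Fin (m + 1) → k)) : Prop :=
  ∀ x ∈ U, ∃ (D : MvPolynomial (Fin (n + 1)) k) (F : Fin (m + 1) → MvPolynomial (Fin (n + 1)) k)
    (d e : ℕ), D.IsHomogeneous d ∧ (∀ l, (F l).IsHomogeneous e) ∧ eval x.rep D ≠ 0 ∧
    ∀ y ∈ U, eval y.rep D ≠ 0 →
      ∃ h : (fun l => eval y.rep (F l)) ≠ 0, Projectivization.mk k _ h = f y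

/-- `P` has coordinates in the fraction field of `R`, and at every height one prime `s` of `R` it
has coordinates in `R`, not all in `s`, at which some form of `b` is not in `s`: `P` extends to a
point over the local ring at `s` of the complement of the zero scheme of `b`. -/
def NearIntegral {k : Type*} [Field k] {n : ℕ} (R : Subring k)
    (b : Finset (MvPolynomial (Fin (n + 1)) R)) (P : ℙ k (Fin (n + 1) → k)) : Prop :=
  (∃ (v : Fin (n + 1) → R) (h : (fun i => (v i : k)) ≠ 0), Projectivization.mk k _ h = P) ∧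
  ∀ s : Ideal R, s.IsPrime → s.height = 1 →
    ∃ (v : Fin (n + 1) → R) (h : (fun i => (v i : k)) ≠ 0), Projectivization.mk k _ h = P ∧
      (∃ i, v i ∉ s) ∧ ∃ g ∈ b, eval v g ∉ s

/-- `A \ Z` is arithmetically-special, through a model `Proj (R[X] / (a))` minus the zero scheme
of `b` over a finitely generated subring `R` of `k`: the forms `a` generate the ideal of `A` over
`k`, the forms `b` cut out `Z` in `A`, and the near-integral points are Zariski dense. -/
def ArithmeticallySpecial {k : Type*} [Field k] {n : ℕ} (A Z : Set (ℙ k (Fin (n + 1) → k))) :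
    Prop :=
  ∃ R : Subring k, (∃ s : Finset k, R = Subring.closure (s : Set k)) ∧
    ∃ a b : Finset (MvPolynomial (Fin (n + 1)) R), (∀ f ∈ a, ∃ d, f.IsHomogeneous d) ∧
      (∀ g ∈ b, ∃ d, g.IsHomogeneous d) ∧
      Ideal.span (map R.subtype '' (a : Set (MvPolynomial (Fin (n + 1)) R))) =
        vanishingIdeal k {v | ∃ h : v ≠ 0, Projectivization.mk k v h ∈ A} ∧
      (∀ x ∈ A, x ∈ Z ↔ ∀ g ∈ b, eval x.rep (map R.subtype g) = 0) ∧
      A \ Z ⊆ @closure _ (zariski k n) {P | P ∈ A \ Z ∧ NearIntegral R b P}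

theorem result {k : Type*} [Field k] [IsAlgClosed k] [CharZero k] {n m : ℕ}
    (A : Set (ℙ k (Fin (n + 1) → k))) [AddCommGroup A] (hA : IsAbelianVariety A)
    (Z₀ : Set (ℙ k (Fin (n + 1) → k))) (hZ₀ : CodimTwo A Z₀)
    (X Z : Set (ℙ k (Fin (m + 1) → k))) (hX : @IsClosed _ (zariski k m) X)
    (hZ : @IsClosed _ (zariski k m) Z) (hZX : Z ⊆ X)
    (f : ℙ k (Fin (n + 1) → k) → ℙ k (Fin (m + 1) → k)) (hf : IsMorphismOn (A \ Z₀) f)
    (hmap : Set.MapsTo f (A \ Z₀) (X \ Z))
    (hdom : X \ Z ⊆ @closure _ (zariski k m) (f '' (A \ Z₀))) :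
    ArithmeticallySpecial X Z := by
  let := zariski k n
  let := zariski k m
  obtain ⟨c, hc⟩ := Pool.Agent.P.MP_84b56d_ag.exists_ctx (t := zariski k n) rfl A hA.closed
    hA.add_regular
  have := Subtype.irreducibleSpace hA.irreducible
  refine Pool.Agent.P.MP_84b56d_ag.Z.final c (hZ₀.1.preimage continuous_subtype_val) hZ₀.2.2
    (t := zariski k m) rfl X Z hZ (fun x => f x) (fun x hx => ?_) (fun x hx => hmap ⟨x.2, hx⟩)
    (hdom.trans (closure_mono fun _ ⟨x, hx, e⟩ => ⟨⟨x, hx.1⟩, hx.2, e⟩))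
  obtain ⟨D, F, d, e, h1, h2, h3, h4⟩ := hf x ⟨x.2, hx⟩
  refine ⟨D, F, d, e, h1, h2, fun v hv h => ?_, fun y hy v hv h => ?_⟩
  · exact h3 ((Pool.Agent.P.MP_84b56d_ag.Z.eval_mk_zero h1 ((hc _ _).1 hv).2).1 h)
  · obtain ⟨h5, h6⟩ := h4 y ⟨y.2, hy⟩ fun h0 =>
      h ((Pool.Agent.P.MP_84b56d_ag.Z.eval_mk_zero h1 ((hc _ _).1 hv).2).2 h0)
    obtain ⟨a, ha, rfl⟩ := Pool.Agent.P.MP_84b56d_ag.rep_smul ((hc _ _).1 hv).2
    have h7 : (fun l => eval (a • y.1.rep) (F l)) = a ^ e • fun l => eval y.1.rep (F l) := by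
      funext l
      rw [Pool.Agent.P.MP_84b56d_ag.eval_smul_of_hom (h2 l), Pi.smul_apply, smul_eq_mul]
    have h8 : (fun l => eval (a • y.1.rep) (F l)) ≠ 0 := by
      rw [h7]
      exact smul_ne_zero (pow_ne_zero e ha) h5
    exact ⟨h8, ((Projectivization.mk_eq_mk_iff' k _ _ h8 h5).2 ⟨a ^ e, h7.symm⟩).trans h6⟩

/-- The case `X = A`, `f = id`: every abelian variety minus a closed subset of codimension at least
two is arithmetically-special. -/
theorem abelian {k : Type*} [Field k] [IsAlgClosed k] [CharZero k] {n : ℕ}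
    (A : Set (ℙ k (Fin (n + 1) → k))) [AddCommGroup A] (hA : IsAbelianVariety A)
    (Z : Set (ℙ k (Fin (n + 1) → k))) (hZ : CodimTwo A Z) : ArithmeticallySpecial A Z :=
  result A hA Z hZ A Z hA.closed hZ.1 hZ.2.1 id
    (fun x _ => ⟨1, X, 0, 1, isHomogeneous_one _ _, isHomogeneous_X k, by simp, fun y _ _ =>
      ⟨by simpa using y.rep_nonzero, by simp⟩⟩)
    (Set.mapsTo_id _) (by rw [Set.image_id]; exact @subset_closure _ (zariski k n) _)

end Pool.Agent.P.MP_84b56d_ag.OldAbelianAll
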