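import Pool.Agent.P.MP_84b56d_ag.Bridge

/-! An abelian variety of dimension at least two minus a finite set is arithmetically-special.
Varieties are classical: subsets of projective space over an algebraically closed field. -/

open MvPolynomial
open scoped LinearAlgebra.Projectivization

namespace Pool.Agent.Results.MP_84b56d_ag.AbelianFinite

/-- The Zariski topology of projective `n`-space: generated by the complements of hypersurfaces. -/
def zariski (k : Type*) [Field k] (n : ℕ) : TopologicalSpace (ℙ k (Fin (n + 1) → k)) :=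
  TopologicalSpace.generateFrom {U | ∃ (f : MvPolynomial (Fin (n + 1)) k) (d : ℕ),
    f.IsHomogeneous d ∧ U = {x | eval x.rep f ≠ 0}}

/-- `f (X, Y)` is homogeneous of degree `d.1` in `X` and of degree `d.2` in `Y`. -/
def Bihomogeneous {k : Type*} [Field k] {n : ℕ} (f : MvPolynomial (Fin (n + 1) ⊕ Fin (n + 1)) k)
    (d : ℕ × ℕ) : Prop :=
  f.IsWeightedHomogeneous (Sum.elim (fun _ => ((1, 0) : ℕ × ℕ)) fun _ => (0, 1)) d

/-- `A` is an irreducible closed subset of projective space, and addition and negation of the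
given group structure are morphisms: near every point they are given by forms of one
(bi)degree without common zero on a principal open set. -/
structure IsAbelianVariety {k : Type*} [Field k] {n : ℕ} (A : Set (ℙ k (Fin (n + 1) → k)))
    [AddCommGroup A] : Prop where
  closed : @IsClosed _ (zariski k n) A
  irreducible : @IsIrreducible _ (zariski k n) A
  add_regular : ∀ x y : A, ∃ (D : MvPolynomial (Fin (n + 1) ⊕ Fin (n + 1)) k)
    (F : Fin (n + 1) → MvPolynomial (Fin (n + 1) ⊕ Fin (n + 1)) k) (d e : ℕ × ℕ),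
    Bihomogeneous D d ∧ (∀ l, Bihomogeneous (F l) e) ∧ eval (Sum.elim x.1.rep y.1.rep) D ≠ 0 ∧
    ∀ x' y' : A, eval (Sum.elim x'.1.rep y'.1.rep) D ≠ 0 →
      ∃ h : (fun l => eval (Sum.elim x'.1.rep y'.1.rep) (F l)) ≠ 0,
        Projectivization.mk k _ h = (x' + y').1
  neg_regular : ∀ x : A, ∃ (D : MvPolynomial (Fin (n + 1)) k)
    (F : Fin (n + 1) → MvPolynomial (Fin (n + 1)) k) (d e : ℕ),
    D.IsHomogeneous d ∧ (∀ l, (F l).IsHomogeneous e) ∧ eval x.1.rep D ≠ 0 ∧
    ∀ x' : A, eval x'.1.rep D ≠ 0 →
      ∃ h : (fun l => eval x'.1.rep (F l)) ≠ 0, Projectivization.mk k _ h = (-x').1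

/-- `P` has coordinates in the fraction field of `R`, and at every height one prime `s` of `R` it
has coordinates in `R`, not all in `s`, at which some form of `b` is not in `s`: `P` extends to a
point over the local ring at `s` of the complement of the zero scheme of `b`. -/
def NearIntegral {k : Type*} [Field k] {n : ℕ} (R : Subring k)
    (b : Finset (MvPolynomial (Fin (n + 1)) R)) (P : ℙ k (Fin (n + 1) → k)) : Prop :=
  (∃ (v : Fin (n + 1) → R) (h : (fun i => (v i : k)) ≠ 0), Projectivization.mk k _ h = P) ∧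
  ∀ s : Ideal R, s.IsPrime → s.height = 1 →
    ∃ (v : Fin (n + 1) → R) (h : (fun i => (v i : k)) ≠ 0), Projectivization.mk k _ h = P ∧
      (∃ i, v i ∉ s) ∧ ∃ g ∈ b, eval v g ∉ s

/-- `A \ Z` is arithmetically-special, through a model `Proj (R[X] / (a))` minus the zero scheme
of `b` over a finitely generated subring `R` of `k`: the forms `a` generate the ideal of `A` over
`k`, the forms `b` cut out `Z` in `A`, and the near-integral points are Zariski dense. -/
def ArithmeticallySpecial {k : Type*} [Field k] {n : ℕ} (A Z : Set (ℙ k (Fin (n + 1) → k))) :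
    Prop :=
  ∃ R : Subring k, (∃ s : Finset k, R = Subring.closure (s : Set k)) ∧
    ∃ a b : Finset (MvPolynomial (Fin (n + 1)) R), (∀ f ∈ a, ∃ d, f.IsHomogeneous d) ∧
      (∀ g ∈ b, ∃ d, g.IsHomogeneous d) ∧
      Ideal.span (map R.subtype '' (a : Set (MvPolynomial (Fin (n + 1)) R))) =
        vanishingIdeal k {v | ∃ h : v ≠ 0, Projectivization.mk k v h ∈ A} ∧
      (∀ x ∈ A, x ∈ Z ↔ ∀ g ∈ b, eval x.rep (map R.subtype g) = 0) ∧
      A \ Z ⊆ @closure _ (zariski k n) {P | P ∈ A \ Z ∧ NearIntegral R b P}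

theorem result {k : Type*} [Field k] [IsAlgClosed k] [CharZero k] {n : ℕ}
    (A : Set (ℙ k (Fin (n + 1) → k))) [AddCommGroup A] (hA : IsAbelianVariety A)
    (hdim : 2 ≤ @topologicalKrullDim A (TopologicalSpace.induced Subtype.val (zariski k n)))
    (Z : Set (ℙ k (Fin (n + 1) → k))) (hZA : Z ⊆ A) (hZ : Z.Finite) :
    ArithmeticallySpecial A Z := by
  letI := zariski k n
  obtain ⟨c, hc⟩ := Pool.Agent.P.MP_84b56d_ag.exists_ctx (t := zariski k n) rfl A hA.closed
    hA.add_regular
  exact Pool.Agent.P.MP_84b56d_ag.final A hA.irreducible c hc hdim Z hZ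

end Pool.Agent.Results.MP_84b56d_ag.AbelianFinite
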