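import Pool.Agent.P.MP_84b56d_ag.Loc
import Pool.Agent.P.MP_84b56d_ag.Law

open MvPolynomial

namespace Pool.Agent.P.MP_84b56d_ag

variable {k : Type*} [Field k] (V : ValuationSubring k)

theorem val_isLoc : IsLoc V.toSubring := by
  intro a ha b hb h
  by_cases ha0 : a = 0
  · right; simpa [ha0] using h
  by_cases hb0 : b = 0
  · left; simpa [hb0] using h
  rcases V.mem_or_inv_mem (b / a) with h1 | h1
  · left
    refine Un.of_mul ha (V.toSubring.add_mem V.toSubring.one_mem h1) ?_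
    rwa [show a * (1 + b / a) = a + b by field_simp]
  · right
    refine Un.of_mul hb (V.toSubring.add_mem h1 V.toSubring.one_mem) ?_
    rwa [show b * ((b / a)⁻¹ + 1) = a + b by field_simp]

theorem mem_prin_iff {a b : k} (hb : b ≠ 0) :
    a ∈ prin V.toSubring b ↔ V.valuation a ≤ V.valuation b := by
  constructor
  · rintro ⟨y, hy, rfl⟩
    rw [map_mul]
    exact mul_le_of_le_one_right' ((V.valuation_le_one_iff y).2 hy)
  · intro h
    refine ⟨a / b, (V.valuation_le_one_iff _).1 ?_, by field_simp⟩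
    rw [map_div₀]
    exact div_le_one_of_le₀ h zero_le

theorem val_loc {p : k} (hp : p ∈ V) (hp' : p⁻¹ ∉ V) {M : ℕ} (hM : 1 ≤ M) :
    Loc V.toSubring (prin V.toSubring (p ^ M)) where
  loc := val_isLoc V
  le := by
    rintro _ ⟨y, hy, rfl⟩
    exact V.toSubring.mul_mem (V.toSubring.pow_mem hp _) hy
  mul := fun a ha b hb => mul_mem_prin ha hb
  nonunit := by
    rintro _ ⟨y, hy, rfl⟩ h
    obtain ⟨M, rfl⟩ := Nat.exists_eq_add_of_le hM
    rw [pow_add, pow_one, mul_assoc] at h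
    exact hp' (Un.of_mul hp (V.toSubring.mul_mem (V.toSubring.pow_mem hp _) hy) h).2.2

theorem val_prim {σ : Type} [Finite σ] {v : σ → k} (hv : v ≠ 0) :
    ∃ a : k, a ≠ 0 ∧ Prim V.toSubring (a • v) := by
  obtain ⟨j, hj⟩ := Function.ne_iff.1 hv
  haveI : Nonempty σ := ⟨j⟩
  obtain ⟨i, hi⟩ := Finite.exists_max fun i => V.valuation (v i)
  have h0 : v i ≠ 0 := by
    intro h
    have := hi j
    rw [h, map_zero, le_zero_iff, map_eq_zero] at this
    exact hj this
  refine ⟨(v i)⁻¹, inv_ne_zero h0, fun l => ?_, i, ?_⟩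
  · refine (V.valuation_le_one_iff _).1 ?_
    rw [Pi.smul_apply, smul_eq_mul, map_mul, map_inv₀, mul_comm, ← div_eq_mul_inv]
    exact div_le_one_of_le₀ (hi l) zero_le
  · rw [Pi.smul_apply, smul_eq_mul, inv_mul_cancel₀ h0]
    exact ⟨V.toSubring.one_mem, one_ne_zero, by simp⟩

theorem val_scale (s : Finset k) : ∃ a : k, a ≠ 0 ∧ a ∈ V ∧ ∀ e ∈ s, a * e ∈ V := by
  classical
  induction s using Finset.induction_on with
  | empty => exact ⟨1, one_ne_zero, V.one_mem, by simp⟩
  | insert e s _ ih =>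
    obtain ⟨a, ha0, ha, h⟩ := ih
    by_cases he : e ∈ V
    · refine ⟨a, ha0, ha, fun x hx => ?_⟩
      rcases Finset.mem_insert.1 hx with rfl | hx
      · exact V.mul_mem _ _ ha he
      · exact h x hx
    · have he' : e⁻¹ ∈ V := (V.mem_or_inv_mem e).resolve_left he
      have he0 : e ≠ 0 := fun h => he (h ▸ V.zero_mem)
      refine ⟨e⁻¹ * a, mul_ne_zero (inv_ne_zero he0) ha0, V.mul_mem _ _ he' ha, fun x hx => ?_⟩
      rcases Finset.mem_insert.1 hx with rfl | hx
      · rwa [show x⁻¹ * a * x = a by field_simp]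
      · rw [mul_assoc]; exact V.mul_mem _ _ he' (h x hx)

theorem val_root {f : Polynomial k} (hf : f.Monic) (hc : ∀ i, f.coeff i ∈ V) {x : k}
    (hx : f.eval x = 0) : x ∈ V := by
  have h1 : (↑f.coeffs : Set k) ⊆ V.toSubring := by
    intro a ha
    obtain ⟨n, -, rfl⟩ := Polynomial.mem_coeffs_iff.1 ha
    exact hc n
  have : IsIntegral V x := by
    refine ⟨f.toSubring V.toSubring h1, (Polynomial.monic_toSubring _ _ _).2 hf, ?_⟩
    rw [Polynomial.eval₂_eq_eval_map]
    exact (congrArg (Polynomial.eval x) (Polynomial.map_toSubring f V.toSubring h1)).trans hx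
  obtain ⟨y, rfl⟩ := IsIntegrallyClosed.isIntegral_iff.1 this
  exact y.2

theorem val_near_root [IsAlgClosed k] {f : Polynomial k} (hf : f.Monic) {p : k} (hp : p ∈ V)
    (hp0 : p ≠ 0) (hp' : p⁻¹ ∉ V) {M d : ℕ} (hM : 1 ≤ M) (hd : f.natDegree ≤ d) (hd1 : 1 ≤ d) {x : k}
    (hx : f.eval x ∈ prin V.toSubring (p ^ (M * d))) :
    ∃ r ∈ f.roots, x - r ∈ prin V.toSubring (p ^ M) := by
  by_contra hcon
  push Not at hcon
  have hpv : V.valuation p ≤ 1 := (V.valuation_le_one_iff p).2 hp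
  have hpos : 0 < V.valuation (p ^ M) := zero_lt_iff.2 (by simpa using fun h => absurd h hp0)
  have key : ∀ s : Multiset k, (∀ r ∈ s, V.valuation (p ^ M) < V.valuation (x - r)) →
      V.valuation (p ^ M) ^ s.card ≤ V.valuation (s.map (x - ·)).prod ∧
      (s ≠ 0 → V.valuation (p ^ M) ^ s.card < V.valuation (s.map (x - ·)).prod) := by
    intro s
    induction s using Multiset.induction_on with
    | empty => simp
    | cons r s ih =>
      intro h
      have h1 := (ih fun r' hr' => h r' (Multiset.mem_cons_of_mem hr')).1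
      have h2 := h r (Multiset.mem_cons_self r s)
      have : V.valuation (p ^ M) ^ (r ::ₘ s).card < V.valuation ((r ::ₘ s).map (x - ·)).prod := by
        rw [Multiset.card_cons, Multiset.map_cons, Multiset.prod_cons, map_mul, pow_succ']
        exact mul_lt_mul_of_lt_of_le_of_pos_of_nonneg h2 h1 (pow_pos hpos _) zero_le
      exact ⟨this.le, fun _ => this⟩
  have hk := key f.roots fun r hr => lt_of_not_ge fun h =>
    hcon r hr ((mem_prin_iff V (pow_ne_zero _ hp0)).2 h)
  rw [← (IsAlgClosed.splits f).eval_eq_prod_roots_of_monic hf] at hk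
  have hx' := (mem_prin_iff V (pow_ne_zero _ hp0)).1 hx
  by_cases h0 : f.roots = 0
  · have h1 := hk.1
    rw [h0, Multiset.card_zero, pow_zero] at h1
    have h2 := (mem_prin_iff V (pow_ne_zero (M * d) hp0)).2
      (show V.valuation 1 ≤ _ by rw [map_one]; exact h1.trans hx')
    exact (val_loc V hp hp' (Nat.mul_pos hM hd1)).nonunit _ h2
      ⟨V.toSubring.one_mem, one_ne_zero, by simp⟩
  · have h1 := (hk.2 h0).trans_le hx'
    rw [pow_mul, map_pow V.valuation (p ^ M)] at h1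
    have h2 : V.valuation (p ^ M) ≤ 1 := by rw [map_pow]; exact pow_le_one₀ zero_le hpv
    exact absurd (pow_le_pow_of_le_one zero_le h2 ((Polynomial.card_roots' f).trans hd)) h1.not_ge

theorem poly_eval_mem {O : Subring k} {q : Polynomial k} (hq : ∀ i, q.coeff i ∈ O) {a : k}
    (ha : a ∈ O) : q.eval a ∈ O := by
  rw [Polynomial.eval_eq_sum_range]
  exact O.sum_mem fun i _ => O.mul_mem (hq i) (O.pow_mem ha i)

theorem eval_map_sub {O : Subring k} {b : k} {f : Polynomial (Polynomial k)}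
    (hf : ∀ i j, (f.coeff i).coeff j ∈ O) {a x : k} (ha' : a ∈ O) (ha : a ∈ prin O b) (hx : x ∈ O) :
    (f.map (Polynomial.evalRingHom a)).eval x - (f.map (Polynomial.evalRingHom 0)).eval x ∈
      prin O b := by
  rw [Polynomial.eval_map, Polynomial.eval_map, Polynomial.eval₂_eq_sum_range,
    Polynomial.eval₂_eq_sum_range, ← Finset.sum_sub_distrib]
  refine (prin O b).sum_mem fun i _ => ?_
  rw [← sub_mul, mul_comm]
  refine mul_mem_prin (O.pow_mem hx i) ?_
  have e : Polynomial.evalRingHom a (f.coeff i) - Polynomial.evalRingHom 0 (f.coeff i) =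
      (Polynomial.divX (f.coeff i)).eval a * a := by
    conv_lhs => rw [← Polynomial.divX_mul_X_add (f.coeff i)]
    simp
  rw [e]
  exact mul_mem_prin (poly_eval_mem (fun j => by rw [Polynomial.coeff_divX]; exact hf _ _) ha') ha

variable {σ : Type} {G : Type*} [AddCommGroup G] [TopologicalSpace G] (c : Ctx k σ G)

theorem Ctx.val_prim [Finite σ] (x : G) : ∃ v ∈ c.rep x, Prim V.toSubring v := by
  obtain ⟨v, hv⟩ := c.nonempty x
  obtain ⟨a, ha, h⟩ := Pool.Agent.P.MP_84b56d_ag.val_prim V (c.ne_zero x v hv)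
  exact ⟨_, c.smul_mem x v hv a ha, h⟩

theorem Ctx.val_sep [Finite σ] {p : k} (hp : p ∈ V) (hp0 : p ≠ 0) (hp' : p⁻¹ ∉ V)
    (hsep : ∀ a : k, (∀ j : ℕ, a / p ^ j ∈ V) → a = 0) {Y : Set G} (hY : IsClosed Y) {x : G}
    (hx : x ∉ Y) : ∃ M, ∀ y ∈ Y, ¬ c.Cong V.toSubring (prin V.toSubring (p ^ M)) x y := by
  obtain ⟨v, hv, pv⟩ := c.val_prim V x
  obtain ⟨f, hf, hne⟩ := c.exists_I_ne hY hx hv
  obtain ⟨a, ha0, -, ha⟩ := val_scale V (finite_coeffs f).toFinset
  by_contra hcon
  push Not at hcon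
  refine mul_ne_zero ha0 hne (hsep _ fun j => ?_)
  obtain ⟨y, hy, h⟩ := hcon (j + 1)
  have hL := val_loc V hp hp' (Nat.le_add_left 1 j)
  obtain ⟨w, hw, pw, hvw⟩ := h.of_prim hL hv pv
  have h1 := hL.eval_sub_mem (f := C a * f)
    (fun m => by rw [coeff_C_mul]; exact ha _ (by simp)) pv.1 pw.1 hvw
  rw [map_mul, map_mul, hf y hy w hw, mul_zero, sub_zero, eval_C] at h1
  obtain ⟨z, hz, e⟩ := prin_pow_anti (O := V.toSubring) hp (Nat.le_succ j) h1
  rwa [e, mul_div_cancel_left₀ _ (pow_ne_zero _ hp0)]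

end Pool.Agent.P.MP_84b56d_ag
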